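import Mathlib

set_option autoImplicit false

/-!
Computable and decidable structures with universe `ℕ`, degrees of categoricity.
-/

namespace Pool.Agent.Helper750.DC

/-- A countable first-order language. The relation symbols are the `R_i` with `rel i = some k`
(and then `k` is the arity of `R_i`), the function symbols are the `F_i` with `fn i = some k`
(and then `k` is the arity of `F_i`; constants are function symbols of arity `0`). -/
structure Lang where
  rel : ℕ → Option ℕ
  fn : ℕ → Option ℕ

/-- The language is computable. -/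
def Lang.IsComputable (L : Lang) : Prop := Computable L.rel ∧ Computable L.fn

/-- A structure with universe `ℕ`: interpretations of the relation and function symbols. (Only the
values of `R i xs` and `F i xs` on lists `xs` of length the arity of the symbol matter.) -/
structure Str where
  R : ℕ → List ℕ → Prop
  F : ℕ → List ℕ → ℕ

/-- First-order formulas with equality, with variables `x_0, x_1, ...`. The atomic formulas are the
unnested ones: `rel i vs` is `R_i(x_v : v ∈ vs)`, `fn i vs w` is `F_i(x_v : v ∈ vs) = x_w`, and
`eq v w` is `x_v = x_w`. (Every first-order formula is effectively equivalent to one of these.) -/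
inductive Fml
  | rel (i : ℕ) (vs : List ℕ)
  | fn (i : ℕ) (vs : List ℕ) (w : ℕ)
  | eq (v w : ℕ)
  | not (φ : Fml)
  | and (φ ψ : Fml)
  | ex (v : ℕ) (φ : Fml)

/-- Satisfaction of a formula in `S` under the assignment `x`. -/
def Sat (L : Lang) (S : Str) : Fml → (ℕ → ℕ) → Prop
  | .rel i vs, x => L.rel i = some vs.length ∧ S.R i (vs.map x)
  | .fn i vs w, x => L.fn i = some vs.length ∧ S.F i (vs.map x) = x w
  | .eq v w, x => x v = x w
  | .not φ, x => ¬ Sat L S φ x
  | .and φ ψ, x => Sat L S φ x ∧ Sat L S ψ x
  | .ex v φ, x => ∃ a, Sat L S φ (Function.update x v a)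

/-- The Goedel number of a formula. -/
def Fml.code : Fml → ℕ
  | .rel i vs => Nat.pair 0 (Nat.pair i (Encodable.encode vs))
  | .fn i vs w => Nat.pair 1 (Nat.pair i (Nat.pair w (Encodable.encode vs)))
  | .eq v w => Nat.pair 2 (Nat.pair v w)
  | .not φ => Nat.pair 3 φ.code
  | .and φ ψ => Nat.pair 4 (Nat.pair φ.code ψ.code)
  | .ex v φ => Nat.pair (5 + v) φ.code

/-- The structure `S` is computable: its relations and functions are uniformly computable, that is,
its atomic diagram is computable. -/
def IsComputableStr (L : Lang) (S : Str) : Prop :=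
  (∃ d : ℕ × List ℕ → Bool, Computable d ∧
    ∀ i xs, L.rel i = some xs.length → (d (i, xs) = true ↔ S.R i xs)) ∧
  ∃ e : ℕ × List ℕ → ℕ, Computable e ∧
    ∀ i xs, L.fn i = some xs.length → e (i, xs) = S.F i xs

/-- The structure `S` is decidable: its complete (elementary) diagram is computable. An algorithm
decides, given a formula and a list `[a_0, ..., a_{k-1}]` of elements, whether the formula holds in
`S` when `x_i` is interpreted as `a_i` for `i < k` (and as `0` for `i ≥ k`). -/
def IsDecidableStr (L : Lang) (S : Str) : Prop :=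
  ∃ d : ℕ × List ℕ → Bool, Computable d ∧
    ∀ φ as, d (φ.code, as) = true ↔ Sat L S φ (fun i => as.getD i 0)

/-- `f` is an isomorphism from `A` onto `B`. -/
def IsIso (L : Lang) (A B : Str) (f : ℕ → ℕ) : Prop :=
  Function.Bijective f ∧
  (∀ i xs, L.rel i = some xs.length → (A.R i xs ↔ B.R i (xs.map f))) ∧
  ∀ i xs, L.fn i = some xs.length → f (A.F i xs) = B.F i (xs.map f)

/-- Turing reducibility of total functions. -/
def TLe (f g : ℕ → ℕ) : Prop := TuringReducible (f : ℕ →. ℕ) (g : ℕ →. ℕ)

/-- `S` is `x`-computably categorical. -/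
def CatIn (L : Lang) (S : Str) (x : ℕ → ℕ) : Prop :=
  ∀ A, IsComputableStr L A → (∃ f, IsIso L A S f) → ∃ f, IsIso L A S f ∧ TLe f x

/-- `S` is decidably `x`-categorical. -/
def DecCatIn (L : Lang) (S : Str) (x : ℕ → ℕ) : Prop :=
  ∀ A, IsDecidableStr L A → (∃ f, IsIso L A S f) → ∃ f, IsIso L A S f ∧ TLe f x

/-- The degree of `x` is the degree of categoricity of the computable structure `S`. -/
def IsDegCat (L : Lang) (S : Str) (x : ℕ → ℕ) : Prop :=
  IsComputableStr L S ∧ CatIn L S x ∧ ∀ y, CatIn L S y → TLe x y

/-- The degree of `x` is the degree of decidable categoricity of the decidable structure `S`. -/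
def IsDegDecCat (L : Lang) (S : Str) (x : ℕ → ℕ) : Prop :=
  IsDecidableStr L S ∧ DecCatIn L S x ∧ ∀ y, DecCatIn L S y → TLe x y

/-- The characteristic function of a set. -/
noncomputable def chi (A : Set ℕ) : ℕ → ℕ :=
  open Classical in fun n => if n ∈ A then 1 else 0

end Pool.Agent.Helper750.DC
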