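import Pool.Agent.Helper750.DC.Defs
set_option autoImplicit false
namespace Pool.Agent.Helper750.DC

namespace FO

/-! ### Coding -/

theorem code_inj : ∀ φ ψ : Fml, φ.code = ψ.code → φ = ψ := by
  intro φ
  induction φ with
  | rel i vs =>
    intro ψ h
    cases ψ with
    | rel j ws =>
      simp only [Fml.code, Nat.pair_eq_pair, true_and] at h
      obtain ⟨h1, h2⟩ := h
      rw [h1, Encodable.encode_injective h2]
    | fn j ws w => simp [Fml.code, Nat.pair_eq_pair] at h
    | eq v w => simp [Fml.code, Nat.pair_eq_pair] at h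
    | not φ => simp [Fml.code, Nat.pair_eq_pair] at h
    | and φ ψ => simp [Fml.code, Nat.pair_eq_pair] at h
    | ex v φ =>
      simp only [Fml.code, Nat.pair_eq_pair] at h
      omega
  | fn i vs w =>
    intro ψ h
    cases ψ with
    | rel j ws => simp [Fml.code, Nat.pair_eq_pair] at h
    | fn j ws w =>
      simp only [Fml.code, Nat.pair_eq_pair, true_and] at h
      obtain ⟨h1, h2, h3⟩ := h
      rw [h1, h2, Encodable.encode_injective h3]
    | eq v w => simp [Fml.code, Nat.pair_eq_pair] at h
    | not φ => simp [Fml.code, Nat.pair_eq_pair] at h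
    | and φ ψ => simp [Fml.code, Nat.pair_eq_pair] at h
    | ex v φ =>
      simp only [Fml.code, Nat.pair_eq_pair] at h
      omega
  | eq v w =>
    intro ψ h
    cases ψ with
    | rel j ws => simp [Fml.code, Nat.pair_eq_pair] at h
    | fn j ws w => simp [Fml.code, Nat.pair_eq_pair] at h
    | eq v w =>
      simp only [Fml.code, Nat.pair_eq_pair, true_and] at h
      obtain ⟨h1, h2⟩ := h
      rw [h1, h2]
    | not φ => simp [Fml.code, Nat.pair_eq_pair] at h
    | and φ ψ => simp [Fml.code, Nat.pair_eq_pair] at h
    | ex v φ =>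
      simp only [Fml.code, Nat.pair_eq_pair] at h
      omega
  | not φ ih =>
    intro ψ h
    cases ψ with
    | rel j ws => simp [Fml.code, Nat.pair_eq_pair] at h
    | fn j ws w => simp [Fml.code, Nat.pair_eq_pair] at h
    | eq v w => simp [Fml.code, Nat.pair_eq_pair] at h
    | not φ =>
      simp only [Fml.code, Nat.pair_eq_pair, true_and] at h
      rw [ih _ h]
    | and φ ψ => simp [Fml.code, Nat.pair_eq_pair] at h
    | ex v φ =>
      simp only [Fml.code, Nat.pair_eq_pair] at h
      omega
  | and φ1 φ2 ih1 ih2 =>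
    intro ψ h
    cases ψ with
    | rel j ws => simp [Fml.code, Nat.pair_eq_pair] at h
    | fn j ws w => simp [Fml.code, Nat.pair_eq_pair] at h
    | eq v w => simp [Fml.code, Nat.pair_eq_pair] at h
    | not φ => simp [Fml.code, Nat.pair_eq_pair] at h
    | and φ ψ =>
      simp only [Fml.code, Nat.pair_eq_pair, true_and] at h
      rw [ih1 _ h.1, ih2 _ h.2]
    | ex v φ =>
      simp only [Fml.code, Nat.pair_eq_pair] at h
      omega
  | ex v φ ih =>
    intro ψ h
    cases ψ with
    | rel j ws =>
      simp only [Fml.code, Nat.pair_eq_pair] at h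
      omega
    | fn j ws w =>
      simp only [Fml.code, Nat.pair_eq_pair] at h
      omega
    | eq v w =>
      simp only [Fml.code, Nat.pair_eq_pair] at h
      omega
    | not φ =>
      simp only [Fml.code, Nat.pair_eq_pair] at h
      omega
    | and φ ψ =>
      simp only [Fml.code, Nat.pair_eq_pair] at h
      omega
    | ex v φ =>
      simp only [Fml.code, Nat.pair_eq_pair] at h
      obtain ⟨h1, h2⟩ := h
      rw [ih _ h2]
      congr 1
      omega

theorem code_surj : ∀ n : ℕ, ∃ φ : Fml, φ.code = n := by
  intro n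
  induction n using Nat.strong_induction_on with
  | _ n ih =>
    have hn : Nat.pair n.unpair.1 n.unpair.2 = n := Nat.pair_unpair n
    generalize ha : n.unpair.1 = a at hn
    generalize hb : n.unpair.2 = b at hn
    have hle : a + b ≤ n := by
      rw [← hn]
      exact Nat.add_le_pair a b
    rcases a with _ | _ | _ | _ | _ | a
    · refine ⟨.rel b.unpair.1 (Denumerable.ofNat (List ℕ) b.unpair.2), ?_⟩
      rw [← hn]
      simp [Fml.code]
    · refine ⟨.fn b.unpair.1 (Denumerable.ofNat (List ℕ) b.unpair.2.unpair.2)
        b.unpair.2.unpair.1, ?_⟩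
      rw [← hn]
      simp [Fml.code]
    · refine ⟨.eq b.unpair.1 b.unpair.2, ?_⟩
      rw [← hn]
      simp [Fml.code]
    · obtain ⟨φ, hφ⟩ := ih b (by omega)
      refine ⟨.not φ, ?_⟩
      rw [← hn]
      simp [Fml.code, hφ]
    · obtain ⟨φ, hφ⟩ := ih b.unpair.1 (by
        have := Nat.unpair_left_le b
        omega)
      obtain ⟨ψ, hψ⟩ := ih b.unpair.2 (by
        have := Nat.unpair_right_le b
        omega)
      refine ⟨.and φ ψ, ?_⟩
      rw [← hn]
      simp [Fml.code, hφ, hψ]
    · obtain ⟨φ, hφ⟩ := ih b (by omega)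
      refine ⟨.ex a φ, ?_⟩
      rw [← hn]
      simp only [Fml.code, hφ]
      congr 1
      omega

/-- the formula with a given code -/
noncomputable def num (n : ℕ) : Fml := (code_surj n).choose

@[simp] theorem code_num (n : ℕ) : (num n).code = n := (code_surj n).choose_spec

@[simp] theorem num_code (φ : Fml) : num φ.code = φ := code_inj _ _ (code_num _)

theorem le_encode (vs : List ℕ) : ∀ v ∈ vs, v ≤ Encodable.encode vs := by
  induction vs with
  | nil => intro v hv; simp at hv
  | cons a l ih =>
    intro v hv
    rw [Encodable.encode_list_cons]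
    have h1 := Nat.left_le_pair (Encodable.encode a) (Encodable.encode l)
    have h2 := Nat.right_le_pair (Encodable.encode a) (Encodable.encode l)
    rcases List.mem_cons.1 hv with rfl | hv
    · simp only [Encodable.encode_nat] at h1 ⊢
      omega
    · have := ih v hv
      omega

/-- satisfaction only depends on the variables up to the code -/
theorem Sat_congr (L : Lang) (S : Str) : ∀ (φ : Fml) (x y : ℕ → ℕ),
    (∀ i ≤ φ.code, x i = y i) → (Sat L S φ x ↔ Sat L S φ y) := by
  intro φ
  induction φ with
  | rel i vs =>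
    intro x y h
    have : vs.map x = vs.map y := by
      refine List.map_congr_left fun v hv => h v ?_
      have h1 := le_encode vs v hv
      have h2 := Nat.right_le_pair i (Encodable.encode vs)
      have h3 := Nat.right_le_pair 0 (Nat.pair i (Encodable.encode vs))
      simp only [Fml.code]
      omega
    simp only [Sat, this]
  | fn i vs w =>
    intro x y h
    have h1 : ∀ v ∈ vs, x v = y v := by
      intro v hv
      refine h v ?_
      have h1 := le_encode vs v hv
      have h2 := Nat.right_le_pair w (Encodable.encode vs)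
      have h3 := Nat.right_le_pair i (Nat.pair w (Encodable.encode vs))
      have h4 := Nat.right_le_pair 1 (Nat.pair i (Nat.pair w (Encodable.encode vs)))
      simp only [Fml.code]
      omega
    have h2 : vs.map x = vs.map y := List.map_congr_left h1
    have h3 : x w = y w := by
      refine h w ?_
      have h2 := Nat.left_le_pair w (Encodable.encode vs)
      have h3 := Nat.right_le_pair i (Nat.pair w (Encodable.encode vs))
      have h4 := Nat.right_le_pair 1 (Nat.pair i (Nat.pair w (Encodable.encode vs)))
      simp only [Fml.code]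
      omega
    simp only [Sat, h2, h3]
  | eq v w =>
    intro x y h
    have h1 : x v = y v := by
      refine h v ?_
      have h2 := Nat.left_le_pair v w
      have h3 := Nat.right_le_pair 2 (Nat.pair v w)
      simp only [Fml.code]
      omega
    have h2 : x w = y w := by
      refine h w ?_
      have h2 := Nat.right_le_pair v w
      have h3 := Nat.right_le_pair 2 (Nat.pair v w)
      simp only [Fml.code]
      omega
    simp only [Sat, h1, h2]
  | not φ ih =>
    intro x y h
    have := ih x y (fun i hi => h i (by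
      have h3 := Nat.right_le_pair 3 φ.code
      simp only [Fml.code]
      omega))
    simp only [Sat, this]
  | and φ ψ ih1 ih2 =>
    intro x y h
    have h3 := Nat.right_le_pair 4 (Nat.pair φ.code ψ.code)
    have h4 := Nat.right_le_pair φ.code ψ.code
    have h5 := Nat.left_le_pair φ.code ψ.code
    have e1 := ih1 x y (fun i hi => h i (by
      simp only [Fml.code]
      omega))
    have e2 := ih2 x y (fun i hi => h i (by
      simp only [Fml.code]
      omega))
    simp only [Sat, e1, e2]
  | ex v φ ih =>
    intro x y h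
    have h3 := Nat.right_le_pair (5 + v) φ.code
    have : ∀ a, Sat L S φ (Function.update x v a) ↔ Sat L S φ (Function.update y v a) := by
      intro a
      refine ih _ _ fun i hi => ?_
      by_cases hiv : i = v
      · subst hiv
        simp
      · simp only [Function.update_of_ne hiv]
        refine h i ?_
        simp only [Fml.code]
        omega
    simp only [Sat, this]

/-! ### Formula constructions -/

/-- existential quantifiers -/
def exL (vs : List ℕ) (φ : Fml) : Fml := vs.foldr (fun v ψ => .ex v ψ) φ

/-- equations -/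
def anL (ps : List (ℕ × ℕ)) (φ : Fml) : Fml := ps.foldr (fun p ψ => .and (.eq p.1 p.2) ψ) φ

/-- inequations -/
def neL (ps : List (ℕ × ℕ)) (φ : Fml) : Fml := ps.foldr (fun p ψ => .and (.not (.eq p.1 p.2)) ψ) φ

def exC (vs : List ℕ) (c : ℕ) : ℕ := vs.foldr (fun v d => Nat.pair (5 + v) d) c

def anC (ps : List (ℕ × ℕ)) (c : ℕ) : ℕ :=
  ps.foldr (fun p d => Nat.pair 4 (Nat.pair (Nat.pair 2 (Nat.pair p.1 p.2)) d)) c

def neC (ps : List (ℕ × ℕ)) (c : ℕ) : ℕ :=
  ps.foldr (fun p d => Nat.pair 4 (Nat.pair (Nat.pair 3 (Nat.pair 2 (Nat.pair p.1 p.2))) d)) c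

theorem exL_code (vs : List ℕ) (φ : Fml) : (exL vs φ).code = exC vs φ.code := by
  induction vs with
  | nil => rfl
  | cons v vs ih =>
    change Nat.pair (5 + v) (exL vs φ).code = Nat.pair (5 + v) (exC vs φ.code)
    rw [ih]

theorem anL_code (ps : List (ℕ × ℕ)) (φ : Fml) : (anL ps φ).code = anC ps φ.code := by
  induction ps with
  | nil => rfl
  | cons p ps ih =>
    change Nat.pair 4 (Nat.pair (Nat.pair 2 (Nat.pair p.1 p.2)) (anL ps φ).code) =
      Nat.pair 4 (Nat.pair (Nat.pair 2 (Nat.pair p.1 p.2)) (anC ps φ.code))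
    rw [ih]

theorem neL_code (ps : List (ℕ × ℕ)) (φ : Fml) : (neL ps φ).code = neC ps φ.code := by
  induction ps with
  | nil => rfl
  | cons p ps ih =>
    change Nat.pair 4 (Nat.pair (Nat.pair 3 (Nat.pair 2 (Nat.pair p.1 p.2))) (neL ps φ).code) =
      Nat.pair 4 (Nat.pair (Nat.pair 3 (Nat.pair 2 (Nat.pair p.1 p.2))) (neC ps φ.code))
    rw [ih]

theorem exL_sat (L : Lang) (S : Str) (φ : Fml) (vs : List ℕ) : ∀ x : ℕ → ℕ,
    Sat L S (exL vs φ) x ↔ ∃ y : ℕ → ℕ, (∀ i, i ∉ vs → y i = x i) ∧ Sat L S φ y := by
  induction vs with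
  | nil =>
    intro x
    constructor
    · intro h
      exact ⟨x, fun _ _ => rfl, h⟩
    · rintro ⟨y, hy, h⟩
      have : y = x := funext fun i => hy i (by simp)
      rw [← this]
      exact h
  | cons v vs ih =>
    intro x
    change (∃ a, Sat L S (exL vs φ) (Function.update x v a)) ↔ _
    constructor
    · rintro ⟨a, ha⟩
      obtain ⟨y, hy, h⟩ := (ih _).1 ha
      refine ⟨y, fun i hi => ?_, h⟩
      rw [List.mem_cons, not_or] at hi
      rw [hy i hi.2, Function.update_of_ne hi.1]
    · rintro ⟨y, hy, h⟩
      refine ⟨y v, (ih _).2 ⟨y, fun i hi => ?_, h⟩⟩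
      by_cases hiv : i = v
      · subst hiv
        simp
      · rw [Function.update_of_ne hiv]
        exact hy i (by simp [hiv, hi])

theorem anL_sat (L : Lang) (S : Str) (φ : Fml) (ps : List (ℕ × ℕ)) (x : ℕ → ℕ) :
    Sat L S (anL ps φ) x ↔ (∀ p ∈ ps, x p.1 = x p.2) ∧ Sat L S φ x := by
  induction ps with
  | nil => simp [anL]
  | cons p ps ih =>
    change (x p.1 = x p.2 ∧ Sat L S (anL ps φ) x) ↔ _
    rw [ih]
    simp [and_assoc]

theorem neL_sat (L : Lang) (S : Str) (φ : Fml) (ps : List (ℕ × ℕ)) (x : ℕ → ℕ) :
    Sat L S (neL ps φ) x ↔ (∀ p ∈ ps, x p.1 ≠ x p.2) ∧ Sat L S φ x := by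
  induction ps with
  | nil => simp [neL]
  | cons p ps ih =>
    change (¬ (x p.1 = x p.2) ∧ Sat L S (neL ps φ) x) ↔ _
    rw [ih]
    simp [and_assoc]

/-- simultaneous renaming of the variables below `N` -/
def sub (N M : ℕ) (σ : ℕ → ℕ) (φ : Fml) : Fml :=
  exL ((List.range N).map (fun i => M + i)) (anL ((List.range N).map fun i => (M + i, σ i))
    (exL (List.range N) (anL ((List.range N).map fun i => (i, M + i)) φ)))

def subC (N M : ℕ) (σ : ℕ → ℕ) (c : ℕ) : ℕ :=
  exC ((List.range N).map (fun i => M + i)) (anC ((List.range N).map fun i => (M + i, σ i))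
    (exC (List.range N) (anC ((List.range N).map fun i => (i, M + i)) c)))

theorem sub_code (N M : ℕ) (σ : ℕ → ℕ) (φ : Fml) : (sub N M σ φ).code = subC N M σ φ.code := by
  unfold sub subC
  rw [exL_code, anL_code, exL_code, anL_code]

theorem sub_sat (L : Lang) (S : Str) (N M : ℕ) (σ : ℕ → ℕ) (φ : Fml) (hφ : φ.code < N)
    (hNM : N ≤ M) (hσ : ∀ i < N, σ i < M) (x y : ℕ → ℕ) (hy : ∀ i < N, y i = x (σ i)) :
    Sat L S (sub N M σ φ) x ↔ Sat L S φ y := by
  unfold sub
  rw [exL_sat]
  simp only [anL_sat, exL_sat]
  constructor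
  · rintro ⟨y1, h1, h2, z, h3, h4, h5⟩
    refine (Sat_congr L S φ z y fun i hi => ?_).1 h5
    have hiN : i < N := by omega
    have e1 : z i = z (M + i) := h4 (i, M + i) (List.mem_map.2 ⟨i, List.mem_range.2 hiN, rfl⟩)
    have e2 : z (M + i) = y1 (M + i) := h3 (M + i) (by
      rw [List.mem_range]; omega)
    have e3 : y1 (M + i) = y1 (σ i) :=
      h2 (M + i, σ i) (List.mem_map.2 ⟨i, List.mem_range.2 hiN, rfl⟩)
    have e4 : y1 (σ i) = x (σ i) := by
      refine h1 _ fun hmem => ?_
      obtain ⟨j, -, hj⟩ := List.mem_map.1 hmem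
      have := hσ i hiN
      omega
    rw [e1, e2, e3, e4, hy i hiN]
  · intro h
    refine ⟨fun i => if M ≤ i ∧ i < M + N then x (σ (i - M)) else x i, ?_, ?_,
      fun i => if i < N then x (σ i) else if M ≤ i ∧ i < M + N then x (σ (i - M)) else x i,
      ?_, ?_, ?_⟩
    · intro i hi
      dsimp only
      rw [if_neg]
      rintro ⟨h1, h2⟩
      exact hi (List.mem_map.2 ⟨i - M, List.mem_range.2 (by omega), by omega⟩)
    · intro p hp
      obtain ⟨i, hi, rfl⟩ := List.mem_map.1 hp
      rw [List.mem_range] at hi
      dsimp only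
      rw [if_pos ⟨by omega, by omega⟩, if_neg]
      · congr 2
        omega
      · have := hσ i hi
        omega
    · intro i hi
      rw [List.mem_range] at hi
      dsimp only
      rw [if_neg hi]
    · intro p hp
      obtain ⟨i, hi, rfl⟩ := List.mem_map.1 hp
      rw [List.mem_range] at hi
      dsimp only
      rw [if_pos hi, if_neg (by omega), if_pos ⟨by omega, by omega⟩]
      congr 2
      omega
    · refine (Sat_congr L S φ _ y fun i hi => ?_).2 h
      have hiN : i < N := by omega
      rw [if_pos hiN, hy i hiN]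

/-! ### Computability -/

theorem exC_prim {α : Type*} [Primcodable α] {f : α → List ℕ} {g : α → ℕ} (hf : Primrec f)
    (hg : Primrec g) : Primrec fun a => exC (f a) (g a) := by
  have hh : Primrec₂ fun (_ : α) (q : ℕ × ℕ) => Nat.pair (5 + q.1) q.2 :=
    (Primrec₂.natPair.comp (Primrec.nat_add.comp (Primrec.const 5)
      (Primrec.fst.comp Primrec.snd)) (Primrec.snd.comp Primrec.snd)).to₂
  exact Primrec.list_foldr hf hg hh

theorem anC_prim {α : Type*} [Primcodable α] {f : α → List (ℕ × ℕ)} {g : α → ℕ}
    (hf : Primrec f) (hg : Primrec g) : Primrec fun a => anC (f a) (g a) := by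
  have hh : Primrec₂ fun (_ : α) (q : (ℕ × ℕ) × ℕ) =>
      Nat.pair 4 (Nat.pair (Nat.pair 2 (Nat.pair q.1.1 q.1.2)) q.2) :=
    (Primrec₂.natPair.comp (Primrec.const 4) (Primrec₂.natPair.comp
      (Primrec₂.natPair.comp (Primrec.const 2) (Primrec₂.natPair.comp
        (Primrec.fst.comp (Primrec.fst.comp Primrec.snd))
        (Primrec.snd.comp (Primrec.fst.comp Primrec.snd))))
      (Primrec.snd.comp Primrec.snd))).to₂
  exact Primrec.list_foldr hf hg hh

theorem neC_prim {α : Type*} [Primcodable α] {f : α → List (ℕ × ℕ)} {g : α → ℕ}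
    (hf : Primrec f) (hg : Primrec g) : Primrec fun a => neC (f a) (g a) := by
  have hh : Primrec₂ fun (_ : α) (q : (ℕ × ℕ) × ℕ) =>
      Nat.pair 4 (Nat.pair (Nat.pair 3 (Nat.pair 2 (Nat.pair q.1.1 q.1.2))) q.2) :=
    (Primrec₂.natPair.comp (Primrec.const 4) (Primrec₂.natPair.comp
      (Primrec₂.natPair.comp (Primrec.const 3) (Primrec₂.natPair.comp (Primrec.const 2)
        (Primrec₂.natPair.comp
        (Primrec.fst.comp (Primrec.fst.comp Primrec.snd))
        (Primrec.snd.comp (Primrec.fst.comp Primrec.snd)))))
      (Primrec.snd.comp Primrec.snd))).to₂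
  exact Primrec.list_foldr hf hg hh

theorem subC_prim {α : Type*} [Primcodable α] {N M : α → ℕ} {σ : α → ℕ → ℕ} {g : α → ℕ}
    (hN : Primrec N) (hM : Primrec M) (hσ : Primrec₂ σ) (hg : Primrec g) :
    Primrec fun a => subC (N a) (M a) (σ a) (g a) := by
  have hr : Primrec fun a => List.range (N a) := Primrec.list_range.comp hN
  have h1 : Primrec fun a => (List.range (N a)).map (fun i => M a + i) :=
    Primrec.list_map hr (Primrec.nat_add.comp (hM.comp Primrec.fst) Primrec.snd).to₂
  have h2 : Primrec fun a => (List.range (N a)).map (fun i => (M a + i, σ a i)) :=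
    Primrec.list_map hr ((Primrec.nat_add.comp (hM.comp Primrec.fst) Primrec.snd).pair
      (hσ.comp Primrec.fst Primrec.snd)).to₂
  have h3 : Primrec fun a => (List.range (N a)).map (fun i => (i, M a + i)) :=
    Primrec.list_map hr (Primrec.snd.pair
      (Primrec.nat_add.comp (hM.comp Primrec.fst) Primrec.snd)).to₂
  exact exC_prim h1 (anC_prim h2 (exC_prim hr (anC_prim h3 hg)))

/-- renaming -/
def lfF (n : ℕ) (Y : List ℕ) : ℕ :=
  subC (n + 1) (n + 1 + Encodable.encode Y) (fun i => (Y[i]?).getD (Y.getD 0 0)) n

theorem lfF_prim : Primrec fun p : ℕ × List ℕ => lfF p.1 p.2 := by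
  have h1 : Primrec fun p : ℕ × List ℕ => p.1 + 1 := Primrec.succ.comp Primrec.fst
  have h2 : Primrec fun p : ℕ × List ℕ => p.1 + 1 + Encodable.encode p.2 :=
    Primrec.nat_add.comp h1 (Primrec.encode.comp Primrec.snd)
  have h3 : Primrec₂ fun (p : ℕ × List ℕ) (i : ℕ) => (p.2[i]?).getD (p.2.getD 0 0) :=
    (Primrec.option_getD.comp (Primrec.list_getElem?.comp (Primrec.snd.comp Primrec.fst)
      Primrec.snd) ((Primrec.list_getD 0).comp (Primrec.snd.comp Primrec.fst)
        (Primrec.const 0))).to₂
  exact subC_prim h1 h2 h3 Primrec.fst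

theorem lfF_sat (L : Lang) (S : Str) (n : ℕ) (Y : List ℕ) (x y : ℕ → ℕ)
    (hy : ∀ i < n + 1, y i = x ((Y[i]?).getD (Y.getD 0 0))) :
    Sat L S (num (lfF n Y)) x ↔ Sat L S (num n) y := by
  have e : num (lfF n Y) = sub (n + 1) (n + 1 + Encodable.encode Y)
      (fun i => (Y[i]?).getD (Y.getD 0 0)) (num n) := by
    apply code_inj
    rw [code_num, sub_code, code_num]
    rfl
  rw [e]
  have hb : ∀ i : ℕ, (Y[i]?).getD (Y.getD 0 0) ≤ Encodable.encode Y := by
    intro i
    rcases h : Y[i]? with _ | v
    · simp only [Option.getD_none]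
      rw [List.getD_eq_getElem?_getD]
      rcases h0 : Y[0]? with _ | v
      · simp
      · simp only [Option.getD_some]
        exact le_encode Y v (List.mem_of_getElem? h0)
    · simp only [Option.getD_some]
      exact le_encode Y v (List.mem_of_getElem? h)
  refine sub_sat L S _ _ _ _ (by rw [code_num]; omega) (by omega) ?_ x y hy
  intro i _
  have := hb i
  omega

/-- indices of the pairs of different variables -/
def prs (k K : ℕ) : List (ℕ × ℕ) :=
  (List.range k).flatMap fun i => (List.range i).map fun j => (K + i, K + j)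

/-- projection -/
def prF (n k : ℕ) (Y : List ℕ) : ℕ :=
  exC ((List.range k).map (fun i => Y.length + i)) (neC (prs k Y.length)
    (anC ((List.range Y.length).map fun i => (Y.length + Y.getD i 0, i))
      (subC (n + 1) (n + 1 + Y.length + k) (fun i => Y.length + if i < k then i else 0) n)))

theorem prF_prim : Primrec fun p : (ℕ × ℕ) × List ℕ => prF p.1.1 p.1.2 p.2 := by
  have hn : Primrec fun p : (ℕ × ℕ) × List ℕ => p.1.1 := Primrec.fst.comp Primrec.fst
  have hk : Primrec fun p : (ℕ × ℕ) × List ℕ => p.1.2 := Primrec.snd.comp Primrec.fst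
  have hY : Primrec fun p : (ℕ × ℕ) × List ℕ => p.2 := Primrec.snd
  have hl : Primrec fun p : (ℕ × ℕ) × List ℕ => p.2.length := Primrec.list_length.comp hY
  have h1 : Primrec fun p : (ℕ × ℕ) × List ℕ =>
      (List.range p.1.2).map (fun i => p.2.length + i) :=
    Primrec.list_map (Primrec.list_range.comp hk)
      (Primrec.nat_add.comp (hl.comp Primrec.fst) Primrec.snd).to₂
  have h2 : Primrec fun p : (ℕ × ℕ) × List ℕ => prs p.1.2 p.2.length := by
    refine Primrec.list_flatMap (Primrec.list_range.comp hk) ?_
    have hg : Primrec₂ fun (q : ((ℕ × ℕ) × List ℕ) × ℕ) (j : ℕ) =>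
        (q.1.2.length + q.2, q.1.2.length + j) :=
      ((Primrec.nat_add.comp (hl.comp (Primrec.fst.comp Primrec.fst))
        (Primrec.snd.comp Primrec.fst)).pair (Primrec.nat_add.comp
        (hl.comp (Primrec.fst.comp Primrec.fst)) Primrec.snd)).to₂
    have hf : Primrec fun q : ((ℕ × ℕ) × List ℕ) × ℕ => List.range q.2 :=
      Primrec.list_range.comp Primrec.snd
    exact (Primrec.list_map hf hg).to₂
  have h3 : Primrec fun p : (ℕ × ℕ) × List ℕ =>
      (List.range p.2.length).map fun i => (p.2.length + p.2.getD i 0, i) := by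
    refine Primrec.list_map (Primrec.list_range.comp hl) ?_
    exact ((Primrec.nat_add.comp (hl.comp Primrec.fst)
      ((Primrec.list_getD 0).comp (hY.comp Primrec.fst) Primrec.snd)).pair Primrec.snd).to₂
  have h4 : Primrec fun p : (ℕ × ℕ) × List ℕ => p.1.1 + 1 := Primrec.succ.comp hn
  have h5 : Primrec fun p : (ℕ × ℕ) × List ℕ => p.1.1 + 1 + p.2.length + p.1.2 :=
    Primrec.nat_add.comp (Primrec.nat_add.comp h4 hl) hk
  have h6 : Primrec₂ fun (p : (ℕ × ℕ) × List ℕ) (i : ℕ) =>
      p.2.length + if i < p.1.2 then i else 0 :=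
    (Primrec.nat_add.comp (hl.comp Primrec.fst) (Primrec.ite
      (Primrec.nat_lt.comp Primrec.snd (hk.comp Primrec.fst)) Primrec.snd
        (Primrec.const 0))).to₂
  exact exC_prim h1 (neC_prim h2 (anC_prim h3 (subC_prim h4 h5 h6 hn)))

theorem prF_sat (L : Lang) (S : Str) (n k : ℕ) (Y w : List ℕ) (x : ℕ → ℕ) (hk : 0 < k)
    (hY : ∀ y ∈ Y, y < k) (hw : w.length = Y.length) (hx : ∀ i < w.length, x i = w.getD i 0) :
    Sat L S (num (prF n k Y)) x ↔ ∃ a : List ℕ, a.length = k ∧ a.Nodup ∧
      Sat L S (num n) (fun i => a.getD i (a.getD 0 0)) ∧ (Y.map fun y => a.getD y 0) = w := by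
  have e : num (prF n k Y) = exL ((List.range k).map (fun i => Y.length + i))
    (neL (prs k Y.length) (anL ((List.range Y.length).map fun i => (Y.length + Y.getD i 0, i))
      (sub (n + 1) (n + 1 + Y.length + k) (fun i => Y.length + if i < k then i else 0)
        (num n)))) := by
    apply code_inj
    rw [code_num, exL_code, neL_code, anL_code, sub_code, code_num]
    rfl
  rw [e, exL_sat]
  simp only [neL_sat, anL_sat]
  have hsub : ∀ y : ℕ → ℕ, Sat L S (sub (n + 1) (n + 1 + Y.length + k)
      (fun i => Y.length + if i < k then i else 0) (num n)) y ↔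
      Sat L S (num n) (fun i => y (Y.length + if i < k then i else 0)) := by
    intro y
    refine sub_sat L S _ _ _ _ (by rw [code_num]; omega) (by omega) ?_ _ _ (fun _ _ => rfl)
    intro i hi
    split_ifs <;> omega
  constructor
  · rintro ⟨y, h1, h2, h3, h4⟩
    rw [hsub] at h4
    set a : List ℕ := (List.range k).map fun i => y (Y.length + i) with ha
    have hget : ∀ i < k, a.getD i 0 = y (Y.length + i) := by
      intro i hi
      rw [ha, List.getD_eq_getElem?_getD, List.getElem?_map, List.getElem?_range hi]
      rfl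
    refine ⟨a, by simp [ha], ?_, ?_, ?_⟩
    · rw [ha]
      refine List.Nodup.map_on ?_ List.nodup_range
      intro i hi j hj hij
      rw [List.mem_range] at hi hj
      by_contra hne
      rcases Nat.lt_or_gt_of_ne hne with hlt | hlt
      · refine h2 (Y.length + j, Y.length + i) ?_ hij.symm
        unfold prs
        rw [List.mem_flatMap]
        exact ⟨j, List.mem_range.2 hj, List.mem_map.2 ⟨i, List.mem_range.2 hlt, rfl⟩⟩
      · refine h2 (Y.length + i, Y.length + j) ?_ hij
        unfold prs
        rw [List.mem_flatMap]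
        exact ⟨i, List.mem_range.2 hi, List.mem_map.2 ⟨j, List.mem_range.2 hlt, rfl⟩⟩
    · have : (fun i => a.getD i (a.getD 0 0)) = fun i => y (Y.length + if i < k then i else 0) := by
        funext i
        by_cases hi : i < k
        · rw [if_pos hi, ha, List.getD_eq_getElem?_getD, List.getElem?_map,
            List.getElem?_range hi]
          rfl
        · rw [if_neg hi, List.getD_eq_default _ _ (by simp [ha]; omega), hget 0 hk]
      rw [this]
      exact h4
    · apply List.ext_getElem
      · rw [List.length_map, hw]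
      · intro i hi1 hi2
        rw [List.getElem_map]
        rw [List.length_map] at hi1
        have hlt : Y[i] < k := hY _ (List.getElem_mem hi1)
        rw [hget _ hlt]
        have := h3 (Y.length + Y.getD i 0, i) (List.mem_map.2 ⟨i, List.mem_range.2 hi1, rfl⟩)
        dsimp only at this
        rw [List.getD_eq_getElem _ _ hi1] at this
        rw [this, h1 i, hx i hi2, List.getD_eq_getElem _ _ hi2]
        intro hmem
        obtain ⟨j, -, hj⟩ := List.mem_map.1 hmem
        omega
  · rintro ⟨a, hak, hnd, hsat, hmap⟩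
    refine ⟨fun i => if Y.length ≤ i ∧ i < Y.length + k then a.getD (i - Y.length) 0 else x i,
      ?_, ?_, ?_, ?_⟩
    · intro i hi
      dsimp only
      rw [if_neg]
      rintro ⟨h1, h2⟩
      exact hi (List.mem_map.2 ⟨i - Y.length, List.mem_range.2 (by omega), by omega⟩)
    · intro p hp
      unfold prs at hp
      rw [List.mem_flatMap] at hp
      obtain ⟨i, hi, hp⟩ := hp
      obtain ⟨j, hj, rfl⟩ := List.mem_map.1 hp
      rw [List.mem_range] at hi hj
      dsimp only
      rw [if_pos ⟨by omega, by omega⟩, if_pos ⟨by omega, by omega⟩,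
        Nat.add_sub_cancel_left, Nat.add_sub_cancel_left,
        List.getD_eq_getElem _ _ (by omega), List.getD_eq_getElem _ _ (by omega)]
      intro hcon
      have := (List.Nodup.getElem_inj_iff hnd).1 hcon
      omega
    · intro p hp
      obtain ⟨i, hi, rfl⟩ := List.mem_map.1 hp
      rw [List.mem_range] at hi
      have hlt : Y[i] < k := hY _ (List.getElem_mem hi)
      dsimp only
      rw [List.getD_eq_getElem _ _ hi, if_pos ⟨by omega, by omega⟩, if_neg (by omega),
        Nat.add_sub_cancel_left, hx i (by omega)]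
      have hiw : i < w.length := by omega
      have : w.getD i 0 = a.getD Y[i] 0 := by
        rw [← hmap, List.getD_eq_getElem (l := Y.map fun y => a.getD y 0) _
          (by rw [List.length_map]; exact hi), List.getElem_map]
      rw [this]
    · rw [hsub]
      have : (fun i => a.getD i (a.getD 0 0)) = fun i =>
          (fun i => if Y.length ≤ i ∧ i < Y.length + k then a.getD (i - Y.length) 0 else x i)
            (Y.length + if i < k then i else 0) := by
        funext i
        by_cases hi : i < k
        · simp only [if_pos hi]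
          rw [if_pos ⟨by omega, by omega⟩, Nat.add_sub_cancel_left,
            List.getD_eq_getElem _ _ (by omega), List.getD_eq_getElem _ _ (by omega)]
        · simp only [if_neg hi]
          rw [if_pos ⟨by omega, by omega⟩, Nat.add_sub_cancel_left,
            List.getD_eq_default _ _ (by omega)]
      rw [← this]
      exact hsat

/-! ### Assignments -/

/-- the assignment given by a list, extended by its first entry -/
def asg (l : List ℕ) : ℕ → ℕ := fun i => l.getD i (l.getD 0 0)

/-- padding -/
def pad (a0 n : ℕ) (l : List ℕ) : List ℕ := l ++ (List.range (n + 1)).map fun _ => l.getD 0 a0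

theorem pad_prim (a0 : ℕ) : Primrec fun p : ℕ × List ℕ => pad a0 p.1 p.2 := by
  have h1 : Primrec₂ fun (p : ℕ × List ℕ) (_ : ℕ) => p.2.getD 0 a0 :=
    ((Primrec.list_getD a0).comp (Primrec.snd.comp Primrec.fst) (Primrec.const 0)).to₂
  exact Primrec.list_append.comp Primrec.snd (Primrec.list_map
    (Primrec.list_range.comp (Primrec.succ.comp Primrec.fst)) h1)

theorem pad_getD (a0 n : ℕ) (l : List ℕ) (i : ℕ) (hi : i ≤ n) (d : ℕ) :
    (pad a0 n l).getD i d = l.getD i (l.getD 0 a0) := by
  unfold pad
  generalize l.getD 0 a0 = c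
  by_cases h : i < l.length
  · rw [List.getD_append _ _ _ _ h, List.getD_eq_getElem _ _ h, List.getD_eq_getElem _ _ h]
  · rw [List.getD_append_right _ _ _ _ (by omega), List.getD_eq_default l _ (by omega),
      List.getD_eq_getElem _ _ (by simp; omega), List.getElem_map]

theorem asg_map (g : ℕ → ℕ) (l : List ℕ) (hl : l ≠ []) : asg (l.map g) = g ∘ asg l := by
  funext i
  have hpos : 0 < l.length := List.length_pos_iff.2 hl
  unfold asg
  simp only [Function.comp]
  have h0 : (l.map g).getD 0 0 = g (l.getD 0 0) := by
    rw [List.getD_eq_getElem _ _ (by rw [List.length_map]; exact hpos),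
      List.getD_eq_getElem _ _ hpos, List.getElem_map]
  rw [h0, List.getD_map]

theorem cp_of_dec {α : Type*} [Primcodable α] {p : α → Prop} (d : α → Bool) (hd : Computable d)
    (h : ∀ a, d a = true ↔ p a) : ComputablePred p :=
  ComputablePred.computable_iff.2 ⟨d, hd, funext fun a => propext (h a).symm⟩

theorem dec_asg (L : Lang) (A : Str) (a0 : ℕ) (hA : IsDecidableStr L A) :
    ComputablePred fun p : ℕ × List ℕ =>
      Sat L A (num p.1) (fun i => p.2.getD i (p.2.getD 0 a0)) := by
  obtain ⟨d, hd, h⟩ := hA
  refine cp_of_dec (fun p => d (p.1, pad a0 p.1 p.2)) ?_ ?_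
  · exact hd.comp (Computable.fst.pair (pad_prim a0).to_comp)
  · rintro ⟨n, l⟩
    have h1 := h (num n) (pad a0 n l)
    rw [code_num] at h1
    dsimp only
    rw [h1]
    refine Sat_congr L A _ _ _ fun i hi => ?_
    rw [code_num] at hi
    exact pad_getD a0 n l i hi 0

theorem iso_sat (L : Lang) (A B : Str) (f : ℕ → ℕ) (hf : IsIso L A B f) : ∀ (φ : Fml) (y : ℕ → ℕ),
    Sat L A φ y ↔ Sat L B φ (f ∘ y) := by
  obtain ⟨hb, hR, hF⟩ := hf
  intro φ
  induction φ with
  | rel i vs =>
    intro y
    simp only [Sat]
    refine and_congr_right fun h => ?_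
    rw [hR i (vs.map y) (by rw [List.length_map]; exact h), List.map_map]
  | fn i vs w =>
    intro y
    simp only [Sat]
    refine and_congr_right fun h => ?_
    rw [← List.map_map, ← hF i (vs.map y) (by rw [List.length_map]; exact h)]
    exact hb.1.eq_iff.symm
  | eq v w =>
    intro y
    exact hb.1.eq_iff.symm
  | not φ ih =>
    intro y
    simp only [Sat]
    rw [ih]
  | and φ ψ ih1 ih2 =>
    intro y
    simp only [Sat]
    rw [ih1, ih2]
  | ex v φ ih =>
    intro y
    simp only [Sat]
    constructor
    · rintro ⟨a, ha⟩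
      refine ⟨f a, ?_⟩
      rw [← Function.comp_update]
      exact (ih _).1 ha
    · rintro ⟨b, h⟩
      obtain ⟨a, rfl⟩ := hb.2 b
      refine ⟨a, (ih _).2 ?_⟩
      rw [Function.comp_update]
      exact h

open Pool.Agent.Helper743 in
theorem tle_inv (f h x : ℕ → ℕ) (hfh : ∀ n, f (h n) = n) (hinj : Function.Injective f)
    (hx : TLe f x) : TLe h x := by
  unfold TLe at *
  rw [← TR_iff] at hx ⊢
  have h1 : Computable (fun z : ℕ => if z.unpair.1 = z.unpair.2 then 0 else 1) := by
    have : Primrec (fun z : ℕ => if z.unpair.1 = z.unpair.2 then 0 else 1) :=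
      Primrec.ite (Primrec.eq.comp (Primrec.fst.comp Primrec.unpair)
        (Primrec.snd.comp Primrec.unpair)) (Primrec.const 0) (Primrec.const 1)
    exact this.to_comp
  have hfst : Computable (fun z : ℕ => z.unpair.1) := Computable.fst.comp Computable.unpair
  have hsnd : Computable (fun z : ℕ => z.unpair.2) := Computable.snd.comp Computable.unpair
  have h2 : RecT {(x : ℕ →. ℕ)} (fun z => Nat.pair z.unpair.1 (f z.unpair.2)) :=
    RecT.pair (Computable.recT hfst) (RecT.comp hx (Computable.recT hsnd))
  have h3 := (Computable.recT (O := {(x : ℕ →. ℕ)}) h1).comp h2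
  simp only [Nat.unpair_pair] at h3
  have hex : ∀ a, ∃ n, (fun n : ℕ => if n.unpair.1 = f n.unpair.2 then 0 else 1)
      (Nat.pair a n) = 0 := by
    intro a
    refine ⟨h a, ?_⟩
    simp [hfh]
  have h4 := RecT.find h3 hex
  have h5 : (fun a => Nat.find (hex a)) = h := by
    funext a
    have := Nat.find_spec (hex a)
    generalize Nat.find (hex a) = m at this ⊢
    simp only [Nat.unpair_pair] at this
    by_cases hc : a = f m
    · apply hinj
      rw [hfh, ← hc]
    · rw [if_neg hc] at this
      exact absurd this one_ne_zero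
  rw [h5] at h4
  exact h4

theorem range_asg (l : List ℕ) : (List.range l.length).map (asg l) = l := by
  apply List.ext_getElem
  · simp
  · intro i h1 h2
    rw [List.getElem_map, List.getElem_range]
    unfold asg
    rw [List.getD_eq_getElem _ _ h2]

theorem range_asg_append (l : List ℕ) (b : ℕ) :
    (List.range l.length).map (asg (l ++ [b])) = l := by
  apply List.ext_getElem
  · simp
  · intro i h1 h2
    rw [List.getElem_map, List.getElem_range]
    unfold asg
    rw [List.getD_append _ _ _ _ h2, List.getD_eq_getElem _ _ h2]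

theorem asg_append (l : List ℕ) (b : ℕ) : asg (l ++ [b]) l.length = b := by
  unfold asg
  rw [List.getD_append_right _ _ _ _ (le_refl _)]
  simp

/-- the abstract structure -/
noncomputable def theT (L : Lang) (S : Str) (hS : IsDecidableStr L S) : DS where
  H n l := Sat L S (num n) (asg l)
  comp := dec_asg L S 0 hS
  nt n := Nat.pair 3 n
  nt_c := (Primrec₂.natPair.comp (Primrec.const 3) Primrec.id).to_comp
  nt_s n l := by
    have e : num (Nat.pair 3 n) = .not (num n) := by
      apply code_inj
      rw [code_num]
      simp only [Fml.code, code_num]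
    rw [e]
    rfl
  an m n := Nat.pair 4 (Nat.pair m n)
  an_c := (Primrec₂.natPair.comp (Primrec.const 4)
    (Primrec₂.natPair.comp Primrec.fst Primrec.snd)).to_comp
  an_s m n l := by
    have e : num (Nat.pair 4 (Nat.pair m n)) = .and (num m) (num n) := by
      apply code_inj
      rw [code_num]
      simp only [Fml.code, code_num]
    rw [e]
    rfl
  lf := lfF
  lf_c := lfF_prim.to_comp
  lf_s n Y a hY hlt := by
    refine lfF_sat L S n Y _ _ fun i _ => ?_
    have hpos : 0 < Y.length := List.length_pos_iff.2 hY
    unfold asg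
    by_cases hi : i < Y.length
    · rw [List.getD_eq_getElem _ _ (by rw [List.length_map]; exact hi), List.getElem_map,
        List.getElem?_eq_getElem hi, Option.getD_some,
        List.getD_eq_getElem _ _ (hlt _ (List.getElem_mem hi)),
        List.getD_eq_getElem _ _ (hlt _ (List.getElem_mem hi))]
    · rw [List.getD_eq_default _ _ (by rw [List.length_map]; omega),
        List.getElem?_eq_none (by omega), Option.getD_none, List.getD_eq_getElem Y _ hpos,
        List.getD_eq_getElem _ _ (by rw [List.length_map]; exact hpos), List.getElem_map,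
        List.getD_eq_getElem _ _ (hlt _ (List.getElem_mem hpos)),
        List.getD_eq_getElem _ _ (hlt _ (List.getElem_mem hpos))]
  pr := prF
  pr_c := prF_prim.to_comp
  pr_s n k Y w hk hY hw := by
    refine prF_sat L S n k Y w _ hk hY hw fun i hi => ?_
    unfold asg
    rw [List.getD_eq_getElem _ _ hi, List.getD_eq_getElem _ _ hi]

end FO

open FO in
theorem fo (L : Lang) (hL : L.IsComputable) (S : Str) (hS : IsDecidableStr L S) :
    ∃ T : DS, ∀ x, DecCatIn L S x ↔ T.CatH x := by
  refine ⟨theT L S hS, fun x => ⟨?_, ?_⟩⟩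
  · rintro hcat g ⟨hgb, hgc⟩
    set e := Equiv.ofBijective g hgb with he
    have hge : ∀ a, g (e.symm a) = a := fun a => e.apply_symm_apply a
    let A : Str := ⟨fun i xs => S.R i (xs.map g), fun i xs => e.symm (S.F i (xs.map g))⟩
    have hiso : IsIso L A S g := ⟨hgb, fun i xs _ => Iff.rfl, fun i xs _ => hge _⟩
    have hdec : IsDecidableStr L A := by
      obtain ⟨d, hd, hdp⟩ := ComputablePred.computable_iff.1 hgc
      have hdp' : ∀ n l, d (n, l) = true ↔ Sat L S (num n) (asg (l.map g)) := by
        intro n l
        have := congrFun hdp (n, l)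
        exact (iff_of_eq this).symm
      have hpad : Primrec fun p : ℕ × List ℕ =>
          p.2 ++ (List.range (p.1 + 1)).map (fun _ => 0) :=
        Primrec.list_append.comp Primrec.snd (Primrec.list_map
          (Primrec.list_range.comp (Primrec.succ.comp Primrec.fst)) (Primrec.const 0).to₂)
      refine ⟨fun p => d (p.1, p.2 ++ (List.range (p.1 + 1)).map (fun _ => 0)),
        hd.comp (Computable.fst.pair hpad.to_comp), ?_⟩
      intro φ as
      dsimp only
      rw [hdp', num_code, asg_map g _ (by simp), ← iso_sat L A S g hiso]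
      refine Sat_congr L A φ _ _ fun i hi => ?_
      unfold asg
      by_cases h : i < as.length
      · rw [List.getD_append _ _ _ _ h, List.getD_eq_getElem _ _ h, List.getD_eq_getElem _ _ h]
      · rw [List.getD_append_right _ _ _ _ (by omega), List.getD_eq_default as _ (by omega),
          List.getD_eq_getElem _ _ (by simp; omega), List.getElem_map]
    obtain ⟨f, hf, hfx⟩ := hcat A hdec ⟨g, hiso⟩
    set k := Equiv.ofBijective f hf.1 with hk
    have hfk : ∀ a, f (k.symm a) = a := fun a => k.apply_symm_apply a
    refine ⟨k.symm, k.symm.bijective, tle_inv f _ x hfk hf.1.1 hfx, ?_⟩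
    intro n l hl
    change Sat L S (num n) (asg ((l.map k.symm).map g)) ↔ Sat L S (num n) (asg l)
    rw [asg_map g _ (by simpa using hl), asg_map _ l hl, ← iso_sat L A S g hiso,
      iso_sat L A S f hf]
    have : f ∘ (k.symm ∘ asg l) = asg l := by
      funext i
      exact hfk _
    rw [this]
  · rintro hcat A hA ⟨f0, hf0⟩
    obtain ⟨a0, ha0⟩ := hf0.1.2 0
    have hcopy : (theT L S hS).Copy f0 := by
      refine ⟨hf0.1, ?_⟩
      have h1 := dec_asg L A a0 hA
      refine h1.of_eq ?_
      rintro ⟨n, l⟩
      change Sat L A (num n) (fun i => l.getD i (l.getD 0 a0)) ↔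
        Sat L S (num n) (asg (l.map f0))
      rw [iso_sat L A S f0 hf0]
      have : f0 ∘ (fun i => l.getD i (l.getD 0 a0)) = asg (l.map f0) := by
        funext i
        unfold asg
        simp only [Function.comp]
        have h0 : (l.map f0).getD 0 0 = f0 (l.getD 0 a0) := by
          have := List.getD_map (l := l) (n := 0) (d := a0) f0
          rwa [ha0] at this
        rw [h0, List.getD_map]
      rw [this]
    obtain ⟨h, hb, hx, hH⟩ := hcat f0 hcopy
    have hH' : ∀ n l, l ≠ [] → (Sat L S (num n) (asg ((l.map h).map f0)) ↔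
      Sat L S (num n) (asg l)) := hH
    set k := Equiv.ofBijective h hb with hk
    have hhk : ∀ a, h (k.symm a) = a := fun a => k.apply_symm_apply a
    have hmapk : ∀ xs : List ℕ, (xs.map k.symm).map h = xs := by
      intro xs
      rw [List.map_map]
      have : h ∘ k.symm = id := funext hhk
      rw [this, List.map_id]
    refine ⟨k.symm, ⟨k.symm.bijective, ?_, ?_⟩, tle_inv h _ x hhk hb.1 hx⟩
    · intro i xs hi
      rcases eq_or_ne xs [] with rfl | hxs
      · exact hf0.2.1 i [] hi
      · have h1 := hH' (Fml.rel i (List.range xs.length)).code (xs.map k.symm) (by simpa using hxs)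
        rw [num_code, hmapk] at h1
        simp only [Sat, List.length_range, hi, true_and] at h1
        have e1 : (List.range xs.length).map (asg (xs.map f0)) = xs.map f0 := by
          have := range_asg (xs.map f0)
          rwa [List.length_map] at this
        have e2 : (List.range xs.length).map (asg (xs.map k.symm)) = xs.map k.symm := by
          have := range_asg (xs.map k.symm)
          rwa [List.length_map] at this
        rw [e1, e2] at h1
        rw [hf0.2.1 i xs hi]
        exact h1
    · intro i xs hi
      have h1 := hH' (Fml.fn i (List.range xs.length) xs.length).code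
        (xs.map k.symm ++ [k.symm (A.F i xs)]) (by simp)
      rw [num_code, List.map_append, hmapk, List.map_append] at h1
      simp only [Sat, List.length_range, hi, true_and, List.map_cons, List.map_nil, hhk] at h1
      have e1 : (List.range xs.length).map (asg (xs.map f0 ++ [f0 (A.F i xs)])) = xs.map f0 := by
        have := range_asg_append (xs.map f0) (f0 (A.F i xs))
        rwa [List.length_map] at this
      have e2 : (List.range xs.length).map (asg (xs.map k.symm ++ [k.symm (A.F i xs)])) =
          xs.map k.symm := by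
        have := range_asg_append (xs.map k.symm) (k.symm (A.F i xs))
        rwa [List.length_map] at this
      have e3 : asg (xs.map f0 ++ [f0 (A.F i xs)]) xs.length = f0 (A.F i xs) := by
        have := asg_append (xs.map f0) (f0 (A.F i xs))
        rwa [List.length_map] at this
      have e4 : asg (xs.map k.symm ++ [k.symm (A.F i xs)]) xs.length = k.symm (A.F i xs) := by
        have := asg_append (xs.map k.symm) (k.symm (A.F i xs))
        rwa [List.length_map] at this
      rw [e1, e2, e3, e4] at h1
      exact (h1.1 (hf0.2.2 i xs hi).symm).symm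

end Pool.Agent.Helper750.DC
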