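import Pool.Agent.Helper750.DC.Defs

set_option autoImplicit false

/-! Closure properties of computable predicates, bounded search. -/

namespace Pool.Agent.Helper750.DC

open Encodable Pool.Agent.Helper446

section
variable {α β γ : Type*} [Primcodable α] [Primcodable β] [Primcodable γ]

theorem cp_iff_re {p : α → Prop} : ComputablePred p ↔ REPred p ∧ REPred fun a => ¬ p a :=
  ⟨fun h => ⟨h.to_re, h.not.to_re⟩, fun h => RE.cp_of_re h.1 h.2⟩

theorem cp_of_iff {p q : α → Prop} (hp : ComputablePred p) (h : ∀ a, q a ↔ p a) :
    ComputablePred q := by
  have : q = p := funext fun a => propext (h a)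
  rw [this]; exact hp

theorem cp_not {p : α → Prop} (hp : ComputablePred p) : ComputablePred fun a => ¬ p a := hp.not

theorem cp_and {p q : α → Prop} (hp : ComputablePred p) (hq : ComputablePred q) :
    ComputablePred fun a => p a ∧ q a := by
  rw [cp_iff_re] at hp hq ⊢
  refine ⟨RE.and hp.1 hq.1, (RE.or hp.2 hq.2).of_eq fun a => ?_⟩
  tauto

theorem cp_or {p q : α → Prop} (hp : ComputablePred p) (hq : ComputablePred q) :
    ComputablePred fun a => p a ∨ q a := by
  rw [cp_iff_re] at hp hq ⊢
  refine ⟨RE.or hp.1 hq.1, (RE.and hp.2 hq.2).of_eq fun a => ?_⟩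
  tauto

theorem cp_imp {p q : α → Prop} (hp : ComputablePred p) (hq : ComputablePred q) :
    ComputablePred fun a => p a → q a :=
  cp_of_iff (cp_or (cp_not hp) hq) fun a => by tauto

theorem cp_iff {p q : α → Prop} (hp : ComputablePred p) (hq : ComputablePred q) :
    ComputablePred fun a => p a ↔ q a :=
  cp_of_iff (cp_and (cp_imp hp hq) (cp_imp hq hp)) fun a => by tauto

theorem cp_const (P : Prop) : ComputablePred fun _ : α => P :=
  RE.cp_of_re (RE.const P) (RE.const (¬ P))

theorem re_ex_lt {p : α → ℕ → Prop} (hp : REPred fun x : α × ℕ => p x.1 x.2) {f : α → ℕ}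
    (hf : Computable f) : REPred fun a => ∃ i < f a, p a i := by
  have h := RE.exN (p := fun (a : α) i => i < f a ∧ p a i)
    (RE.and (RE.lt (by fun_prop) (by fun_prop)) hp)
  exact h

theorem cp_all_lt {p : α → ℕ → Prop} (hp : ComputablePred fun x : α × ℕ => p x.1 x.2) {f : α → ℕ}
    (hf : Computable f) : ComputablePred fun a => ∀ i < f a, p a i := by
  rw [cp_iff_re] at hp
  refine RE.cp_of_re (RE.all_lt hp.1 hf) ((re_ex_lt (p := fun a i => ¬ p a i) hp.2 hf).of_eq
    fun a => ?_)
  push Not
  rfl

theorem cp_ex_lt {p : α → ℕ → Prop} (hp : ComputablePred fun x : α × ℕ => p x.1 x.2) {f : α → ℕ}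
    (hf : Computable f) : ComputablePred fun a => ∃ i < f a, p a i := by
  rw [cp_iff_re] at hp
  refine RE.cp_of_re (re_ex_lt hp.1 hf) ((RE.all_lt (p := fun a i => ¬ p a i) hp.2 hf).of_eq
    fun a => ?_)
  push Not
  rfl

theorem cp_all_mem {p : α → β → Prop} (hp : ComputablePred fun x : α × β => p x.1 x.2)
    {l : α → List β} (hl : Computable l) : ComputablePred fun a => ∀ b ∈ l a, p a b := by
  rw [cp_iff_re] at hp
  refine RE.cp_of_re (RE.all_mem hp.1 hl) ((RE.ex_mem (p := fun a i => ¬ p a i) hp.2 hl).of_eq
    fun a => ?_)
  push Not
  rfl

theorem cp_ex_mem {p : α → β → Prop} (hp : ComputablePred fun x : α × β => p x.1 x.2)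
    {l : α → List β} (hl : Computable l) : ComputablePred fun a => ∃ b ∈ l a, p a b := by
  rw [cp_iff_re] at hp
  refine RE.cp_of_re (RE.ex_mem hp.1 hl) ((RE.all_mem (p := fun a i => ¬ p a i) hp.2 hl).of_eq
    fun a => ?_)
  push Not
  rfl

/-- bounded quantification over codes -/
theorem cp_all_code {p : α → β → Prop} (hp : ComputablePred fun x : α × β => p x.1 x.2)
    {f : α → ℕ} (hf : Computable f) :
    ComputablePred fun a => ∀ b : β, encode b < f a → p a b := by
  have h1 : ComputablePred fun x : α × ℕ => ∀ b : β, b ∈ (decode (α := β) x.2).toList → encode b = x.2 → p x.1 b := by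
    have h2 := cp_all_mem (p := fun (x : α × ℕ) (b : β) => encode b = x.2 → p x.1 b)
      (l := fun x : α × ℕ => (decode (α := β) x.2).toList) ?_ ?_
    · exact h2
    · refine cp_imp (RE.cp_eq (by fun_prop) (by fun_prop)) ?_
      exact RE.cp_comp hp (f := fun x : (α × ℕ) × β => (x.1.1, x.2)) (by fun_prop)
    · have h3 : Computable fun x : α × ℕ => decode (α := β) x.2 := by fun_prop
      refine (Computable.option_casesOn h3 (Computable.const ([] : List β))
        (g := fun _ b => [b]) ?_).of_eq fun x => ?_
      · show Computable fun y : (α × ℕ) × β => [y.2]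
        fun_prop
      · cases decode (α := β) x.2 <;> rfl
  refine cp_of_iff (cp_all_lt (p := fun a n => ∀ b : β, b ∈ (decode (α := β) n).toList →
    encode b = n → p a b) h1 hf) fun a => ?_
  constructor
  · intro h n hn b _ hb
    exact h b (by rw [hb]; exact hn)
  · intro h b hb
    exact h (encode b) hb b (by simp [encodek]) rfl

theorem cp_ex_code {p : α → β → Prop} (hp : ComputablePred fun x : α × β => p x.1 x.2)
    {f : α → ℕ} (hf : Computable f) :
    ComputablePred fun a => ∃ b : β, encode b < f a ∧ p a b := by
  refine cp_of_iff (cp_not (cp_all_code (p := fun a b => ¬ p a b) (cp_not hp) hf)) fun a => ?_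
  push Not
  rfl

/-- the least `k < n` with `q k` -/
def bfind (q : ℕ → Bool) (n : ℕ) : Option ℕ :=
  Nat.rec (motive := fun _ => Option ℕ) none
    (fun k r => bif r.isSome then r else (bif q k then some k else none)) n

theorem bfind_zero (q : ℕ → Bool) : bfind q 0 = none := rfl

theorem bfind_succ (q : ℕ → Bool) (n : ℕ) :
    bfind q (n + 1) = match bfind q n with
      | some r => some r
      | none => if q n = true then some n else none := by
  show (bif (bfind q n).isSome then (bfind q n) else (bif q n then some n else none)) = _
  cases bfind q n with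
  | none => cases q n <;> rfl
  | some r => rfl

theorem bfind_none {q : ℕ → Bool} {n : ℕ} : bfind q n = none ↔ ∀ k < n, q k = false := by
  induction n with
  | zero => simp [bfind_zero]
  | succ n ih =>
    rw [bfind_succ]
    cases h : bfind q n with
    | some r =>
      have : ¬ ∀ k < n, q k = false := by rw [← ih, h]; simp
      simp only [reduceCtorEq, false_iff]
      intro h2; exact this fun k hk => h2 k (by omega)
    | none =>
      have h1 := ih.1 h
      constructor
      · intro h2 k hk
        rcases Nat.lt_succ_iff_lt_or_eq.1 hk with h3 | h3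
        · exact h1 k h3
        · subst h3
          by_contra h4
          simp only [Bool.not_eq_false] at h4
          simp [h4] at h2
      · intro h2
        simp [h2 n (by omega)]

theorem bfind_some {q : ℕ → Bool} {n r : ℕ} :
    bfind q n = some r ↔ r < n ∧ q r = true ∧ ∀ k < r, q k = false := by
  induction n with
  | zero => simp [bfind_zero]
  | succ n ih =>
    rw [bfind_succ]
    cases h : bfind q n with
    | some r' =>
      have h1 : r' < n ∧ q r' = true ∧ ∀ k < r', q k = false := by
        by_cases e : r = r'
        · subst e; exact ih.1 h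
        · have : ∀ m, (∀ r, bfind q m = some r → r < m ∧ q r = true ∧ ∀ k < r, q k = false) := by
            intro m
            induction m with
            | zero => intro r hr; simp [bfind_zero] at hr
            | succ m ihm =>
              intro r hr
              rw [bfind_succ] at hr
              cases hm : bfind q m with
              | some r2 =>
                rw [hm] at hr
                simp only [Option.some.injEq] at hr
                subst hr
                obtain ⟨a1, a2⟩ := ihm _ hm
                exact ⟨by omega, a2⟩
              | none =>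
                rw [hm] at hr
                simp only at hr
                split_ifs at hr with hq
                simp only [Option.some.injEq] at hr
                subst hr
                exact ⟨by omega, hq, bfind_none.1 hm⟩
          exact this n _ h
      simp only [Option.some.injEq]
      constructor
      · rintro rfl
        exact ⟨by omega, h1.2⟩
      · rintro ⟨h2, h3, h4⟩
        by_contra hne
        rcases Nat.lt_or_gt_of_ne hne with h5 | h5
        · rw [h4 _ h5] at h1; exact absurd h1.2.1 (by simp)
        · rw [h1.2.2 _ h5] at h3; exact absurd h3 (by simp)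
    | none =>
      have h1 := bfind_none.1 h
      simp only
      constructor
      · intro h2
        split_ifs at h2 with hq
        simp only [Option.some.injEq] at h2
        subst h2
        exact ⟨by omega, hq, h1⟩
      · rintro ⟨h2, h3, h4⟩
        have : r = n := by
          by_contra hne
          rw [h1 r (by omega)] at h3
          exact absurd h3 (by simp)
        subst this
        simp [h3]

theorem computable_bfind {q : α → ℕ → Bool} (hq : Computable fun x : α × ℕ => q x.1 x.2)
    {f : α → ℕ} (hf : Computable f) : Computable fun a => bfind (q a) (f a) := by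
  refine Computable.nat_rec (f := f) (g := fun _ : α => (none : Option ℕ))
    (h := fun (a : α) (p : ℕ × Option ℕ) =>
      bif p.2.isSome then p.2 else (bif q a p.1 then some p.1 else none)) hf
    (Computable.const none) ?_
  show Computable fun x : α × (ℕ × Option ℕ) =>
    bif x.2.2.isSome then x.2.2 else (bif q x.1 x.2.1 then some x.2.1 else none)
  refine RE.ccond (by fun_prop) (by fun_prop) (RE.ccond ?_ (by fun_prop) (by fun_prop))
  exact hq.comp (g := fun x : α × (ℕ × Option ℕ) => (x.1, x.2.1)) (by fun_prop)

end

end Pool.Agent.Helper750.DC
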