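import Pool.Agent.Helper750.DC.MG

set_option autoImplicit false

/-! Complete formulas, the final situation. -/

namespace Pool.Agent.Helper750.DC

open Encodable Pool.Agent.Helper446

theorem lt_mx {P : List ℕ} {x : ℕ} (h : x ∈ P) : x < mx P := by
  have := foldr_max_le.1 (le_refl (P.foldr max 0)) x h
  unfold mx
  omega

theorem range_getD {n x : ℕ} (h : x < n) : (List.range n).getD x 0 = x := by
  rw [List.getD_eq_getElem?_getD, List.getElem?_range h]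
  rfl

theorem map_getD' {l : List ℕ} {x : ℕ} (f : ℕ → ℕ) (h : x < l.length) :
    (l.map f).getD x 0 = f (l.getD x 0) := by
  rw [List.getD_eq_getElem?_getD, List.getD_eq_getElem?_getD, List.getElem?_map,
    List.getElem?_eq_getElem h]
  rfl

theorem sub_eq_of {a Y w : List ℕ} (h : sub a Y = w) {x : ℕ} (hx : x < Y.length) :
    w.getD x 0 = a.getD (Y.getD x 0) 0 := by
  rw [← h, sub_getD _ _ _ hx]

theorem range_ne {n : ℕ} (h : 0 < n) : List.range n ≠ [] := by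
  intro h1
  have := congrArg List.length h1
  simp at this
  omega

section good
variable {S : DS} {P : List ℕ} {M : ℕ}

theorem pr_P {φ len : ℕ} (hlen : 0 < len) (hP : ∀ x ∈ P, x < len) :
    S.H (S.pr φ len P) P ↔ ∃ a : List ℕ, a.length = len ∧ a.Nodup ∧ S.H φ a ∧
      ∀ x ∈ P, a.getD x 0 = x := by
  rw [S.pr_s φ len P P hlen hP rfl]
  have : ∀ a : List ℕ, (P.map fun y => a.getD y 0) = P ↔ ∀ x ∈ P, a.getD x 0 = x := by
    intro a
    conv_lhs => rhs; rw [← List.map_id P]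
    rw [List.map_inj_left]
    rfl
  constructor
  · rintro ⟨a, h1, h2, h3, h4⟩; exact ⟨a, h1, h2, h3, (this a).1 h4⟩
  · rintro ⟨a, h1, h2, h3, h4⟩; exact ⟨a, h1, h2, h3, (this a).2 h4⟩

theorem good_iff (hM : 0 < M) (hP : ∀ x ∈ P, x < M) {s r φ : ℕ} :
    good S P M s r φ ↔ S.H φ (List.range (M + r)) ∧ ∀ n < s, ∀ w : List ℕ, w.length = M + r →
      w.Nodup → (∀ x ∈ P, w.getD x 0 = x) → S.H φ w → (S.H n w ↔ S.H n (List.range (M + r))) := by
  unfold good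
  have hP' : ∀ x ∈ P, x < M + r := fun x hx => by have := hP x hx; omega
  constructor
  · rintro ⟨h1, h2⟩
    refine ⟨h1, fun n hn w w1 w2 w3 w4 => ?_⟩
    obtain ⟨h3, h4⟩ := h2 n hn
    rw [pr_P (by omega) hP'] at h3 h4
    constructor
    · intro h5
      by_contra h6
      exact h4 h6 ⟨w, w1, w2, (S.an_s _ _ _).2 ⟨w4, h5⟩, w3⟩
    · intro h5
      by_contra h6
      exact h3 h5 ⟨w, w1, w2, (S.an_s _ _ _).2 ⟨w4, (S.nt_s _ _).2 h6⟩, w3⟩
  · rintro ⟨h1, h2⟩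
    refine ⟨h1, fun n hn => ?_⟩
    rw [pr_P (by omega) hP', pr_P (by omega) hP']
    refine ⟨fun h3 => ?_, fun h3 => ?_⟩
    · rintro ⟨w, w1, w2, w4, w3⟩
      rw [S.an_s, S.nt_s] at w4
      exact w4.2 ((h2 n hn w w1 w2 w3 w4.1).2 h3)
    · rintro ⟨w, w1, w2, w4, w3⟩
      rw [S.an_s] at w4
      exact h3 ((h2 n hn w w1 w2 w3 w4.1).1 w4.2)

theorem complete_iff (hM : 0 < M) (hP : ∀ x ∈ P, x < M) {r φ : ℕ} :
    S.Complete P (M + r) φ ↔ ∀ s, good S P M s r φ := by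
  constructor
  · rintro ⟨h1, h2⟩ s
    rw [good_iff hM hP]
    exact ⟨h1, fun n _ w w1 w2 w3 w4 => h2 w w1 w2 w3 w4 n⟩
  · intro h
    refine ⟨(h 0).1, fun w w1 w2 w3 w4 n => ?_⟩
    have := h (n + 1)
    rw [good_iff hM hP] at this
    exact this.2 n (Nat.lt_succ_self n) w w1 w2 w3 w4

theorem good_anti {s s' r φ : ℕ} (h : s ≤ s') (hg : good S P M s' r φ) : good S P M s r φ :=
  ⟨hg.1, fun n hn => hg.2 n (by omega)⟩

theorem isX_evt (hM : 0 < M) (hP : ∀ x ∈ P, x < M) {r X : ℕ} (h1 : S.Complete P (M + r) X)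
    (h2 : ∀ φ < X, ¬ S.Complete P (M + r) φ) :
    ∃ s0, ∀ s, s0 ≤ s → isX S P M s r X := by
  have h3 : ∀ N ≤ X, ∃ s0, ∀ φ < N, ¬ good S P M s0 r φ := by
    intro N
    induction N with
    | zero => intro _; exact ⟨0, fun φ hφ => by omega⟩
    | succ N ih =>
      intro hN
      obtain ⟨s0, hs0⟩ := ih (by omega)
      have h4 := h2 N (by omega)
      rw [complete_iff hM hP] at h4
      push Not at h4
      obtain ⟨s1, hs1⟩ := h4
      refine ⟨max s0 s1, fun φ hφ hg => ?_⟩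
      rcases Nat.lt_succ_iff_lt_or_eq.1 hφ with h5 | h5
      · exact hs0 φ h5 (good_anti (le_max_left _ _) hg)
      · subst h5
        exact hs1 (good_anti (le_max_right _ _) hg)
  obtain ⟨s0, hs0⟩ := h3 X le_rfl
  exact ⟨s0, fun s hs => ⟨(complete_iff hM hP).1 h1 s, fun φ hφ hg =>
    hs0 φ hφ (good_anti hs hg)⟩⟩

theorem isX_eq (hM : 0 < M) (hP : ∀ x ∈ P, x < M) {s r X φ : ℕ} (h1 : S.Complete P (M + r) X)
    (h2 : ∀ φ < X, ¬ S.Complete P (M + r) φ) (h3 : isX S P M s r φ)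
    (h4 : S.Complete P (M + r) φ) : φ = X := by
  rcases lt_trichotomy φ X with h5 | h5 | h5
  · exact absurd h4 (h2 φ h5)
  · exact h5
  · exact absurd ((complete_iff hM hP).1 h1 s) (h3.2 X h5)

theorem complete_of {len φ : ℕ} {w0 : List ℕ} {π : ℕ → ℕ} (hlen : 0 < len)
    (hPl : ∀ x ∈ P, x < len) (hpi : ∀ n l, l ≠ [] → (S.H n (l.map π) ↔ S.H n l))
    (hinj : Function.Injective π) (hφ : S.H φ (List.range len))
    (hM : ∀ w : List ℕ, w.length = len → w.Nodup → (∀ x ∈ P, w.getD x 0 = π x) → S.H φ w →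
      ∀ n, S.H n w ↔ S.H n w0) : S.Complete P len φ := by
  refine ⟨hφ, fun w w1 w2 w3 w4 n => ?_⟩
  have hw : w ≠ [] := by
    intro h; rw [h] at w1; simp at w1; omega
  have h1 := hM (w.map π) (by simp [w1]) (w2.map hinj) (fun x hx => by
    rw [map_getD' π (by rw [w1]; exact hPl x hx), w3 x hx]) ((hpi φ w hw).2 w4) n
  have h2 := hM ((List.range len).map π) (by simp) (List.nodup_range.map hinj) (fun x hx => by
    rw [map_getD' π (by simpa using hPl x hx), range_getD (hPl x hx)])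
    ((hpi φ _ (range_ne hlen)).2 hφ) n
  rw [← hpi n w hw, h1, ← h2, hpi n _ (range_ne hlen)]

end good

/-- the final situation -/
structure Fin (S : DS) (E : ℕ → Env) (D : Set ℕ) (i : ℕ) (g hh : ℕ → ℕ) (j p : ℕ)
    (P : List ℕ) : Prop where
  h : Ctx S E D i
  gl : IsLim S i E g
  gb : Function.Bijective g
  hb : Function.Bijective hh
  hH : ∀ n l, l ≠ [] → (S.H n ((l.map hh).map g) ↔ S.H n l)
  hj : IsFun j (chi D) hh
  Pl : P.length = p
  hP : ∀ r < p, hh (P.getD r 0) = r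
  sa : ∃ s0, ∀ s, s0 ≤ s → pj (pK (Sg S i E s)) j = p ∧
    ∀ r < p, (pA (Sg S i E s)).getD r 0 = g r
  st : ∃ s0, ∀ s, s0 ≤ s → (E s).st (Nat.pair i (2 * j)) = false ∧
    ∀ j' < j + 1, ¬ Acts E (Nat.pair i (2 * j')) s

theorem IsFun.fin {j : ℕ} {G f : ℕ → ℕ} (h : IsFun j G f) (len : ℕ) :
    ∃ v0, ∀ v, v0 ≤ v → ∃ s0, ∀ s, s0 ≤ s → ∀ r < len,
      Ph j s ((List.range v).map G) r = some (f r) := by
  induction len with
  | zero => exact ⟨0, fun v _ => ⟨0, fun s _ r hr => by omega⟩⟩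
  | succ len ih =>
    obtain ⟨v0, hv0⟩ := ih
    obtain ⟨v1, hv1⟩ := h.2 len
    refine ⟨max v0 v1, fun v hv => ?_⟩
    obtain ⟨s0, hs0⟩ := hv0 v (by omega)
    obtain ⟨s1, hs1⟩ := hv1 v (by omega)
    refine ⟨max s0 s1, fun s hs r hr => ?_⟩
    rcases Nat.lt_succ_iff_lt_or_eq.1 hr with h2 | h2
    · exact hs0 s (by omega) r h2
    · subst h2; exact hs1 s (by omega)

section
variable {S : DS} {E : ℕ → Env} {D : Set ℕ} {i : ℕ} {g hh : ℕ → ℕ} {j p : ℕ} {P : List ℕ}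

theorem Fin.hpi (F : Fin S E D i g hh j p P) (n : ℕ) (l : List ℕ) (hl : l ≠ []) :
    S.H n (l.map (g ∘ hh)) ↔ S.H n l := by
  rw [← F.hH n l hl, List.map_map]

theorem Fin.inj (F : Fin S E D i g hh j p P) : Function.Injective (g ∘ hh) :=
  F.gb.1.comp F.hb.1

theorem Fin.getP (F : Fin S E D i g hh j p P) {x : ℕ} (hx : x ∈ P) :
    ∃ r < p, P.getD r 0 = x := by
  obtain ⟨r, hr, h1⟩ := mem_getD hx
  exact ⟨r, by rw [← F.Pl]; exact hr, h1⟩

theorem Fin.from (F : Fin S E D i g hh j p P) {s0 : ℕ}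
    (hno : ∀ s, s0 ≤ s → ∀ j' < j, ¬ Acts E (Nat.pair i (2 * j')) s) {s : ℕ} (hs : s0 ≤ s) :
    pj (pK (Sg S i E s)) j = p ∧ ∀ r < p, (pA (Sg S i E s)).getD r 0 = g r := by
  obtain ⟨s1, h1⟩ := F.sa
  have h2 := steps F.h (s0 := s) (fun t ht => hno t (by omega)) (le_max_left s s1)
  obtain ⟨h3, h4⟩ := h1 (max s s1) (le_max_right _ _)
  have h5 : pj (pK (Sg S i E s)) j = p := by rw [← h3]; exact (pj_congr h2.1).symm
  refine ⟨h5, fun r hr => ?_⟩
  rw [← h4 r hr]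
  exact (take_getD h2.2 (by rw [h5]; exact hr)).symm

/-- membership in the marginal from a realisation -/
theorem MG_of {x : PS} {p : ℕ} {P Y w : List ℕ} {g : ℕ → ℕ} (hpa : p ≤ (pA x).length)
    (hpre : ∀ r < p, (pA x).getD r 0 = g r)
    (hpar : ∀ r < p, P.getD r 0 < Y.length ∧ Y.getD (P.getD r 0) 0 = r)
    (hw : ∀ r < p, w.getD (P.getD r 0) 0 = g r)
    (h : ∃ a, S.Real (pC x) (pA x).length a ∧ sub a Y = w) : MG S x p Y w := by
  obtain ⟨a, h1, h2⟩ := h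
  refine ⟨a, h1, ?_, h2⟩
  rw [take_eq_iff (by rw [h1.1]; exact hpa) hpa]
  intro r hr
  obtain ⟨h3, h4⟩ := hpar r hr
  rw [hpre r hr, ← hw r hr, sub_eq_of h2 h3, h4]

/-- `h(0), ..., h(len - 1)` -/
def YL (hh : ℕ → ℕ) (len : ℕ) : List ℕ := (List.range len).map hh

theorem YL_len (hh : ℕ → ℕ) (len : ℕ) : (YL hh len).length = len := by simp [YL]

theorem YL_getD (hh : ℕ → ℕ) {len r : ℕ} (h : r < len) : (YL hh len).getD r 0 = hh r := by
  unfold YL
  rw [map_getD' hh (by simpa using h), range_getD h]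

theorem YL_map (g hh : ℕ → ℕ) (len : ℕ) : (YL hh len).map g = (List.range len).map (g ∘ hh) := by
  unfold YL; rw [List.map_map]

theorem Fin.okY_evt (F : Fin S E D i g hh j p P) {len : ℕ} (hlen : 0 < len)
    (hPl : ∀ x ∈ P, x < len) : ∃ s0, ∀ s, s0 ≤ s → okY (Sg S i E s) j (YL hh len) := by
  obtain ⟨s0, h0⟩ := lim_list F.gl (YL hh len)
  obtain ⟨s1, h1⟩ := F.sa
  refine ⟨max s0 s1, fun s hs => ⟨?_, ?_, (h0 s (by omega)).1, ?_⟩⟩
  · intro h2
    have := congrArg List.length h2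
    rw [YL_len] at this
    simp at this
    omega
  · exact List.nodup_range.map F.hb.1
  · rw [(h1 s (by omega)).1]
    intro r hr
    rw [← F.hP r hr]
    have h3 : P.getD r 0 ∈ P := getD_mem (by rw [F.Pl]; exact hr)
    exact List.mem_map_of_mem (List.mem_range.2 (hPl _ h3))

theorem Fin.hpar (F : Fin S E D i g hh j p P) {len : ℕ} (hPl : ∀ x ∈ P, x < len) :
    ∀ r < p, P.getD r 0 < (YL hh len).length ∧ (YL hh len).getD (P.getD r 0) 0 = r := by
  intro r hr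
  have h3 : P.getD r 0 ∈ P := getD_mem (by rw [F.Pl]; exact hr)
  have h4 := hPl _ h3
  exact ⟨by rw [YL_len]; exact h4, by rw [YL_getD _ h4, F.hP r hr]⟩

theorem Fin.availF_evt (F : Fin S E D i g hh j p P) (len : ℕ) :
    ∃ v s0, ∀ s, s0 ≤ s → ∀ s', (pD (Sg S i E s)).length ≤ s' →
      availF (Sg S i E s) (E s') j v (YL hh len) := by
  obtain ⟨v, hv⟩ := F.hj.fin len
  obtain ⟨s0, hs0⟩ := hv v le_rfl
  obtain ⟨s1, hs1⟩ := bits_lim F.h.hE v
  obtain ⟨s2, hs2⟩ := dlen_lim F.h (max v (max s0 s1))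
  refine ⟨v, s2, fun s hs s' hs' => ?_⟩
  have h1 := hs2 s hs
  have hd := dbits S E i s
  have h2 : (pD (Sg S i E s)).take v = (List.range v).map (chi D) := by
    rw [hd, bits_take _ (by omega), hs1 _ (by omega)]
  refine ⟨by omega, ?_, fun r hr => ?_⟩
  · rw [h2, hs1 s' (by omega)]
  · rw [YL_len] at hr
    rw [h2, YL_getD _ hr]
    exact hs0 _ (by omega) r hr

theorem Fin.Hav_evt (F : Fin S E D i g hh j p P) {len : ℕ} (hlen : 0 < len)
    (hPl : ∀ x ∈ P, x < len) : ∃ v s0, Hav S i E s0 (j, YL hh len, v, 0) ∧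
      (∀ s, s0 ≤ s → pj (pK (Sg S i E s)) j = p ∧ ∀ r < p, (pA (Sg S i E s)).getD r 0 = g r) ∧
      ∀ s, s0 ≤ s → ∀ j' < j + 1, ¬ Acts E (Nat.pair i (2 * j')) s := by
  obtain ⟨v, s0, h0⟩ := F.availF_evt len
  obtain ⟨s1, h1⟩ := F.okY_evt hlen hPl
  obtain ⟨s2, h2⟩ := F.st
  obtain ⟨s3, h3⟩ := t_lim F.h j
  obtain ⟨s4, h4⟩ := dlen_lim F.h (max s2 (encode ((j, YL hh len, v, 0) : Tup) + 1))
  obtain ⟨s5, h5⟩ := F.sa
  refine ⟨v, max s0 (max s1 (max s2 (max s3 (max s4 s5)))), fun s hs => ?_, fun s hs => ?_,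
    fun s hs => ?_⟩
  · have a4 := h4 s (by omega)
    refine ⟨by omega, fun s' hs' => ?_⟩
    exact ⟨h3 s (by omega), (h2 s' (by omega)).1, h1 s (by omega),
      Or.inl ⟨rfl, h0 s (by omega) s' hs'⟩⟩
  · exact h5 s (by omega)
  · exact (h2 s (by omega)).2

/-- complete formulas exist -/
theorem Fin.exists_complete (F : Fin S E D i g hh j p P) {len : ℕ} (hlen : 0 < len)
    (hPl : ∀ x ∈ P, x < len) : ∃ φ, S.Complete P len φ := by
  obtain ⟨v, s0, hu, h1, hno⟩ := F.Hav_evt hlen hPl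
  obtain ⟨hp, hpre⟩ := h1 s0 le_rfl
  have hI := inv S E i s0
  have hok : okY (Sg S i E s0) j (YL hh len) := ((hu s0 le_rfl).2 _ le_rfl).2.2.1
  have hty := fun w => MG_type F.h F.gl hu hno (w := w)
  have hself := MG_self F.h F.gl hu hno
  simp only [hp] at hty hself
  have hpa : p ≤ (pA (Sg S i E s0)).length := by rw [← hp]; exact pj_len S E i s0 j
  have hk : 0 < (pA (Sg S i E s0)).length := by have := hI.len; omega
  refine ⟨S.pr (S.cj (pC (Sg S i E s0))) (pA (Sg S i E s0)).length (YL hh len),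
    complete_of (π := g ∘ hh) (w0 := (YL hh len).map g) hlen hPl F.hpi F.inj ?_ ?_⟩
  · rw [← F.hpi _ _ (range_ne hlen), ← YL_map, S.prcj_s hk hI.wf hok.2.2.1 (by simp)]
    obtain ⟨b, hb1, _, hb3⟩ := hself
    exact ⟨b, hb1, hb3⟩
  · intro w w1 w2 w3 w4 n
    rw [S.prcj_s hk hI.wf hok.2.2.1 (by rw [w1, YL_len])] at w4
    refine hty w (MG_of hpa hpre (F.hpar hPl) (fun r hr => ?_) w4) n
    have h3 : P.getD r 0 ∈ P := getD_mem (by rw [F.Pl]; exact hr)
    rw [w3 _ h3]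
    show g (hh (P.getD r 0)) = g r
    rw [F.hP r hr]

end

end Pool.Agent.Helper750.DC
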