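import Pool.Agent.Helper750.DC.Prog

set_option autoImplicit false

/-! Convergence: the limit `g` is a decidable copy. -/

namespace Pool.Agent.Helper750.DC

open Encodable Pool.Agent.Helper446

section
variable {S : DS} {E : ℕ → Env} {D : Set ℕ} {i : ℕ}

/-- data of an even grant -/
structure GA (S : DS) (i : ℕ) (E : ℕ → Env) (s s' : ℕ) (c : Tup × ℕ × List ℕ) : Prop where
  le : s' ≤ s
  dl : (pD (Sg S i E s)).length ≤ s'
  cert : certA S i (Sg S i E s) (E s') c
  keep : ∀ t, s' ≤ t → t ≤ s → Keep i (pD (Sg S i E s)) (PA i (E s') c) (E t)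
  pend : pP (Sg S i E s) = some (PA i (E s') c)
  act : Acts E (Nat.pair i (2 * c.1.1)) s
  newD : NewD E i s (2 * c.1.1) c.1.2.2.2
  pres : ∀ t, s + 1 ≤ t → (E t).c (Nat.pair i (2 * c.1.1)) = (E s).c (Nat.pair i (2 * c.1.1)) →
        (E t).bits c.1.2.2.1 = (E (s + 1)).bits c.1.2.2.1
  hA : pA (Sg S i E (s + 1)) = c.2.2 ++ [lm c.2.2]
  hC : pC (Sg S i E (s + 1)) = (c.2.1, c.1.2.1) :: pC (Sg S i E s)
  hK : pK (Sg S i E (s + 1)) = padTake (pK (Sg S i E s)) c.1.1 ++ [c.2.2.length + 1]

/-- the possible changes of `(a, C, kc)` -/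
theorem step_or (h : Ctx S E D i) (s : ℕ) :
    (pA (Sg S i E (s + 1)) = pA (Sg S i E s) ∧ pC (Sg S i E (s + 1)) = pC (Sg S i E s) ∧
      pK (Sg S i E (s + 1)) = pK (Sg S i E s) ∧ pT (Sg S i E (s + 1)) = pT (Sg S i E s)) ∨
    (pA (Sg S i E (s + 1)) = pA (Sg S i E s) ++ [lm (pA (Sg S i E s))] ∧
      pC (Sg S i E (s + 1)) = f0 S (Sg S i E s) :: pC (Sg S i E s) ∧
      pK (Sg S i E (s + 1)) = pK (Sg S i E s) ∧ pT (Sg S i E (s + 1)) = pT (Sg S i E s) + 1 ∧
      (∀ c, encode c < (pD (Sg S i E s)).length → ¬ certB S i (Sg S i E s) (E (s + 1)) c) ∧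
      ¬ trig S i (Sg S i E s) (E (s + 1))) ∨
    ((∃ s' c, GA S i E s s' c) ∧ pT (Sg S i E (s + 1)) = pT (Sg S i E s)) := by
  have hx := tr S E i s
  generalize hx' : Sg S i E (s + 1) = x' at hx
  cases hx with
  | stay0 => exact Or.inl ⟨rfl, rfl, rfl, rfl⟩
  | stay1 => exact Or.inl ⟨rfl, rfl, rfl, rfl⟩
  | drop => exact Or.inl ⟨rfl, rfl, rfl, rfl⟩
  | issB => exact Or.inl ⟨rfl, rfl, rfl, rfl⟩
  | issA => exact Or.inl ⟨rfl, rfl, rfl, rfl⟩
  | com h1 h2 h3 => exact Or.inr (Or.inl ⟨rfl, rfl, rfl, rfl, h2, h3⟩)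
  | graB => exact Or.inl ⟨rfl, rfl, rfl, rfl⟩
  | graA p h1 h2 h3 h4 =>
    refine Or.inr (Or.inr ⟨?_, rfl⟩)
    obtain ⟨s', a1, a2, hc, a4⟩ := pend_inv s p h1
    obtain ⟨g1, g2, g3⟩ := gra_act h h1 h3
    rcases hc with ⟨c, hc, rfl⟩ | ⟨c, hc, rfl⟩
    · refine ⟨s', c, a1, a2, hc, a4, h1, g1, g2, g3, ?_, ?_, ?_⟩
      · rw [hx']; rfl
      · rw [hx']; rfl
      · rw [hx']
        show padTake _ (2 * c.1.1 / 2) ++ _ = _
        rw [Nat.mul_div_cancel_left _ (by norm_num)]
        rfl
    · exact absurd hc.1.1 h4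

theorem pad_getD {l : List ℕ} {j r n : ℕ} (h : r < j) :
    (padTake l j ++ [n]).getD r 0 = l.getD r 0 := by
  unfold padTake
  rw [List.getD_eq_getElem?_getD, List.getElem?_append_left (by simpa using h),
    List.getElem?_map, List.getElem?_range h]
  rfl

theorem pad_getD_self {l : List ℕ} {j n : ℕ} : (padTake l j ++ [n]).getD j 0 = n := by
  unfold padTake
  rw [List.getD_eq_getElem?_getD, List.getElem?_append_right (by simp)]
  simp

theorem pj_congr {K K' : List ℕ} {j : ℕ} (h : ∀ r < j, K.getD r 0 = K'.getD r 0) :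
    pj K j = pj K' j := by
  apply le_antisymm
  · rw [pj_le]; intro r hr; rw [h r hr]; exact pj_le.1 le_rfl r hr
  · rw [pj_le]; intro r hr; rw [← h r hr]; exact pj_le.1 le_rfl r hr

variable (S E i) in
theorem pj_len (s j : ℕ) : pj (pK (Sg S i E s)) j ≤ (pA (Sg S i E s)).length := by
  rw [pj_le]
  intro r _
  rcases Nat.lt_or_ge r (pK (Sg S i E s)).length with h | h
  · exact (inv S E i s).kc _ (getD_mem h)
  · rw [List.getD_eq_default _ _ h]; exact Nat.zero_le _

/-- if no level `< J` commits then the protected part stays -/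
theorem one_step (h : Ctx S E D i) {J s : ℕ}
    (hno : ∀ j < J, ¬ Acts E (Nat.pair i (2 * j)) s) :
    (∀ r < J, (pK (Sg S i E (s + 1))).getD r 0 = (pK (Sg S i E s)).getD r 0) ∧
    (pA (Sg S i E (s + 1))).take (pj (pK (Sg S i E s)) J) =
      (pA (Sg S i E s)).take (pj (pK (Sg S i E s)) J) := by
  have hl := pj_len S E i s J
  rcases step_or h s with ⟨h1, _, h2, _⟩ | ⟨h1, _, h2, _⟩ | ⟨⟨s', c, hg⟩, _⟩
  · rw [h1, h2]; exact ⟨fun _ _ => rfl, rfl⟩
  · rw [h1, h2]
    refine ⟨fun _ _ => rfl, ?_⟩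
    rw [List.take_append_of_le_length hl]
  · have hJ : J ≤ c.1.1 := by
      by_contra h1
      exact hno c.1.1 (by omega) hg.act
    refine ⟨fun r hr => ?_, ?_⟩
    · rw [hg.hK, pad_getD (by omega)]
    · rw [hg.hA]
      obtain ⟨_, _, h4, h5, _⟩ := hg.cert
      rw [List.take_append_of_le_length (by rw [h4.1]; exact hl)]
      exact take_le h5 (pj_mono _ hJ)

theorem steps (h : Ctx S E D i) {J s0 : ℕ}
    (hno : ∀ s, s0 ≤ s → ∀ j < J, ¬ Acts E (Nat.pair i (2 * j)) s) {s : ℕ} (hs : s0 ≤ s) :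
    (∀ r < J, (pK (Sg S i E s)).getD r 0 = (pK (Sg S i E s0)).getD r 0) ∧
    (pA (Sg S i E s)).take (pj (pK (Sg S i E s0)) J) =
      (pA (Sg S i E s0)).take (pj (pK (Sg S i E s0)) J) := by
  induction s, hs using Nat.le_induction with
  | base => exact ⟨fun _ _ => rfl, rfl⟩
  | succ s hs ih =>
    obtain ⟨h1, h2⟩ := one_step h (hno s hs)
    refine ⟨fun r hr => (h1 r hr).trans (ih.1 r hr), ?_⟩
    rw [pj_congr ih.1] at h2
    exact h2.trans ih.2

theorem evt_no (h : EnvProps E D) (i J : ℕ) :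
    ∃ s0, ∀ s, s0 ≤ s → ∀ j < J, ¬ Acts E (Nat.pair i (2 * j)) s := by
  obtain ⟨s0, h0⟩ := settle h i (2 * J)
  refine ⟨s0, fun s hs j hj ha => ?_⟩
  have h1 := (h0 s hs (2 * j) (by omega)).2
  have h2 := (h0 (s + 1) (by omega) (2 * j) (by omega)).2
  rw [ha.1] at h1
  rw [ha.2.1, ← h1] at h2
  exact absurd h2 (by simp)

theorem two_step (h : Ctx S E D i) {J s y : ℕ} (hy : y < pj (pK (Sg S i E s)) J) :
    y < pj (pK (Sg S i E (s + 1))) J := by
  have hl := pj_len S E i s J
  rcases step_or h s with ⟨_, _, h2, _⟩ | ⟨_, _, h2, _⟩ | ⟨⟨s', c, hg⟩, _⟩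
  · rw [h2]; exact hy
  · rw [h2]; exact hy
  · rw [hg.hK]
    rcases Nat.lt_or_ge c.1.1 J with hJ | hJ
    · rw [lt_pj]
      refine ⟨c.1.1, hJ, ?_⟩
      rw [pad_getD_self]
      have := hg.cert.2.2.1.1
      omega
    · rw [pj_congr (K' := pK (Sg S i E s)) fun r hr => pad_getD (by omega)]
      exact hy

theorem take_getD {a b : List ℕ} {p y : ℕ} (h : a.take p = b.take p) (hy : y < p) :
    a.getD y 0 = b.getD y 0 := by
  have := congrArg (fun l => l[y]?) h
  simp only [List.getElem?_take, if_pos hy] at this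
  rw [List.getD_eq_getElem?_getD, List.getD_eq_getElem?_getD, this]

/-- each position converges -/
theorem conv (h : Ctx S E D i) (y : ℕ) : ∃ s0, y < (pA (Sg S i E s0)).length ∧
    ∀ s, s0 ≤ s → (pA (Sg S i E s)).getD y 0 = (pA (Sg S i E s0)).getD y 0 := by
  obtain ⟨s1, hs1⟩ := progress h (y + 1)
  have hl : ∀ s, s1 ≤ s → y < (pA (Sg S i E s)).length := fun s hs => by
    have := t_mono S E i hs
    have := (inv S E i s).len
    omega
  by_cases hA : ∃ s s' c, s1 ≤ s ∧ GA S i E s s' c
  · obtain ⟨s2, s', c, hs2, hg⟩ := hA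
    have h1 : y < pj (pK (Sg S i E (s2 + 1))) (c.1.1 + 1) := by
      rw [lt_pj]
      refine ⟨c.1.1, Nat.lt_succ_self _, ?_⟩
      rw [hg.hK, pad_getD_self]
      have := hg.cert.2.2.1.1
      have := hl s2 hs2
      omega
    have h2 : ∀ t, s2 + 1 ≤ t → y < pj (pK (Sg S i E t)) (c.1.1 + 1) := by
      intro t ht
      induction t, ht using Nat.le_induction with
      | base => exact h1
      | succ t _ ih => exact two_step h ih
    obtain ⟨s3, hs3⟩ := evt_no h.hE i (c.1.1 + 1)
    refine ⟨max (s2 + 1) s3, hl _ (by omega), fun s hs => ?_⟩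
    have := (steps h (s0 := max (s2 + 1) s3) (fun t ht => hs3 t (by omega)) hs).2
    exact take_getD this (h2 _ (by omega))
  · push Not at hA
    refine ⟨s1, hl s1 le_rfl, fun s hs => ?_⟩
    induction s, hs using Nat.le_induction with
    | base => rfl
    | succ s hs ih =>
      rw [← ih]
      rcases step_or h s with ⟨h1, _⟩ | ⟨h1, _⟩ | ⟨⟨s', c, hg⟩, _⟩
      · rw [h1]
      · rw [h1, List.getD_eq_getElem?_getD, List.getElem?_append_left (hl s hs),
          ← List.getD_eq_getElem?_getD]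
      · exact absurd hg (hA s s' c hs)

theorem lm_add {a : List ℕ} {n : ℕ} (h : ∀ k < n, k ∈ a) : n ∈ a ++ [lm a] := by
  rw [List.mem_append, List.mem_singleton]
  obtain ⟨h1, h2⟩ := lm_spec a
  rcases lt_trichotomy n (lm a) with h3 | h3 | h3
  · exact Or.inl (h2 n h3)
  · exact Or.inr h3
  · exact absurd (h _ h3) h1

theorem mem_getD {a : List ℕ} {n : ℕ} (h : n ∈ a) : ∃ y < a.length, a.getD y 0 = n := by
  obtain ⟨y, hy, rfl⟩ := List.mem_iff_getElem.1 h
  exact ⟨y, hy, by rw [List.getD_eq_getElem?_getD, List.getElem?_eq_getElem hy]; rfl⟩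

/-- every number gets a position -/
theorem surj (h : Ctx S E D i) (n : ℕ) : ∃ y s0, y < (pA (Sg S i E s0)).length ∧
    ∀ s, s0 ≤ s → (pA (Sg S i E s)).getD y 0 = n := by
  induction n using Nat.strong_induction_on with
  | _ n IH =>
  -- a common stage for all smaller numbers
  have h0 : ∃ s0, ∀ k < n, ∃ y, y < (pA (Sg S i E s0)).length ∧
      ∀ s, s0 ≤ s → (pA (Sg S i E s)).getD y 0 = k := by
    have : ∀ N ≤ n, ∃ s0, ∀ k < N, ∃ y, y < (pA (Sg S i E s0)).length ∧
        ∀ s, s0 ≤ s → (pA (Sg S i E s)).getD y 0 = k := by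
      intro N
      induction N with
      | zero => intro _; exact ⟨0, fun k hk => by omega⟩
      | succ N ihN =>
        intro hN
        obtain ⟨s0, hs0⟩ := ihN (by omega)
        obtain ⟨y, s1, hy, hs1⟩ := IH N (by omega)
        refine ⟨max s0 s1, fun k hk => ?_⟩
        rcases Nat.lt_succ_iff_lt_or_eq.1 hk with h2 | h2
        · obtain ⟨y', hy', hs'⟩ := hs0 k h2
          exact ⟨y', hy'.trans_le (alen_mono S E i (le_max_left _ _)),
            fun s hs => hs' s (by omega)⟩
        · subst h2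
          exact ⟨y, hy.trans_le (alen_mono S E i (le_max_right _ _)),
            fun s hs => hs1 s (by omega)⟩
    exact this n le_rfl
  obtain ⟨s0, hs0⟩ := h0
  have hmem : ∀ s, s0 ≤ s → ∀ k < n, k ∈ pA (Sg S i E s) := by
    intro s hs k hk
    obtain ⟨y, hy, hy2⟩ := hs0 k hk
    rw [← hy2 s hs]
    exact getD_mem (hy.trans_le (alen_mono S E i hs))
  have hmem2 : ∀ s s' c, s0 ≤ s → GA S i E s s' c → ∀ k < n, k ∈ c.2.2 := by
    intro s s' c hs hg k hk
    obtain ⟨y, hy, hy2⟩ := hs0 k hk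
    have h1 := hy2 (s + 1) (by omega)
    have h2 : y < c.2.2.length := by
      rw [hg.cert.2.2.1.1]
      exact hy.trans_le (alen_mono S E i hs)
    rw [hg.hA, List.getD_eq_getElem?_getD, List.getElem?_append_left h2,
      ← List.getD_eq_getElem?_getD] at h1
    rw [← h1]
    exact getD_mem h2
  by_cases hA : ∃ s s' c, s0 ≤ s ∧ GA S i E s s' c
  · obtain ⟨s2, s', c, hs2, hg⟩ := hA
    have key : ∀ t, s2 + 1 ≤ t →
        n ∈ (pA (Sg S i E t)).take (pj (pK (Sg S i E t)) (c.1.1 + 1)) := by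
      intro t ht
      induction t, ht using Nat.le_induction with
      | base =>
        rw [List.take_of_length_le, hg.hA]
        · exact lm_add (hmem2 s2 s' c hs2 hg)
        · have h1 : c.2.2.length + 1 ≤ pj (pK (Sg S i E (s2 + 1))) (c.1.1 + 1) := by
            have : c.2.2.length < pj (pK (Sg S i E (s2 + 1))) (c.1.1 + 1) := by
              rw [lt_pj]
              exact ⟨c.1.1, Nat.lt_succ_self _, by rw [hg.hK, pad_getD_self]; omega⟩
            omega
          rw [hg.hA]
          simpa using h1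
      | succ t ht ih =>
        by_cases hact : ∃ j < c.1.1 + 1, Acts E (Nat.pair i (2 * j)) t
        · rcases step_or h t with ⟨h1, _, h2, _⟩ | ⟨h1, _, h2, _⟩ | ⟨⟨t', d, hd⟩, _⟩
          · rw [h1, h2]; exact ih
          · rw [h1, h2, List.take_append_of_le_length (pj_len S E i t _)]; exact ih
          · rcases Nat.lt_or_ge d.1.1 (c.1.1 + 1) with hJ | hJ
            · rw [List.take_of_length_le, hd.hA]
              · exact lm_add (hmem2 t t' d (by omega) hd)
              · have h1 : d.2.2.length + 1 ≤ pj (pK (Sg S i E (t + 1))) (c.1.1 + 1) := by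
                  have : d.2.2.length < pj (pK (Sg S i E (t + 1))) (c.1.1 + 1) := by
                    rw [lt_pj]
                    exact ⟨d.1.1, hJ, by rw [hd.hK, pad_getD_self]; omega⟩
                  omega
                rw [hd.hA]
                simpa using h1
            · have h2 : pj (pK (Sg S i E (t + 1))) (c.1.1 + 1) =
                  pj (pK (Sg S i E t)) (c.1.1 + 1) := by
                rw [hd.hK]
                exact pj_congr fun r hr => pad_getD (by omega)
              rw [h2, hd.hA]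
              obtain ⟨_, _, h4, h5, _⟩ := hd.cert
              rw [List.take_append_of_le_length (by rw [h4.1]; exact pj_len S E i t _)]
              rw [take_le h5 (pj_mono _ hJ)]
              exact ih
        · push Not at hact
          obtain ⟨h1, h2⟩ := one_step h (J := c.1.1 + 1) (s := t) hact
          rw [pj_congr h1, h2]
          exact ih
    obtain ⟨s3, hs3⟩ := evt_no h.hE i (c.1.1 + 1)
    have h1 := key (max (s2 + 1) s3) (by omega)
    obtain ⟨y, hy, hy2⟩ := mem_getD h1
    rw [List.length_take] at hy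
    have hy3 : y < (pA (Sg S i E (max (s2 + 1) s3))).length := by omega
    refine ⟨y, max (s2 + 1) s3, hy3, fun s hs => ?_⟩
    have := (steps h (s0 := max (s2 + 1) s3) (fun t ht => hs3 t (by omega)) hs).2
    rw [take_getD this (by omega), ← hy2]
    rw [List.getD_eq_getElem?_getD, List.getD_eq_getElem?_getD, List.getElem?_take,
      if_pos (by omega)]
  · push Not at hA
    obtain ⟨s1, hs1⟩ := progress h (pT (Sg S i E s0) + 1)
    have h1 : s0 ≤ s1 := by
      by_contra h2
      have := t_mono S E i (show s1 ≤ s0 by omega)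
      omega
    -- some regular commitment between s0 and s1
    have h2 : n ∈ pA (Sg S i E s1) := by
      by_contra h3
      have h4 : ∀ s, s0 ≤ s → s ≤ s1 → n ∉ pA (Sg S i E s) := by
        intro s hs hs1' hn
        apply h3
        clear h3
        induction s1, hs1' using Nat.le_induction with
        | base => exact hn
        | succ s1 hs2 ih2 =>
          have h5 : n ∈ pA (Sg S i E s1) := by
            have : ∀ t, s ≤ t → n ∈ pA (Sg S i E t) := by
              intro t ht
              induction t, ht using Nat.le_induction with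
              | base => exact hn
              | succ t ht ih =>
                rcases step_or h t with ⟨h1, _⟩ | ⟨h1, _⟩ | ⟨⟨t', d, hd⟩, _⟩
                · rw [h1]; exact ih
                · rw [h1]; exact List.mem_append_left _ ih
                · exact absurd hd (hA t t' d (by omega))
            exact this s1 hs2
          rcases step_or h s1 with ⟨h1, _⟩ | ⟨h1, _⟩ | ⟨⟨t', d, hd⟩, _⟩
          · rw [h1]; exact h5
          · rw [h1]; exact List.mem_append_left _ h5
          · exact absurd hd (hA s1 t' d (by omega))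
      have h5 : ∀ s, s0 ≤ s → s ≤ s1 → pT (Sg S i E s) = pT (Sg S i E s0) := by
        intro s hs hs1'
        induction s, hs using Nat.le_induction with
        | base => rfl
        | succ s hs ih =>
          have ih' := ih (by omega)
          rcases step_or h s with ⟨_, _, _, h1⟩ | ⟨h1, _⟩ | ⟨_, h1⟩
          · rw [h1, ih']
          · exfalso
            apply h4 (s + 1) (by omega) hs1'
            rw [h1]
            exact lm_add (hmem s hs)
          · rw [h1, ih']
      have := h5 s1 h1 le_rfl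
      omega
    obtain ⟨y, hy, hy2⟩ := mem_getD h2
    refine ⟨y, s1, hy, fun s hs => ?_⟩
    induction s, hs using Nat.le_induction with
    | base => exact hy2
    | succ s hs ih =>
      rw [← ih]
      rcases step_or h s with ⟨h1, _⟩ | ⟨h1, _⟩ | ⟨⟨s', c, hg⟩, _⟩
      · rw [h1]
      · rw [h1, List.getD_eq_getElem?_getD,
          List.getElem?_append_left (hy.trans_le (alen_mono S E i hs)),
          ← List.getD_eq_getElem?_getD]
      · exact absurd hg (hA s s' c (by omega))

/-- `g` is the limit -/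
def IsLim (S : DS) (i : ℕ) (E : ℕ → Env) (g : ℕ → ℕ) : Prop :=
  ∀ y, ∃ s0, ∀ s, s0 ≤ s → y < (pA (Sg S i E s)).length ∧ (pA (Sg S i E s)).getD y 0 = g y

theorem exists_g (h : Ctx S E D i) : ∃ g : ℕ → ℕ, Function.Bijective g ∧ IsLim S i E g := by
  choose s0 h1 h2 using conv h
  refine ⟨fun y => (pA (Sg S i E (s0 y))).getD y 0, ⟨?_, ?_⟩, ?_⟩
  · intro y y' hyy
    simp only at hyy
    set s := max (s0 y) (s0 y') with hs
    have a1 := h2 y s (by omega)
    have a2 := h2 y' s (by omega)
    rw [← a1, ← a2] at hyy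
    exact getD_inj (inv S E i s).nd ((h1 y).trans_le (alen_mono S E i (by omega)))
      ((h1 y').trans_le (alen_mono S E i (by omega))) hyy
  · intro n
    obtain ⟨y, s1, hy, hs1⟩ := surj h n
    refine ⟨y, ?_⟩
    simp only
    rw [← h2 y (max (s0 y) s1) (by omega)]
    exact hs1 _ (by omega)
  · intro y
    exact ⟨s0 y, fun s hs => ⟨(h1 y).trans_le (alen_mono S E i hs), h2 y s hs⟩⟩

theorem lim_list {g : ℕ → ℕ} (hg : IsLim S i E g) (l : List ℕ) :
    ∃ s0, ∀ s, s0 ≤ s → (∀ y ∈ l, y < (pA (Sg S i E s)).length) ∧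
      sub (pA (Sg S i E s)) l = l.map g := by
  induction l with
  | nil => exact ⟨0, fun s _ => ⟨by simp, rfl⟩⟩
  | cons y l ih =>
    obtain ⟨s0, h0⟩ := ih
    obtain ⟨s1, h1⟩ := hg y
    refine ⟨max s0 s1, fun s hs => ?_⟩
    obtain ⟨a1, a2⟩ := h0 s (by omega)
    obtain ⟨b1, b2⟩ := h1 s (by omega)
    refine ⟨fun z hz => ?_, ?_⟩
    · rcases List.mem_cons.1 hz with h3 | h3
      · rw [h3]; exact b1
      · exact a1 z h3
    · show (pA (Sg S i E s)).getD y 0 :: sub (pA (Sg S i E s)) l = g y :: l.map g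
      rw [b2, a2]

theorem true_lim {g : ℕ → ℕ} (hg : IsLim S i E g) {s : ℕ} {f : ℕ × List ℕ}
    (hf : f ∈ pC (Sg S i E s)) : S.H f.1 (f.2.map g) := by
  obtain ⟨s0, h0⟩ := lim_list hg f.2
  obtain ⟨_, h1⟩ := h0 (max s s0) (by omega)
  rw [← h1]
  exact (inv S E i (max s s0)).cs f (C_mono S E i (le_max_left _ _) hf)

theorem decided (h : Ctx S E D i) (n : ℕ) {l : List ℕ} (hl : l ≠ []) :
    ∃ s, (n, l) ∈ pC (Sg S i E s) ∨ (S.nt n, l) ∈ pC (Sg S i E s) := by
  classical
  obtain ⟨M, hM⟩ : ∃ M, ∀ y ∈ l, y ≤ M := ⟨l.foldr max 0, foldr_max_le.1 le_rfl⟩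
  set T := Nat.pair (Nat.pair n (encode l)) M with hT
  have hex : ∃ s, T + 1 ≤ pT (Sg S i E s) := progress h (T + 1)
  have h1 := Nat.find_spec hex
  have h2 := fun m => @Nat.find_min _ _ hex m
  generalize Nat.find hex = s at h1 h2
  rcases Nat.eq_zero_or_pos s with h3 | h3
  · rw [h3] at h1
    exact absurd h1 (by simp [Sg, init, pT])
  · obtain ⟨s, rfl⟩ : ∃ t, s = t + 1 := ⟨s - 1, by omega⟩
    have h4 := h2 s (Nat.lt_succ_self s)
    refine ⟨s + 1, ?_⟩
    rcases step_or h s with ⟨_, _, _, a1⟩ | ⟨_, a1, _, a2, _⟩ | ⟨_, a1⟩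
    · omega
    · have h5 : pT (Sg S i E s) = T := by omega
      have h6 : nxt (Sg S i E s) = (n, l) := by
        unfold nxt
        rw [h5, hT]
        simp
      have hlen := (inv S E i s).len
      have hMT : M ≤ T := Nat.right_le_pair _ _
      rw [a1]
      rcases f0_dec S h6 hl (fun y hy => by have := hM y hy; omega) with h7 | h7
      · rw [h7]; exact Or.inl List.mem_cons_self
      · rw [h7]; exact Or.inr List.mem_cons_self
    · omega

theorem copy_g (h : Ctx S E D i) {g : ℕ → ℕ} (hb : Function.Bijective g)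
    (hg : IsLim S i E g) : S.Copy g := by
  refine ⟨hb, ?_⟩
  have hS := c_Sg S i h.hE.comp
  have hmem : ∀ (F : ℕ × List ℕ → ℕ × List ℕ), Computable F →
      REPred fun p : ℕ × List ℕ => ∃ s, F p ∈ pC (Sg S i E s) := by
    intro F hF
    refine RE.exN (p := fun (p : ℕ × List ℕ) s => F p ∈ pC (Sg S i E s)) ?_
    have h1 : Computable fun x : (ℕ × List ℕ) × ℕ => F x.1 := hF.comp Computable.fst
    have h2 : Computable fun x : (ℕ × List ℕ) × ℕ => Sg S i E x.2 := hS.comp Computable.snd
    exact (RE.cp_mem h1 (by fun_prop)).to_re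
  have hnil : ComputablePred fun p : ℕ × List ℕ => p.2 = [] := RE.cp_eq (by fun_prop) (by fun_prop)
  have hH : ComputablePred fun p : ℕ × List ℕ => S.H p.1 [] := cp_H S (by fun_prop) (by fun_prop)
  refine RE.cp_of_re ?_ ?_
  · refine (RE.or (RE.and hnil.to_re hH.to_re) (RE.and (cp_not hnil).to_re
      (hmem id Computable.id))).of_eq fun p => ?_
    obtain ⟨n, l⟩ := p
    constructor
    · rintro (⟨h1, h2⟩ | ⟨h1, s, hs⟩)
      · simp only at h1 h2
        subst h1
        exact h2
      · exact true_lim hg hs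
    · intro h1
      by_cases hl : l = []
      · subst hl; exact Or.inl ⟨rfl, h1⟩
      · right
        refine ⟨hl, ?_⟩
        obtain ⟨s, hs | hs⟩ := decided h n hl
        · exact ⟨s, hs⟩
        · have := true_lim hg hs
          rw [S.nt_s] at this
          exact absurd h1 this
  · have hF : Computable fun p : ℕ × List ℕ => (S.nt p.1, p.2) := by fun_prop
    refine (RE.or (RE.and hnil.to_re (cp_not hH).to_re) (RE.and (cp_not hnil).to_re
      (hmem _ hF))).of_eq fun p => ?_
    obtain ⟨n, l⟩ := p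
    constructor
    · rintro (⟨h1, h2⟩ | ⟨h1, s, hs⟩)
      · simp only at h1 h2
        subst h1
        exact h2
      · have := true_lim hg hs
        rw [S.nt_s] at this
        exact this
    · intro h1
      by_cases hl : l = []
      · subst hl; exact Or.inl ⟨rfl, h1⟩
      · right
        refine ⟨hl, ?_⟩
        obtain ⟨s, hs | hs⟩ := decided h n hl
        · exact absurd (true_lim hg hs) h1
        · exact ⟨s, hs⟩

end

end Pool.Agent.Helper750.DC
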