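import Pool.Agent.Helper446.Comp
import Pool.Agent.Helper743.Oracle
import Pool.Agent.Helper750.DC.Base

set_option autoImplicit false

namespace Pool.Agent.Helper750.DC

/-! ### The abstract interface for a decidable structure -/

/-- Abstract decidable structure: `H n l` means that the `n`-th formula holds of the tuple `l`. -/
structure DS where
  H : ℕ → List ℕ → Prop
  comp : ComputablePred fun p : ℕ × List ℕ => H p.1 p.2
  nt : ℕ → ℕ
  nt_c : Computable nt
  nt_s : ∀ n l, H (nt n) l ↔ ¬ H n l
  an : ℕ → ℕ → ℕ
  an_c : Computable fun p : ℕ × ℕ => an p.1 p.2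
  an_s : ∀ m n l, H (an m n) l ↔ H m l ∧ H n l
  /-- renaming: the formula `n` for the subtuple with indices `Y` -/
  lf : ℕ → List ℕ → ℕ
  lf_c : Computable fun p : ℕ × List ℕ => lf p.1 p.2
  lf_s : ∀ n Y a, Y ≠ [] → (∀ y ∈ Y, y < a.length) →
    (H (lf n Y) a ↔ H n (Y.map fun y => a.getD y 0))
  /-- projection: there is a tuple of `k` distinct elements satisfying `n` whose subtuple with
  indices `Y` is the given one -/
  pr : ℕ → ℕ → List ℕ → ℕ
  pr_c : Computable fun p : (ℕ × ℕ) × List ℕ => pr p.1.1 p.1.2 p.2
  pr_s : ∀ n k Y w, 0 < k → (∀ y ∈ Y, y < k) → w.length = Y.length →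
    (H (pr n k Y) w ↔ ∃ a : List ℕ, a.length = k ∧ a.Nodup ∧ H n a ∧
      (Y.map fun y => a.getD y 0) = w)

/-- `g` presents a decidable copy of `S`. -/
def DS.Copy (S : DS) (g : ℕ → ℕ) : Prop :=
  Function.Bijective g ∧ ComputablePred fun p : ℕ × List ℕ => S.H p.1 (p.2.map g)

/-- `x` computes an isomorphism from `S` onto every decidable copy. -/
def DS.CatH (S : DS) (x : ℕ → ℕ) : Prop :=
  ∀ g, S.Copy g → ∃ h : ℕ → ℕ, Function.Bijective h ∧ TLe h x ∧
    ∀ n l, l ≠ [] → (S.H n ((l.map h).map g) ↔ S.H n l)

/-- `φ` is (the number of) a formula which is true of `(0, ..., m-1)` and isolates its type over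
the parameters in `P`. -/
def DS.Complete (S : DS) (P : List ℕ) (m φ : ℕ) : Prop :=
  S.H φ (List.range m) ∧ ∀ w : List ℕ, w.length = m → w.Nodup → (∀ x ∈ P, w.getD x 0 = x) →
    S.H φ w → ∀ n, S.H n w ↔ S.H n (List.range m)

/-! ### The environment provided by the priority construction -/

/-- A state of the construction of the set: the finite set `D_s`, a table giving for each of the
first requirements the stage of its last cancellation and its status, and the common stage of
the last cancellation of all other requirements (whose status is `false`). -/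
abbrev Env := List ℕ × (List (ℕ × Bool) × ℕ)

/-- stage of the last cancellation of requirement `n` -/
def Env.c (E : Env) (n : ℕ) : ℕ := (E.2.1.getD n (E.2.2, false)).1

/-- status of requirement `n`: `true` if it has acted since its last cancellation -/
def Env.st (E : Env) (n : ℕ) : Bool := (E.2.1.getD n (E.2.2, false)).2

/-- the witness of requirement `n` -/
def Env.z (E : Env) (n : ℕ) : ℕ := Nat.pair n (E.c n)

/-- the first `v` bits of `D_s` -/
def Env.bits (E : Env) (v : ℕ) : List ℕ :=
  (List.range v).map fun x => if x ∈ E.1 then 1 else 0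

/-- A request: `some (m, v, q)`. If `m` is odd, requirement `m` (and `q = 0`) wants to put its
witness into `D` and to preserve the first `v` bits. If `m` is even, requirement `m` wants to
preserve the first `v` bits; if moreover `q = m' + 1` then it first removes the witness of the
requirement `m'` from `D`. -/
abbrev Req := Option (ℕ × ℕ × ℕ)

/-- The history up to stage `s`. -/
def hist (E : ℕ → Env) (s : ℕ) : List Env := (List.range (s + 1)).map E

/-- The request `(m, v, q)` of process `i` made at stage `r` is valid at stage `s`. -/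
def Valid (E : ℕ → Env) (Γ : List Env → Req) (i r s m v q : ℕ) : Prop :=
  r ≤ s ∧ v ≤ s ∧ Γ (hist E r) = some (m, v, q) ∧ (E s).st (Nat.pair i m) = false ∧
  (∀ t, r ≤ t → t ≤ s → (E t).bits v = (E r).bits v ∧
    (E t).c (Nat.pair i m) = (E r).c (Nat.pair i m)) ∧
  (m % 2 = 1 → q = 0) ∧
  ∀ m', q = m' + 1 → m < m' ∧ m' % 2 = 1 ∧ ∀ t, r ≤ t → t ≤ s →
    (E t).st (Nat.pair i m') = true ∧ (E t).c (Nat.pair i m') = (E r).c (Nat.pair i m')

/-- The change of the finite set `D_s` when requirement `m` of process `i` acts. -/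
def NewD (E : ℕ → Env) (i s m q : ℕ) : Prop :=
  ∀ x, x ∈ (E (s + 1)).1 ↔
    if m % 2 = 1 then x ∈ (E s).1 ∨ x = (E s).z (Nat.pair i m)
    else if q = 0 then x ∈ (E s).1
    else x ∈ (E s).1 ∧ x ≠ (E s).z (Nat.pair i (q - 1))

/-- Requirement `n` acts at stage `s`. -/
def Acts (E : ℕ → Env) (n s : ℕ) : Prop :=
  (E s).st n = false ∧ (E (s + 1)).st n = true ∧ (E (s + 1)).c n = (E s).c n ∧
  (∀ n' < n, (E (s + 1)).st n' = (E s).st n' ∧ (E (s + 1)).c n' = (E s).c n') ∧
  ∀ n', n < n' → (E (s + 1)).st n' = false ∧ (E (s + 1)).c n' = s + 1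

/-- The properties of the environment. `D` is the final set. -/
structure EnvProps (E : ℕ → Env) (D : Set ℕ) : Prop where
  comp : Computable E
  c_le : ∀ s n, (E s).c n ≤ s
  st0 : ∀ n, (E 0).st n = false
  /-- `D` is the limit of the `D_s` -/
  lim : ∀ x, ∃ s0, ∀ s, s0 ≤ s → (x ∈ (E s).1 ↔ x ∈ D)
  /-- `D` is d.c.e. -/
  dce : ∃ A B : Set ℕ, REPred (· ∈ A) ∧ REPred (· ∈ B) ∧ D = A \ B
  /-- every requirement settles -/
  fin : ∀ n, ∃ s0, ∀ s, s0 ≤ s → (E s).c n = (E s0).c n ∧ (E s).st n = (E s0).st n
  /-- at every stage at most one requirement acts, and nothing else changes -/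
  step : ∀ s, E (s + 1) = E s ∨ ∃ n, Acts E n s
  /-- the witness of a requirement which has not acted since its last cancellation is not
  in `D_s` -/
  zout : ∀ s n, (E s).st n = false → (E s).z n ∉ (E s).1
  /-- the witness of an odd requirement which has acted since its last cancellation is
  in `D_s` -/
  zin : ∀ s n, n.unpair.2 % 2 = 1 → (E s).st n = true → (E s).z n ∈ (E s).1
  /-- Every process `Γ` is run under some index `i`, and it knows this index. -/
  proc : ∀ Γ : ℕ → List Env → Req, Computable (fun p : ℕ × List Env => Γ p.1 p.2) → ∃ i,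
    /- if a requirement of the process acts then this is due to a valid request -/
    (∀ m s, Acts E (Nat.pair i m) s →
      ∃ r v q, Valid E (Γ i) i r s m v q ∧ NewD E i s m q ∧
        /- and the bits below `v` are preserved until the requirement is cancelled -/
        ∀ t, s + 1 ≤ t → (E t).c (Nat.pair i m) = (E s).c (Nat.pair i m) →
          (E t).bits v = (E (s + 1)).bits v) ∧
    /- no request is valid forever -/
    ∀ m v q r, ¬ ∀ s, r ≤ s → v ≤ s → Valid E (Γ i) i s s m v q ∧ (E s).bits v = (E r).bits v ∧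
      (E s).c (Nat.pair i m) = (E r).c (Nat.pair i m) ∧
      ∀ m', q = m' + 1 → (E s).c (Nat.pair i m') = (E r).c (Nat.pair i m')

end Pool.Agent.Helper750.DC
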