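/- Setup: in /workdir/pool fetch the imports:
   cd /workdir/pool/outputs/live; git fetch -q origin main; for f in Helper750/DC/Defs Helper446/RE Helper446/Comp Helper743/Oracle; do mkdir -p /workdir/pool/Pool/Agent/$(dirname $f); git show origin/main:Pool/Agent/$f.lean > /workdir/pool/Pool/Agent/$f.lean; done
   then put this file as Pool/Agent/Helper750/DC/X.lean and `lake build`. Do not change Defs.lean. Split into several files if you like, but return ONE file. -/
import Pool.Agent.Helper750.DC.Defs
set_option autoImplicit false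
namespace Pool.Agent.Helper750.DC

namespace J3

open Pool.Agent.Helper446.RE Pool.Agent.Helper743

theorem getD_range {n y : ℕ} (h : y < n) : (List.range n).getD y 0 = y := by
  rw [List.getD_eq_getElem _ _ (by simpa using h)]
  simp

theorem map_getD_range (T : List ℕ) (n : ℕ) (h : ∀ y ∈ T, y < n) :
    (T.map fun y => (List.range n).getD y 0) = T := by
  conv_rhs => rw [← List.map_id T]
  exact List.map_congr_left (fun y hy => getD_range (h y hy))

theorem range_map_getD (a : List ℕ) (N : ℕ) (hN : N ≤ a.length) :
    ((List.range N).map fun y => a.getD y 0) = a.take N := by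
  apply List.ext_getElem
  · simp [hN]
  · intro i h1 h2
    have h3 : i < N := by simpa using h1
    rw [List.getElem_map, List.getElem_range, List.getElem_take,
      List.getD_eq_getElem _ _ (by omega)]

theorem exists_bound (T : List ℕ) : ∃ B, ∀ y ∈ T, y < B := by
  refine ⟨T.sum + 1, fun y hy => ?_⟩
  have := List.single_le_sum (fun _ _ => Nat.zero_le _) y hy
  omega

theorem getD_map_lt (g : ℕ → ℕ) (w : List ℕ) {x : ℕ} (hx : x < w.length) :
    (w.map g).getD x 0 = g (w.getD x 0) := by
  rw [List.getD_eq_getElem _ _ (by simpa using hx), List.getD_eq_getElem _ _ hx, List.getElem_map]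

section

variable (S : DS) (P : List ℕ) (M : ℕ) (X : ℕ → ℕ) (g : ℕ → ℕ)

/-- good tuples -/
def Good (w : List ℕ) : Prop :=
  M ≤ w.length ∧ w.Nodup ∧ (∀ x ∈ P, g (w.getD x 0) = x) ∧ S.H (X (w.length - M)) (w.map g)

variable {S P M X g}

theorem types (hP : ∀ x ∈ P, x < M) (hX : ∀ i, S.Complete P (M + i) (X i))
    (hg : Function.Injective g) {w : List ℕ} (hw : Good S P M X g w) (n : ℕ) :
    S.H n (w.map g) ↔ S.H n (List.range w.length) := by
  obtain ⟨h1, h2, h3, h4⟩ := hw
  have e : M + (w.length - M) = w.length := by omega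
  have := (hX (w.length - M)).2 (w.map g) (by rw [List.length_map, e]) (h2.map hg)
    (fun x hx => by
      rw [getD_map_lt g w ((hP x hx).trans_le h1)]
      exact h3 x hx) h4 n
  rwa [e] at this

theorem ext (hM : 0 < M) (hP : ∀ x ∈ P, x < M) (hX : ∀ i, S.Complete P (M + i) (X i))
    (hg : Function.Bijective g) {w : List ℕ} (hw : Good S P M X g w) (k : ℕ) :
    ∃ v : List ℕ, Good S P M X g (w ++ v) ∧ k ∈ w ++ v := by
  by_cases hk : k ∈ w
  · exact ⟨[], by rw [List.append_nil]; exact ⟨hw, hk⟩⟩
  obtain ⟨h1, h2, h3, h4⟩ := id hw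
  set N := w.length with hN
  set T : List ℕ := w.map g ++ [g k] with hT
  have hTlen : T.length = N + 1 := by rw [hT]; simp [hN]
  have hTnd : T.Nodup := by
    have e : T = (w ++ [k]).map g := by rw [hT]; simp
    rw [e]
    apply List.Nodup.map hg.1
    rw [List.nodup_append]
    refine ⟨h2, List.nodup_singleton k, ?_⟩
    intro a ha b hb hab
    rw [List.mem_singleton] at hb
    rw [hab, hb] at ha
    exact hk ha
  have hTne : T ≠ [] := by
    intro h
    rw [h] at hTlen
    simp at hTlen
  have hTw : T.take N = w.map g := by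
    rw [hT]
    rw [List.take_left' (by simp [hN])]
  obtain ⟨B, hB⟩ := exists_bound T
  set j0 := B with hj0
  have hTlt : ∀ y ∈ T, y < M + j0 := fun y hy => by have := hB y hy; omega
  set φ := S.pr (X j0) (M + j0) T with hφ
  have hφT : S.H φ T := by
    rw [hφ, S.pr_s _ _ _ _ (by omega) hTlt rfl]
    exact ⟨List.range (M + j0), by simp, List.nodup_range, (hX j0).1, map_getD_range T _ hTlt⟩
  have hχ : S.H (S.pr φ (N + 1) (List.range N)) (w.map g) := by
    rw [S.pr_s _ _ _ _ (by omega) (fun y hy => by
      have := List.mem_range.1 hy; omega) (by simp [hN])]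
    refine ⟨T, hTlen, hTnd, hφT, ?_⟩
    rw [range_map_getD T N (by omega)]
    exact hTw
  rw [types hP hX hg.1 hw, ← hN, S.pr_s _ _ _ _ (by omega) (fun y hy => by
      have := List.mem_range.1 hy; omega) (by simp)] at hχ
  obtain ⟨a, ha1, ha2, ha3, ha4⟩ := hχ
  rw [range_map_getD a N (by omega)] at ha4
  set y0 := a.getD N 0 with hy0
  have haeq : a = List.range N ++ [y0] := by
    have h5 := range_map_getD a a.length le_rfl
    rw [List.take_length, ha1, List.range_succ, List.map_append, range_map_getD a N (by omega),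
      ha4] at h5
    rw [← h5]
    simp [hy0]
  have haN : ∀ x, x < N → a.getD x 0 = x := by
    intro x hx
    rw [haeq, List.getD_append _ _ _ _ (by simpa using hx), getD_range hx]
  rw [hφ, S.pr_s _ _ _ _ (by omega) hTlt (by rw [ha1, hTlen])] at ha3
  obtain ⟨b, hb1, hb2, hb3, hb4⟩ := ha3
  have hbP : ∀ x ∈ P, b.getD x 0 = x := by
    intro x hx
    have hxN : x < N := (hP x hx).trans_le h1
    have e1 : T.getD x 0 = x := by
      rw [hT, List.getD_append _ _ _ _ (by simpa [hN] using hxN), getD_map_lt g w hxN]
      exact h3 x hx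
    have e2 : (T.map fun y => b.getD y 0).getD x 0 = b.getD (T.getD x 0) 0 :=
      getD_map_lt (fun y => b.getD y 0) T (by omega)
    rw [e1, hb4, haN x hxN] at e2
    exact e2.symm
  have hbtypes := (hX j0).2 b hb1 hb2 hbP hb3
  set j := y0 + N + 1 with hj
  have halt : ∀ y ∈ a, y < M + j := by
    intro y hy
    rw [haeq, List.mem_append, List.mem_range, List.mem_singleton] at hy
    omega
  set ψ := S.pr (X j) (M + j) a with hψ
  have hψa : S.H ψ a := by
    rw [hψ, S.pr_s _ _ _ _ (by omega) halt rfl]
    exact ⟨List.range (M + j), by simp, List.nodup_range, (hX j).1, map_getD_range a _ halt⟩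
  have hψT : S.H ψ T := by
    have e1 := S.lf_s ψ T b hTne (fun y hy => by rw [hb1]; exact hTlt y hy)
    rw [hb4] at e1
    have e2 := S.lf_s ψ T (List.range (M + j0)) hTne (fun y hy => by
      rw [List.length_range]; exact hTlt y hy)
    rw [map_getD_range T _ hTlt] at e2
    exact e2.1 ((hbtypes _).1 (e1.2 hψa))
  rw [hψ, S.pr_s _ _ _ _ (by omega) halt (by rw [ha1, hTlen])] at hψT
  obtain ⟨c, hc1, hc2, hc3, hc4⟩ := hψT
  rw [haeq, List.map_append, range_map_getD c N (by omega), hT] at hc4
  have hc5 := List.append_inj hc4 (by simp [hN]; omega)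
  have hc6 : c.take N = w.map g := hc5.1
  have hc7 : c.getD y0 0 = g k := by
    have := hc5.2
    simpa using this
  set gi : ℕ → ℕ := fun x => (Equiv.ofBijective g hg).symm x with hgi
  have hgi1 : ∀ x, g (gi x) = x := (Equiv.ofBijective g hg).apply_symm_apply
  have hgi2 : ∀ x, gi (g x) = x := (Equiv.ofBijective g hg).symm_apply_apply
  have hgiinj : Function.Injective gi := (Equiv.ofBijective g hg).symm.injective
  set c' := c.map gi with hc'
  have hc'g : c'.map g = c := by
    rw [hc', List.map_map]
    conv_rhs => rw [← List.map_id c]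
    exact List.map_congr_left fun x _ => hgi1 x
  have hc't : c'.take N = w := by
    rw [hc', ← List.map_take, hc6, List.map_map]
    conv_rhs => rw [← List.map_id w]
    exact List.map_congr_left fun x _ => hgi2 x
  have hc'len : c'.length = M + j := by rw [hc', List.length_map, hc1]
  refine ⟨c'.drop N, ?_, ?_⟩
  · have e : w ++ c'.drop N = c' := by
      conv_lhs => rw [← hc't]
      exact List.take_append_drop N c'
    rw [e]
    refine ⟨by omega, hc2.map hgiinj, ?_, ?_⟩
    · intro x hx
      have hxN : x < N := (hP x hx).trans_le h1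
      have e3 : c'.getD x 0 = w.getD x 0 := by
        conv_rhs => rw [← hc't]
        rw [List.getD_eq_getElem _ _ (by omega),
          List.getD_eq_getElem _ _ (by rw [List.length_take]; omega), List.getElem_take]
      rw [e3]
      exact h3 x hx
    · rw [hc'g, hc'len]
      have : M + j - M = j := by omega
      rw [this]
      exact hc3
  · have e : w ++ c'.drop N = c' := by
      conv_lhs => rw [← hc't]
      exact List.take_append_drop N c'
    rw [e, hc', List.mem_map]
    refine ⟨g k, ?_, hgi2 k⟩
    rw [← hc7, List.getD_eq_getElem _ _ (by omega)]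
    exact List.getElem_mem _

/-! computability -/

theorem cp_and {α : Type*} [Primcodable α] {p q : α → Prop} (hp : ComputablePred p)
    (hq : ComputablePred q) : ComputablePred fun a => p a ∧ q a := by
  obtain ⟨f, hf, rfl⟩ := ComputablePred.computable_iff.1 hp
  obtain ⟨h, hh, rfl⟩ := ComputablePred.computable_iff.1 hq
  refine ComputablePred.computable_iff.2 ⟨fun a => f a && h a, cand hf hh, ?_⟩
  funext a
  simp

theorem cp_nodup' {α : Type*} [Primcodable α] {l : α → List ℕ} (hl : Computable l) :
    ComputablePred fun a => (l a).Nodup := by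
  refine cp_of_re (cp_nodup hl) ?_
  have h : REPred fun a => ∃ i : ℕ, ∃ j : ℕ, (j < i ∧ i < (l a).length) ∧ (l a)[j]? = (l a)[i]? := by
    refine exN (p := fun a i => ∃ j : ℕ, (j < i ∧ i < (l a).length) ∧ (l a)[j]? = (l a)[i]?) ?_
    refine exN (p := fun (x : α × ℕ) j => (j < x.2 ∧ x.2 < (l x.1).length) ∧
      (l x.1)[j]? = (l x.1)[x.2]?) ?_
    refine and (and (lt ?_ ?_) (lt ?_ ?_)) (eq ?_ ?_) <;> fun_prop
  refine h.of_eq fun a => ?_
  rw [List.nodup_iff_getElem?_ne_getElem?]
  push Not
  constructor
  · rintro ⟨i, j, ⟨h1, h2⟩, h3⟩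
    exact ⟨j, i, h1, h2, h3⟩
  · rintro ⟨i, j, h1, h2, h3⟩
    exact ⟨j, i, ⟨h1, h2⟩, h3⟩

theorem cp_table {α : Type*} [Primcodable α] {l : α → List ℕ} (hl : Computable l) (u : ℕ → ℕ)
    (Q : List ℕ) : ComputablePred fun a => ∀ x ∈ Q, (l a).getD x 0 = u x := by
  induction Q with
  | nil =>
    refine (cp_eq (Computable.const (0 : ℕ)) (Computable.const (0 : ℕ))).of_eq fun a => ?_
    simp
  | cons y Q ih =>
    have h1 : ComputablePred fun a => (l a)[y]?.getD 0 = u y :=
      cp_eq (Computable.option_getD (cgetElem hl (cconst y)) (cconst 0)) (cconst (u y))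
    refine (cp_and h1 ih).of_eq fun a => ?_
    rw [List.forall_mem_cons, List.getD_eq_getElem?_getD]

/-- the decidable condition -/
def GoodA (S : DS) (P : List ℕ) (M : ℕ) (g : ℕ → ℕ) (q : ℕ) (w : List ℕ) : Prop :=
  M ≤ w.length ∧ w.Nodup ∧ (∀ x ∈ P, g (w.getD x 0) = x) ∧ S.H q (w.map g)

theorem cp_goodA (hg : S.Copy g) {α : Type*} [Primcodable α] {q : α → ℕ} {w : α → List ℕ}
    (hq : Computable q) (hw : Computable w) :
    ComputablePred fun a => GoodA S P M g (q a) (w a) := by
  obtain ⟨hb, hc⟩ := hg
  set gi : ℕ → ℕ := fun x => (Equiv.ofBijective g hb).symm x with hgi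
  have hgi1 : ∀ x, g (gi x) = x := (Equiv.ofBijective g hb).apply_symm_apply
  have h1 : ComputablePred fun a => M ≤ (w a).length := cp_le (cconst M) (clength hw)
  have h2 := cp_nodup' hw
  have h3 := cp_table hw gi P
  have h4 : ComputablePred fun a => S.H (q a) ((w a).map g) := cp_comp hc (hq.pair hw)
  refine (cp_and h1 (cp_and h2 (cp_and h3 h4))).of_eq fun a => ?_
  unfold GoodA
  have : (∀ x ∈ P, (w a).getD x 0 = gi x) ↔ ∀ x ∈ P, g ((w a).getD x 0) = x := by
    constructor
    · intro h x hx
      rw [h x hx, hgi1]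
    · intro h x hx
      apply hb.1
      rw [h x hx, hgi1]
  rw [this]

/-- codes of lists -/
def dl (n : ℕ) : List ℕ := Denumerable.ofNat (List ℕ) n

theorem dl_c : Computable dl := (Primrec.ofNat (List ℕ)).to_comp

theorem dl_encode (l : List ℕ) : dl (Encodable.encode l) = l := Denumerable.ofNat_encode l

/-- The search condition; `z = pair (pair (pair k w) v) (pair a b)`. -/
def Cond (S : DS) (P : List ℕ) (M : ℕ) (g : ℕ → ℕ) (z : ℕ) : Prop :=
  ¬ GoodA S P M g z.unpair.2.unpair.1 (dl z.unpair.1.unpair.1.unpair.2) ∨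
    (GoodA S P M g z.unpair.2.unpair.2
      (dl z.unpair.1.unpair.1.unpair.2 ++ dl z.unpair.1.unpair.2) ∧
      z.unpair.1.unpair.1.unpair.1 ∈ dl z.unpair.1.unpair.1.unpair.2 ++ dl z.unpair.1.unpair.2)

theorem cp_cond (hg : S.Copy g) : ComputablePred (Cond S P M g) := by
  have c0 : Computable fun z : ℕ => z.unpair.2.unpair.1 := by fun_prop
  have c1 : Computable fun z : ℕ => z.unpair.2.unpair.2 := by fun_prop
  have c2 : Computable fun z : ℕ => dl z.unpair.1.unpair.1.unpair.2 := dl_c.comp (by fun_prop)
  have c3 : Computable fun z : ℕ => dl z.unpair.1.unpair.2 := dl_c.comp (by fun_prop)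
  have c4 : Computable fun z : ℕ => z.unpair.1.unpair.1.unpair.1 := by fun_prop
  have c5 : Computable fun z : ℕ =>
      dl z.unpair.1.unpair.1.unpair.2 ++ dl z.unpair.1.unpair.2 := cappend c2 c3
  have h1 := cp_goodA (S := S) (P := P) (M := M) hg c0 c2
  have h2 := cp_goodA (S := S) (P := P) (M := M) hg c1 c5
  have h3 := cp_mem c4 c5
  refine (cp_and h1 (cp_and h2 h3).not).not.of_eq fun z => ?_
  unfold Cond
  tauto

end

end J3

open J3 Pool.Agent.Helper446.RE Pool.Agent.Helper743 in
theorem catH_of_complete (S : DS) (P : List ℕ) (M : ℕ) (hM : 0 < M) (hP : ∀ x ∈ P, x < M)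
    (X : ℕ → ℕ) (hX : ∀ i, S.Complete P (M + i) (X i)) : S.CatH X := by
  classical
  intro g hcopy
  have hg := hcopy.1
  set gi : ℕ → ℕ := fun x => (Equiv.ofBijective g hg).symm x with hgi
  have hgi1 : ∀ x, g (gi x) = x := (Equiv.ofBijective g hg).apply_symm_apply
  have hgiinj : Function.Injective gi := (Equiv.ofBijective g hg).symm.injective
  -- the start
  set w0 : List ℕ := (List.range M).map gi with hw0
  have hgood0 : Good S P M X g w0 := by
    have e : w0.map g = List.range M := by
      rw [hw0, List.map_map]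
      conv_rhs => rw [← List.map_id (List.range M)]
      exact List.map_congr_left fun x _ => hgi1 x
    have el : w0.length = M := by rw [hw0]; simp
    refine ⟨el.ge, List.nodup_range.map hgiinj, ?_, ?_⟩
    · intro x hx
      have hxM := hP x hx
      have := getD_map_lt g w0 (x := x) (by omega)
      rw [e, getD_range hxM] at this
      exact this.symm
    · rw [e, el, Nat.sub_self]
      have := (hX 0).1
      rwa [Nat.add_zero] at this
  -- the oracle
  set O : Set (ℕ →. ℕ) := {(X : ℕ →. ℕ)} with hO
  have hXr : RecT O X := TR.refl X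
  set arg : ℕ → ℕ := fun n => Nat.pair n (Nat.pair
    (X ((dl n.unpair.1.unpair.2).length - M))
    (X ((dl n.unpair.1.unpair.2 ++ dl n.unpair.2).length - M))) with harg
  have hargr : RecT O arg := by
    have c2 : Computable fun n : ℕ => dl n.unpair.1.unpair.2 := dl_c.comp (by fun_prop)
    have c3 : Computable fun n : ℕ => dl n.unpair.2 := dl_c.comp (by fun_prop)
    have d1 : Computable fun n : ℕ => (dl n.unpair.1.unpair.2).length - M :=
      csub (clength c2) (cconst M)
    have d2 : Computable fun n : ℕ => (dl n.unpair.1.unpair.2 ++ dl n.unpair.2).length - M :=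
      csub (clength (cappend c2 c3)) (cconst M)
    exact RecT.pair (Computable.recT Computable.id)
      (RecT.pair (hXr.comp (Computable.recT d1)) (hXr.comp (Computable.recT d2)))
  set chk : ℕ → ℕ := fun z => if Cond S P M g z then 0 else 1 with hchk
  have hchkr : RecT O chk := Computable.recT (cite (cp_cond hcopy) (cconst 0) (cconst 1))
  have hpr : RecT O (fun n => chk (arg n)) := hchkr.comp hargr
  have hchk0 : ∀ z, chk z = 0 ↔ Cond S P M g z := by
    intro z
    simp only [hchk]
    by_cases h : Cond S P M g z <;> simp [h]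
  have hex : ∀ a, ∃ n, (fun n => chk (arg n)) (Nat.pair a n) = 0 := by
    intro a
    by_cases hG : Good S P M X g (dl a.unpair.2)
    · obtain ⟨v, hv1, hv2⟩ := ext hM hP hX hg hG a.unpair.1
      refine ⟨Encodable.encode v, ?_⟩
      show chk (arg (Nat.pair a (Encodable.encode v))) = 0
      rw [hchk0]
      right
      simp only [harg, Nat.unpair_pair, dl_encode]
      exact ⟨hv1, hv2⟩
    · refine ⟨0, ?_⟩
      show chk (arg (Nat.pair a 0)) = 0
      rw [hchk0]
      left
      simp only [harg, Nat.unpair_pair]
      exact hG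
  set F : ℕ → ℕ := fun a => Nat.find (hex a) with hF
  have hFr : RecT O F := RecT.find hpr hex
  have hFspec : ∀ k w, Good S P M X g (dl w) →
      Good S P M X g (dl w ++ dl (F (Nat.pair k w))) ∧ k ∈ dl w ++ dl (F (Nat.pair k w)) := by
    intro k w hw
    have h1 := Nat.find_spec (hex (Nat.pair k w))
    change chk (arg (Nat.pair (Nat.pair k w) (F (Nat.pair k w)))) = 0 at h1
    rw [hchk0] at h1
    simp only [harg, Cond, Nat.unpair_pair] at h1
    rcases h1 with h1 | h1
    · exact absurd hw h1
    · exact h1
  -- the chain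
  set st : ℕ → ℕ := fun z => Encodable.encode (dl z.unpair.2.unpair.2 ++
    dl (F (Nat.pair z.unpair.2.unpair.1 z.unpair.2.unpair.2))) with hst
  have hstr : RecT O st := by
    have c1 : Computable fun z : ℕ => z.unpair.2.unpair.2 := by fun_prop
    have c2 : Computable fun z : ℕ => Nat.pair z.unpair.2.unpair.1 z.unpair.2.unpair.2 := by
      fun_prop
    have h1 : RecT O fun z => Nat.pair z.unpair.2.unpair.2
        (F (Nat.pair z.unpair.2.unpair.1 z.unpair.2.unpair.2)) :=
      RecT.pair (Computable.recT c1) (hFr.comp (Computable.recT c2))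
    have c3 : Computable fun z : ℕ => Encodable.encode (dl z.unpair.1 ++ dl z.unpair.2) := by
      have d1 : Computable fun z : ℕ => dl z.unpair.1 := dl_c.comp (by fun_prop)
      have d2 : Computable fun z : ℕ => dl z.unpair.2 := dl_c.comp (by fun_prop)
      exact cencode (cappend d1 d2)
    have h2 := (Computable.recT (O := O) c3).comp h1
    simp only [Nat.unpair_pair] at h2
    exact h2
  set W : ℕ → ℕ := fun k => Nat.rec (Encodable.encode w0)
    (fun y ih => st (Nat.pair 0 (Nat.pair y ih))) k with hW
  have hWr : RecT O W := by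
    have h1 := RecT.prec (Computable.recT (O := O) (cconst (α := ℕ) (Encodable.encode w0))) hstr
    have h2 := h1.comp (Computable.recT (O := O) (by fun_prop : Computable fun k : ℕ => Nat.pair 0 k))
    simp only [Nat.unpair_pair] at h2
    exact h2
  set ww : ℕ → List ℕ := fun k => dl (W k) with hww
  have hww0 : ww 0 = w0 := by
    show dl (Encodable.encode w0) = w0
    exact dl_encode w0
  have hwws : ∀ k, ww (k + 1) = ww k ++ dl (F (Nat.pair k (W k))) := by
    intro k
    show dl (st (Nat.pair 0 (Nat.pair k (W k)))) = _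
    simp only [hst, Nat.unpair_pair, dl_encode]
    rfl
  have hgood : ∀ k, Good S P M X g (ww k) := by
    intro k
    induction k with
    | zero => rw [hww0]; exact hgood0
    | succ k ih => rw [hwws]; exact (hFspec k (W k) ih).1
  have hmem : ∀ k, k ∈ ww (k + 1) := by
    intro k
    rw [hwws]
    exact (hFspec k (W k) (hgood k)).2
  have hpre : ∀ k d, ww k <+: ww (k + d) := by
    intro k d
    induction d with
    | zero => exact List.prefix_rfl
    | succ d ih =>
      refine ih.trans ?_
      rw [← Nat.add_assoc, hwws]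
      exact List.prefix_append _ _
  have hpre' : ∀ k l, k ≤ l → ww k <+: ww l := by
    intro k l hkl
    obtain ⟨d, rfl⟩ := Nat.exists_eq_add_of_le hkl
    exact hpre k d
  have hlen : ∀ k, k < (ww (k + 1)).length := by
    intro k
    have h1 : List.range (k + 1) ⊆ ww (k + 1) := by
      intro x hx
      have hx' : x < k + 1 := List.mem_range.1 hx
      exact (hpre' (x + 1) (k + 1) (by omega)).subset (hmem x)
    have h2 := (List.nodup_range.subperm h1).length_le
    rw [List.length_range] at h2
    omega
  set h : ℕ → ℕ := fun m => (ww (m + 1)).getD m 0 with hh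
  have hhw : ∀ k m, m < (ww k).length → (ww k).getD m 0 = h m := by
    intro k m hm
    have hm2 := hlen m
    simp only [hh]
    rcases le_total k (m + 1) with hle | hle
    · obtain ⟨r, hr⟩ := hpre' _ _ hle
      rw [← hr, List.getD_append _ _ _ _ hm]
    · obtain ⟨r, hr⟩ := hpre' _ _ hle
      rw [← hr, List.getD_append _ _ _ _ hm2]
  have hhr : RecT O h := by
    have c1 : Computable fun p : ℕ => ((dl p.unpair.2)[p.unpair.1]?).getD 0 :=
      Computable.option_getD (cgetElem (dl_c.comp (by fun_prop)) (by fun_prop)) (cconst 0)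
    have h1 : RecT O fun m => Nat.pair m (W (m + 1)) :=
      RecT.pair (Computable.recT Computable.id) (hWr.comp (Computable.recT Computable.succ))
    have h2 := (Computable.recT (O := O) c1).comp h1
    simp only [Nat.unpair_pair] at h2
    have e : h = fun n => ((dl (W (n + 1)))[n]?).getD 0 := by
      funext n
      simp only [hh, hww]
      rw [List.getD_eq_getElem?_getD]
    rw [e]
    exact h2
  refine ⟨h, ⟨?_, ?_⟩, TR_iff.1 hhr, ?_⟩
  · -- injective
    intro m m' hmm
    set k := max m m' + 1 with hk
    have hm : m < (ww k).length := (hlen m).trans_le (hpre' (m + 1) k (by omega)).length_le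
    have hm' : m' < (ww k).length := (hlen m').trans_le (hpre' (m' + 1) k (by omega)).length_le
    rw [← hhw k m hm, ← hhw k m' hm', List.getD_eq_getElem _ _ hm,
      List.getD_eq_getElem _ _ hm'] at hmm
    exact (List.Nodup.getElem_inj_iff (hgood k).2.1).1 hmm
  · intro k
    obtain ⟨m, hm, he⟩ := List.getElem_of_mem (hmem k)
    refine ⟨m, ?_⟩
    rw [← hhw (k + 1) m hm, List.getD_eq_getElem _ _ hm]
    exact he
  · intro n l hl
    obtain ⟨B, hB⟩ := exists_bound l
    set w := ww (B + 1) with hw
    have hBw : ∀ y ∈ l, y < w.length := fun y hy => (hB y hy).trans (hlen B)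
    have e1 : (l.map h).map g = l.map (fun y => (w.map g).getD y 0) := by
      rw [List.map_map]
      apply List.map_congr_left
      intro y hy
      rw [getD_map_lt g w (hBw y hy), hw, hhw (B + 1) y (hBw y hy)]
      rfl
    have e2 := S.lf_s n l (w.map g) hl (fun y hy => by rw [List.length_map]; exact hBw y hy)
    have e3 := S.lf_s n l (List.range w.length) hl (fun y hy => by
      rw [List.length_range]; exact hBw y hy)
    rw [map_getD_range l _ hBw] at e3
    rw [e1, ← e2, types hP hX hg.1 (hgood (B + 1)), e3]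

end Pool.Agent.Helper750.DC
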