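import Pool.Agent.Helper750.DC.Compl
import Pool.Agent.Helper750.DC.Types

set_option autoImplicit false

/-! The final contradiction. -/

namespace Pool.Agent.Helper750.DC

open Encodable Pool.Agent.Helper446

section
variable {S : DS} {E : ℕ → Env} {D : Set ℕ} {i : ℕ} {g hh : ℕ → ℕ} {j p : ℕ} {P : List ℕ}

/-- level `j` is finally not granted -/
theorem claim1 (h : Ctx S E D i) (gl : IsLim S i E g)
    (hH : ∀ n l, l ≠ [] → (S.H n ((l.map hh).map g) ↔ S.H n l)) (hj : IsFun j (chi D) hh) :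
    ∃ s0, ∀ s, s0 ≤ s → (E s).st (Nat.pair i (2 * j)) = false := by
  obtain ⟨s0, hs0⟩ := h.hE.fin (Nat.pair i (2 * j))
  cases hst : (E s0).st (Nat.pair i (2 * j)) with
  | false => exact ⟨s0, fun s hs => by rw [(hs0 s hs).2, hst]⟩
  | true =>
    exfalso
    obtain ⟨s, ha, h1⟩ := last_act h.hE (n := Nat.pair i (2 * j)) (s0 := s0) fun s hs =>
      ⟨(hs0 s hs).1, by rw [(hs0 s hs).2, hst]⟩
    obtain ⟨s', c, hg, hc⟩ := act_GA h ha
    obtain ⟨S0, hS0⟩ := GA_bits h hg
    obtain ⟨s1, hs1⟩ := bits_lim h.hE c.1.2.2.1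
    have h2 : (E (s + 1)).bits c.1.2.2.1 = (List.range c.1.2.2.1).map (chi D) := by
      rw [← hs1 (max s1 (s + 1)) (le_max_left _ _)]
      refine (hg.pres _ (le_max_right _ _) ?_).symm
      rw [hc]
      exact (h1 _ (by omega)).1
    rw [h2, hc] at hS0
    have h3 : c.1.2.1 = (List.range c.1.2.1.length).map hh := by
      apply List.ext_getElem
      · simp
      · intro r hr1 hr2
        have h4 := hj.1 _ _ _ _ (hS0 r hr1)
        rw [List.getD_eq_getElem?_getD, List.getElem?_eq_getElem hr1, Option.getD_some] at h4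
        rw [h4]
        simp
    obtain ⟨⟨_, _, _, hok, _⟩, hn, _⟩ := hg.cert
    have h5 : S.H c.2.1 (c.1.2.1.map g) :=
      true_lim gl (s := s + 1) (f := (c.2.1, c.1.2.1)) (by rw [hg.hC]; exact List.mem_cons_self)
    have hlen : 0 < c.1.2.1.length := List.length_pos_iff.2 hok.1
    rw [h3, hH _ _ (range_ne hlen)] at h5
    exact hn h5

theorem B_mono1 (s : ℕ) {b : BD} (hb : b ∈ pB (Sg S i E s)) : b ∈ pB (Sg S i E (s + 1)) := by
  have h := tr S E i s
  generalize Sg S i E (s + 1) = x' at h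
  cases h with
  | stay0 => exact hb
  | stay1 => exact hb
  | drop => exact hb
  | issB => exact hb
  | issA => exact hb
  | com => exact hb
  | graB => exact List.mem_cons_of_mem _ hb
  | graA => exact hb

theorem B_mono {s t : ℕ} (h : s ≤ t) {b : BD} (hb : b ∈ pB (Sg S i E s)) :
    b ∈ pB (Sg S i E t) := by
  induction t, h using Nat.le_induction with
  | base => exact hb
  | succ t _ ih => exact B_mono1 t ih

/-- an acting odd requirement -/
theorem act_GB (h : Ctx S E D i) {m s : ℕ} (ha : Acts E (Nat.pair i m) s) (hm : m % 2 = 1) :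
    ∃ s' c, s' ≤ s ∧ (pD (Sg S i E s)).length ≤ s' ∧ certB S i (Sg S i E s) (E s') c ∧
      c.1 = m ∧ (∀ t, s' ≤ t → t ≤ s → Keep i (pD (Sg S i E s)) (PB i (E s') c) (E t)) ∧
      pA (Sg S i E (s + 1)) = pA (Sg S i E s) ∧ pC (Sg S i E (s + 1)) = pC (Sg S i E s) ∧
      pK (Sg S i E (s + 1)) = pK (Sg S i E s) ∧
      (m, (E s).c (Nat.pair i m), c.2.1, c.2.2.1) ∈ pB (Sg S i E (s + 1)) ∧
      s + 1 ≤ (pD (Sg S i E (s + 1))).length := by
  obtain ⟨p, hp, h1, _, _⟩ := act_pend h ha
  have hst : (E (s + 1)).st (Nat.pair i p.1.1) = true := by rw [h1]; exact ha.2.1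
  obtain ⟨s', a1, a2, hc, a4⟩ := pend_inv s p hp
  have hk := a4 s a1 le_rfl
  have hcc : (E (s + 1)).c (Nat.pair i p.1.1) = p.1.2.1 := by
    rw [← hk.1, h1]; exact ha.2.2.1
  have hx := tr S E i s
  generalize hx' : Sg S i E (s + 1) = x' at hx
  have hmo : p.1.1 % 2 = 1 := by rw [h1]; exact hm
  cases hx with
  | stay0 b1 => rw [hp] at b1; exact absurd b1 (by simp)
  | stay1 p' b1 b2 =>
    obtain rfl : p = p' := by rw [hp] at b1; exact Option.some.inj b1
    rw [b2.2.1] at hst; exact absurd hst (by simp)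
  | drop p' b1 b2 b3 =>
    obtain rfl : p = p' := by rw [hp] at b1; exact Option.some.inj b1
    exact absurd ⟨hcc, hst⟩ b3
  | issB c b1 => rw [hp] at b1; exact absurd b1 (by simp)
  | issA c b1 => rw [hp] at b1; exact absurd b1 (by simp)
  | com b1 => rw [hp] at b1; exact absurd b1 (by simp)
  | graA p' b1 b2 b3 b4 =>
    obtain rfl : p = p' := by rw [hp] at b1; exact Option.some.inj b1
    omega
  | graB p' b1 b2 b3 b4 =>
    obtain rfl : p = p' := by rw [hp] at b1; exact Option.some.inj b1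
    rcases hc with ⟨c, hc, rfl⟩ | ⟨c, hc, rfl⟩
    · exfalso
      have : (2 * c.1.1) % 2 = 1 := hmo
      omega
    · refine ⟨s', c, a1, a2, hc, h1, a4, rfl, rfl, rfl, ?_, (bits_length _ _).ge⟩
      have h2 : c.1 = m := h1
      have h3 : (E s).c (Nat.pair i m) = (PB i (E s') c).1.2.1 := by
        rw [← h1]; exact hk.1
      rw [h3, ← h2]
      exact List.mem_cons_self

/-- the requirement testing `Θ_θ(X) = D` -/
def mreq (j θ : ℕ) (P : List ℕ) : ℕ := 2 * Nat.pair j (Nat.pair θ (encode P)) + 1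

theorem mreq_half (j θ : ℕ) (P : List ℕ) : mreq j θ P / 2 = Nat.pair j (Nat.pair θ (encode P)) := by
  unfold mreq; omega

theorem mreq_odd (j θ : ℕ) (P : List ℕ) : mreq j θ P % 2 = 1 := by unfold mreq; omega

theorem mreq_lvl (j θ : ℕ) (P : List ℕ) : lvl (mreq j θ P) = j := by
  unfold lvl; rw [mreq_half]; simp

theorem mreq_tht (j θ : ℕ) (P : List ℕ) : tht (mreq j θ P) = θ := by
  unfold tht; rw [mreq_half]; simp

theorem mreq_par (j θ : ℕ) (P : List ℕ) : par (mreq j θ P) = P := by
  unfold par; rw [mreq_half]; simp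

theorem mreq_lt (j θ : ℕ) (P : List ℕ) : 2 * j < mreq j θ P := by
  unfold mreq
  have := Nat.left_le_pair j (Nat.pair θ (encode P))
  omega

/-- the requirement is finally granted -/
theorem caseF (F : Fin S E D i g hh j p P) {X : ℕ → ℕ} {θ : ℕ}
    (hX : ∀ r, S.Complete P (mx P + r) (X r))
    (hX2 : ∀ r, ∀ φ < X r, ¬ S.Complete P (mx P + r) φ) (hθ : IsFun θ X (chi D))
    (hst : ∃ s0, ∀ s, s0 ≤ s → (E s).st (Nat.pair i (mreq j θ P)) = false) : False := by
  have hM : 0 < mx P := Nat.succ_pos _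
  have hP : ∀ x ∈ P, x < mx P := fun x hx => lt_mx hx
  obtain ⟨s0, hs0⟩ := hst
  obtain ⟨s1, hs1⟩ := F.h.hE.fin (Nat.pair i (mreq j θ P))
  -- the final witness
  obtain ⟨z, hz⟩ : ∃ z, ∀ s, s1 ≤ s → (E s).z (Nat.pair i (mreq j θ P)) = z :=
    ⟨(E s1).z (Nat.pair i (mreq j θ P)), fun s hs => by unfold Env.z; rw [(hs1 s hs).1]⟩
  have hzD : chi D z = 0 := by
    obtain ⟨s2, hs2⟩ := F.h.hE.lim z
    have h1 := F.h.hE.zout (max s0 (max s1 s2)) _ (hs0 _ (le_max_left _ _))
    rw [hz _ (by omega), hs2 _ (by omega)] at h1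
    unfold chi
    rw [if_neg h1]
  obtain ⟨c0, hc0⟩ := hθ.2 z
  obtain ⟨s2, hs2⟩ := hc0 c0 le_rfl
  rw [hzD] at hs2
  set len := mx P + c0 with hlen
  have hlen0 : 0 < len := by omega
  have hPl : ∀ x ∈ P, x < len := fun x hx => by have := hP x hx; omega
  obtain ⟨v, s3, hs3⟩ := F.availF_evt len
  obtain ⟨s4, hs4⟩ := F.okY_evt hlen0 hPl
  obtain ⟨s5, hs5⟩ := F.st
  obtain ⟨s6, hs6⟩ := F.sa
  -- all formulas X r for r ≤ c0
  have hXe : ∃ s7, ∀ s, s7 ≤ s → ∀ r < c0 + 1, isX S P (mx P) s r (X r) := by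
    have : ∀ N, ∃ s7, ∀ s, s7 ≤ s → ∀ r < N, isX S P (mx P) s r (X r) := by
      intro N
      induction N with
      | zero => exact ⟨0, fun s _ r hr => by omega⟩
      | succ N ih =>
        obtain ⟨a, ha⟩ := ih
        obtain ⟨b, hb⟩ := isX_evt hM hP (hX N) (hX2 N)
        refine ⟨max a b, fun s hs r hr => ?_⟩
        rcases Nat.lt_succ_iff_lt_or_eq.1 hr with h2 | h2
        · exact ha s (by omega) r h2
        · subst h2; exact hb s (by omega)
    exact this _
  obtain ⟨s7, hs7⟩ := hXe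
  obtain ⟨s8, hs8⟩ := lim_list F.gl (YL hh len)
  set m := mreq j θ P with hm
  set xs := (List.range (c0 + 1)).map X with hxs
  have hxl : xs.length = c0 + 1 := by simp [hxs]
  have hxget : ∀ r < c0 + 1, xs.getD r 0 = X r := fun r hr => by
    rw [hxs, map_getD' X (by simpa using hr), range_getD hr]
  have hxt : xs.take (xs.length - 1) = (List.range c0).map X := by
    rw [hxl, Nat.add_sub_cancel, hxs, ← List.map_take, List.take_range]
    rw [min_eq_left (Nat.le_succ c0)]
  obtain ⟨s9, hs9⟩ := t_lim F.h (m + j)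
  obtain ⟨s10, hs10⟩ := dlen_lim F.h
    (max (encode ((j, YL hh len, v, m + 1) : Tup) + 1) (max (max s2 s7)
      (encode ((m, v, YL hh len, xs) : ℕ × ℕ × List ℕ × List ℕ) + 1)))
  obtain ⟨s, hs, hcom⟩ := exists_com F.h
    (s0 + s1 + s2 + s3 + s4 + s5 + s6 + s7 + s8 + s9 + s10)
  have hd := dlen S E i s
  have a10 := hs10 s (by omega)
  have a9 := hs9 s (by omega)
  obtain ⟨a6, a6'⟩ := hs6 s (by omega)
  have hok := hs4 s (by omega)
  have hI := inv S E i s
  have hk : 0 < (pA (Sg S i E s)).length := by have := hI.len; omega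
  have hpa : p ≤ (pA (Sg S i E s)).length := by rw [← a6]; exact pj_len S E i s j
  have hcert : certB S i (Sg S i E s) (E (s + 1)) (m, v, YL hh len, xs) := by
    unfold certB
    simp only [hm, mreq_lvl, mreq_par, mreq_tht]
    simp only [← hm]
    refine ⟨⟨mreq_odd _ _ _, by omega, by omega, hs0 _ (by omega), (hs5 _ (by omega)).1⟩,
      by omega, hok, hs3 s (by omega) _ (by omega), ⟨?_, ?_⟩, ⟨?_, ?_⟩, ?_, ?_, ?_, ?_⟩
    · rw [F.Pl, a6]
    · intro r hr
      rw [F.Pl] at hr
      exact F.hpar hPl r hr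
    · intro h1
      have := congrArg List.length h1
      rw [hxl] at this
      simp at this
    · rw [YL_len, hxl, hlen]; omega
    · intro r hr
      rw [hxl] at hr
      rw [hxget r hr]
      exact hs7 _ (by omega) r hr
    · rw [hxt, hz _ (by omega)]
      exact hs2 _ (by omega)
    · intro r hr
      rw [hxl] at hr
      rw [hxget r hr, hxl, Nat.add_sub_cancel, hxget c0 (Nat.lt_succ_self _), YL_len]
      have hPr : ∀ x ∈ P, x < mx P + r := fun x hx => by have := hP x hx; omega
      rw [pr_P (by omega) hPr]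
      rintro ⟨w, w1, w2, w3, w4⟩
      rw [S.an_s, S.nt_s] at w3
      apply w3.2
      have hrr : ∀ y ∈ List.range (mx P + r), y < len := fun y hy => by
        rw [List.mem_range] at hy; omega
      rw [(hX r).2 w w1 w2 w4 w3.1, S.pr_s _ _ _ _ hlen0 hrr rfl]
      refine ⟨List.range len, by simp, List.nodup_range, (hX c0).1, ?_⟩
      conv_rhs => rw [← List.map_id (List.range (mx P + r))]
      exact List.map_congr_left fun y hy => range_getD (hrr y hy)
    · rw [hxl, Nat.add_sub_cancel, hxget c0 (Nat.lt_succ_self _), YL_len]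
      rw [S.pr_s _ _ _ _ hlen0 hPl (by rw [List.length_take, F.Pl]; omega)]
      rintro ⟨w, w1, w2, w3, w4⟩
      rw [S.an_s, S.nt_s] at w3
      obtain ⟨w3, w5⟩ := w3
      apply w5
      -- the inverse of the automorphism
      have hbij : Function.Bijective (g ∘ hh) := F.gb.comp F.hb
      obtain ⟨σ, hσ1, hσ2⟩ := Function.bijective_iff_has_inverse.1 hbij
      have hwn : w ≠ [] := by
        intro h1; rw [h1] at w1; simp at w1; omega
      have hwm : (w.map σ).map (g ∘ hh) = w := by
        rw [List.map_map]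
        conv_rhs => rw [← List.map_id w]
        exact List.map_congr_left fun x _ => hσ2 x
      have hw' : ∀ n, S.H n w ↔ S.H n (w.map σ) := fun n => by
        rw [← F.hpi n (w.map σ) (by simpa using hwn), hwm]
      have hwP : ∀ x ∈ P, (w.map σ).getD x 0 = x := by
        intro x hx
        rw [map_getD' σ (by rw [w1]; exact hPl x hx)]
        obtain ⟨r, hr, rfl⟩ := F.getP hx
        have h1 : (P.map fun y => w.getD y 0).getD r 0 =
            ((pA (Sg S i E s)).take P.length).getD r 0 := by rw [w4]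
        rw [map_getD' (fun y => w.getD y 0) (by rw [F.Pl]; exact hr),
          List.getD_eq_getElem?_getD (l := List.take _ _), List.getElem?_take,
          if_pos (by rw [F.Pl]; exact hr), ← List.getD_eq_getElem?_getD, a6' r hr] at h1
        rw [h1]
        have h2 : g r = (g ∘ hh) (P.getD r 0) := by
          show g r = g (hh (P.getD r 0))
          rw [F.hP r hr]
        rw [h2]
        exact hσ1 _
      rw [hw', (hX c0).2 (w.map σ) (by rw [List.length_map, w1]) (w2.map (Function.LeftInverse.injective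
        (g := g ∘ hh) hσ2)) hwP ((hw' _).1 w3), ← F.hpi _ _ (range_ne hlen0), ← YL_map,
        S.prcj_s hk hI.wf hok.2.2.1 (by simp)]
      exact ⟨pA (Sg S i E s), ⟨rfl, hI.nd, hI.cs⟩, (hs8 s (by omega)).2⟩
  rcases step_or F.h s with ⟨_, _, _, h1⟩ | ⟨_, _, _, _, h1, _⟩ | ⟨_, h1⟩
  · omega
  · exact h1 _ (by omega) hcert
  · omega

/-- the requirement is finally not granted -/
theorem caseT (F : Fin S E D i g hh j p P) {X : ℕ → ℕ} {θ : ℕ}
    (hX : ∀ r, S.Complete P (mx P + r) (X r))
    (hX2 : ∀ r, ∀ φ < X r, ¬ S.Complete P (mx P + r) φ) (hθ : IsFun θ X (chi D))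
    (hst : ∃ s0, ∀ s, s0 ≤ s → (E s).c (Nat.pair i (mreq j θ P)) =
      (E s0).c (Nat.pair i (mreq j θ P)) ∧ (E s).st (Nat.pair i (mreq j θ P)) = true) :
    False := by
  have hM : 0 < mx P := Nat.succ_pos _
  have hP : ∀ x ∈ P, x < mx P := fun x hx => lt_mx hx
  have hE := F.h.hE
  obtain ⟨s0, hs0⟩ := hst
  obtain ⟨s, ha, h1⟩ := last_act hE hs0
  obtain ⟨s', c, b1, b2, b3, b4, b5, b6, b7, b8, b9, b10⟩ := act_GB F.h ha (mreq_odd _ _ _)
  obtain ⟨m, v, Y, xs⟩ := c
  simp only at b4
  subst b4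
  obtain ⟨⟨_, c1, c2, c3, c4⟩, c5, c6, c7, ⟨c8, c9⟩, ⟨c10, c11⟩, c12, c13, c14, c15⟩ := b3
  simp only [mreq_lvl, mreq_par, mreq_tht] at c2 c4 c5 c6 c7 c8 c9 c11 c12 c13 c14 c15 b9
  set m := mreq j θ P with hm
  have hmj : Nat.pair i (2 * j) < Nat.pair i m := Nat.pair_lt_pair_right i (mreq_lt j θ P)
  -- `c` is constant from `s'` on
  have hc : ∀ t, s' ≤ t → (E t).c (Nat.pair i m) = (E s').c (Nat.pair i m) := by
    intro t ht
    have hk := (b5 s b1 le_rfl).1
    rcases Nat.lt_or_ge t s with h2 | h2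
    · exact (b5 t ht h2.le).1
    · rw [(h1 t h2).1]; exact hk
  have hno : ∀ t, s' ≤ t → ∀ j' < j + 1, ¬ Acts E (Nat.pair i (2 * j')) t := by
    intro t ht j' hj'
    have h2 : Nat.pair i (2 * j') < Nat.pair i m :=
      Nat.pair_lt_pair_right i (by have := mreq_lt j θ P; omega)
    exact no_act hE h2 ht (Nat.lt_succ_self t) (hc (t + 1) (by omega))
  have hstj : ∀ t, s' ≤ t → (E t).st (Nat.pair i (2 * j)) = false := fun t ht =>
    st_keep_false hE hmj c4 ht le_rfl (hc t ht)
  obtain ⟨d1, d2⟩ := F.from (s0 := s') (fun t ht j' hj' => hno t ht j' (by omega)) b1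
  -- the tuple is available from `s + 1` on
  have hu : Hav S i E (s + 1) (j, Y, v, m + 1) := by
    intro t ht
    refine ⟨c5.trans_le (dlen_mono S E i (by omega)), fun s'' hs'' => ?_⟩
    have hs2 : s + 1 ≤ s'' := le_trans (b10.trans (dlen_mono S E i ht)) hs''
    refine ⟨c2.trans_le (t_mono S E i (by omega)), hstj s'' (by omega), ⟨c6.1, c6.2.1, ?_, ?_⟩,
      Or.inr ⟨_, B_mono ht b9, rfl, ?_, mreq_odd _ _ _, ?_, rfl, rfl, ?_⟩⟩
    · intro y hy
      exact (c6.2.2.1 y hy).trans_le (alen_mono S E i (by omega))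
    · have h3 := (F.from (s0 := s') (fun t ht j' hj' => hno t ht j' (by omega))
        (show s' ≤ t by omega)).1
      show ∀ r < pj (pK (Sg S i E t)) j, r ∈ Y
      rw [h3, ← d1]
      exact c6.2.2.2
    · exact mreq_lvl _ _ _
    · show (E s).c (Nat.pair i m) = (E s'').c (Nat.pair i m)
      rw [hc s b1, hc s'' (by omega)]
    · exact (h1 s'' (by omega)).2 (by omega)
  have hno1 : ∀ t, s + 1 ≤ t → ∀ j' < j + 1, ¬ Acts E (Nat.pair i (2 * j')) t :=
    fun t ht => hno t (by omega)
  have hty := fun w => MG_type F.h F.gl hu hno1 (w := w)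
  have hp1 : pj (pK (Sg S i E (s + 1))) j = p := by rw [b8, d1]
  simp only [hp1] at hty
  have hlen0 : 0 < Y.length := List.length_pos_iff.2 c6.1
  have hxl : 0 < xs.length := List.length_pos_iff.2 c10
  have hPl : ∀ x ∈ P, x < Y.length := fun x hx => by have := hP x hx; omega
  have hI := inv S E i s
  have hk : 0 < (pA (Sg S i E s)).length := by have := hI.len; omega
  have hpa : p ≤ (pA (Sg S i E s)).length := by rw [← d1]; exact pj_len S E i s j
  set φ := xs.getD (xs.length - 1) 0 with hφ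
  -- `φ` is complete
  have hcomp : S.Complete P Y.length φ := by
    refine complete_of (π := g ∘ hh) (w0 := Y.map g) hlen0 hPl F.hpi F.inj ?_ ?_
    · have h3 := (c12 (xs.length - 1) (by omega)).1.1
      rw [← c11] at h3
      exact h3
    · intro w w1 w2 w3 w4 n
      have h3 : S.H (S.pr (S.cj (pC (Sg S i E s))) (pA (Sg S i E s)).length Y) w := by
        by_contra h3
        apply c15
        rw [S.pr_s _ _ _ _ hlen0 hPl (by rw [List.length_take, F.Pl]; omega)]
        refine ⟨w, w1, w2, by rw [S.an_s, S.nt_s]; exact ⟨w4, h3⟩, ?_⟩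
        apply List.ext_getElem
        · rw [List.length_map, List.length_take, F.Pl]; omega
        · intro r hr1 hr2
          have hr : r < p := by rw [List.length_map, F.Pl] at hr1; exact hr1
          have e1 : P.getD r 0 ∈ P := getD_mem (by rw [F.Pl]; exact hr)
          have e2 : P[r]'(by rw [F.Pl]; exact hr) = P.getD r 0 := by
            rw [List.getD_eq_getElem?_getD, List.getElem?_eq_getElem (by rw [F.Pl]; exact hr)]
            rfl
          rw [List.getElem_map, e2, w3 _ e1, List.getElem_take]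
          show g (hh (P.getD r 0)) = _
          rw [F.hP r hr, ← d2 r hr, List.getD_eq_getElem?_getD,
            List.getElem?_eq_getElem (by omega)]
          rfl
      rw [S.prcj_s hk hI.wf c6.2.2.1 w1] at h3
      have h4 : MG S (Sg S i E s) p Y w := by
        refine MG_of hpa d2 (fun r hr => c9 r (by rw [F.Pl]; exact hr)) (fun r hr => ?_) h3
        have e1 : P.getD r 0 ∈ P := getD_mem (by rw [F.Pl]; exact hr)
        rw [w3 _ e1]
        show g (hh (P.getD r 0)) = g r
        rw [F.hP r hr]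
      have h5 : MG S (Sg S i E (s + 1)) p Y w := by
        unfold MG at h4 ⊢
        rw [b6, b7]
        exact h4
      exact hty w h5 n
  -- all entries of `xs` are correct
  have hall : ∀ r < xs.length, xs.getD r 0 = X r := by
    intro r hr
    have hPr : ∀ x ∈ P, x < mx P + r := fun x hx => by have := hP x hx; omega
    have hrr : ∀ y ∈ List.range (mx P + r), y < Y.length := fun y hy => by
      rw [List.mem_range] at hy; omega
    refine isX_eq hM hP (hX r) (hX2 r) (c12 r hr) ⟨(c12 r hr).1.1, fun w w1 w2 w3 w4 n => ?_⟩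
    have h3 : S.H (S.pr φ Y.length (List.range (mx P + r))) w := by
      by_contra h3
      apply c14 r hr
      rw [pr_P (by omega) hPr]
      exact ⟨w, w1, w2, by rw [S.an_s, S.nt_s]; exact ⟨w4, h3⟩, w3⟩
    rw [S.pr_s _ _ _ _ hlen0 hrr (by rw [w1, List.length_range])] at h3
    obtain ⟨u, u1, u2, u3, u4⟩ := h3
    have u5 : ∀ x < mx P + r, w.getD x 0 = u.getD x 0 := by
      intro x hx
      rw [← u4, map_getD' (fun y => u.getD y 0) (by simpa using hx), range_getD hx]
    have u6 : ∀ x ∈ P, u.getD x 0 = x := fun x hx => by rw [← u5 x (hPr x hx), w3 x hx]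
    have h4 := hcomp.2 u u1 u2 u6 u3 (S.lf n (List.range (mx P + r)))
    have hne : List.range (mx P + r) ≠ [] := range_ne (by omega)
    rw [S.lf_s _ _ _ hne (by rw [u1]; exact hrr),
      S.lf_s _ _ _ hne (by rw [List.length_range]; exact hrr), u4] at h4
    rw [h4]
    have h5 : ((List.range (mx P + r)).map fun y => (List.range Y.length).getD y 0) =
        List.range (mx P + r) := by
      conv_rhs => rw [← List.map_id (List.range (mx P + r))]
      exact List.map_congr_left fun y hy => range_getD (hrr y hy)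
    rw [h5]
  have hxt : xs.take (xs.length - 1) = (List.range (xs.length - 1)).map X := by
    apply List.ext_getElem
    · simp
    · intro r hr1 hr2
      have hr : r < xs.length - 1 := by simpa using hr2
      have := hall r (by omega)
      rw [List.getD_eq_getElem?_getD, List.getElem?_eq_getElem (by omega)] at this
      rw [List.getElem_take, List.getElem_map, List.getElem_range]
      exact this
  rw [hxt] at c13
  have h3 := hθ.1 _ _ _ _ c13
  -- but the witness is in `D`
  have hz : ∀ t, s' ≤ t → (E t).z (Nat.pair i m) = (E s').z (Nat.pair i m) := fun t ht => by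
    unfold Env.z; rw [hc t ht]
  obtain ⟨s2, hs2⟩ := hE.lim ((E s').z (Nat.pair i m))
  have h4 : (E (max s2 (s + 1))).z (Nat.pair i m) ∈ (E (max s2 (s + 1))).1 :=
    hE.zin _ _ (by rw [Nat.unpair_pair]; exact mreq_odd _ _ _)
      ((h1 (max s2 (s + 1)) (by omega)).2 (by omega))
  rw [hz _ (by omega), hs2 _ (by omega)] at h4
  unfold chi at h3
  rw [if_pos h4] at h3
  exact absurd h3 (by simp)

end

/-- J5 -/
theorem core (S : DS) (E : ℕ → Env) (D : Set ℕ) (hE : EnvProps E D) (h1 : S.CatH (chi D))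
    (h2 : ∀ X, S.CatH X → TLe (chi D) X) : False := by
  classical
  obtain ⟨i, h⟩ := exists_ctx S hE
  obtain ⟨g, gb, gl⟩ := exists_g h
  obtain ⟨hh, hb, hT, hH⟩ := h1 g (copy_g h gb gl)
  obtain ⟨j, hj⟩ := exists_isFun hT
  obtain ⟨s0, hs0⟩ := claim1 h gl hH hj
  obtain ⟨s1, hs1⟩ := evt_no hE i (j + 1)
  obtain ⟨k, _, hk2⟩ := Function.bijective_iff_has_inverse.1 hb
  obtain ⟨p, hp⟩ : ∃ p, p = pj (pK (Sg S i E s1)) j := ⟨_, rfl⟩
  set P := (List.range p).map k with hPdef
  have hst := fun s (hs : s1 ≤ s) => steps h (J := j) (s0 := s1)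
    (fun s hs j' hj' => hs1 s hs j' (by omega)) hs
  have hpK : ∀ s, s1 ≤ s → pj (pK (Sg S i E s)) j = p := fun s hs => by
    rw [hp]; exact pj_congr (hst s hs).1
  obtain ⟨s2, hs2⟩ := lim_list gl (List.range p)
  have F : Fin S E D i g hh j p P := by
    refine ⟨h, gl, gb, hb, hH, hj, by simp [hPdef], fun r hr => ?_, ⟨max s1 s2, fun s hs =>
      ⟨hpK s (by omega), fun r hr => ?_⟩⟩, ⟨max s0 s1, fun s hs => ⟨hs0 s (by omega),
        hs1 s (by omega)⟩⟩⟩
    · rw [hPdef, map_getD' k (by simpa using hr), range_getD hr]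
      exact hk2 r
    · have h3 := (hs2 s (by omega)).2
      have h4 : (sub (pA (Sg S i E s)) (List.range p)).getD r 0 =
          ((List.range p).map g).getD r 0 := by rw [h3]
      rw [sub_getD _ _ _ (by simpa using hr), range_getD hr,
        map_getD' g (by simpa using hr), range_getD hr] at h4
      exact h4
  have hM : 0 < mx P := Nat.succ_pos _
  have hP : ∀ x ∈ P, x < mx P := fun x hx => lt_mx hx
  have hex : ∀ r, ∃ φ, S.Complete P (mx P + r) φ := fun r =>
    F.exists_complete (by omega) fun x hx => by have := hP x hx; omega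
  let X : ℕ → ℕ := fun r => Nat.find (hex r)
  have hX : ∀ r, S.Complete P (mx P + r) (X r) := fun r => Nat.find_spec (hex r)
  have hX2 : ∀ r, ∀ φ < X r, ¬ S.Complete P (mx P + r) φ := fun r φ hφ => Nat.find_min (hex r) hφ
  obtain ⟨θ, hθ⟩ := exists_isFun (h2 X (catH_of_complete S P (mx P) hM hP X hX))
  obtain ⟨s3, hs3⟩ := hE.fin (Nat.pair i (mreq j θ P))
  cases hst : (E s3).st (Nat.pair i (mreq j θ P)) with
  | false => exact caseF F hX hX2 hθ ⟨s3, fun s hs => by rw [(hs3 s hs).2, hst]⟩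
  | true => exact caseT F hX hX2 hθ ⟨s3, fun s hs => ⟨(hs3 s hs).1, by rw [(hs3 s hs).2, hst]⟩⟩

end Pool.Agent.Helper750.DC
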