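import Pool.Agent.Helper750.DC.Defs
set_option autoImplicit false
namespace Pool.Agent.Helper750.DC

open Encodable Nat.Partrec Pool.Agent.Helper446.RE

/-! ### computability of the step function -/

/-- initial state -/
def J1e : Env := ([], [], 0)

/-- state at time `t` in a history -/
def J1gt (l : List Env) (t : ℕ) : Env := l[t]?.getD J1e

/-- the request made by process `i` on the history `h`, evaluated with bound `s` -/
def J1out (s i : ℕ) (h : List Env) : Req :=
  ((Code.evaln s (Denumerable.ofNat Code i) (encode (i, h))).bind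
    (fun x => (decode x : Option Req))).getD none

def J1eq (a b : ℕ) : Bool := decide (a = b)
def J1le (a b : ℕ) : Bool := decide (a ≤ b)
def J1mem (a : ℕ) (l : List ℕ) : Bool := decide (a ∈ l)
def J1beq (a b : Bool) : Bool := (a && b) || (!a && !b)
def J1cut (l : List Env) (r : ℕ) : List Env := l.take (r + 1)
def J1rem (L : List ℕ) (z : ℕ) : List ℕ := L.filterMap fun x => bif J1eq x z then none else some x
def J1tab (e : Env) (n : ℕ) : List (ℕ × Bool) := (List.range n).map fun k => (e.c k, e.st k)
def J1bits (e e' : Env) (v : ℕ) : Bool := allB (fun x => J1beq (J1mem x e.1) (J1mem x e'.1)) v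

/-- least `k < n` with `q k` -/
def J1f (q : ℕ → Bool) : ℕ → ℕ
  | 0 => 0
  | n + 1 => bif exB q n then J1f q n else (bif q n then n else n + 1)

def J1val (l : List Env) (s i r m v q : ℕ) : Bool :=
  J1le r s && (J1le v s && ((!(J1gt l s).st (Nat.pair i m)) &&
  (allB (fun t => (!(J1le r t)) || (J1bits (J1gt l t) (J1gt l r) v &&
    J1eq ((J1gt l t).c (Nat.pair i m)) ((J1gt l r).c (Nat.pair i m)))) (s + 1) &&
  (((!(J1eq (m % 2) 1)) || J1eq q 0) &&
  (J1eq q 0 || (J1le (m + 1) (q - 1) && (J1eq ((q - 1) % 2) 1 &&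
    allB (fun t => (!(J1le r t)) || ((J1gt l t).st (Nat.pair i (q - 1)) &&
      J1eq ((J1gt l t).c (Nat.pair i (q - 1))) ((J1gt l r).c (Nat.pair i (q - 1))))) (s + 1))))))))

def J1att (l : List Env) (s n r : ℕ) : Bool :=
  (J1out s n.unpair.1 (J1cut l r)).isSome &&
    (J1eq ((J1out s n.unpair.1 (J1cut l r)).getD (0, 0, 0)).1 n.unpair.2 &&
      J1val l s n.unpair.1 r n.unpair.2 ((J1out s n.unpair.1 (J1cut l r)).getD (0, 0, 0)).2.1
        ((J1out s n.unpair.1 (J1cut l r)).getD (0, 0, 0)).2.2)

def J1act (l : List Env) (s n r : ℕ) : Env :=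
  (bif J1eq (n.unpair.2 % 2) 1 then (J1gt l s).z n :: (J1gt l s).1
    else (bif J1eq ((J1out s n.unpair.1 (J1cut l r)).getD (0, 0, 0)).2.2 0 then (J1gt l s).1
      else J1rem (J1gt l s).1 ((J1gt l s).z (Nat.pair n.unpair.1
        (((J1out s n.unpair.1 (J1cut l r)).getD (0, 0, 0)).2.2 - 1)))),
    (J1tab (J1gt l s) n ++ [((J1gt l s).c n, true)], s + 1))

def J1any (l : List Env) (s n : ℕ) : Bool := exB (fun r => J1att l s n r) (s + 1)
def J1sel (l : List Env) (s : ℕ) : ℕ := J1f (fun n => J1any l s n) (s + 1)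
def J1sr (l : List Env) (s n : ℕ) : ℕ := J1f (fun r => J1att l s n r) (s + 1)

def J1stp (l : List Env) (s : ℕ) : Env :=
  bif exB (fun n => J1any l s n) (s + 1) then J1act l s (J1sel l s) (J1sr l s (J1sel l s))
  else J1gt l s

def J1hs : ℕ → List Env
  | 0 => [J1e]
  | s + 1 => J1hs s ++ [J1stp (J1hs s) s]

def J1E (s : ℕ) : Env := J1gt (J1hs s) s

section comp

variable {α β : Type} [Primcodable α] [Primcodable β]

@[fun_prop] theorem J1c_getD {f : α → Option β} {g : α → β} (hf : Computable f)
    (hg : Computable g) : Computable fun a => (f a).getD (g a) := Computable.option_getD hf hg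

@[fun_prop] theorem J1c_mod {f g : α → ℕ} (hf : Computable f) (hg : Computable g) :
    Computable fun a => f a % g a := Primrec.nat_mod.to_comp.comp hf hg

@[fun_prop] theorem J1c_gt {f : α → List Env} {g : α → ℕ} (hf : Computable f)
    (hg : Computable g) : Computable fun a => J1gt (f a) (g a) := by
  unfold J1gt; fun_prop

@[fun_prop] theorem J1c_eq {f g : α → ℕ} (hf : Computable f) (hg : Computable g) :
    Computable fun a => J1eq (f a) (g a) := cdecide (cp_eq hf hg)

@[fun_prop] theorem J1c_le {f g : α → ℕ} (hf : Computable f) (hg : Computable g) :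
    Computable fun a => J1le (f a) (g a) := cdecide (cp_le hf hg)

@[fun_prop] theorem J1c_mem {f : α → ℕ} {g : α → List ℕ} (hf : Computable f)
    (hg : Computable g) : Computable fun a => J1mem (f a) (g a) := cdecide (cp_mem hf hg)

@[fun_prop] theorem J1c_beq {f g : α → Bool} (hf : Computable f) (hg : Computable g) :
    Computable fun a => J1beq (f a) (g a) := by
  unfold J1beq; fun_prop

@[fun_prop] theorem J1c_cut {f : α → List Env} {g : α → ℕ} (hf : Computable f)
    (hg : Computable g) : Computable fun a => J1cut (f a) (g a) :=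
  Primrec.list_take.to_comp.comp (csucc hg) hf

@[fun_prop] theorem J1c_out {f : α → ℕ} {g : α → ℕ} {h : α → List Env} (hf : Computable f)
    (hg : Computable g) (hh : Computable h) : Computable fun a => J1out (f a) (g a) (h a) := by
  have h1 : Computable fun x : (ℕ × Code) × ℕ => (Code.evaln x.1.1 x.1.2 x.2) :=
    Code.primrec_evaln.to_comp
  have h2 : Computable fun a => Denumerable.ofNat Code (g a) := (Computable.ofNat Code).comp hg
  have h3 : Computable fun a => Code.evaln (f a) (Denumerable.ofNat Code (g a))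
      (encode (g a, h a)) :=
    h1.comp ((hf.pair h2).pair (cencode (hg.pair hh)))
  unfold J1out
  refine J1c_getD ?_ (Computable.const _)
  exact Computable.option_bind h3 (Computable.decode.comp Computable.snd)

@[fun_prop] theorem J1c_c {f : α → Env} {g : α → ℕ} (hf : Computable f)
    (hg : Computable g) : Computable fun a => (f a).c (g a) := by
  unfold Env.c
  simp only [List.getD_eq_getElem?_getD]
  fun_prop

@[fun_prop] theorem J1c_st {f : α → Env} {g : α → ℕ} (hf : Computable f)
    (hg : Computable g) : Computable fun a => (f a).st (g a) := by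
  unfold Env.st
  simp only [List.getD_eq_getElem?_getD]
  fun_prop

@[fun_prop] theorem J1c_z {f : α → Env} {g : α → ℕ} (hf : Computable f)
    (hg : Computable g) : Computable fun a => (f a).z (g a) := by
  unfold Env.z
  fun_prop

theorem J1c_all {q : α → ℕ → Bool} (hq : Computable fun p : α × ℕ => q p.1 p.2) {f : α → ℕ}
    (hf : Computable f) : Computable fun a => allB (q a) (f a) := computable_allB hq hf

theorem J1c_ex {q : α → ℕ → Bool} (hq : Computable fun p : α × ℕ => q p.1 p.2) {f : α → ℕ}
    (hf : Computable f) : Computable fun a => exB (q a) (f a) := computable_exB hq hf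

@[fun_prop] theorem J1c_bits {f g : α → Env} {h : α → ℕ} (hf : Computable f)
    (hg : Computable g) (hh : Computable h) : Computable fun a => J1bits (f a) (g a) (h a) := by
  unfold J1bits
  refine J1c_all (q := fun a x => J1beq (J1mem x (f a).1) (J1mem x (g a).1)) ?_ hh
  fun_prop

theorem J1c_f {q : α → ℕ → Bool} (hq : Computable fun p : α × ℕ => q p.1 p.2) {f : α → ℕ}
    (hf : Computable f) : Computable fun a => J1f (q a) (f a) := by
  have h1 : Computable fun p : α × (ℕ × ℕ) => exB (q p.1) p.2.1 :=
    J1c_ex (α := α × (ℕ × ℕ)) (q := fun p => q p.1) (f := fun p => p.2.1)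
      (hq.comp (by fun_prop : Computable fun p : (α × (ℕ × ℕ)) × ℕ => (p.1.1, p.2))) (by fun_prop)
  have h2 : Computable fun p : α × (ℕ × ℕ) => q p.1 p.2.1 :=
    hq.comp (by fun_prop : Computable fun p : α × (ℕ × ℕ) => (p.1, p.2.1))
  have h := Computable.nat_rec (f := f) (g := fun _ : α => (0 : ℕ))
    (h := fun (a : α) (y : ℕ × ℕ) => bif exB (q a) y.1 then y.2
      else (bif q a y.1 then y.1 else y.1 + 1)) hf (Computable.const 0)
    (ccond h1 (by fun_prop) (ccond h2 (by fun_prop) (by fun_prop)))
  refine h.of_eq fun a => ?_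
  generalize f a = n
  induction n with
  | zero => rfl
  | succ n ih => simp only [J1f]; rw [← ih]

@[fun_prop] theorem J1c_val {l : α → List Env} {s i r m v q : α → ℕ} (hl : Computable l)
    (hs : Computable s) (hi : Computable i) (hr : Computable r) (hm : Computable m)
    (hv : Computable v) (hq : Computable q) :
    Computable fun a => J1val (l a) (s a) (i a) (r a) (m a) (v a) (q a) := by
  have h1 : Computable fun a => allB (fun t => (!(J1le (r a) t)) ||
      (J1bits (J1gt (l a) t) (J1gt (l a) (r a)) (v a) &&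
      J1eq ((J1gt (l a) t).c (Nat.pair (i a) (m a))) ((J1gt (l a) (r a)).c (Nat.pair (i a) (m a)))))
      (s a + 1) := by
    refine J1c_all (q := fun a t => (!(J1le (r a) t)) ||
      (J1bits (J1gt (l a) t) (J1gt (l a) (r a)) (v a) &&
      J1eq ((J1gt (l a) t).c (Nat.pair (i a) (m a)))
        ((J1gt (l a) (r a)).c (Nat.pair (i a) (m a))))) ?_ (by fun_prop)
    fun_prop
  have h2 : Computable fun a => allB (fun t => (!(J1le (r a) t)) ||
      ((J1gt (l a) t).st (Nat.pair (i a) (q a - 1)) &&
      J1eq ((J1gt (l a) t).c (Nat.pair (i a) (q a - 1)))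
        ((J1gt (l a) (r a)).c (Nat.pair (i a) (q a - 1))))) (s a + 1) := by
    refine J1c_all (q := fun a t => (!(J1le (r a) t)) ||
      ((J1gt (l a) t).st (Nat.pair (i a) (q a - 1)) &&
      J1eq ((J1gt (l a) t).c (Nat.pair (i a) (q a - 1)))
        ((J1gt (l a) (r a)).c (Nat.pair (i a) (q a - 1))))) ?_ (by fun_prop)
    fun_prop
  unfold J1val
  refine cand (by fun_prop) (cand (by fun_prop) (cand (by fun_prop) (cand h1 (cand ?_
    (cor (by fun_prop) (cand (by fun_prop) (cand (by fun_prop) h2)))))))
  fun_prop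

@[fun_prop] theorem J1c_att {l : α → List Env} {s n r : α → ℕ} (hl : Computable l)
    (hs : Computable s) (hn : Computable n) (hr : Computable r) :
    Computable fun a => J1att (l a) (s a) (n a) (r a) := by
  unfold J1att; fun_prop

@[fun_prop] theorem J1c_any {l : α → List Env} {s n : α → ℕ} (hl : Computable l)
    (hs : Computable s) (hn : Computable n) :
    Computable fun a => J1any (l a) (s a) (n a) := by
  unfold J1any
  refine J1c_ex (q := fun a r => J1att (l a) (s a) (n a) r) ?_ (by fun_prop)
  fun_prop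

@[fun_prop] theorem J1c_sel {l : α → List Env} {s : α → ℕ} (hl : Computable l)
    (hs : Computable s) : Computable fun a => J1sel (l a) (s a) := by
  unfold J1sel
  refine J1c_f (q := fun a n => J1any (l a) (s a) n) ?_ (by fun_prop)
  fun_prop

@[fun_prop] theorem J1c_sr {l : α → List Env} {s n : α → ℕ} (hl : Computable l)
    (hs : Computable s) (hn : Computable n) : Computable fun a => J1sr (l a) (s a) (n a) := by
  unfold J1sr
  refine J1c_f (q := fun a r => J1att (l a) (s a) (n a) r) ?_ (by fun_prop)
  fun_prop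

theorem J1p_c : Primrec₂ fun (e : Env) (n : ℕ) => e.c n := by
  have h : Primrec fun p : Env × ℕ => ((p.1.2.1)[p.2]?.getD (p.1.2.2, false)).1 := by
    refine Primrec.fst.comp (Primrec.option_getD.comp ?_ ?_)
    · exact Primrec.list_getElem?.comp (Primrec.fst.comp (Primrec.snd.comp Primrec.fst)) Primrec.snd
    · exact (Primrec.snd.comp (Primrec.snd.comp Primrec.fst)).pair (Primrec.const false)
  refine h.of_eq fun p => ?_
  simp only [Env.c, List.getD_eq_getElem?_getD]

theorem J1p_st : Primrec₂ fun (e : Env) (n : ℕ) => e.st n := by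
  have h : Primrec fun p : Env × ℕ => ((p.1.2.1)[p.2]?.getD (p.1.2.2, false)).2 := by
    refine Primrec.snd.comp (Primrec.option_getD.comp ?_ ?_)
    · exact Primrec.list_getElem?.comp (Primrec.fst.comp (Primrec.snd.comp Primrec.fst)) Primrec.snd
    · exact (Primrec.snd.comp (Primrec.snd.comp Primrec.fst)).pair (Primrec.const false)
  refine h.of_eq fun p => ?_
  simp only [Env.st, List.getD_eq_getElem?_getD]

@[fun_prop] theorem J1c_tab {f : α → Env} {g : α → ℕ} (hf : Computable f)
    (hg : Computable g) : Computable fun a => J1tab (f a) (g a) := by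
  have h : Primrec fun p : Env × ℕ => J1tab p.1 p.2 := by
    unfold J1tab
    refine Primrec.list_map (Primrec.list_range.comp Primrec.snd) ?_
    exact (J1p_c.comp (Primrec.fst.comp Primrec.fst) Primrec.snd).pair
      (J1p_st.comp (Primrec.fst.comp Primrec.fst) Primrec.snd)
  exact h.to_comp.comp (hf.pair hg)

@[fun_prop] theorem J1c_rem {f : α → List ℕ} {g : α → ℕ} (hf : Computable f)
    (hg : Computable g) : Computable fun a => J1rem (f a) (g a) := by
  have h : Primrec fun p : List ℕ × ℕ => J1rem p.1 p.2 := by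
    unfold J1rem
    refine Primrec.listFilterMap Primrec.fst ?_
    refine Primrec.cond ?_ (Primrec.const none) (Primrec.option_some.comp Primrec.snd)
    exact (Primrec.beq.comp Primrec.snd (Primrec.snd.comp Primrec.fst)).of_eq fun p => by
      unfold J1eq
      rfl
  exact h.to_comp.comp (hf.pair hg)

@[fun_prop] theorem J1c_act {l : α → List Env} {s n r : α → ℕ} (hl : Computable l)
    (hs : Computable s) (hn : Computable n) (hr : Computable r) :
    Computable fun a => J1act (l a) (s a) (n a) (r a) := by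
  unfold J1act; fun_prop

@[fun_prop] theorem J1c_stp {l : α → List Env} {s : α → ℕ} (hl : Computable l)
    (hs : Computable s) : Computable fun a => J1stp (l a) (s a) := by
  unfold J1stp
  refine ccond ?_ (by fun_prop) (by fun_prop)
  refine J1c_ex (q := fun a n => J1any (l a) (s a) n) ?_ (by fun_prop)
  fun_prop

theorem J1c_hs : Computable J1hs := by
  have h := Computable.nat_rec (f := fun a : ℕ => a) (g := fun _ : ℕ => [J1e])
    (h := fun (_ : ℕ) (y : ℕ × List Env) => y.2 ++ [J1stp y.2 y.1]) Computable.id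
    (Computable.const _) (by
      have : Computable fun p : ℕ × (ℕ × List Env) => p.2.2 ++ [J1stp p.2.2 p.2.1] := by fun_prop
      exact this)
  refine h.of_eq fun a => ?_
  induction a with
  | zero => rfl
  | succ n ih => simp only [J1hs]; rw [← ih]

theorem J1c_E : Computable J1E := by
  have h := J1c_hs
  unfold J1E
  exact J1c_gt h Computable.id

end comp


/-! ### the history -/

theorem J1hs_len (s : ℕ) : (J1hs s).length = s + 1 := by
  induction s with
  | zero => rfl
  | succ s ih => simp only [J1hs, List.length_append, ih, List.length_singleton]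

theorem J1hs_get (s t : ℕ) (h : t ≤ s) : J1gt (J1hs s) t = J1E t := by
  induction s with
  | zero =>
    obtain rfl : t = 0 := by omega
    rfl
  | succ s ih =>
    rcases Nat.lt_or_ge t (s + 1) with h1 | h1
    · rw [← ih (by omega)]
      unfold J1gt
      simp only [J1hs]
      rw [List.getElem?_append_left (by rw [J1hs_len]; exact h1)]
    · obtain rfl : t = s + 1 := by omega
      rfl

theorem J1hs_hist (s : ℕ) : J1hs s = hist J1E s := by
  apply List.ext_getElem?
  intro k
  unfold hist
  rcases Nat.lt_or_ge k (s + 1) with h | h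
  · have h1 := J1hs_get s k (by omega)
    unfold J1gt at h1
    rw [List.getElem?_map, List.getElem?_range h]
    have h2 : k < (J1hs s).length := by rw [J1hs_len]; exact h
    rw [List.getElem?_eq_getElem h2] at h1 ⊢
    simp only [Option.getD_some] at h1
    rw [h1]; rfl
  · rw [List.getElem?_eq_none (by rw [J1hs_len]; exact h), List.getElem?_eq_none (by simpa using h)]

theorem J1cut_hist (s r : ℕ) (h : r ≤ s) : J1cut (J1hs s) r = hist J1E r := by
  rw [J1hs_hist]
  unfold J1cut hist
  rw [← List.map_take, List.take_range]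
  congr 2
  omega

theorem J1E_succ (s : ℕ) : J1E (s + 1) = J1stp (J1hs s) s := by
  unfold J1E J1gt
  simp only [J1hs]
  rw [List.getElem?_append_right (by rw [J1hs_len]), J1hs_len]
  simp

theorem J1f_spec (q : ℕ → Bool) (n : ℕ) (h : exB q n = true) :
    J1f q n < n ∧ q (J1f q n) = true ∧ ∀ k < J1f q n, q k = false := by
  induction n with
  | zero =>
    obtain ⟨i, hi, _⟩ := (exB_iff q 0).1 h
    omega
  | succ n ih =>
    simp only [J1f]
    by_cases h1 : exB q n = true
    · rw [h1, cond_true]
      obtain ⟨h2, h3, h4⟩ := ih h1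
      exact ⟨by omega, h3, h4⟩
    · obtain ⟨i, hi, hqi⟩ := (exB_iff q (n + 1)).1 h
      have h2 : i = n := by
        by_contra hne
        exact h1 ((exB_iff q n).2 ⟨i, by omega, hqi⟩)
      subst h2
      have h3 : exB q i = false := by simpa using h1
      rw [h3, cond_false, hqi, cond_true]
      refine ⟨by omega, hqi, fun k hk => ?_⟩
      by_contra hcon
      have : q k = true := by simpa using hcon
      exact h1 ((exB_iff q i).2 ⟨k, hk, this⟩)

theorem J1eq_iff (a b : ℕ) : J1eq a b = true ↔ a = b := by simp [J1eq]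
theorem J1le_iff (a b : ℕ) : J1le a b = true ↔ a ≤ b := by simp [J1le]

theorem J1bits_iff (e e' : Env) (v : ℕ) : J1bits e e' v = true ↔ e.bits v = e'.bits v := by
  unfold J1bits Env.bits
  rw [allB_iff, List.map_inj_left]
  simp only [List.mem_range]
  apply forall_congr'
  intro x
  apply imp_congr_right
  intro _
  unfold J1beq J1mem
  by_cases h1 : x ∈ e.1 <;> by_cases h2 : x ∈ e'.1 <;> simp [h1, h2]

/-- validity of a request, without the process -/
def J1VC (i r s m v q : ℕ) : Prop :=
  r ≤ s ∧ v ≤ s ∧ (J1E s).st (Nat.pair i m) = false ∧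
  (∀ t, r ≤ t → t ≤ s → (J1E t).bits v = (J1E r).bits v ∧
    (J1E t).c (Nat.pair i m) = (J1E r).c (Nat.pair i m)) ∧
  (m % 2 = 1 → q = 0) ∧
  ∀ m', q = m' + 1 → m < m' ∧ m' % 2 = 1 ∧ ∀ t, r ≤ t → t ≤ s →
    (J1E t).st (Nat.pair i m') = true ∧ (J1E t).c (Nat.pair i m') = (J1E r).c (Nat.pair i m')

theorem J1val_iff (i r s m v q : ℕ) :
    J1val (J1hs s) s i r m v q = true ↔ J1VC i r s m v q := by
  unfold J1val J1VC
  rw [Bool.and_eq_true, J1le_iff]
  apply and_congr_right
  intro hrs
  rw [Bool.and_eq_true, J1le_iff]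
  apply and_congr_right
  intro _
  rw [Bool.and_eq_true, Bool.and_eq_true, Bool.and_eq_true, Bool.not_eq_true',
    J1hs_get s s le_rfl, J1hs_get s r hrs]
  apply and_congr_right
  intro _
  apply and_congr
  · rw [allB_iff]
    constructor
    · intro h t h1 h2
      have h3 := h t (by omega)
      rw [J1hs_get s t h2, Bool.or_eq_true, Bool.not_eq_true', Bool.and_eq_true, J1bits_iff,
        J1eq_iff] at h3
      rcases h3 with h3 | h3
      · have := (J1le_iff r t).2 h1
        rw [h3] at this
        exact absurd this (by simp)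
      · exact h3
    · intro h t ht
      rw [J1hs_get s t (by omega), Bool.or_eq_true, Bool.not_eq_true', Bool.and_eq_true, J1bits_iff,
        J1eq_iff]
      by_cases h1 : r ≤ t
      · right; exact h t h1 (by omega)
      · left
        unfold J1le
        simp [h1]
  apply and_congr
  · rw [Bool.or_eq_true, Bool.not_eq_true', J1eq_iff]
    constructor
    · rintro (h | h) h1
      · have := (J1eq_iff (m % 2) 1).2 h1
        rw [h] at this
        exact absurd this (by simp)
      · exact h
    · intro h
      by_cases h1 : m % 2 = 1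
      · right; exact h h1
      · left; unfold J1eq; simp [h1]
  · rw [Bool.or_eq_true, Bool.and_eq_true, Bool.and_eq_true, J1eq_iff, J1le_iff, J1eq_iff, allB_iff]
    constructor
    · intro h m' hq
      subst hq
      rw [Nat.add_sub_cancel] at h
      rcases h with h | ⟨h1, h2, h3⟩
      · omega
      · refine ⟨by omega, h2, fun t ht1 ht2 => ?_⟩
        have h4 := h3 t (by omega)
        rw [J1hs_get s t ht2, Bool.or_eq_true, Bool.not_eq_true', Bool.and_eq_true, J1eq_iff] at h4
        rcases h4 with h4 | h4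
        · have := (J1le_iff r t).2 ht1
          rw [h4] at this
          exact absurd this (by simp)
        · exact h4
    · intro h
      rcases Nat.eq_zero_or_pos q with hq | hq
      · left; exact hq
      · right
        obtain ⟨h1, h2, h3⟩ := h (q - 1) (by omega)
        refine ⟨by omega, h2, fun t ht => ?_⟩
        rw [J1hs_get s t (by omega), Bool.or_eq_true, Bool.not_eq_true', Bool.and_eq_true, J1eq_iff]
        by_cases h4 : r ≤ t
        · right; exact h3 t h4 (by omega)
        · left; unfold J1le; simp [h4]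

theorem J1att_iff (s n r : ℕ) (hr : r ≤ s) :
    J1att (J1hs s) s n r = true ↔ ∃ v q, J1out s n.unpair.1 (hist J1E r) = some (n.unpair.2, v, q) ∧
      J1VC n.unpair.1 r s n.unpair.2 v q := by
  unfold J1att
  rw [J1cut_hist s r hr]
  rcases h : J1out s n.unpair.1 (hist J1E r) with _ | ⟨m', v, q⟩
  · simp
  · simp only [Option.isSome_some, Bool.true_and, Option.getD_some, Bool.and_eq_true, J1eq_iff,
      J1val_iff, Option.some.injEq, Prod.mk.injEq]
    constructor
    · rintro ⟨h1, h2⟩
      exact ⟨v, q, ⟨h1, rfl, rfl⟩, h2⟩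
    · rintro ⟨v', q', ⟨h1, h2, h3⟩, h4⟩
      subst h2 h3
      exact ⟨h1, h4⟩

theorem J1tab_get (e : Env) (n n' : ℕ) (d : ℕ × Bool) :
    (J1tab e n ++ [(e.c n, true)]).getD n' d =
      if n' < n then (e.c n', e.st n') else if n' = n then (e.c n, true) else d := by
  have hlen : (J1tab e n).length = n := by simp [J1tab]
  rw [List.getD_eq_getElem?_getD]
  by_cases h1 : n' < n
  · rw [if_pos h1, List.getElem?_append_left (by rw [hlen]; exact h1)]
    unfold J1tab
    rw [List.getElem?_map, List.getElem?_range h1]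
    rfl
  · rw [if_neg h1, List.getElem?_append_right (by rw [hlen]; omega), hlen]
    by_cases h2 : n' = n
    · rw [if_pos h2, h2, Nat.sub_self]; rfl
    · rw [if_neg h2, List.getElem?_eq_none (by simp; omega)]
      rfl

theorem J1rem_mem (L : List ℕ) (z x : ℕ) : x ∈ J1rem L z ↔ x ∈ L ∧ x ≠ z := by
  unfold J1rem
  rw [List.mem_filterMap]
  constructor
  · rintro ⟨a, ha, h⟩
    by_cases h1 : a = z
    · rw [(J1eq_iff a z).2 h1] at h
      simp at h
    · have : J1eq a z = false := by unfold J1eq; simp [h1]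
      rw [this] at h
      simp only [cond_false, Option.some.injEq] at h
      subst h
      exact ⟨ha, h1⟩
  · rintro ⟨h1, h2⟩
    refine ⟨x, h1, ?_⟩
    have : J1eq x z = false := by unfold J1eq; simp [h2]
    rw [this]; rfl

/-- description of one step -/
theorem J1step (s : ℕ) :
    (J1E (s + 1) = J1E s ∧ ∀ n ≤ s, ∀ r ≤ s, J1att (J1hs s) s n r = false) ∨
    ∃ i m r v q, Nat.pair i m ≤ s ∧ Acts J1E (Nat.pair i m) s ∧
      J1out s i (hist J1E r) = some (m, v, q) ∧ J1VC i r s m v q ∧ NewD J1E i s m q ∧
      ∀ n' < Nat.pair i m, ∀ r' ≤ s, J1att (J1hs s) s n' r' = false := by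
  by_cases hany : exB (fun n => J1any (J1hs s) s n) (s + 1) = true
  · right
    obtain ⟨h1, h2, h3⟩ := J1f_spec _ _ hany
    obtain ⟨n, hn⟩ : ∃ n, n = J1sel (J1hs s) s := ⟨_, rfl⟩
    have hn1 : n < s + 1 := by rw [hn]; exact h1
    have hn2 : J1any (J1hs s) s n = true := by rw [hn]; exact h2
    have hn3 : ∀ k < n, J1any (J1hs s) s k = false := by rw [hn]; exact h3
    obtain ⟨h4, h5, _⟩ := J1f_spec _ _ hn2
    obtain ⟨r, hr⟩ : ∃ r, r = J1sr (J1hs s) s n := ⟨_, rfl⟩
    have hr1 : r < s + 1 := by rw [hr]; exact h4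
    have hr2 : J1att (J1hs s) s n r = true := by rw [hr]; exact h5
    obtain ⟨v, q, ho, hv⟩ := (J1att_iff s n r (by omega)).1 hr2
    have hstep : J1E (s + 1) = J1act (J1hs s) s n r := by
      rw [J1E_succ]
      unfold J1stp
      rw [hany, cond_true, ← hn, ← hr]
    have hgt := J1hs_get s s le_rfl
    have hcut := J1cut_hist s r (by omega)
    have hpair : Nat.pair n.unpair.1 n.unpair.2 = n := Nat.pair_unpair n
    have htab : ∀ n', ((J1E (s + 1)).2.1.getD n' ((J1E (s + 1)).2.2, false)) =
        if n' < n then ((J1E s).c n', (J1E s).st n') else if n' = n then ((J1E s).c n, true)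
          else (s + 1, false) := by
      intro n'
      rw [hstep]
      unfold J1act
      simp only [hgt]
      exact J1tab_get (J1E s) n n' (s + 1, false)
    refine ⟨n.unpair.1, n.unpair.2, r, v, q, ?_, ?_, ho, hv, ?_, ?_⟩
    · rw [hpair]; omega
    · rw [hpair]
      have hst : (J1E s).st n = false := by
        have := hv.2.2.1
        rwa [hpair] at this
      refine ⟨hst, ?_, ?_, ?_, ?_⟩
      · unfold Env.st; rw [htab]; simp
      · unfold Env.c; rw [htab]; simp [Env.c]
      · intro n' hn'
        constructor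
        · show ((J1E (s + 1)).2.1.getD n' ((J1E (s + 1)).2.2, false)).2 = (J1E s).st n'
          rw [htab, if_pos hn']
        · show ((J1E (s + 1)).2.1.getD n' ((J1E (s + 1)).2.2, false)).1 = (J1E s).c n'
          rw [htab, if_pos hn']
      · intro n' hn'
        constructor
        · show ((J1E (s + 1)).2.1.getD n' ((J1E (s + 1)).2.2, false)).2 = false
          rw [htab, if_neg (by omega), if_neg (by omega)]
        · show ((J1E (s + 1)).2.1.getD n' ((J1E (s + 1)).2.2, false)).1 = s + 1
          rw [htab, if_neg (by omega), if_neg (by omega)]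
    · intro x
      have hD : (J1E (s + 1)).1 = (bif J1eq (n.unpair.2 % 2) 1 then (J1E s).z n :: (J1E s).1
          else (bif J1eq q 0 then (J1E s).1
          else J1rem (J1E s).1 ((J1E s).z (Nat.pair n.unpair.1 (q - 1))))) := by
        rw [hstep]
        unfold J1act
        simp only [hgt, hcut, ho, Option.getD_some]
      rw [hD, hpair]
      by_cases h6 : n.unpair.2 % 2 = 1
      · rw [(J1eq_iff _ _).2 h6, cond_true, if_pos h6, List.mem_cons]
        exact or_comm
      · have h7 : J1eq (n.unpair.2 % 2) 1 = false := by unfold J1eq; simp [h6]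
        rw [h7, cond_false, if_neg h6]
        by_cases h8 : q = 0
        · rw [(J1eq_iff _ _).2 h8, cond_true, if_pos h8]
        · have h9 : J1eq q 0 = false := by unfold J1eq; simp [h8]
          rw [h9, cond_false, if_neg h8, J1rem_mem]
    · rw [hpair]
      intro n' hn' r' hr'
      by_contra hcon
      have h6 : J1att (J1hs s) s n' r' = true := by simpa using hcon
      have h7 := hn3 n' hn'
      have h8 : J1any (J1hs s) s n' = true := (exB_iff _ _).2 ⟨r', by omega, h6⟩
      rw [h7] at h8
      exact absurd h8 (by simp)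
  · left
    have hf : exB (fun n => J1any (J1hs s) s n) (s + 1) = false := by simpa using hany
    constructor
    · rw [J1E_succ]
      unfold J1stp
      rw [hf, cond_false, J1hs_get s s le_rfl]
    · intro n hn r hr
      by_contra hcon
      have h6 : J1att (J1hs s) s n r = true := by simpa using hcon
      exact hany ((exB_iff _ _).2 ⟨n, by omega, (exB_iff _ _).2 ⟨r, by omega, h6⟩⟩)

/-! ### invariants -/

theorem J1c_le' (s n : ℕ) : (J1E s).c n ≤ s := by
  induction s with
  | zero =>
    show (J1e).c n ≤ 0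
    simp [J1e, Env.c]
  | succ s ih =>
    rcases J1step s with ⟨h, _⟩ | ⟨i, m, r, v, q, _, h, _⟩
    · rw [h]; omega
    · obtain ⟨_, _, h3, h4, h5⟩ := h
      rcases lt_trichotomy n (Nat.pair i m) with h6 | h6 | h6
      · rw [(h4 n h6).2]; omega
      · subst h6; rw [h3]; omega
      · rw [(h5 n h6).2]

theorem J1c_succ (s n : ℕ) : (J1E s).c n ≤ (J1E (s + 1)).c n := by
  rcases J1step s with ⟨h, _⟩ | ⟨i, m, r, v, q, _, h, _⟩
  · rw [h]
  · obtain ⟨_, _, h3, h4, h5⟩ := h
    rcases lt_trichotomy n (Nat.pair i m) with h6 | h6 | h6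
    · rw [(h4 n h6).2]
    · subst h6; rw [h3]
    · rw [(h5 n h6).2]
      have := J1c_le' s n
      omega

theorem J1c_mono (n : ℕ) {s t : ℕ} (h : s ≤ t) : (J1E s).c n ≤ (J1E t).c n :=
  monotone_nat_of_le_succ (f := fun s => (J1E s).c n) (fun s => J1c_succ s n) h

theorem J1z_unpair (e : Env) (n : ℕ) : (e.z n).unpair = (n, e.c n) := by
  unfold Env.z; rw [Nat.unpair_pair]

theorem J1inv (s x : ℕ) (hx : x ∈ (J1E s).1) : x.unpair.2 ≤ (J1E s).c x.unpair.1 ∧
    ((J1E s).st x.unpair.1 = false → x.unpair.2 < (J1E s).c x.unpair.1) := by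
  induction s with
  | zero =>
    have : (J1E 0).1 = [] := rfl
    rw [this] at hx
    simp at hx
  | succ s ih =>
    rcases J1step s with ⟨h, _⟩ | ⟨i, m, r, v, q, _, h, _, hv, hD, _⟩
    · rw [h] at hx ⊢; exact ih hx
    · obtain ⟨_, h2, h3, h4, h5⟩ := h
      have hx' := (hD x).1 hx
      have hcase : x ∈ (J1E s).1 ∨ x = (J1E s).z (Nat.pair i m) := by
        split_ifs at hx' with h6 h7
        · exact hx'
        · exact Or.inl hx'
        · exact Or.inl hx'.1
      rcases hcase with hx1 | hx1
      · obtain ⟨h8, h9⟩ := ih hx1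
        rcases lt_trichotomy x.unpair.1 (Nat.pair i m) with h6 | h6 | h6
        · rw [(h4 _ h6).2, (h4 _ h6).1]; exact ⟨h8, h9⟩
        · rw [h6] at h8 ⊢
          rw [h3, h2]
          exact ⟨h8, fun h => absurd h (by simp)⟩
        · rw [(h5 _ h6).2]
          have := J1c_le' s x.unpair.1
          exact ⟨by omega, fun _ => by omega⟩
      · rw [hx1, J1z_unpair]
        simp only
        rw [h3, h2]
        exact ⟨le_rfl, fun h => absurd h (by simp)⟩

theorem J1zout (s n : ℕ) (h : (J1E s).st n = false) : (J1E s).z n ∉ (J1E s).1 := by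
  intro hx
  have h1 := (J1inv s _ hx).2
  rw [J1z_unpair] at h1
  exact absurd (h1 h) (lt_irrefl _)

theorem J1zin (s n : ℕ) (hn : n.unpair.2 % 2 = 1) (h : (J1E s).st n = true) :
    (J1E s).z n ∈ (J1E s).1 := by
  induction s with
  | zero =>
    have : (J1E 0).st n = false := by
      show (J1e).st n = false
      simp [J1e, Env.st]
    rw [this] at h
    exact absurd h (by simp)
  | succ s ih =>
    rcases J1step s with ⟨h0, _⟩ | ⟨i, m, r, v, q, _, hA, _, hv, hD, _⟩
    · rw [h0] at h ⊢; exact ih h
    · obtain ⟨_, h2, h3, h4, h5⟩ := hA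
      rcases lt_trichotomy n (Nat.pair i m) with h6 | h6 | h6
      · have hz : (J1E (s + 1)).z n = (J1E s).z n := by unfold Env.z; rw [(h4 n h6).2]
        rw [hz]
        rw [(h4 n h6).1] at h
        have h7 := ih h
        rw [hD]
        split_ifs with h8 h9
        · exact Or.inl h7
        · exact h7
        · refine ⟨h7, fun heq => ?_⟩
          have h10 := congrArg Nat.unpair heq
          rw [J1z_unpair, J1z_unpair] at h10
          have h11 := (Prod.mk.inj h10).1
          obtain ⟨h12, _⟩ := hv.2.2.2.2.2 (q - 1) (by omega)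
          have h13 := Nat.pair_lt_pair_right i h12
          omega
      · subst h6
        rw [Nat.unpair_pair] at hn
        have hz : (J1E (s + 1)).z (Nat.pair i m) = (J1E s).z (Nat.pair i m) := by
          unfold Env.z; rw [h3]
        rw [hz, hD, if_pos hn]
        exact Or.inr rfl
      · rw [(h5 n h6).1] at h
        exact absurd h (by simp)

/-- `x` will never enter again -/
def J1dead (x s : ℕ) : Prop := x ∉ (J1E s).1 ∧ x.unpair.2 < (J1E s).c x.unpair.1

theorem J1dead_succ (x s : ℕ) (h : J1dead x s) : J1dead x (s + 1) := by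
  refine ⟨?_, h.2.trans_le (J1c_succ s _)⟩
  rcases J1step s with ⟨h0, _⟩ | ⟨i, m, r, v, q, _, hA, _, hv, hD, _⟩
  · rw [h0]; exact h.1
  · intro hx
    have hx' := (hD x).1 hx
    split_ifs at hx' with h6 h7
    · rcases hx' with hx' | hx'
      · exact h.1 hx'
      · have h8 := h.2
        rw [hx', J1z_unpair] at h8
        exact absurd h8 (lt_irrefl _)
    · exact h.1 hx'
    · exact h.1 hx'.1

theorem J1dead_of_rem (x s : ℕ) (h1 : x ∈ (J1E s).1) (h2 : x ∉ (J1E (s + 1)).1) :
    J1dead x (s + 1) := by
  refine ⟨h2, ?_⟩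
  rcases J1step s with ⟨h0, _⟩ | ⟨i, m, r, v, q, _, hA, _, hv, hD, _⟩
  · rw [h0] at h2; exact absurd h1 h2
  · rw [hD] at h2
    split_ifs at h2 with h6 h7
    · exact absurd (Or.inl h1) h2
    · exact absurd h1 h2
    · have hx : x = (J1E s).z (Nat.pair i (q - 1)) := by
        by_contra hne
        exact h2 ⟨h1, hne⟩
      obtain ⟨h12, _⟩ := hv.2.2.2.2.2 (q - 1) (by omega)
      have h13 := Nat.pair_lt_pair_right i h12
      rw [hx, J1z_unpair]
      simp only
      rw [(hA.2.2.2.2 _ h13).2]
      have := J1c_le' s (Nat.pair i (q - 1))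
      omega

theorem J1dead_mono (x : ℕ) {s t : ℕ} (hst : s ≤ t) (h : J1dead x s) : J1dead x t := by
  induction t, hst using Nat.le_induction with
  | base => exact h
  | succ t _ ih => exact J1dead_succ x t ih

theorem J1dead_of (x : ℕ) {s t : ℕ} (hst : s ≤ t) (h1 : x ∈ (J1E s).1) (h2 : x ∉ (J1E t).1) :
    J1dead x t := by
  induction t, hst using Nat.le_induction with
  | base => exact absurd h1 h2
  | succ t _ ih =>
    by_cases h3 : x ∈ (J1E t).1
    · exact J1dead_of_rem x t h3 h2
    · exact J1dead_succ x t (ih h3)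

theorem J1fin (n : ℕ) : ∃ s0, ∀ s, s0 ≤ s → (J1E s).c n = (J1E s0).c n ∧
    (J1E s).st n = (J1E s0).st n := by
  induction n using Nat.strong_induction_on with
  | _ n ih =>
    choose! f hf using ih
    obtain ⟨s1, hs1⟩ : ∃ s1, s1 = (Finset.range n).sup f := ⟨_, rfl⟩
    have hle : ∀ n' < n, f n' ≤ s1 := fun n' hn' => by
      rw [hs1]; exact Finset.le_sup (f := f) (Finset.mem_range.2 hn')
    have hno : ∀ s ≥ s1, ∀ n' < n, ¬ Acts J1E n' s := by
      intro s hs n' hn' hA
      have h1 := (hf n' hn' s ((hle n' hn').trans hs)).2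
      have h2 := (hf n' hn' (s + 1) ((hle n' hn').trans (by omega))).2
      have h3 := hA.1
      have h4 := hA.2.1
      rw [h1] at h3
      rw [h2] at h4
      rw [h3] at h4
      exact absurd h4 (by simp)
    have hstep : ∀ s ≥ s1, (J1E (s + 1)).c n = (J1E s).c n ∧
        ((J1E s).st n = true → (J1E (s + 1)).st n = true) := by
      intro s hs
      rcases J1step s with ⟨h0, _⟩ | ⟨i, m, r, v, q, _, hA, _⟩
      · rw [h0]; exact ⟨rfl, fun h => h⟩
      · have h1 : ¬ Nat.pair i m < n := fun h => hno s hs _ h hA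
        obtain ⟨_, h2, h3, h4, h5⟩ := hA
        rcases Nat.lt_or_ge n (Nat.pair i m) with h6 | h6
        · rw [(h4 n h6).1, (h4 n h6).2]; exact ⟨rfl, fun h => h⟩
        · obtain rfl : Nat.pair i m = n := by omega
          exact ⟨h3, fun _ => h2⟩
    have hc : ∀ s ≥ s1, (J1E s).c n = (J1E s1).c n := by
      intro s hs
      induction s, hs using Nat.le_induction with
      | base => rfl
      | succ s hs ih => rw [(hstep s hs).1, ih]
    by_cases hex : ∃ s2 ≥ s1, (J1E s2).st n = true
    · obtain ⟨s2, hs2, h2⟩ := hex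
      refine ⟨s2, fun s hs => ⟨by rw [hc s (hs2.trans hs), hc s2 hs2], ?_⟩⟩
      rw [h2]
      induction s, hs using Nat.le_induction with
      | base => exact h2
      | succ s hs ih => exact (hstep s (hs2.trans hs)).2 ih
    · push Not at hex
      refine ⟨s1, fun s hs => ⟨hc s hs, ?_⟩⟩
      have h1 := hex s hs
      have h2 := hex s1 le_rfl
      simp only [ne_eq, Bool.not_eq_true] at h1 h2
      rw [h1, h2]

theorem J1pres (n s v : ℕ) (hA : Acts J1E n s) (hv : v ≤ s) (t : ℕ) (ht : s + 1 ≤ t)
    (hc : (J1E t).c n = (J1E s).c n) :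
    (J1E t).st n = true ∧ (J1E t).bits v = (J1E (s + 1)).bits v ∧
      ∀ n', n < n' → s + 1 ≤ (J1E t).c n' := by
  induction t, ht using Nat.le_induction with
  | base => exact ⟨hA.2.1, rfl, fun n' hn' => (hA.2.2.2.2 n' hn').2.ge⟩
  | succ t ht ih =>
    have h0 : (J1E t).c n = (J1E s).c n := by
      apply le_antisymm
      · rw [← hc]; exact J1c_succ t n
      · exact J1c_mono n (by omega)
    obtain ⟨h1, h2, h3⟩ := ih h0
    rcases J1step t with ⟨h4, _⟩ | ⟨i, m, r, v', q, _, hA', _, hv', hD, _⟩
    · rw [h4]; exact ⟨h1, h2, h3⟩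
    · have h5 : n < Nat.pair i m := by
        rcases lt_trichotomy n (Nat.pair i m) with h6 | h6 | h6
        · exact h6
        · subst h6
          have := hA'.1
          rw [h1] at this
          exact absurd this (by simp)
        · have h7 := (hA'.2.2.2.2 n h6).2
          have h8 := J1c_le' s n
          omega
      refine ⟨by rw [(hA'.2.2.2.1 n h5).1]; exact h1, ?_, fun n' hn' =>
        (h3 n' hn').trans (J1c_succ t n')⟩
      rw [← h2, ← J1bits_iff]
      unfold J1bits
      rw [allB_iff]
      intro x hx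
      have hz : ∀ n', n < n' → x ≠ (J1E t).z n' := by
        intro n' hn' he
        have h6 := h3 n' hn'
        have h7 : (J1E t).c n' ≤ (J1E t).z n' := Nat.right_le_pair _ _
        omega
      have hiff : x ∈ (J1E (t + 1)).1 ↔ x ∈ (J1E t).1 := by
        rw [hD]
        split_ifs with h6 h7
        · constructor
          · rintro (h8 | h8)
            · exact h8
            · exact absurd h8 (hz _ h5)
          · exact Or.inl
        · exact Iff.rfl
        · obtain ⟨h12, _⟩ := hv'.2.2.2.2.2 (q - 1) (by omega)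
          have h13 := Nat.pair_lt_pair_right i h12
          exact ⟨fun h => h.1, fun h => ⟨h, hz _ (by omega)⟩⟩
      unfold J1beq J1mem
      by_cases h8 : x ∈ (J1E t).1
      · simp [h8, hiff]
      · simp [h8, hiff]

theorem J1out_of {Γ : ℕ → List Env → Req} {cd : Code}
    (hcd : ∀ i h, Code.eval cd (encode ((i, h) : ℕ × List Env)) = Part.some (encode (Γ i h)))
    (s : ℕ) (h : List Env)
    (x : ℕ × ℕ × ℕ) (ho : J1out s (encode cd) h = some x) : Γ (encode cd) h = some x := by
  unfold J1out at ho
  rw [Denumerable.ofNat_encode] at ho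
  rcases hev : Code.evaln s cd (encode (encode cd, h)) with _ | y
  · rw [hev] at ho
    simp at ho
  · rw [hev] at ho
    have h1 : y ∈ Code.eval cd (encode (encode cd, h)) := Code.evaln_sound (Option.mem_def.2 hev)
    rw [hcd, Part.mem_some_iff] at h1
    subst h1
    simp only [Option.bind_some, encodek, Option.getD_some] at ho
    exact ho

theorem J1out_to {Γ : ℕ → List Env → Req} {cd : Code}
    (hcd : ∀ i h, Code.eval cd (encode ((i, h) : ℕ × List Env)) = Part.some (encode (Γ i h)))
    (h : List Env) :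
    ∃ k, ∀ s ≥ k, J1out s (encode cd) h = Γ (encode cd) h := by
  have h1 : encode (Γ (encode cd) h) ∈ Code.eval cd (encode (encode cd, h)) := by
    rw [hcd]; exact Part.mem_some _
  obtain ⟨k, hk⟩ := Code.evaln_complete.1 h1
  refine ⟨k, fun s hs => ?_⟩
  have h2 := Option.mem_def.1 (Code.evaln_mono hs hk)
  unfold J1out
  rw [Denumerable.ofNat_encode, h2]
  simp only [Option.bind_some, encodek, Option.getD_some]

theorem J1st0 (n : ℕ) : (J1E 0).st n = false := by
  have h0 : J1E 0 = ([], [], 0) := by
    rfl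
  rw [h0]
  simp [Env.st]

theorem env_exists : ∃ (E : ℕ → Env) (D : Set ℕ), EnvProps E D := by
  have hmem : Computable fun p : ℕ × ℕ => (J1E p.2).1 := cfst (ccomp J1c_E Computable.snd)
  refine ⟨J1E, {x | ∃ s, x ∈ (J1E s).1} \ {x | ∃ s t, s < t ∧ x ∈ (J1E s).1 ∧ x ∉ (J1E t).1}, ?_⟩
  refine ⟨J1c_E, J1c_le', fun n => J1st0 n, ?_, ?_, J1fin, ?_, J1zout, J1zin, ?_⟩
  · intro x
    by_cases hB : ∃ s t, s < t ∧ x ∈ (J1E s).1 ∧ x ∉ (J1E t).1
    · obtain ⟨s, t, hst, h1, h2⟩ := hB
      refine ⟨t, fun u hu => ?_⟩
      have h3 := J1dead_mono x hu (J1dead_of x hst.le h1 h2)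
      constructor
      · intro h; exact absurd h h3.1
      · intro h; exact absurd ⟨s, t, hst, h1, h2⟩ h.2
    · by_cases hA : ∃ s, x ∈ (J1E s).1
      · obtain ⟨s, hs⟩ := hA
        refine ⟨s, fun u hu => ?_⟩
        constructor
        · intro _; exact ⟨⟨s, hs⟩, hB⟩
        · intro _
          by_contra hcon
          rcases Nat.eq_or_lt_of_le hu with h | h
          · subst h; exact hcon hs
          · exact hB ⟨s, u, h, hs, hcon⟩
      · refine ⟨0, fun u _ => ?_⟩
        constructor
        · intro h; exact absurd ⟨u, h⟩ hA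
        · intro h; exact absurd h.1 hA
  · refine ⟨_, _, ?_, ?_, rfl⟩
    · refine exN (p := fun x s => x ∈ (J1E s).1) ?_
      exact mem_list Computable.fst hmem
    · refine exN (p := fun x s => ∃ t, s < t ∧ x ∈ (J1E s).1 ∧ x ∉ (J1E t).1) ?_
      refine exN (p := fun (x : ℕ × ℕ) t => x.2 < t ∧ x.1 ∈ (J1E x.2).1 ∧ x.1 ∉ (J1E t).1) ?_
      refine Pool.Agent.Helper446.RE.and (Pool.Agent.Helper446.RE.lt (by fun_prop) (by fun_prop)) (Pool.Agent.Helper446.RE.and ?_ ?_)
      · exact mem_list (by fun_prop) (cfst (ccomp J1c_E (by fun_prop)))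
      · exact not_mem_list (by fun_prop) (cfst (ccomp J1c_E (by fun_prop)))
  · intro s
    rcases J1step s with ⟨h0, _⟩ | ⟨i, m, r, v, q, _, hA, _⟩
    · exact Or.inl h0
    · exact Or.inr ⟨_, hA⟩
  · intro Γ hΓ
    obtain ⟨cd, hcd0⟩ := Nat.Partrec.Code.exists_code.1 hΓ
    have hcd : ∀ i h, Code.eval cd (encode ((i, h) : ℕ × List Env)) =
        Part.some (encode (Γ i h)) := by
      intro i h; rw [hcd0]; simp
    refine ⟨encode cd, ?_, ?_⟩
    · intro m s hA
      rcases J1step s with ⟨h0, _⟩ | ⟨i', m', r, v, q, _, hA', ho, hv, hD, _⟩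
      · have h1 := hA.1
        have h2 := hA.2.1
        rw [h0, h1] at h2
        exact absurd h2 (by simp)
      · have heq : Nat.pair i' m' = Nat.pair (encode cd) m := by
          rcases lt_trichotomy (Nat.pair i' m') (Nat.pair (encode cd) m) with h6 | h6 | h6
          · have h7 := (hA'.2.2.2.2 _ h6).1
            rw [hA.2.1] at h7
            exact absurd h7 (by simp)
          · exact h6
          · have h7 := (hA'.2.2.2.1 _ h6).1
            rw [hA.2.1, hA.1] at h7
            exact absurd h7 (by simp)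
        obtain ⟨rfl, rfl⟩ := Nat.pair_eq_pair.1 heq
        refine ⟨r, v, q, ⟨hv.1, hv.2.1, J1out_of hcd s _ _ ho, hv.2.2⟩, hD, fun t ht hc => ?_⟩
        exact (J1pres _ s v hA hv.2.1 t ht hc).2.1
    · intro m v q r H
      obtain ⟨n, hn⟩ : ∃ n, n = Nat.pair (encode cd) m := ⟨_, rfl⟩
      obtain ⟨r0, hr0⟩ : ∃ r0, r0 = max r v := ⟨_, rfl⟩
      have hr1 : r ≤ r0 := by rw [hr0]; exact le_max_left _ _
      have hr2 : v ≤ r0 := by rw [hr0]; exact le_max_right _ _
      have hH : ∀ s ≥ r0, _ := fun s hs => H s (hr1.trans hs) (hr2.trans hs)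
      obtain ⟨k, hk⟩ := J1out_to hcd (hist J1E r0)
      choose f hf using J1fin
      obtain ⟨S, hS⟩ : ∃ S, S = max (max r0 k) (max n ((Finset.range (n + 1)).sup f)) := ⟨_, rfl⟩
      have hS1 : r0 ≤ S := by rw [hS]; exact (le_max_left _ _).trans (le_max_left _ _)
      have hS2 : k ≤ S := by rw [hS]; exact (le_max_right _ _).trans (le_max_left _ _)
      have hS3 : n ≤ S := by rw [hS]; exact (le_max_left _ _).trans (le_max_right _ _)
      have hS4 : ∀ n' ≤ n, f n' ≤ S := by
        intro n' hn'
        rw [hS]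
        exact (Finset.le_sup (f := f) (Finset.mem_range.2 (by omega))).trans
          ((le_max_right _ _).trans (le_max_right _ _))
      have h0 := hH r0 le_rfl
      have hΓ0 : Γ (encode cd) (hist J1E r0) = some (m, v, q) := h0.1.2.2.1
      have hunp : n.unpair = (encode cd, m) := by rw [hn, Nat.unpair_pair]
      have hatt : J1att (J1hs S) S n r0 = true := by
        rw [J1att_iff S n r0 hS1, hunp]
        refine ⟨v, q, by rw [hk S hS2]; exact hΓ0, hS1, hr2.trans hS1, (hH S hS1).1.2.2.2.1, ?_,
          h0.1.2.2.2.2.2.1, ?_⟩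
        · intro t ht1 ht2
          obtain ⟨_, h2, h3, _⟩ := hH t ht1
          exact ⟨by rw [h2, h0.2.1], by rw [h3, h0.2.2.1]⟩
        · intro m' hm'
          obtain ⟨h2, h3, _⟩ := h0.1.2.2.2.2.2.2 m' hm'
          refine ⟨h2, h3, fun t ht1 ht2 => ?_⟩
          have h4 := hH t ht1
          refine ⟨((h4.1.2.2.2.2.2.2 m' hm').2.2 t le_rfl le_rfl).1, ?_⟩
          rw [h4.2.2.2 m' hm', h0.2.2.2 m' hm']
      rcases J1step S with ⟨_, h1⟩ | ⟨i', m', r', v', q', _, hA', _, _, _, h1⟩
      · have := h1 n hS3 r0 hS1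
        rw [hatt] at this
        exact absurd this (by simp)
      · have hle : Nat.pair i' m' ≤ n := by
          by_contra hcon
          have := h1 n (by omega) r0 hS1
          rw [hatt] at this
          exact absurd this (by simp)
        have h2 := (hf (Nat.pair i' m') S (hS4 _ hle)).2
        have h3 := (hf (Nat.pair i' m') (S + 1) ((hS4 _ hle).trans (by omega))).2
        have h4 := hA'.1
        have h5 := hA'.2.1
        rw [h2] at h4
        rw [h3, h4] at h5
        exact absurd h5 (by simp)

end Pool.Agent.Helper750.DC
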