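import Pool.Agent.Helper750.DC.Defs
set_option autoImplicit false
namespace Pool.Agent.Helper750.DC

namespace FKM
open Pool.Agent.Helper446.RE Pool.Agent.Helper743

/-- graph lemma relative to an oracle -/
theorem graphO {O : Set (ℕ →. ℕ)} {u f : ℕ → ℕ} (hu : RecT O u) (Rel : ℕ × ℕ → ℕ → Prop)
    (hR : REPred fun x : (ℕ × ℕ) × ℕ => Rel x.1 x.2)
    (h1 : ∀ v, Rel (v, u v) (f v)) (h2 : ∀ v y, Rel (v, u v) y → y = f v) : RecT O f := by
  obtain ⟨h, hh, hd, hv⟩ := uniformize hR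
  have hh' : Nat.Partrec (fun n => h n.unpair) := Partrec.nat_iff.1 (hh.comp Computable.unpair)
  have hc := Nat.RecursiveIn.comp (O := O) (hh'.recursiveIn)
    (RecT.pair (Computable.recT (O := O) Computable.id) hu)
  refine hc.of_eq ?_
  intro v
  have hdom : (h (v, u v)).Dom := (hd _).2 ⟨_, h1 v⟩
  have hval := h2 v _ (hv _ _ (Part.get_mem hdom))
  simp only [Part.bind_eq_bind, Part.bind_some, id, Nat.unpair_pair]
  rw [← hval]
  exact (Part.some_get hdom).symm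

theorem exists_sel {r : ℕ → ℕ → Prop} (hr : REPred fun x : ℕ × ℕ => r x.1 x.2)
    (htot : ∀ x, ∃ y, r x y) : ∃ c : ℕ → ℕ, Computable c ∧ ∀ x, r x (c x) := by
  obtain ⟨h, hh, hd, hv⟩ := uniformize hr
  have hdom : ∀ x, (h x).Dom := fun x => (hd x).2 (htot x)
  refine ⟨fun x => (h x).get (hdom x), hh.of_eq_tot fun x => Part.get_mem _, fun x => ?_⟩
  exact hv _ _ (Part.get_mem _)

/-- events: `x` enters `P` at exactly one stage -/
structure Ev (P : ℕ → Prop) (E : ℕ × ℕ → Bool) : Prop where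
  comp : Computable E
  iff : ∀ x, P x ↔ ∃ t, E (x, t) = true
  uniq : ∀ x t t', E (x, t) = true → E (x, t') = true → t = t'

theorem exists_ev {P : ℕ → Prop} (hP : REPred P) : ∃ E, Ev P E := by
  obtain ⟨q, hq, h⟩ := re_iff.1 hP
  have hq' : Computable fun p : ℕ × ℕ => q p.1 p.2 := hq
  refine ⟨fun p => q p.1 p.2 && allB (fun i => !(q p.1 i)) p.2, ?_, ?_, ?_⟩
  · have h0 : Computable₂ fun (p : ℕ × ℕ) (i : ℕ) => !(q p.1 i) :=
      cnot (hq'.comp (by fun_prop : Computable fun x : (ℕ × ℕ) × ℕ => (x.1.1, x.2)))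
    have h1 : Computable fun p : ℕ × ℕ => allB (fun i => !(q p.1 i)) p.2 :=
      computable_allB h0 Computable.snd
    exact cand hq' h1
  · intro x
    rw [h x]
    constructor
    · intro hex
      refine ⟨Nat.find hex, ?_⟩
      rw [Bool.and_eq_true, allB_iff]
      refine ⟨Nat.find_spec hex, fun i hi => ?_⟩
      have := Nat.find_min hex hi
      simpa using this
    · rintro ⟨t, ht⟩
      rw [Bool.and_eq_true] at ht
      exact ⟨t, ht.1⟩
  · intro x t t' h1 h2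
    simp only [Bool.and_eq_true, allB_iff] at h1 h2
    rcases lt_trichotomy t t' with hlt | heq | hgt
    · have := h2.2 t hlt
      rw [h1.1] at this; simp at this
    · exact heq
    · have := h1.2 t' hgt
      rw [h2.1] at this; simp at this

def mk (x r t : ℕ) : ℕ := Nat.pair x (Nat.pair r t)

theorem mk_inj {x r t x' r' t' : ℕ} : mk x r t = mk x' r' t' ↔ x = x' ∧ r = r' ∧ t = t' := by
  unfold mk
  rw [Nat.pair_eq_pair, Nat.pair_eq_pair]

theorem mk_surj (p : ℕ) : ∃ x r t, p = mk x r t :=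
  ⟨p.unpair.1, p.unpair.2.unpair.1, p.unpair.2.unpair.2, by simp [mk]⟩

def code (E1 E2 : ℕ × ℕ → Bool) (x r t : ℕ) : ℕ :=
  bif decide (r = 0) && (decide (t = 0) || decide (t = 1)) then 0
  else bif (decide (r = 0) && decide (t = 2)) || (decide (r = 1) && E1 (x, t)) then 1
  else bif (decide (r = 2) && E1 (x, t)) || (decide (r = 3) && E2 (x, t)) then 2
  else 3 + Nat.pair r t

def own (E1 E2 : ℕ × ℕ → Bool) (σ : Bool) (x r t : ℕ) : ℕ × ℕ :=
  bif decide (r = 0) && decide (t = 2) then (0, 1)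
  else bif decide (r = 1) && E1 (x, t) then (0, 0)
  else bif decide (r = 2) && E1 (x, t) then (0, bif σ then 1 else 0)
  else bif decide (r = 3) && E2 (x, t) then (0, bif σ then 0 else 1)
  else (r, t)

def Lab (E1 E2 : ℕ × ℕ → Bool) (p : ℕ) : ℕ :=
  Nat.pair p.unpair.1 (code E1 E2 p.unpair.1 p.unpair.2.unpair.1 p.unpair.2.unpair.2)

def Fn (E1 E2 : ℕ × ℕ → Bool) (σ : Bool) (p : ℕ) : ℕ :=
  mk p.unpair.1 (own E1 E2 σ p.unpair.1 p.unpair.2.unpair.1 p.unpair.2.unpair.2).1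
    (own E1 E2 σ p.unpair.1 p.unpair.2.unpair.1 p.unpair.2.unpair.2).2

section
variable {E1 E2 : ℕ × ℕ → Bool}

theorem Lab_mk (x r t : ℕ) : Lab E1 E2 (mk x r t) = Nat.pair x (code E1 E2 x r t) := by
  simp [Lab, mk]

theorem Fn_mk (σ : Bool) (x r t : ℕ) : Fn E1 E2 σ (mk x r t) =
    mk x (own E1 E2 σ x r t).1 (own E1 E2 σ x r t).2 := by
  simp [Fn, mk]

@[fun_prop] theorem cdeq {α : Type*} [Primcodable α] {f g : α → ℕ} (hf : Computable f)
    (hg : Computable g) : Computable (fun x => decide (f x = g x)) := cdecide (cp_eq hf hg)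

theorem Lab_comp (h1 : Computable E1) (h2 : Computable E2) : Computable (Lab E1 E2) := by
  unfold Lab code
  fun_prop

theorem Fn_comp (h1 : Computable E1) (h2 : Computable E2) (σ : Bool) :
    Computable (Fn E1 E2 σ) := by
  unfold Fn own mk
  fun_prop

/-- special elements -/
def Spec (E1 E2 : ℕ × ℕ → Bool) (x r t : ℕ) : Prop :=
  (r = 0 ∧ t ≤ 2) ∨ (r = 1 ∧ E1 (x, t) = true) ∨ (r = 2 ∧ E1 (x, t) = true) ∨
    (r = 3 ∧ E2 (x, t) = true)

theorem code_00 (x : ℕ) : code E1 E2 x 0 0 = 0 := by simp [code]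
theorem code_01 (x : ℕ) : code E1 E2 x 0 1 = 0 := by simp [code]
theorem code_02 (x : ℕ) : code E1 E2 x 0 2 = 1 := by simp [code]
theorem code_1 {x t : ℕ} (h : E1 (x, t) = true) : code E1 E2 x 1 t = 1 := by simp [code, h]
theorem code_2 {x t : ℕ} (h : E1 (x, t) = true) : code E1 E2 x 2 t = 2 := by simp [code, h]
theorem code_3 {x t : ℕ} (h : E2 (x, t) = true) : code E1 E2 x 3 t = 2 := by simp [code, h]

theorem code_else {x r t : ℕ} (h : ¬ Spec E1 E2 x r t) :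
    code E1 E2 x r t = 3 + Nat.pair r t := by
  unfold Spec at h
  push Not at h
  obtain ⟨h0, h1, h2, h3⟩ := h
  have a0 : (decide (r = 0) && (decide (t = 0) || decide (t = 1))) = false := by
    by_cases hr : r = 0
    · have := h0 hr; simp; omega
    · simp [hr]
  have a0' : (decide (r = 0) && decide (t = 2)) = false := by
    by_cases hr : r = 0
    · have := h0 hr; simp; omega
    · simp [hr]
  have a1 : (decide (r = 1) && E1 (x, t)) = false := by
    by_cases hr : r = 1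
    · have := h1 hr; simp at this; simp [this]
    · simp [hr]
  have a2 : (decide (r = 2) && E1 (x, t)) = false := by
    by_cases hr : r = 2
    · have := h2 hr; simp at this; simp [this]
    · simp [hr]
  have a3 : (decide (r = 3) && E2 (x, t)) = false := by
    by_cases hr : r = 3
    · have := h3 hr; simp at this; simp [this]
    · simp [hr]
  unfold code
  rw [a0, a0', a1, a2, a3]
  rfl

theorem own_00 (σ : Bool) (x : ℕ) : own E1 E2 σ x 0 0 = (0, 0) := by simp [own]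
theorem own_01 (σ : Bool) (x : ℕ) : own E1 E2 σ x 0 1 = (0, 1) := by simp [own]
theorem own_02 (σ : Bool) (x : ℕ) : own E1 E2 σ x 0 2 = (0, 1) := by simp [own]
theorem own_1 (σ : Bool) {x t : ℕ} (h : E1 (x, t) = true) : own E1 E2 σ x 1 t = (0, 0) := by
  simp [own, h]
theorem own_2 (σ : Bool) {x t : ℕ} (h : E1 (x, t) = true) :
    own E1 E2 σ x 2 t = (0, bif σ then 1 else 0) := by simp [own, h]
theorem own_3 (σ : Bool) {x t : ℕ} (h : E2 (x, t) = true) :
    own E1 E2 σ x 3 t = (0, bif σ then 0 else 1) := by simp [own, h]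

theorem own_else (σ : Bool) {x r t : ℕ} (h : ¬ Spec E1 E2 x r t) :
    own E1 E2 σ x r t = (r, t) := by
  unfold Spec at h
  push Not at h
  obtain ⟨h0, h1, h2, h3⟩ := h
  have a0' : (decide (r = 0) && decide (t = 2)) = false := by
    by_cases hr : r = 0
    · have := h0 hr; simp; omega
    · simp [hr]
  have a1 : (decide (r = 1) && E1 (x, t)) = false := by
    by_cases hr : r = 1
    · have := h1 hr; simp at this; simp [this]
    · simp [hr]
  have a2 : (decide (r = 2) && E1 (x, t)) = false := by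
    by_cases hr : r = 2
    · have := h2 hr; simp at this; simp [this]
    · simp [hr]
  have a3 : (decide (r = 3) && E2 (x, t)) = false := by
    by_cases hr : r = 3
    · have := h3 hr; simp at this; simp [this]
    · simp [hr]
  unfold own
  rw [a0', a1, a2, a3]
  rfl

theorem cs (E1 E2 : ℕ × ℕ → Bool) (x r t : ℕ) :
    (r = 0 ∧ t = 0) ∨ (r = 0 ∧ t = 1) ∨ (r = 0 ∧ t = 2) ∨ (r = 1 ∧ E1 (x, t) = true) ∨
    (r = 2 ∧ E1 (x, t) = true) ∨ (r = 3 ∧ E2 (x, t) = true) ∨ ¬ Spec E1 E2 x r t := by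
  by_cases h : Spec E1 E2 x r t
  · rcases h with ⟨h1, h2⟩ | h | h | h
    · interval_cases t <;> simp [h1]
    · simp [h]
    · simp [h]
    · simp [h]
  · simp [h]

theorem code_zero {x r t : ℕ} : code E1 E2 x r t = 0 ↔ r = 0 ∧ (t = 0 ∨ t = 1) := by
  rcases cs E1 E2 x r t with ⟨rfl, rfl⟩ | ⟨rfl, rfl⟩ | ⟨rfl, rfl⟩ | ⟨rfl, h⟩ | ⟨rfl, h⟩ | ⟨rfl, h⟩ | h
  · simp [code_00]
  · simp [code_01]
  · simp [code_02]
  · simp [code_1 h]
  · simp [code_2 h]
  · simp [code_3 h]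
  · rw [code_else h]
    constructor
    · intro h'; omega
    · rintro ⟨h1, h2⟩
      exact absurd (Or.inl ⟨h1, by omega⟩) h

theorem code_one {x r t : ℕ} : code E1 E2 x r t = 1 ↔
    (r = 0 ∧ t = 2) ∨ (r = 1 ∧ E1 (x, t) = true) := by
  rcases cs E1 E2 x r t with ⟨rfl, rfl⟩ | ⟨rfl, rfl⟩ | ⟨rfl, rfl⟩ | ⟨rfl, h⟩ | ⟨rfl, h⟩ | ⟨rfl, h⟩ | h
  · simp [code_00]
  · simp [code_01]
  · simp [code_02]
  · simp [code_1 h, h]
  · simp [code_2 h]
  · simp [code_3 h]
  · rw [code_else h]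
    constructor
    · intro h'; omega
    · rintro (⟨h1, h2⟩ | h1)
      · exact absurd (Or.inl ⟨h1, by omega⟩) h
      · exact absurd (Or.inr (Or.inl h1)) h

theorem code_two {x r t : ℕ} : code E1 E2 x r t = 2 ↔
    (r = 2 ∧ E1 (x, t) = true) ∨ (r = 3 ∧ E2 (x, t) = true) := by
  rcases cs E1 E2 x r t with ⟨rfl, rfl⟩ | ⟨rfl, rfl⟩ | ⟨rfl, rfl⟩ | ⟨rfl, h⟩ | ⟨rfl, h⟩ | ⟨rfl, h⟩ | h
  · simp [code_00]
  · simp [code_01]
  · simp [code_02]
  · simp [code_1 h]
  · simp [code_2 h, h]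
  · simp [code_3 h, h]
  · rw [code_else h]
    constructor
    · intro h'; omega
    · rintro (h1 | h1)
      · exact absurd (Or.inr (Or.inr (Or.inl h1))) h
      · exact absurd (Or.inr (Or.inr (Or.inr h1))) h

theorem code_big {x r t : ℕ} : 3 ≤ code E1 E2 x r t ↔ ¬ Spec E1 E2 x r t := by
  rcases cs E1 E2 x r t with ⟨rfl, rfl⟩ | ⟨rfl, rfl⟩ | ⟨rfl, rfl⟩ | ⟨rfl, h⟩ | ⟨rfl, h⟩ | ⟨rfl, h⟩ | h
  · simp [code_00, Spec]
  · simp [code_01, Spec]
  · simp [code_02, Spec]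
  · simp [code_1 h, Spec, h]
  · simp [code_2 h, Spec, h]
  · simp [code_3 h, Spec, h]
  · rw [code_else h]
    simp [h]

variable {P1 P2 : ℕ → Prop}

/-- elements are determined by label and owner -/
theorem uq0 (h1 : Ev P1 E1) (h2 : Ev P2 E2) (σ : Bool) {x r t r' t' : ℕ}
    (hc : code E1 E2 x r t = code E1 E2 x r' t')
    (ho : own E1 E2 σ x r t = own E1 E2 σ x r' t') : r = r' ∧ t = t' := by
  by_cases hs : Spec E1 E2 x r t
  · have hs' : Spec E1 E2 x r' t' := by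
      by_contra hs'
      have := code_big.2 hs'
      rw [← hc] at this
      exact code_big.1 this hs
    rcases cs E1 E2 x r t with ⟨rfl, rfl⟩ | ⟨rfl, rfl⟩ | ⟨rfl, rfl⟩ | ⟨rfl, h⟩ | ⟨rfl, h⟩ | ⟨rfl, h⟩ | h
    · rw [code_00] at hc
      obtain ⟨rfl, rfl | rfl⟩ := code_zero.1 hc.symm
      · simp
      · simp [own_00, own_01] at ho
    · rw [code_01] at hc
      obtain ⟨rfl, rfl | rfl⟩ := code_zero.1 hc.symm
      · simp [own_00, own_01] at ho
      · simp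
    · rw [code_02] at hc
      obtain ⟨rfl, rfl⟩ | ⟨rfl, h'⟩ := code_one.1 hc.symm
      · simp
      · simp [own_02, own_1 σ h'] at ho
    · rw [code_1 h] at hc
      obtain ⟨rfl, rfl⟩ | ⟨rfl, h'⟩ := code_one.1 hc.symm
      · simp [own_02, own_1 σ h] at ho
      · exact ⟨rfl, h1.uniq _ _ _ h h'⟩
    · rw [code_2 h] at hc
      obtain ⟨rfl, h'⟩ | ⟨rfl, h'⟩ := code_two.1 hc.symm
      · exact ⟨rfl, h1.uniq _ _ _ h h'⟩
      · cases σ <;> simp [own_2 _ h, own_3 _ h'] at ho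
    · rw [code_3 h] at hc
      obtain ⟨rfl, h'⟩ | ⟨rfl, h'⟩ := code_two.1 hc.symm
      · cases σ <;> simp [own_3 _ h, own_2 _ h'] at ho
      · exact ⟨rfl, h2.uniq _ _ _ h h'⟩
    · exact absurd hs h
  · have hs' : ¬ Spec E1 E2 x r' t' := code_big.1 (hc ▸ code_big.2 hs)
    rw [own_else σ hs, own_else σ hs'] at ho
    simpa using ho

theorem lab_fst (p : ℕ) : (Lab E1 E2 p).unpair.1 = p.unpair.1 := by simp [Lab]

theorem uq (h1 : Ev P1 E1) (h2 : Ev P2 E2) (σ : Bool) {p q : ℕ}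
    (hc : Lab E1 E2 p = Lab E1 E2 q) (ho : Fn E1 E2 σ p = Fn E1 E2 σ q) : p = q := by
  obtain ⟨x, r, t, rfl⟩ := mk_surj p
  obtain ⟨x', r', t', rfl⟩ := mk_surj q
  rw [Lab_mk, Lab_mk, Nat.pair_eq_pair] at hc
  obtain ⟨rfl, hc⟩ := hc
  rw [Fn_mk, Fn_mk, mk_inj] at ho
  obtain ⟨rfl, rfl⟩ := uq0 h1 h2 σ hc (Prod.ext ho.2.1 ho.2.2)
  rfl

/-- unique labels -/
theorem uq_big {p q : ℕ} (hc : Lab E1 E2 p = Lab E1 E2 q) (h3 : 3 ≤ (Lab E1 E2 p).unpair.2) :
    p = q := by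
  obtain ⟨x, r, t, rfl⟩ := mk_surj p
  obtain ⟨x', r', t', rfl⟩ := mk_surj q
  rw [Lab_mk, Lab_mk, Nat.pair_eq_pair] at hc
  obtain ⟨rfl, hc⟩ := hc
  rw [Lab_mk, Nat.unpair_pair] at h3
  have h4 := h3
  rw [hc] at h4
  rw [code_else (code_big.1 h3), code_else (code_big.1 h4)] at hc
  have : Nat.pair r t = Nat.pair r' t' := by omega
  rw [Nat.pair_eq_pair] at this
  rw [this.1, this.2]

/-- the owner of a special element is a node -/
theorem own_node (σ : Bool) {p : ℕ} (hl : (Lab E1 E2 p).unpair.2 < 3) :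
    Fn E1 E2 σ p = mk p.unpair.1 0 0 ∨ Fn E1 E2 σ p = mk p.unpair.1 0 1 := by
  obtain ⟨x, r, t, rfl⟩ := mk_surj p
  have hx : (mk x r t).unpair.1 = x := by simp [mk]
  rw [hx, Fn_mk]
  rcases cs E1 E2 x r t with ⟨rfl, rfl⟩ | ⟨rfl, rfl⟩ | ⟨rfl, rfl⟩ | ⟨rfl, h⟩ | ⟨rfl, h⟩ | ⟨rfl, h⟩ | h'
  · simp [own_00]
  · simp [own_01]
  · simp [own_02]
  · simp [own_1 _ h]
  · cases σ <;> simp [own_2 _ h]
  · cases σ <;> simp [own_3 _ h]
  · have := code_big.2 h'
    rw [Lab_mk, Nat.unpair_pair] at hl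
    simp only at hl
    omega

/-- applying a family of permutations fiberwise -/
def act (π : ℕ → Equiv.Perm (ℕ × ℕ)) (p : ℕ) : ℕ :=
  mk p.unpair.1 (π p.unpair.1 (p.unpair.2.unpair.1, p.unpair.2.unpair.2)).1
    (π p.unpair.1 (p.unpair.2.unpair.1, p.unpair.2.unpair.2)).2

theorem act_mk (π : ℕ → Equiv.Perm (ℕ × ℕ)) (x r t : ℕ) :
    act π (mk x r t) = mk x (π x (r, t)).1 (π x (r, t)).2 := by simp [act, mk]

theorem act_bij (π : ℕ → Equiv.Perm (ℕ × ℕ)) : Function.Bijective (act π) := by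
  refine Function.bijective_iff_has_inverse.2 ⟨act fun x => (π x)⁻¹, ?_, ?_⟩
  · intro p
    obtain ⟨x, r, t, rfl⟩ := mk_surj p
    simp [act_mk]
  · intro p
    obtain ⟨x, r, t, rfl⟩ := mk_surj p
    simp [act_mk]

noncomputable def sw1 (t1 : ℕ) : Equiv.Perm (ℕ × ℕ) :=
  Equiv.swap (0, 0) (0, 1) * Equiv.swap (0, 2) (1, t1)

noncomputable def sw2 (t1 t2 : ℕ) : Equiv.Perm (ℕ × ℕ) :=
  sw1 t1 * Equiv.swap (2, t1) (3, t2)

theorem sw1_spec (h1 : Ev P1 E1) {x t1 : ℕ} (ht : E1 (x, t1) = true) (r t : ℕ) :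
    code E1 E2 x (sw1 t1 (r, t)).1 (sw1 t1 (r, t)).2 = code E1 E2 x r t ∧
    own E1 E2 false x (sw1 t1 (r, t)).1 (sw1 t1 (r, t)).2 = sw1 t1 (own E1 E2 true x r t) := by
  rcases cs E1 E2 x r t with ⟨rfl, rfl⟩ | ⟨rfl, rfl⟩ | ⟨rfl, rfl⟩ | ⟨rfl, h⟩ | ⟨rfl, h⟩ | ⟨rfl, h⟩ | h
  · have : sw1 t1 (0, 0) = (0, 1) := by simp [sw1, Equiv.swap_apply_def]
    rw [this, own_00, this, own_01, code_00, code_01]; simp
  · have : sw1 t1 (0, 1) = (0, 0) := by simp [sw1, Equiv.swap_apply_def]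
    rw [this, own_00, own_01, this, code_00, code_01]; simp
  · have : sw1 t1 (0, 2) = (1, t1) := by simp [sw1, Equiv.swap_apply_def]
    have h' : sw1 t1 (0, 1) = (0, 0) := by simp [sw1, Equiv.swap_apply_def]
    rw [this, own_02, own_1 _ ht, h', code_02, code_1 ht]; simp
  · obtain rfl := h1.uniq _ _ _ ht h
    have : sw1 t1 (1, t1) = (0, 2) := by simp [sw1, Equiv.swap_apply_def]
    have h' : sw1 t1 (0, 0) = (0, 1) := by simp [sw1, Equiv.swap_apply_def]
    rw [this, own_02, own_1 _ ht, h', code_02, code_1 ht]; simp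
  · have : sw1 t1 (2, t) = (2, t) := by simp [sw1, Equiv.swap_apply_def]
    have h' : sw1 t1 (0, 1) = (0, 0) := by simp [sw1, Equiv.swap_apply_def]
    rw [this, own_2 _ h, own_2 _ h]
    simp [h']
  · have : sw1 t1 (3, t) = (3, t) := by simp [sw1, Equiv.swap_apply_def]
    have h' : sw1 t1 (0, 0) = (0, 1) := by simp [sw1, Equiv.swap_apply_def]
    rw [this, own_3 _ h, own_3 _ h]
    simp [h']
  · have : sw1 t1 (r, t) = (r, t) := by
      have e0 : (r, t) ≠ (0, 0) := by rintro ⟨⟩; exact h (Or.inl ⟨rfl, by omega⟩)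
      have e1 : (r, t) ≠ (0, 1) := by rintro ⟨⟩; exact h (Or.inl ⟨rfl, by omega⟩)
      have e2 : (r, t) ≠ (0, 2) := by rintro ⟨⟩; exact h (Or.inl ⟨rfl, by omega⟩)
      have e3 : (r, t) ≠ (1, t1) := by rintro ⟨⟩; exact h (Or.inr (Or.inl ⟨rfl, ht⟩))
      rw [sw1, Equiv.Perm.mul_apply, Equiv.swap_apply_of_ne_of_ne e2 e3,
        Equiv.swap_apply_of_ne_of_ne e0 e1]
    rw [this, own_else _ h, own_else _ h, this]
    simp

theorem sw2_spec (h1 : Ev P1 E1) (h2 : Ev P2 E2) {x t1 t2 : ℕ} (ht1 : E1 (x, t1) = true)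
    (ht2 : E2 (x, t2) = true) (r t : ℕ) :
    code E1 E2 x (sw2 t1 t2 (r, t)).1 (sw2 t1 t2 (r, t)).2 = code E1 E2 x r t ∧
    own E1 E2 false x (sw2 t1 t2 (r, t)).1 (sw2 t1 t2 (r, t)).2 =
      sw2 t1 t2 (own E1 E2 false x r t) := by
  have k0 : sw2 t1 t2 (0, 0) = (0, 1) := by simp [sw2, sw1, Equiv.swap_apply_def]
  have k1 : sw2 t1 t2 (0, 1) = (0, 0) := by simp [sw2, sw1, Equiv.swap_apply_def]
  have k2 : sw2 t1 t2 (0, 2) = (1, t1) := by simp [sw2, sw1, Equiv.swap_apply_def]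
  have k3 : sw2 t1 t2 (1, t1) = (0, 2) := by simp [sw2, sw1, Equiv.swap_apply_def]
  have k4 : sw2 t1 t2 (2, t1) = (3, t2) := by simp [sw2, sw1, Equiv.swap_apply_def]
  have k5 : sw2 t1 t2 (3, t2) = (2, t1) := by simp [sw2, sw1, Equiv.swap_apply_def]
  rcases cs E1 E2 x r t with ⟨rfl, rfl⟩ | ⟨rfl, rfl⟩ | ⟨rfl, rfl⟩ | ⟨rfl, h⟩ | ⟨rfl, h⟩ | ⟨rfl, h⟩ | h
  · rw [k0, own_00, k0, own_01, code_00, code_01]; simp
  · rw [k1, own_00, own_01, k1, code_00, code_01]; simp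
  · rw [k2, own_02, own_1 _ ht1, k1, code_02, code_1 ht1]; simp
  · obtain rfl := h1.uniq _ _ _ ht1 h
    rw [k3, own_02, own_1 _ ht1, k0, code_02, code_1 ht1]; simp
  · obtain rfl := h1.uniq _ _ _ ht1 h
    rw [k4, own_2 _ h, own_3 _ ht2, code_2 h, code_3 ht2]
    simp [k0]
  · obtain rfl := h2.uniq _ _ _ ht2 h
    rw [k5, own_2 _ ht1, own_3 _ h, code_2 ht1, code_3 h]
    simp [k1]
  · have : sw2 t1 t2 (r, t) = (r, t) := by
      have e0 : (r, t) ≠ (0, 0) := by rintro ⟨⟩; exact h (Or.inl ⟨rfl, by omega⟩)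
      have e1 : (r, t) ≠ (0, 1) := by rintro ⟨⟩; exact h (Or.inl ⟨rfl, by omega⟩)
      have e2 : (r, t) ≠ (0, 2) := by rintro ⟨⟩; exact h (Or.inl ⟨rfl, by omega⟩)
      have e3 : (r, t) ≠ (1, t1) := by rintro ⟨⟩; exact h (Or.inr (Or.inl ⟨rfl, ht1⟩))
      have e4 : (r, t) ≠ (2, t1) := by rintro ⟨⟩; exact h (Or.inr (Or.inr (Or.inl ⟨rfl, ht1⟩)))
      have e5 : (r, t) ≠ (3, t2) := by rintro ⟨⟩; exact h (Or.inr (Or.inr (Or.inr ⟨rfl, ht2⟩)))
      rw [sw2, sw1, Equiv.Perm.mul_apply, Equiv.Perm.mul_apply,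
        Equiv.swap_apply_of_ne_of_ne e4 e5, Equiv.swap_apply_of_ne_of_ne e2 e3,
        Equiv.swap_apply_of_ne_of_ne e0 e1]
    rw [this, own_else _ h, this]
    simp

theorem own_eq (σ σ' : Bool) {x : ℕ} (h1 : ∀ t, E1 (x, t) = false) (h2 : ∀ t, E2 (x, t) = false)
    (r t : ℕ) : own E1 E2 σ x r t = own E1 E2 σ' x r t := by
  rcases cs E1 E2 x r t with ⟨rfl, rfl⟩ | ⟨rfl, rfl⟩ | ⟨rfl, rfl⟩ | ⟨rfl, h⟩ | ⟨rfl, h⟩ | ⟨rfl, h⟩ | h
  · simp [own_00]
  · simp [own_01]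
  · simp [own_02]
  · simp [h1] at h
  · simp [h1] at h
  · simp [h2] at h
  · rw [own_else _ h, own_else _ h]

end

/-! ### the structures -/

def LL : Lang := ⟨fun _ => some 1, fun _ => some 1⟩

def SS (E1 E2 : ℕ × ℕ → Bool) (σ : Bool) : Str :=
  ⟨fun i xs => Lab E1 E2 (xs.getD 0 0) = i, fun _ xs => Fn E1 E2 σ (xs.getD 0 0)⟩

theorem LL_comp : LL.IsComputable := ⟨Computable.const _, Computable.const _⟩

section
variable {E1 E2 : ℕ × ℕ → Bool} {P1 P2 : ℕ → Prop}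

theorem SS_comp (h1 : Ev P1 E1) (h2 : Ev P2 E2) (σ : Bool) :
    IsComputableStr LL (SS E1 E2 σ) := by
  have hg : Computable fun p : ℕ × List ℕ => p.2.getD 0 0 := by
    have : Computable fun p : ℕ × List ℕ => (p.2[0]?).getD 0 :=
      Computable.option_getD (by fun_prop) (by fun_prop)
    refine this.of_eq fun p => ?_
    simp
  have hL := Lab_comp h1.comp h2.comp
  have hF := Fn_comp h1.comp h2.comp σ
  refine ⟨⟨fun p => decide (Lab E1 E2 (p.2.getD 0 0) = p.1), by fun_prop, ?_⟩,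
    fun p => Fn E1 E2 σ (p.2.getD 0 0), by fun_prop, ?_⟩
  · intro i xs _
    simp [SS]
  · intro i xs _
    rfl

theorem iso_of {C : Str} {σ : Bool} {f : ℕ → ℕ} (hb : Function.Bijective f)
    (h1 : ∀ i v, C.R i [v] ↔ Lab E1 E2 (f v) = i)
    (h2 : ∀ i v, f (C.F i [v]) = Fn E1 E2 σ (f v)) : IsIso LL C (SS E1 E2 σ) f := by
  refine ⟨hb, ?_, ?_⟩
  · intro i xs hx
    obtain ⟨v, rfl⟩ : ∃ v, xs = [v] := by
      have : xs.length = 1 := by simpa [LL] using hx.symm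
      exact List.length_eq_one_iff.1 this
    rw [h1]
    simp [SS]
  · intro i xs hx
    obtain ⟨v, rfl⟩ : ∃ v, xs = [v] := by
      have : xs.length = 1 := by simpa [LL] using hx.symm
      exact List.length_eq_one_iff.1 this
    rw [h2]
    simp [SS]

theorem of_iso {C : Str} {σ : Bool} {f : ℕ → ℕ} (h : IsIso LL C (SS E1 E2 σ) f) :
    Function.Bijective f ∧ (∀ i v, C.R i [v] ↔ Lab E1 E2 (f v) = i) ∧
      ∀ i v, f (C.F i [v]) = Fn E1 E2 σ (f v) := by
  refine ⟨h.1, fun i v => ?_, fun i v => ?_⟩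
  · rw [h.2.1 i [v] rfl]
    simp [SS]
  · rw [h.2.2 i [v] rfl]
    simp [SS]

open Classical in
theorem exists_iso (h1 : Ev P1 E1) (h2 : Ev P2 E2) (h21 : ∀ x, P2 x → P1 x) :
    ∃ f, IsIso LL (SS E1 E2 true) (SS E1 E2 false) f := by
  let π : ℕ → Equiv.Perm (ℕ × ℕ) := fun x =>
    if h : ∃ t, E1 (x, t) = true then sw1 h.choose else 1
  have key : ∀ x r t, code E1 E2 x (π x (r, t)).1 (π x (r, t)).2 = code E1 E2 x r t ∧
      own E1 E2 false x (π x (r, t)).1 (π x (r, t)).2 = π x (own E1 E2 true x r t) := by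
    intro x r t
    by_cases h : ∃ t, E1 (x, t) = true
    · have : π x = sw1 h.choose := dif_pos h
      rw [this]
      exact sw1_spec h1 h.choose_spec r t
    · have : π x = 1 := dif_neg h
      rw [this]
      push Not at h
      have e1 : ∀ t, E1 (x, t) = false := fun t => by simpa using h t
      have e2 : ∀ t, E2 (x, t) = false := by
        intro t
        by_contra ht
        have : P1 x := h21 x ((h2.iff x).2 ⟨t, by simpa using ht⟩)
        obtain ⟨t', ht'⟩ := (h1.iff x).1 this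
        rw [e1] at ht'
        simp at ht'
      exact ⟨rfl, own_eq _ _ e1 e2 r t⟩
  refine ⟨act π, iso_of (act_bij π) ?_ ?_⟩
  · intro i v
    obtain ⟨x, r, t, rfl⟩ := mk_surj v
    rw [act_mk, Lab_mk, (key x r t).1, ← Lab_mk]
    simp [SS]
  · intro i v
    obtain ⟨x, r, t, rfl⟩ := mk_surj v
    have : (SS E1 E2 true).F i [mk x r t] = Fn E1 E2 true (mk x r t) := rfl
    rw [this, act_mk, Fn_mk, Fn_mk, act_mk, (key x r t).2]

/-! ### lower bound -/

theorem low1 {f : ℕ → ℕ} (h1 : Ev P1 E1)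
    (hf : IsIso LL (SS E1 E2 true) (SS E1 E2 false) f) {x : ℕ} (hx : ¬ P1 x) :
    f (mk x 0 1) = mk x 0 1 := by
  obtain ⟨-, hR, hF⟩ := of_iso hf
  have h2 : Lab E1 E2 (f (mk x 0 2)) = Nat.pair x 1 := by
    rw [← hR (Nat.pair x 1) (mk x 0 2)]
    show Lab E1 E2 (mk x 0 2) = _
    rw [Lab_mk, code_02]
  have h3 : f (mk x 0 2) = mk x 0 2 := by
    obtain ⟨x', r, t, he⟩ := mk_surj (f (mk x 0 2))
    rw [he, Lab_mk, Nat.pair_eq_pair] at h2
    obtain ⟨rfl, h2⟩ := h2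
    rcases code_one.1 h2 with ⟨rfl, rfl⟩ | ⟨rfl, h⟩
    · exact he
    · exact absurd ((h1.iff _).2 ⟨t, h⟩) hx
  have h4 := hF 0 (mk x 0 2)
  have h5 : (SS E1 E2 true).F 0 [mk x 0 2] = mk x 0 1 := by
    show Fn E1 E2 true (mk x 0 2) = _
    rw [Fn_mk, own_02]
  rw [h5, h3, Fn_mk, own_02] at h4
  exact h4

theorem low2 {f : ℕ → ℕ} (h1 : Ev P1 E1) (h2 : Ev P2 E2)
    (hf : IsIso LL (SS E1 E2 true) (SS E1 E2 false) f) {x : ℕ} (hx : P1 x) (hx2 : ¬ P2 x) :
    f (mk x 0 1) = mk x 0 0 := by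
  obtain ⟨-, hR, hF⟩ := of_iso hf
  obtain ⟨t1, ht⟩ := (h1.iff x).1 hx
  have h2 : Lab E1 E2 (f (mk x 2 t1)) = Nat.pair x 2 := by
    rw [← hR (Nat.pair x 2) (mk x 2 t1)]
    show Lab E1 E2 (mk x 2 t1) = _
    rw [Lab_mk, code_2 ht]
  have h3 : f (mk x 2 t1) = mk x 2 t1 := by
    obtain ⟨x', r, t, he⟩ := mk_surj (f (mk x 2 t1))
    rw [he, Lab_mk, Nat.pair_eq_pair] at h2
    obtain ⟨rfl, h2⟩ := h2
    rcases code_two.1 h2 with ⟨rfl, h⟩ | ⟨rfl, h⟩
    · rw [he, h1.uniq _ _ _ ht h]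
    · exact absurd ((‹Ev P2 E2›.iff _).2 ⟨t, h⟩) hx2
  have h4 := hF 0 (mk x 2 t1)
  have h5 : (SS E1 E2 true).F 0 [mk x 2 t1] = mk x 0 1 := by
    show Fn E1 E2 true (mk x 2 t1) = _
    rw [Fn_mk, own_2 _ ht]
    rfl
  rw [h5, h3, Fn_mk, own_2 _ ht] at h4
  exact h4

end


section
variable {E1 E2 : ℕ × ℕ → Bool} {P1 P2 : ℕ → Prop}

theorem rAnd {α : Type*} [Primcodable α] {p q : α → Prop} (hp : REPred p) (hq : REPred q) :
    REPred fun a => p a ∧ q a := Pool.Agent.Helper446.RE.and hp hq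

theorem rOr {α : Type*} [Primcodable α] {p q : α → Prop} (hp : REPred p) (hq : REPred q) :
    REPred fun a => p a ∨ q a := Pool.Agent.Helper446.RE.or hp hq

@[fun_prop] theorem mk_comp {α : Type*} [Primcodable α] {f g h : α → ℕ} (hf : Computable f)
    (hg : Computable g) (hh : Computable h) : Computable fun x => mk (f x) (g x) (h x) := by
  unfold mk
  fun_prop

open Classical in
theorem up_iso {C : Str} {g : ℕ → ℕ} (h1 : Ev P1 E1) (h2 : Ev P2 E2)
    (hg : IsIso LL C (SS E1 E2 false) g) (Sg : ℕ → Prop) :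
    ∃ f, IsIso LL C (SS E1 E2 false) f ∧ (∀ v, Lab E1 E2 (f v) = Lab E1 E2 (g v)) ∧
      (∀ v, ¬ (Sg (g v).unpair.1 ∧ P1 (g v).unpair.1 ∧ P2 (g v).unpair.1) → f v = g v) ∧
      (∀ x v, Sg x → P1 x → P2 x → g v = mk x 0 0 → f v = mk x 0 1) := by
  obtain ⟨hb, hR, hF⟩ := of_iso hg
  let π : ℕ → Equiv.Perm (ℕ × ℕ) := fun x =>
    if h : Sg x ∧ (∃ t, E1 (x, t) = true) ∧ (∃ t, E2 (x, t) = true) then
      sw2 h.2.1.choose h.2.2.choose else 1
  have key : ∀ x r t, code E1 E2 x (π x (r, t)).1 (π x (r, t)).2 = code E1 E2 x r t ∧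
      own E1 E2 false x (π x (r, t)).1 (π x (r, t)).2 = π x (own E1 E2 false x r t) := by
    intro x r t
    by_cases h : Sg x ∧ (∃ t, E1 (x, t) = true) ∧ (∃ t, E2 (x, t) = true)
    · have : π x = sw2 h.2.1.choose h.2.2.choose := dif_pos h
      rw [this]
      exact sw2_spec h1 h2 h.2.1.choose_spec h.2.2.choose_spec r t
    · have : π x = 1 := dif_neg h
      rw [this]
      exact ⟨rfl, rfl⟩
  have kL : ∀ p, Lab E1 E2 (act π p) = Lab E1 E2 p := by
    intro p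
    obtain ⟨x, r, t, rfl⟩ := mk_surj p
    rw [act_mk, Lab_mk, (key x r t).1, ← Lab_mk]
  have kF : ∀ p, act π (Fn E1 E2 false p) = Fn E1 E2 false (act π p) := by
    intro p
    obtain ⟨x, r, t, rfl⟩ := mk_surj p
    rw [act_mk, Fn_mk, Fn_mk, act_mk, (key x r t).2]
  refine ⟨act π ∘ g, iso_of ((act_bij π).comp hb) ?_ ?_, ?_, ?_, ?_⟩
  · intro i v
    rw [hR, Function.comp, kL]
  · intro i v
    rw [Function.comp, hF, kF]
    rfl
  · intro v
    rw [Function.comp, kL]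
  · intro v hv
    obtain ⟨x, r, t, he⟩ := mk_surj (g v)
    have hx : (g v).unpair.1 = x := by rw [he]; simp [mk]
    rw [hx] at hv
    have : π x = 1 := by
      refine dif_neg ?_
      rintro ⟨a, b, c⟩
      exact hv ⟨a, (h1.iff x).2 b, (h2.iff x).2 c⟩
    rw [Function.comp, he, act_mk, this]
    rfl
  · intro x v a b c he
    have h : Sg x ∧ (∃ t, E1 (x, t) = true) ∧ (∃ t, E2 (x, t) = true) :=
      ⟨a, (h1.iff x).1 b, (h2.iff x).1 c⟩
    have : π x = sw2 h.2.1.choose h.2.2.choose := dif_pos h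
    rw [Function.comp, he, act_mk, this]
    have k0 : sw2 h.2.1.choose h.2.2.choose (0, 0) = (0, 1) := by
      simp [sw2, sw1, Equiv.swap_apply_def]
    rw [k0]

theorem up {C : Str} {g : ℕ → ℕ} (h1 : Ev P1 E1) (h2 : Ev P2 E2)
    (hC : IsComputableStr LL C) (hg : IsIso LL C (SS E1 E2 false) g) :
    ∃ f, IsIso LL C (SS E1 E2 false) f ∧ RecT {((chi {x | P1 x ∧ ¬ P2 x} : ℕ → ℕ) : ℕ →. ℕ)} f := by
  obtain ⟨hb, hR, hF⟩ := of_iso hg
  obtain ⟨⟨d, hd, hd'⟩, e, he, he'⟩ := hC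
  set G : Set ℕ := {x | P1 x ∧ ¬ P2 x} with hG
  -- label and owner functions are computable
  have hl : Computable fun v => Lab E1 E2 (g v) := by
    refine computable_of_graph ?_
    have : Computable fun x : ℕ × ℕ => d (x.2, [x.1]) := by fun_prop
    refine (of_bool this).of_eq fun x => ?_
    rw [hd' x.2 [x.1] rfl, hR]
  obtain ⟨l, hl0⟩ : ∃ l : ℕ → ℕ, l = fun v => Lab E1 E2 (g v) := ⟨_, rfl⟩
  have hlv : ∀ v, l v = Lab E1 E2 (g v) := fun v => by rw [hl0]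
  rw [← hl0] at hl
  obtain ⟨φ, hφ0⟩ : ∃ φ : ℕ → ℕ, φ = fun v => C.F 0 [v] := ⟨_, rfl⟩
  have hφv : ∀ v, g (φ v) = Fn E1 E2 false (g v) := fun v => by rw [hφ0]; exact hF 0 v
  have hφ : Computable φ := by
    have : Computable fun v : ℕ => e (0, [v]) := by fun_prop
    refine this.of_eq fun v => ?_
    rw [he' 0 [v] rfl, hφ0]
  -- selector
  obtain ⟨c, hc, hcl⟩ : ∃ c : ℕ → ℕ, Computable c ∧ ∀ x, l (c x) = Nat.pair x 1 := by
    refine exists_sel (r := fun x y => l y = Nat.pair x 1) ?_ ?_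
    · exact eq (by fun_prop) (by fun_prop)
    · intro x
      obtain ⟨y, hy⟩ := hb.2 (mk x 0 2)
      refine ⟨y, ?_⟩
      rw [hlv, hy, Lab_mk, code_02]
  obtain ⟨f, hf, hfL, hf1, hf2⟩ := up_iso h1 h2 hg (fun x => g (φ (c x)) = mk x 0 0)
  obtain ⟨fb, fR, fF⟩ := of_iso hf
  have hfφ : ∀ v, f (φ v) = Fn E1 E2 false (f v) := fun v => by rw [hφ0]; exact fF 0 v
  have hfl : ∀ v, Lab E1 E2 (f v) = l v := fun v => by rw [hfL, hlv]
  -- the facts
  have F1 : ∀ x, x ∉ G → f (φ (c x)) = mk x 0 1 := by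
    intro x hx
    obtain ⟨x', r, t, hct⟩ := mk_surj (g (c x))
    have h3 := hcl x
    rw [hlv, hct, Lab_mk, Nat.pair_eq_pair] at h3
    obtain ⟨rfl, h3⟩ := h3
    rcases code_one.1 h3 with ⟨rfl, rfl⟩ | ⟨rfl, ht⟩
    · have h4 : g (φ (c x')) = mk x' 0 1 := by rw [hφv, hct, Fn_mk, own_02]
      rw [hf1, h4]
      rintro ⟨h5, -⟩
      have hx' : (g (φ (c x'))).unpair.1 = x' := by rw [h4]; simp [mk]
      rw [hx', h4, mk_inj] at h5
      simp at h5
    · have h4 : g (φ (c x')) = mk x' 0 0 := by rw [hφv, hct, Fn_mk, own_1 _ ht]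
      have hp1 : P1 x' := (h1.iff _).2 ⟨t, ht⟩
      have hp2 : P2 x' := by
        by_contra h6
        exact hx ⟨hp1, h6⟩
      exact hf2 x' _ h4 hp1 hp2 h4
  have F2 : ∀ x w, x ∈ G → l w = Nat.pair x 2 → f (φ w) = mk x 0 0 := by
    intro x w hx hw
    obtain ⟨x', r, t, hct⟩ := mk_surj (g w)
    rw [hlv, hct, Lab_mk, Nat.pair_eq_pair] at hw
    obtain ⟨rfl, h3⟩ := hw
    rcases code_two.1 h3 with ⟨rfl, ht⟩ | ⟨rfl, ht⟩
    · have h4 : g (φ w) = mk x' 0 0 := by rw [hφv, hct, Fn_mk, own_2 _ ht]; rfl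
      rw [hf1, h4]
      rintro ⟨-, -, h5⟩
      have hx' : (g (φ w)).unpair.1 = x' := by rw [h4]; simp [mk]
      rw [hx'] at h5
      exact hx.2 h5
    · exact absurd ((h2.iff _).2 ⟨t, ht⟩) hx.2
  have F3 : ∀ x, x ∈ G → ∃ w, l w = Nat.pair x 2 := by
    intro x hx
    obtain ⟨t, ht⟩ := (h1.iff x).1 hx.1
    obtain ⟨w, hw⟩ := hb.2 (mk x 2 t)
    exact ⟨w, by rw [hlv, hw, Lab_mk, code_2 ht]⟩
  have F4 : ∀ v, (l v).unpair.2 < 3 → f (φ v) = mk (l v).unpair.1 0 0 ∨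
      f (φ v) = mk (l v).unpair.1 0 1 := by
    intro v hv
    rw [← hfl v] at hv ⊢
    rw [hfφ, lab_fst]
    exact own_node false hv
  have hne : ∀ x, mk x 0 0 ≠ mk x 0 1 := by
    intro x hx
    rw [mk_inj] at hx
    simp at hx
  refine ⟨f, hf, ?_⟩
  refine graphO (u := fun v => chi G (l v).unpair.1)
    (RecT.comp (TR.refl (chi G)) (Computable.recT (by fun_prop)))
    (fun a y => Lab E1 E2 y = l a.1 ∧ (3 ≤ (l a.1).unpair.2 ∨
      (a.2 = 0 ∧ ((φ a.1 = φ (c (l a.1).unpair.1) ∧ Fn E1 E2 false y = mk (l a.1).unpair.1 0 1) ∨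
        (φ a.1 ≠ φ (c (l a.1).unpair.1) ∧ Fn E1 E2 false y = mk (l a.1).unpair.1 0 0))) ∨
      (a.2 ≠ 0 ∧ ∃ w, l w = Nat.pair (l a.1).unpair.1 2 ∧
        ((φ a.1 = φ w ∧ Fn E1 E2 false y = mk (l a.1).unpair.1 0 0) ∨
        (φ a.1 ≠ φ w ∧ Fn E1 E2 false y = mk (l a.1).unpair.1 0 1))))) ?_ ?_ ?_
  · have cL := Lab_comp h1.comp h2.comp
    have cF := Fn_comp h1.comp h2.comp false
    have q1 : ∀ f : (ℕ × ℕ) × ℕ → ℕ, ∀ g : (ℕ × ℕ) × ℕ → ℕ, Computable f → Computable g →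
        REPred fun a => f a = g a := fun f g hf hg => eq hf hg
    refine rAnd (eq (by fun_prop) (by fun_prop)) (rOr (le (by fun_prop) (by fun_prop)) (rOr
      (rAnd (eq (by fun_prop) (by fun_prop))
        (rOr (rAnd (eq (by fun_prop) (by fun_prop)) (eq (by fun_prop) (by fun_prop)))
        (rAnd (ne (by fun_prop) (by fun_prop)) (eq (by fun_prop) (by fun_prop)))))
      (rAnd (ne (by fun_prop) (by fun_prop)) (exN ?_))))
    exact rAnd (eq (by fun_prop) (by fun_prop))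
        (rOr (rAnd (eq (by fun_prop) (by fun_prop)) (eq (by fun_prop) (by fun_prop)))
        (rAnd (ne (by fun_prop) (by fun_prop)) (eq (by fun_prop) (by fun_prop))))
  · intro v
    refine ⟨hfl v, ?_⟩
    by_cases h3 : 3 ≤ (l v).unpair.2
    · exact Or.inl h3
    · right
      have h4 := F4 v (by omega)
      by_cases hx : (l v).unpair.1 ∈ G
      · right
        refine ⟨by simp [chi, hx], ?_⟩
        obtain ⟨w, hw⟩ := F3 _ hx
        refine ⟨w, hw, ?_⟩
        have h5 := F2 _ w hx hw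
        by_cases h6 : φ v = φ w
        · left
          refine ⟨h6, ?_⟩
          rw [← hfφ, h6, h5]
        · right
          refine ⟨h6, ?_⟩
          rw [← hfφ]
          refine h4.resolve_left fun h7 => h6 (fb.1 ?_)
          rw [h7, h5]
      · left
        refine ⟨by simp [chi, hx], ?_⟩
        have h5 := F1 _ hx
        by_cases h6 : φ v = φ (c (l v).unpair.1)
        · left
          refine ⟨h6, ?_⟩
          rw [← hfφ, h6, h5]
        · right
          refine ⟨h6, ?_⟩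
          rw [← hfφ]
          refine h4.resolve_right fun h7 => h6 (fb.1 ?_)
          rw [h7, h5]
  · rintro v y ⟨hy1, hy2⟩
    have hL : Lab E1 E2 y = Lab E1 E2 (f v) := by rw [hy1, hfl]
    rcases hy2 with h3 | ⟨h3, h4⟩ | ⟨h3, w, hw, h4⟩
    · exact uq_big hL (by rw [hy1]; exact h3)
    · have hx : (l v).unpair.1 ∉ G := by
        intro hx
        simp [chi, hx] at h3
      have h5 := F1 _ hx
      by_cases h9 : 3 ≤ (l v).unpair.2
      · exact uq_big hL (by rw [hy1]; exact h9)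
      have h8 := F4 v (by omega)
      refine uq h1 h2 false hL ?_
      rw [← hfφ]
      rcases h4 with ⟨h6, h7⟩ | ⟨h6, h7⟩
      · rw [h7, h6, h5]
      · rw [h7]
        refine (h8.resolve_right fun h10 => h6 (fb.1 ?_)).symm
        rw [h10, h5]
    · have hx : (l v).unpair.1 ∈ G := by
        by_contra hx
        simp [chi, hx] at h3
      have h5 := F2 _ w hx hw
      by_cases h9 : 3 ≤ (l v).unpair.2
      · exact uq_big hL (by rw [hy1]; exact h9)
      have h8 := F4 v (by omega)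
      refine uq h1 h2 false hL ?_
      rw [← hfφ]
      rcases h4 with ⟨h6, h7⟩ | ⟨h6, h7⟩
      · rw [h7, h6, h5]
      · rw [h7]
        refine (h8.resolve_left fun h10 => h6 (fb.1 ?_)).symm
        rw [h10, h5]

end

theorem lowR (A B : Set ℕ) {eA : ℕ × ℕ → Bool} (hA : Ev (· ∈ A) eA) {f : ℕ → ℕ}
    (f1 : ∀ n, n ∉ A → f (mk (2 * n + 1) 0 1) = mk (2 * n + 1) 0 1)
    (f2 : ∀ n, n ∈ A → n ∉ B → f (mk (2 * n + 1) 0 1) = mk (2 * n + 1) 0 0)
    (f3 : ∀ n s, eA (n, s) = true → n ∉ B → f (mk (2 * Nat.pair n s) 0 1) =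
      mk (2 * Nat.pair n s) 0 1)
    (f4 : ∀ n s, eA (n, s) = true → n ∈ B → f (mk (2 * Nat.pair n s) 0 1) =
      mk (2 * Nat.pair n s) 0 0) :
    TR (chi (A \ B)) f := by
  classical
  have hne : ∀ x, mk x 0 0 ≠ mk x 0 1 := by
    intro x hx
    rw [mk_inj] at hx
    simp at hx
  have hex : ∀ n, f (mk (2 * n + 1) 0 1) ≠ mk (2 * n + 1) 0 1 → ∃ s, eA (n, s) = true := by
    intro n hn
    by_contra hs
    exact hn (f1 n fun hA' => hs ((hA.iff n).1 hA'))
  have hu1 : RecT {(f : ℕ →. ℕ)} fun n => f (mk (2 * n + 1) 0 1) :=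
    RecT.comp (TR.refl f) (Computable.recT (by fun_prop))
  let S : ℕ → ℕ := fun n => if h : f (mk (2 * n + 1) 0 1) ≠ mk (2 * n + 1) 0 1 then
    (hex n h).choose + 1 else 0
  have hS : RecT {(f : ℕ →. ℕ)} S := by
    refine graphO hu1 (fun a y => (a.2 = mk (2 * a.1 + 1) 0 1 ∧ y = 0) ∨
      (a.2 ≠ mk (2 * a.1 + 1) 0 1 ∧ eA (a.1, y - 1) = true ∧ y ≠ 0)) ?_ ?_ ?_
    · have := hA.comp
      exact rOr (rAnd (eq (by fun_prop) (by fun_prop)) (eq (by fun_prop) (by fun_prop)))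
        (rAnd (ne (by fun_prop) (by fun_prop)) (rAnd (of_bool (by fun_prop))
          (ne (by fun_prop) (by fun_prop))))
    · intro n
      by_cases h : f (mk (2 * n + 1) 0 1) ≠ mk (2 * n + 1) 0 1
      · right
        have : S n = (hex n h).choose + 1 := dif_pos h
        rw [this]
        exact ⟨h, by simpa using (hex n h).choose_spec, by omega⟩
      · left
        have h' : S n = 0 := dif_neg h
        rw [h']
        exact ⟨by simpa using h, rfl⟩
    · rintro n y (⟨h1, rfl⟩ | ⟨h1, h2, h3⟩)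
      · have h' : S n = 0 := dif_neg (by simpa using h1)
        rw [h']
      · have : S n = (hex n h1).choose + 1 := dif_pos h1
        rw [this]
        have := hA.uniq _ _ _ h2 (hex n h1).choose_spec
        omega
  have hu2 : RecT {(f : ℕ →. ℕ)} fun n => f (mk (2 * Nat.pair n (S n - 1)) 0 1) := by
    have h0 : Computable fun z : ℕ => mk (2 * Nat.pair z.unpair.1 (z.unpair.2 - 1)) 0 1 := by
      fun_prop
    have h3 := RecT.comp (TR.refl f) (RecT.comp (Computable.recT (O := {(f : ℕ →. ℕ)}) h0)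
      (RecT.pair (Computable.recT (O := {(f : ℕ →. ℕ)}) Computable.id) hS))
    simpa using h3
  refine graphO (RecT.pair hS hu2) (fun a y =>
    (a.2.unpair.1 = 0 ∧ y = 0) ∨ (a.2.unpair.1 ≠ 0 ∧
      ((a.2.unpair.2 = mk (2 * Nat.pair a.1 (a.2.unpair.1 - 1)) 0 1 ∧ y = 1) ∨
      (a.2.unpair.2 ≠ mk (2 * Nat.pair a.1 (a.2.unpair.1 - 1)) 0 1 ∧ y = 0)))) ?_ ?_ ?_
  · exact rOr (rAnd (eq (by fun_prop) (by fun_prop)) (eq (by fun_prop) (by fun_prop)))
      (rAnd (ne (by fun_prop) (by fun_prop)) (rOr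
        (rAnd (eq (by fun_prop) (by fun_prop)) (eq (by fun_prop) (by fun_prop)))
        (rAnd (ne (by fun_prop) (by fun_prop)) (eq (by fun_prop) (by fun_prop)))))
  all_goals
    intro n
    simp only [Nat.unpair_pair]
    by_cases h : f (mk (2 * n + 1) 0 1) ≠ mk (2 * n + 1) 0 1
  · have hs : S n = (hex n h).choose + 1 := dif_pos h
    have hsp := (hex n h).choose_spec
    have hnA : n ∈ A := (hA.iff n).2 ⟨_, hsp⟩
    right
    rw [hs]
    simp only [Nat.add_sub_cancel]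
    refine ⟨by omega, ?_⟩
    by_cases hB : n ∈ B
    · right
      rw [f4 n _ hsp hB]
      exact ⟨hne _, by simp [chi, hB]⟩
    · left
      exact ⟨f3 n _ hsp hB, by simp [chi, hB, hnA]⟩
  · have hs : S n = 0 := dif_neg h
    left
    refine ⟨hs, ?_⟩
    by_cases hD : n ∈ A \ B
    · exfalso
      rw [f2 n hD.1 hD.2] at h
      exact h (hne _)
    · simp only [chi, if_neg hD]
  · have hs : S n = (hex n h).choose + 1 := dif_pos h
    have hsp := (hex n h).choose_spec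
    have hnA : n ∈ A := (hA.iff n).2 ⟨_, hsp⟩
    rw [hs]
    simp only [Nat.add_sub_cancel]
    rintro y (⟨h1, -⟩ | ⟨-, ⟨h1, rfl⟩ | ⟨h1, rfl⟩⟩)
    · omega
    · by_cases hB : n ∈ B
      · rw [f4 n _ hsp hB] at h1
        exact absurd h1 (hne _)
      · simp [chi, hB, hnA]
    · by_cases hB : n ∈ B
      · simp [chi, hB]
      · exact absurd (f3 n _ hsp hB) h1
  · have hs : S n = 0 := dif_neg h
    rw [hs]
    rintro y (⟨-, rfl⟩ | ⟨h1, -⟩)
    · by_cases hD : n ∈ A \ B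
      · exfalso
        rw [f2 n hD.1 hD.2] at h
        exact h (hne _)
      · simp only [chi, if_neg hD]
    · exact absurd rfl h1

end FKM

open Pool.Agent.Helper446.RE Pool.Agent.Helper743 FKM in
theorem fkm (A B : Set ℕ) (hA : REPred (· ∈ A)) (hB : REPred (· ∈ B)) :
    ∃ L S, L.IsComputable ∧ IsDegCat L S (chi (A \ B)) := by
  classical
  obtain ⟨eA, hAe⟩ := exists_ev hA
  have hAc := hAe.comp
  have c2 : Computable fun x : ℕ => x % 2 := Primrec.to_comp (Primrec.nat_mod.comp .id (.const 2))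
  have d2 : Computable fun x : ℕ => x / 2 := Primrec.to_comp (Primrec.nat_div.comp .id (.const 2))
  let P1 : ℕ → Prop := fun x => (x % 2 = 0 ∧ eA ((x / 2).unpair.1, (x / 2).unpair.2) = true ∧
    (x / 2).unpair.1 ∈ B) ∨ (x % 2 = 1 ∧ x / 2 ∈ A)
  let P2 : ℕ → Prop := fun x => x % 2 = 1 ∧ x / 2 ∈ A ∧ x / 2 ∈ B
  have r1 : REPred P1 := by
    refine rOr (rAnd (eq c2 (by fun_prop)) (rAnd (of_bool (by fun_prop)) ?_))
      (rAnd (eq c2 (by fun_prop)) ?_)
    · exact comp (p := (· ∈ B)) hB (by fun_prop : Computable fun x : ℕ => (x / 2).unpair.1)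
    · exact comp (p := (· ∈ A)) hA d2
  have r2 : REPred P2 := by
    refine rAnd (eq c2 (by fun_prop)) (rAnd ?_ ?_)
    · exact comp (p := (· ∈ A)) hA d2
    · exact comp (p := (· ∈ B)) hB d2
  have h21 : ∀ x, P2 x → P1 x := fun x hx => Or.inr ⟨hx.1, hx.2.1⟩
  obtain ⟨E1, h1⟩ := exists_ev r1
  obtain ⟨E2, h2⟩ := exists_ev r2
  have hG : TR (chi {x | P1 x ∧ ¬ P2 x}) (chi (A \ B)) := by
    refine graphO (u := fun x => chi (A \ B) (bif decide (x % 2 = 0) then (x / 2).unpair.1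
      else x / 2)) (RecT.comp (TR.refl _) (Computable.recT (by fun_prop)))
      (fun a y => (a.1 % 2 = 0 ∧ eA ((a.1 / 2).unpair.1, (a.1 / 2).unpair.2) = true ∧
        y = 1 - a.2) ∨ (a.1 % 2 = 0 ∧ eA ((a.1 / 2).unpair.1, (a.1 / 2).unpair.2) = false ∧
        y = 0) ∨ (a.1 % 2 = 1 ∧ y = a.2)) ?_ ?_ ?_
    · have e1 : Computable fun a : (ℕ × ℕ) × ℕ => a.1.1 % 2 := by fun_prop
      have hf : REPred fun a : (ℕ × ℕ) × ℕ =>
          eA ((a.1.1 / 2).unpair.1, (a.1.1 / 2).unpair.2) = false := by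
        refine (of_bool (f := fun a : (ℕ × ℕ) × ℕ =>
          !(eA ((a.1.1 / 2).unpair.1, (a.1.1 / 2).unpair.2))) (by fun_prop)).of_eq fun a => ?_
        simp
      exact rOr (rAnd (eq e1 (by fun_prop)) (rAnd (of_bool (by fun_prop))
        (eq (by fun_prop) (by fun_prop)))) (rOr (rAnd (eq e1 (by fun_prop)) (rAnd hf
        (eq (by fun_prop) (by fun_prop)))) (rAnd (eq e1 (by fun_prop))
        (eq (by fun_prop) (by fun_prop))))
    all_goals
      intro x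
      rcases Nat.mod_two_eq_zero_or_one x with hx | hx
    · rcases hv : eA ((x / 2).unpair.1, (x / 2).unpair.2) with _ | _
      · right; left
        refine ⟨hx, rfl, ?_⟩
        have : x ∉ {x | P1 x ∧ ¬ P2 x} := by
          rintro ⟨⟨-, h3, -⟩ | ⟨h3, -⟩, -⟩
          · rw [hv] at h3; simp at h3
          · omega
        simp only [chi, if_neg this]
      · left
        refine ⟨hx, rfl, ?_⟩
        have hA' : (x / 2).unpair.1 ∈ A := (hAe.iff _).2 ⟨_, hv⟩
        by_cases hB' : (x / 2).unpair.1 ∈ B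
        · have : x ∈ {x | P1 x ∧ ¬ P2 x} := ⟨Or.inl ⟨hx, hv, hB'⟩, fun h3 => by
            have := h3.1; omega⟩
          simp only [chi, if_pos this]
          simp [hx, hB']
        · have : x ∉ {x | P1 x ∧ ¬ P2 x} := by
            rintro ⟨⟨-, -, h3⟩ | ⟨h3, -⟩, -⟩
            · exact hB' h3
            · omega
          simp only [chi, if_neg this]
          simp [hx, hB', hA']
    · right; right
      refine ⟨hx, ?_⟩
      by_cases hD : x / 2 ∈ A \ B
      · have : x ∈ {x | P1 x ∧ ¬ P2 x} := ⟨Or.inr ⟨hx, hD.1⟩, fun h3 => hD.2 h3.2.2⟩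
        simp only [chi, if_pos this]
        simp [hx, hD.1, hD.2]
      · have : x ∉ {x | P1 x ∧ ¬ P2 x} := by
          rintro ⟨⟨h3, -⟩ | ⟨-, h3⟩, h4⟩
          · omega
          · exact hD ⟨h3, fun h5 => h4 ⟨hx, h3, h5⟩⟩
        simp only [chi, if_neg this]
        have h6 : (bif decide (x % 2 = 0) then (x / 2).unpair.1 else x / 2) = x / 2 := by
          simp [hx]
        rw [h6, if_neg hD]
    · rintro y (⟨-, hv, rfl⟩ | ⟨-, hv, rfl⟩ | ⟨h3, -⟩)
      · have hA' : (x / 2).unpair.1 ∈ A := (hAe.iff _).2 ⟨_, hv⟩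
        by_cases hB' : (x / 2).unpair.1 ∈ B
        · have : x ∈ {x | P1 x ∧ ¬ P2 x} := ⟨Or.inl ⟨hx, hv, hB'⟩, fun h3 => by
            have := h3.1; omega⟩
          simp only [chi, if_pos this]
          simp [hx, hB']
        · have : x ∉ {x | P1 x ∧ ¬ P2 x} := by
            rintro ⟨⟨-, -, h3⟩ | ⟨h3, -⟩, -⟩
            · exact hB' h3
            · omega
          simp only [chi, if_neg this]
          simp [hx, hB', hA']
      · have : x ∉ {x | P1 x ∧ ¬ P2 x} := by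
          rintro ⟨⟨-, h3, -⟩ | ⟨h3, -⟩, -⟩
          · simp only at hv; rw [hv] at h3; simp at h3
          · omega
        simp only [chi, if_neg this]
      · simp only at h3; omega
    · rintro y (⟨h3, -⟩ | ⟨h3, -⟩ | ⟨-, rfl⟩)
      · simp only at h3; omega
      · simp only at h3; omega
      · by_cases hD : x / 2 ∈ A \ B
        · have : x ∈ {x | P1 x ∧ ¬ P2 x} := ⟨Or.inr ⟨hx, hD.1⟩, fun h3 => hD.2 h3.2.2⟩
          simp only [chi, if_pos this]
          simp [hx, hD.1, hD.2]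
        · have : x ∉ {x | P1 x ∧ ¬ P2 x} := by
            rintro ⟨⟨h3, -⟩ | ⟨-, h3⟩, h4⟩
            · omega
            · exact hD ⟨h3, fun h5 => h4 ⟨hx, h3, h5⟩⟩
          simp only [chi, if_neg this]
          have h6 : (bif decide (x % 2 = 0) then (x / 2).unpair.1 else x / 2) = x / 2 := by
            simp [hx]
          rw [h6, if_neg hD]
  refine ⟨LL, SS E1 E2 false, LL_comp, SS_comp h1 h2 false, ?_, ?_⟩
  · rintro C hC ⟨g, hg⟩
    obtain ⟨f, hf, hr⟩ := up h1 h2 hC hg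
    exact ⟨f, hf, TR_iff.1 (TR.trans hr hG)⟩
  · intro y hy
    obtain ⟨f, hf, hr⟩ := hy (SS E1 E2 true) (SS_comp h1 h2 true) (exists_iso h1 h2 h21)
    refine TR_iff.1 (TR.trans (lowR A B hAe (f := f) ?_ ?_ ?_ ?_) (TR_iff.2 hr))
    · intro n hn
      refine low1 h1 hf ?_
      rintro (⟨h3, -⟩ | ⟨-, h3⟩)
      · omega
      · rw [show (2 * n + 1) / 2 = n by omega] at h3
        exact hn h3
    · intro n hn hn'
      refine low2 h1 h2 hf (Or.inr ⟨by omega, ?_⟩) ?_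
      · rw [show (2 * n + 1) / 2 = n by omega]
        exact hn
      · rintro ⟨-, -, h3⟩
        rw [show (2 * n + 1) / 2 = n by omega] at h3
        exact hn' h3
    · intro n s hs hn
      refine low1 h1 hf ?_
      rintro (⟨-, -, h3⟩ | ⟨h3, -⟩)
      · rw [show (2 * Nat.pair n s) / 2 = Nat.pair n s by omega, Nat.unpair_pair] at h3
        exact hn h3
      · omega
    · intro n s hs hn
      refine low2 h1 h2 hf (Or.inl ⟨by omega, ?_⟩) ?_
      · rw [show (2 * Nat.pair n s) / 2 = Nat.pair n s by omega, Nat.unpair_pair]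
        exact ⟨hs, hn⟩
      · rintro ⟨h3, -⟩
        omega

end Pool.Agent.Helper750.DC
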