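import Pool.Agent.Helper750.DC.Conv

set_option autoImplicit false

/-! Codes of functionals. -/

namespace Pool.Agent.Helper750.DC

open Encodable
open Nat.Partrec (Code)
open Pool.Agent.Helper743 (TR TR_iff use_principle pre)

/-- the functional with index `j` computes `f` from `G` -/
def IsFun (j : ℕ) (G f : ℕ → ℕ) : Prop :=
  (∀ s v x y, Ph j s ((List.range v).map G) x = some y → y = f x) ∧
  ∀ x, ∃ v0, ∀ v, v0 ≤ v → ∃ s0, ∀ s, s0 ≤ s → Ph j s ((List.range v).map G) x = some (f x)

theorem exists_isFun {f G : ℕ → ℕ} (h : TLe f G) : ∃ j, IsFun j G f := by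
  have h1 : TR f G := TR_iff.2 h
  obtain ⟨ev, hev, hmono, hspec⟩ := use_principle G (fun n => Part.some (f n)) h1
  have h2 : Computable fun p : List ℕ × ℕ => ev p.1 p.2 := hev
  have h3 : Nat.Partrec fun n => Part.bind ((decode (α := List ℕ × ℕ) n : Option (List ℕ × ℕ)) :
      Part (List ℕ × ℕ)) fun a : List ℕ × ℕ => ((Part.some (ev a.1 a.2)).map encode) := h2
  obtain ⟨c, hc⟩ := Nat.Partrec.Code.exists_code.1 h3
  have hc2 : ∀ τ x, Code.eval c (encode ((τ, x) : List ℕ × ℕ)) = Part.some (encode (ev τ x)) := by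
    intro τ x
    rw [hc]
    simp
  have hPh : ∀ s τ x, Ph (encode c) s τ x = (Code.evaln s c (encode (τ, x))).bind fun r =>
      (decode (α := Option ℕ) r).bind id := by
    intro s τ x
    unfold Ph
    rw [Denumerable.ofNat_encode]
  have hP1 : ∀ s τ x y, Ph (encode c) s τ x = some y → ev τ x = some y := by
    intro s τ x y h4
    rw [hPh, Option.bind_eq_some_iff] at h4
    obtain ⟨r, h5, h6⟩ := h4
    have h7 := Code.evaln_sound h5
    rw [hc2, Part.mem_some_iff] at h7
    rw [h7, encodek] at h6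
    exact h6
  have hP2 : ∀ τ x y, ev τ x = some y → ∃ s0, ∀ s, s0 ≤ s → Ph (encode c) s τ x = some y := by
    intro τ x y h4
    have h5 : encode (ev τ x) ∈ Code.eval c (encode ((τ, x) : List ℕ × ℕ)) := by
      rw [hc2]; exact Part.mem_some _
    obtain ⟨s0, h6⟩ := Code.evaln_complete.1 h5
    refine ⟨s0, fun s hs => ?_⟩
    have h7 := Code.evaln_mono hs h6
    rw [hPh, Option.bind_eq_some_iff]
    refine ⟨_, h7, ?_⟩
    rw [encodek]
    exact h4
  refine ⟨encode c, fun s v x y h4 => ?_, fun x => ?_⟩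
  · have h5 := hP1 _ _ _ _ h4
    have h6 := (hspec x y).2 ⟨v, h5⟩
    simpa using h6
  · obtain ⟨n, hn⟩ := (hspec x (f x)).1 (by simp)
    refine ⟨n, fun v hv => ?_⟩
    exact hP2 _ _ _ (hmono _ _ _ _ (Pool.Agent.Helper743.pre_prefix G hv) hn)

end Pool.Agent.Helper750.DC
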