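import Pool.Agent.Helper750.DC.Seq

set_option autoImplicit false

/-! Invariants of the construction. -/

namespace Pool.Agent.Helper750.DC

open Encodable Pool.Agent.Helper446

/-- the situation -/
structure Ctx (S : DS) (E : ℕ → Env) (D : Set ℕ) (i : ℕ) : Prop where
  hE : EnvProps E D
  act : ∀ m s, Acts E (Nat.pair i m) s → ∃ r v q, Valid E (req S i) i r s m v q ∧
    NewD E i s m q ∧ ∀ t, s + 1 ≤ t → (E t).c (Nat.pair i m) = (E s).c (Nat.pair i m) →
      (E t).bits v = (E (s + 1)).bits v
  nof : ∀ m v q r, ¬ ∀ s, r ≤ s → v ≤ s → Valid E (req S i) i s s m v q ∧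
    (E s).bits v = (E r).bits v ∧ (E s).c (Nat.pair i m) = (E r).c (Nat.pair i m) ∧
      ∀ m', q = m' + 1 → (E s).c (Nat.pair i m') = (E r).c (Nat.pair i m')

theorem exists_ctx (S : DS) {E : ℕ → Env} {D : Set ℕ} (hE : EnvProps E D) :
    ∃ i, Ctx S E D i := by
  obtain ⟨i, h1, h2⟩ := hE.proc (fun i l => req S i l) (c_req S)
  exact ⟨i, hE, h1, h2⟩

section env
variable {E : ℕ → Env} {D : Set ℕ} (hE : EnvProps E D)
include hE

theorem c_or (n t : ℕ) : ((E (t + 1)).c n = (E t).c n ∧ ((E t).st n = true → (E (t + 1)).st n = true))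
    ∨ ((E (t + 1)).c n = t + 1 ∧ (E (t + 1)).st n = false) := by
  rcases hE.step t with h | ⟨n', h⟩
  · rw [h]; exact Or.inl ⟨rfl, id⟩
  · rcases lt_trichotomy n' n with h1 | h1 | h1
    · obtain ⟨h2, h3⟩ := h.2.2.2.2 n h1
      exact Or.inr ⟨h3, h2⟩
    · subst h1
      exact Or.inl ⟨h.2.2.1, fun _ => h.2.1⟩
    · obtain ⟨h2, h3⟩ := h.2.2.2.1 n h1
      exact Or.inl ⟨h3, fun h4 => by rw [h2]; exact h4⟩

theorem c_mono1 (n t : ℕ) : (E t).c n ≤ (E (t + 1)).c n := by
  rcases c_or hE n t with h | h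
  · rw [h.1]
  · rw [h.1]
    have := hE.c_le t n
    omega

theorem c_mono (n : ℕ) {s t : ℕ} (h : s ≤ t) : (E s).c n ≤ (E t).c n := by
  induction t, h using Nat.le_induction with
  | base => exact le_rfl
  | succ t _ ih => exact ih.trans (c_mono1 hE n t)

theorem c_btw {n s t u : ℕ} (h1 : s ≤ u) (h2 : u ≤ t) (h : (E t).c n = (E s).c n) :
    (E u).c n = (E s).c n := by
  have a1 := c_mono hE n h1
  have a2 := c_mono hE n h2
  omega

theorem st_up1 {n t : ℕ} (h : (E t).st n = true) (hc : (E (t + 1)).c n = (E t).c n) :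
    (E (t + 1)).st n = true := by
  rcases c_or hE n t with h1 | h1
  · exact h1.2 h
  · have := hE.c_le t n
    omega

theorem st_up {n s t : ℕ} (hst : s ≤ t) (h : (E s).st n = true) (hc : (E t).c n = (E s).c n) :
    (E t).st n = true := by
  induction t, hst using Nat.le_induction with
  | base => exact h
  | succ t ht ih =>
    have h1 : (E t).c n = (E s).c n := c_btw hE ht (Nat.le_succ t) hc
    exact st_up1 hE (ih h1) (by rw [hc, h1])

theorem st_down {n s t : ℕ} (hst : s ≤ t) (h : (E t).st n = false) (hc : (E t).c n = (E s).c n) :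
    (E s).st n = false := by
  by_contra h1
  rw [Bool.not_eq_false] at h1
  rw [st_up hE hst h1 hc] at h
  exact absurd h (by simp)

theorem act_of {n t : ℕ} (h1 : (E t).st n = false) (h2 : (E (t + 1)).st n = true) :
    Acts E n t := by
  rcases hE.step t with h | ⟨n', h⟩
  · rw [h, h1] at h2; exact absurd h2 (by simp)
  · rcases lt_trichotomy n' n with h3 | h3 | h3
    · obtain ⟨h4, _⟩ := h.2.2.2.2 n h3
      rw [h4] at h2; exact absurd h2 (by simp)
    · subst h3; exact h
    · obtain ⟨h4, _⟩ := h.2.2.2.1 n h3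
      rw [h4, h1] at h2; exact absurd h2 (by simp)

theorem act_cancel {n n' t : ℕ} (h : Acts E n' t) (hn : n' < n) : (E (t + 1)).c n ≠ (E t).c n := by
  obtain ⟨_, h3⟩ := h.2.2.2.2 n hn
  have := hE.c_le t n
  omega

/-- no action of a smaller requirement while `c` does not change -/
theorem no_act {n n' s t u : ℕ} (hn : n' < n) (h1 : s ≤ u) (h2 : u < t)
    (hc : (E t).c n = (E s).c n) : ¬ Acts E n' u := by
  intro h
  apply act_cancel hE h hn
  rw [c_btw hE (by omega) (by omega) hc, c_btw hE h1 (by omega) hc]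

theorem st_keep_false {n n' s t u : ℕ} (hn : n' < n) (h0 : (E s).st n' = false) (h1 : s ≤ u)
    (h2 : u ≤ t) (hc : (E t).c n = (E s).c n) : (E u).st n' = false := by
  induction u, h1 using Nat.le_induction with
  | base => exact h0
  | succ u hu ih =>
    have h3 := ih (by omega)
    by_contra h4
    rw [Bool.not_eq_false] at h4
    exact no_act hE hn hu (by omega) hc (act_of hE h3 h4)

end env

theorem bits_length (e : Env) (v : ℕ) : (e.bits v).length = v := by simp [Env.bits]

theorem bits_eq {e e' : Env} {v : ℕ} (h : ∀ x < v, x ∈ e.1 ↔ x ∈ e'.1) : e.bits v = e'.bits v := by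
  unfold Env.bits
  refine List.map_congr_left fun x hx => ?_
  rw [List.mem_range] at hx
  have := h x hx
  by_cases h1 : x ∈ e.1
  · rw [if_pos h1, if_pos (this.1 h1)]
  · rw [if_neg h1, if_neg fun h2 => h1 (this.2 h2)]

theorem bits_take (e : Env) {v w : ℕ} (h : v ≤ w) : (e.bits w).take v = e.bits v := by
  unfold Env.bits
  rw [← List.map_take, List.take_range, min_eq_left h]

theorem mem_of_bits {e e' : Env} {v : ℕ} (h : e.bits v = e'.bits v) : ∀ x < v, x ∈ e.1 ↔ x ∈ e'.1 := by
  intro x hx
  have h1 := congrArg (fun l => l[x]?) h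
  simp only [Env.bits, List.getElem?_map, List.getElem?_range hx, Option.map_some,
    Option.some.injEq] at h1
  by_cases h2 : x ∈ e.1
  · by_cases h3 : x ∈ e'.1
    · exact ⟨fun _ => h3, fun _ => h2⟩
    · rw [if_pos h2, if_neg h3] at h1; omega
  · by_cases h3 : x ∈ e'.1
    · rw [if_neg h2, if_pos h3] at h1; omega
    · exact ⟨fun h => absurd h h2, fun h => absurd h h3⟩

section
variable {S : DS} {E : ℕ → Env} {D : Set ℕ} {i : ℕ}

theorem keep_B {x : PS} {e : Env} {c} (h : certB S i x e c) : Keep i (pD x) (PB i e c) e := by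
  refine ⟨rfl, h.1.2.2.2.1, fun _ => h.2.2.2.1.2.1, fun h => absurd rfl h⟩

theorem keep_A {x : PS} {e : Env} {c} (h : certA S i x e c) : Keep i (pD x) (PA i e c) e := by
  obtain ⟨⟨_, _, h2, _, h4⟩, _⟩ := h
  refine ⟨rfl, h2, fun hq => ?_, fun hq => ?_⟩
  · rcases h4 with h4 | ⟨b, _, h5, _⟩
    · exact h4.2.2.1
    · have hq' : c.1.2.2.2 = 0 := hq
      omega
  · rcases h4 with h4 | ⟨b, _, h5, _, _, _, _, _, h6⟩
    · exact absurd h4.1 hq
    · refine ⟨rfl, ?_⟩
      show e.st (Nat.pair i (c.1.2.2.2 - 1)) = true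
      rw [h5, Nat.add_sub_cancel]
      exact h6

variable (S i E) in
theorem tr (s : ℕ) : Tr S i (Sg S i E s) (E (s + 1)) (s + 1) (Sg S i E (s + 1)) :=
  tr_step S i _ _ _

variable (S i E) in
theorem dlen (s : ℕ) : (pD (Sg S i E s)).length ≤ s := by
  induction s with
  | zero => exact le_rfl
  | succ s ih =>
    have h := tr S E i s
    generalize Sg S i E (s + 1) = x' at h
    cases h with
    | stay0 => exact ih.trans (Nat.le_succ _)
    | stay1 => exact ih.trans (Nat.le_succ _)
    | drop => exact ih.trans (Nat.le_succ _)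
    | issB => exact ih.trans (Nat.le_succ _)
    | issA => exact ih.trans (Nat.le_succ _)
    | com => exact (bits_length _ _).le
    | graB => exact (bits_length _ _).le
    | graA => exact (bits_length _ _).le

theorem pend_inv (s : ℕ) : ∀ p, pP (Sg S i E s) = some p →
    ∃ s', s' ≤ s ∧ (pD (Sg S i E s)).length ≤ s' ∧
      ((∃ c, certA S i (Sg S i E s) (E s') c ∧ p = PA i (E s') c) ∨
       (∃ c, certB S i (Sg S i E s) (E s') c ∧ p = PB i (E s') c)) ∧
      ∀ t, s' ≤ t → t ≤ s → Keep i (pD (Sg S i E s)) p (E t) := by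
  induction s with
  | zero => intro p hp; exact absurd hp (by simp [Sg, init, pP])
  | succ s ih =>
    have hd := dlen S E i s
    have h := tr S E i s
    generalize Sg S i E (s + 1) = x' at h
    cases h with
    | stay0 h1 _ _ => intro p hp; rw [h1] at hp; exact absurd hp (by simp)
    | stay1 p' h1 h2 =>
      intro p hp
      obtain rfl : p' = p := by rw [h1] at hp; exact Option.some.inj hp
      obtain ⟨s', a1, a2, a3, a4⟩ := ih p' hp
      refine ⟨s', by omega, a2, a3, fun t ht1 ht2 => ?_⟩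
      rcases Nat.lt_or_ge t (s + 1) with h5 | h5
      · exact a4 t ht1 (by omega)
      · obtain rfl : t = s + 1 := by omega
        exact h2
    | drop => intro p hp; exact absurd hp (by simp [pP])
    | issB c h1 h2 =>
      intro p hp
      obtain rfl : PB i (E (s + 1)) c = p := Option.some.inj hp
      refine ⟨s + 1, le_rfl, hd.trans (Nat.le_succ _), Or.inr ⟨c, h2, rfl⟩, fun t ht1 ht2 => ?_⟩
      obtain rfl : t = s + 1 := by omega
      exact keep_B h2
    | issA c h1 h2 =>
      intro p hp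
      obtain rfl : PA i (E (s + 1)) c = p := Option.some.inj hp
      refine ⟨s + 1, le_rfl, hd.trans (Nat.le_succ _), Or.inl ⟨c, h2, rfl⟩, fun t ht1 ht2 => ?_⟩
      obtain rfl : t = s + 1 := by omega
      exact keep_A h2
    | com => intro p hp; exact absurd hp (by simp [pP])
    | graB => intro p hp; exact absurd hp (by simp [pP])
    | graA => intro p hp; exact absurd hp (by simp [pP])

end

end Pool.Agent.Helper750.DC
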