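import Pool.Agent.Helper750.DC.Inv

set_option autoImplicit false

/-! Invariants of the construction, part 2. -/

namespace Pool.Agent.Helper750.DC

open Encodable Pool.Agent.Helper446

theorem lm_spec (a : List ℕ) : lm a ∉ a ∧ ∀ n < lm a, n ∈ a := by
  unfold lm
  cases h : bfind (fun n => !(a.contains n)) (a.length + 1) with
  | none =>
    rw [bfind_none] at h
    exfalso
    have h1 : Finset.range (a.length + 1) ⊆ a.toFinset := by
      intro n hn
      rw [Finset.mem_range] at hn
      have := h n hn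
      simpa using this
    have h2 := Finset.card_le_card h1
    have h3 := a.toFinset_card_le
    rw [Finset.card_range] at h2
    omega
  | some r =>
    rw [bfind_some] at h
    obtain ⟨_, h2, h3⟩ := h
    refine ⟨by simpa using h2, fun n hn => ?_⟩
    have := h3 n hn
    simpa using this

theorem f0_spec (S : DS) {x : PS} (h : 0 < (pA x).length) :
    ((f0 S x).2 ≠ [] ∧ ∀ y ∈ (f0 S x).2, y < (pA x).length) ∧
      S.H (f0 S x).1 (sub (pA x) (f0 S x).2) := by
  classical
  unfold f0
  split_ifs with h1 h2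
  · exact ⟨h1, h2⟩
  · exact ⟨h1, (S.nt_s _ _).2 h2⟩
  · refine ⟨⟨by simp, fun y hy => ?_⟩, S.tt_s _⟩
    rw [List.mem_singleton] at hy
    rw [hy]; exact h

theorem f0_dec (S : DS) {x : PS} {n : ℕ} {l : List ℕ} (hx : nxt x = (n, l)) (hl : l ≠ [])
    (h : ∀ y ∈ l, y < (pA x).length) : f0 S x = (n, l) ∨ f0 S x = (S.nt n, l) := by
  classical
  unfold f0
  rw [if_pos (by rw [hx]; exact ⟨hl, h⟩), hx]
  by_cases h2 : S.H n (sub (pA x) l)
  · rw [if_pos h2]; exact Or.inl rfl
  · rw [if_neg h2]; exact Or.inr rfl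

/-- invariants of the data -/
structure Inv (S : DS) (x : PS) : Prop where
  nd : (pA x).Nodup
  len : pT x < (pA x).length
  wf : WFC (pC x) (pA x).length
  cs : S.Csat (pC x) (pA x)
  kc : ∀ k ∈ pK x, k ≤ (pA x).length

theorem wfc_cons {C : List (ℕ × List ℕ)} {k k' : ℕ} (h : WFC C k) (hk : k ≤ k') {f : ℕ × List ℕ}
    (hf : f.2 ≠ [] ∧ ∀ y ∈ f.2, y < k) : WFC (f :: C) k' := by
  intro g hg
  rcases List.mem_cons.1 hg with h1 | h1
  · rw [h1]; exact ⟨hf.1, fun y hy => (hf.2 y hy).trans_le hk⟩
  · exact ⟨(h g h1).1, fun y hy => ((h g h1).2 y hy).trans_le hk⟩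

theorem csat_cons {S : DS} {C : List (ℕ × List ℕ)} {a : List ℕ} (b : List ℕ)
    (h : WFC C a.length) (hc : S.Csat C a) {f : ℕ × List ℕ} (hf : ∀ y ∈ f.2, y < a.length)
    (hf2 : S.H f.1 (sub a f.2)) : S.Csat (f :: C) (a ++ b) := by
  intro g hg
  rcases List.mem_cons.1 hg with h1 | h1
  · rw [h1, sub_append hf]; exact hf2
  · rw [sub_append (h g h1).2]; exact hc g h1

theorem mem_padTake {l : List ℕ} {j k : ℕ} (h : k ∈ padTake l j) : k = 0 ∨ k ∈ l := by
  unfold padTake at h
  rw [List.mem_map] at h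
  obtain ⟨r, _, rfl⟩ := h
  rcases Nat.lt_or_ge r l.length with h1 | h1
  · exact Or.inr (getD_mem h1)
  · left; exact List.getD_eq_default _ _ h1

section
variable {S : DS} {E : ℕ → Env} {D : Set ℕ} {i : ℕ}

variable (S E i) in
theorem inv (s : ℕ) : Inv S (Sg S i E s) := by
  induction s with
  | zero =>
    refine ⟨?_, ?_, ?_, ?_, ?_⟩
    · show [0].Nodup
      simp
    · show 0 < [0].length
      simp
    · intro f hf; exact absurd hf List.not_mem_nil
    · intro f hf; exact absurd hf List.not_mem_nil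
    · intro f hf; exact absurd hf List.not_mem_nil
  | succ s ih =>
    have hp := pend_inv (S := S) (E := E) (i := i) s
    have h := tr S E i s
    generalize Sg S i E (s + 1) = x' at h
    generalize Sg S i E s = x at h ih hp
    cases h with
    | stay0 => exact ih
    | stay1 => exact ih
    | drop => exact ⟨ih.nd, ih.len, ih.wf, ih.cs, ih.kc⟩
    | issB => exact ⟨ih.nd, ih.len, ih.wf, ih.cs, ih.kc⟩
    | issA => exact ⟨ih.nd, ih.len, ih.wf, ih.cs, ih.kc⟩
    | com =>
      have hf := f0_spec S (x := x) (by have := ih.len; omega)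
      refine ⟨?_, ?_, ?_, ?_, ?_⟩
      · show (pA x ++ [lm (pA x)]).Nodup
        rw [List.nodup_append]
        refine ⟨ih.nd, by simp, fun a ha b hb => ?_⟩
        rw [List.mem_singleton] at hb
        rintro rfl
        exact (lm_spec (pA x)).1 (hb ▸ ha)
      · show pT x + 1 < (pA x ++ [lm (pA x)]).length
        have := ih.len
        simp
        omega
      · exact wfc_cons ih.wf (k' := (pA x ++ [lm (pA x)]).length) (by simp) hf.1
      · exact csat_cons _ ih.wf ih.cs hf.1.2 hf.2
      · intro k hk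
        have h1 := ih.kc k hk
        show k ≤ (pA x ++ [lm (pA x)]).length
        simp
        omega
    | graB => exact ⟨ih.nd, ih.len, ih.wf, ih.cs, ih.kc⟩
    | graA p h1 h2 h3 h4 =>
      obtain ⟨s', _, _, hc, _⟩ := hp p h1
      rcases hc with ⟨c, hc, rfl⟩ | ⟨c, hc, rfl⟩
      · obtain ⟨⟨_, _, _, hok, _⟩, _, ⟨g1, g2, g3⟩, g4, g5, g6⟩ := hc
        have hY : c.1.2.1 ≠ [] ∧ ∀ y ∈ c.1.2.1, y < (pA x).length := ⟨hok.1, hok.2.2.1⟩
        refine ⟨?_, ?_, ?_, ?_, ?_⟩
        · show (c.2.2 ++ [lm c.2.2]).Nodup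
          rw [List.nodup_append]
          refine ⟨g2, by simp, fun a ha b hb => ?_⟩
          rw [List.mem_singleton] at hb
          rintro rfl
          exact (lm_spec c.2.2).1 (hb ▸ ha)
        · show pT x < (c.2.2 ++ [lm c.2.2]).length
          have := ih.len
          simp
          omega
        · show WFC ((c.2.1, c.1.2.1) :: pC x) (c.2.2 ++ [lm c.2.2]).length
          exact wfc_cons ih.wf (by simp [g1]) hY
        · show S.Csat ((c.2.1, c.1.2.1) :: pC x) (c.2.2 ++ [lm c.2.2])
          refine csat_cons _ (by rw [g1]; exact ih.wf) g3 (by rw [g1]; exact hY.2) g5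
        · intro k hk
          show k ≤ (c.2.2 ++ [lm c.2.2]).length
          have hk' : k ∈ padTake (pK x) (2 * c.1.1 / 2) ++ [c.2.2.length + 1] := hk
          rw [List.mem_append, List.mem_singleton] at hk'
          rcases hk' with h5 | h5
          · rcases mem_padTake h5 with h6 | h6
            · omega
            · have := ih.kc k h6
              simp; omega
          · simp; omega
      · exact absurd hc.1.1 h4

/-- The pending request when a requirement acts. -/
theorem act_pend (h : Ctx S E D i) {m s : ℕ} (ha : Acts E (Nat.pair i m) s) :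
    ∃ p, pP (Sg S i E s) = some p ∧ p.1.1 = m ∧ NewD E i s m p.1.2.2.2.1 ∧
      ∀ t, s + 1 ≤ t → (E t).c (Nat.pair i m) = (E s).c (Nat.pair i m) →
        (E t).bits p.1.2.2.1 = (E (s + 1)).bits p.1.2.2.1 := by
  obtain ⟨r, v, q, hv, hn, hpres⟩ := h.act m s ha
  obtain ⟨h1, h2, h3, h4, h5, h6, h7⟩ := hv
  rw [req_hist, Option.map_eq_some_iff] at h3
  obtain ⟨p, hp, htri⟩ := h3
  simp only [tri, Prod.mk.injEq] at htri
  obtain ⟨e1, e2, e3⟩ := htri
  obtain ⟨s', a1, _, _, a4⟩ := pend_inv r p hp
  have hk := a4 r a1 le_rfl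
  have key : ∀ t, r ≤ t → t ≤ s → Sg S i E t = Sg S i E r := by
    intro t ht
    induction t, ht using Nat.le_induction with
    | base => intro _; rfl
    | succ t ht ih =>
      intro hts
      have ih' := ih (by omega)
      have hx := tr S E i t
      rw [ih'] at hx
      have hst : (E (t + 1)).st (Nat.pair i p.1.1) = false := by
        rw [e1]
        refine st_down h.hE hts h4 ?_
        rw [(h5 s h1 le_rfl).2, (h5 (t + 1) (by omega) hts).2]
      have hK : Keep i (pD (Sg S i E r)) p (E (t + 1)) := by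
        refine ⟨?_, hst, fun hq => ?_, fun hq => ?_⟩
        · rw [← hk.1, e1]
          exact (h5 (t + 1) (by omega) hts).2
        · rw [← hk.2.2.1 hq, e2]
          exact (h5 (t + 1) (by omega) hts).1
        · have hq2 : q = (p.1.2.2.2.1 - 1) + 1 := by omega
          obtain ⟨_, _, b3⟩ := h7 _ hq2
          obtain ⟨b4, b5⟩ := b3 (t + 1) (by omega) hts
          exact ⟨b5.trans (hk.2.2.2 hq).1, b4⟩
      generalize Sg S i E (t + 1) = x' at hx
      generalize Sg S i E r = x at *
      cases hx with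
      | stay0 => rfl
      | stay1 => rfl
      | drop p' b1 b2 =>
        obtain rfl : p = p' := by rw [hp] at b1; exact Option.some.inj b1
        exact absurd hK b2
      | issB c b1 => rw [hp] at b1; exact absurd b1 (by simp)
      | issA c b1 => rw [hp] at b1; exact absurd b1 (by simp)
      | com b1 => rw [hp] at b1; exact absurd b1 (by simp)
      | graB p' b1 b2 b3 =>
        obtain rfl : p = p' := by rw [hp] at b1; exact Option.some.inj b1
        rw [hst] at b3; exact absurd b3 (by simp)
      | graA p' b1 b2 b3 =>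
        obtain rfl : p = p' := by rw [hp] at b1; exact Option.some.inj b1
        rw [hst] at b3; exact absurd b3 (by simp)
  refine ⟨p, by rw [key s h1 le_rfl]; exact hp, e1, ?_, ?_⟩
  · rw [e3]; exact hn
  · rw [e2]; exact hpres

/-- a granted pending request: the requirement acted -/
theorem gra_act (h : Ctx S E D i) {s : ℕ} {p : Pend} (hp : pP (Sg S i E s) = some p)
    (hst : (E (s + 1)).st (Nat.pair i p.1.1) = true) :
    Acts E (Nat.pair i p.1.1) s ∧ NewD E i s p.1.1 p.1.2.2.2.1 ∧
      ∀ t, s + 1 ≤ t → (E t).c (Nat.pair i p.1.1) = (E s).c (Nat.pair i p.1.1) →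
        (E t).bits p.1.2.2.1 = (E (s + 1)).bits p.1.2.2.1 := by
  obtain ⟨s', a1, _, _, a4⟩ := pend_inv s p hp
  have hk := a4 s a1 le_rfl
  have ha := act_of h.hE hk.2.1 hst
  refine ⟨ha, ?_⟩
  obtain ⟨p', hp', _, h2, h3⟩ := act_pend h ha
  obtain rfl : p = p' := by rw [hp] at hp'; exact Option.some.inj hp'
  exact ⟨h2, h3⟩

variable (S E i) in
theorem dlen_mono1 (s : ℕ) : (pD (Sg S i E s)).length ≤ (pD (Sg S i E (s + 1))).length := by
  have hd := dlen S E i s
  have h := tr S E i s
  generalize Sg S i E (s + 1) = x' at h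
  have h2 : (pD (Sg S i E s)).length ≤ ((E (s + 1)).bits (s + 1)).length := by
    rw [bits_length]; omega
  cases h with
  | stay0 => exact le_rfl
  | stay1 => exact le_rfl
  | drop => exact le_rfl
  | issB => exact le_rfl
  | issA => exact le_rfl
  | com => exact h2
  | graB => exact h2
  | graA => exact h2

variable (S E i) in
theorem dlen_mono {s t : ℕ} (h : s ≤ t) :
    (pD (Sg S i E s)).length ≤ (pD (Sg S i E t)).length := by
  induction t, h using Nat.le_induction with
  | base => exact le_rfl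
  | succ t _ ih => exact ih.trans (dlen_mono1 S E i t)

variable (S E i) in
theorem t_mono1 (s : ℕ) : pT (Sg S i E s) ≤ pT (Sg S i E (s + 1)) := by
  have h := tr S E i s
  generalize Sg S i E (s + 1) = x' at h
  cases h with
  | stay0 => exact le_rfl
  | stay1 => exact le_rfl
  | drop => exact le_rfl
  | issB => exact le_rfl
  | issA => exact le_rfl
  | com => exact Nat.le_succ _
  | graB => exact le_rfl
  | graA => exact le_rfl

variable (S E i) in
theorem t_mono {s t : ℕ} (h : s ≤ t) : pT (Sg S i E s) ≤ pT (Sg S i E t) := by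
  induction t, h using Nat.le_induction with
  | base => exact le_rfl
  | succ t _ ih => exact ih.trans (t_mono1 S E i t)

variable (S E i) in
theorem alen_mono1 (s : ℕ) : (pA (Sg S i E s)).length ≤ (pA (Sg S i E (s + 1))).length := by
  have hp := pend_inv (S := S) (E := E) (i := i) s
  have h := tr S E i s
  generalize Sg S i E (s + 1) = x' at h
  generalize Sg S i E s = x at h hp
  cases h with
  | stay0 => exact le_rfl
  | stay1 => exact le_rfl
  | drop => exact le_rfl
  | issB => exact le_rfl
  | issA => exact le_rfl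
  | com =>
    show (pA x).length ≤ (pA x ++ [lm (pA x)]).length
    simp
  | graB => exact le_rfl
  | graA p h1 h2 h3 h4 =>
    obtain ⟨s', _, _, hc, _⟩ := hp p h1
    rcases hc with ⟨c, hc, rfl⟩ | ⟨c, hc, rfl⟩
    · show (pA x).length ≤ (c.2.2 ++ [lm c.2.2]).length
      have := hc.2.2.1.1
      simp [this]
    · exact absurd hc.1.1 h4

variable (S E i) in
theorem alen_mono {s t : ℕ} (h : s ≤ t) :
    (pA (Sg S i E s)).length ≤ (pA (Sg S i E t)).length := by
  induction t, h using Nat.le_induction with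
  | base => exact le_rfl
  | succ t _ ih => exact ih.trans (alen_mono1 S E i t)

variable (S E i) in
theorem C_mono1 (s : ℕ) {f : ℕ × List ℕ} (hf : f ∈ pC (Sg S i E s)) :
    f ∈ pC (Sg S i E (s + 1)) := by
  have h := tr S E i s
  generalize Sg S i E (s + 1) = x' at h
  cases h with
  | stay0 => exact hf
  | stay1 => exact hf
  | drop => exact hf
  | issB => exact hf
  | issA => exact hf
  | com => exact List.mem_cons_of_mem _ hf
  | graB => exact hf
  | graA => exact List.mem_cons_of_mem _ hf

variable (S E i) in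
theorem C_mono {s t : ℕ} (h : s ≤ t) {f : ℕ × List ℕ} (hf : f ∈ pC (Sg S i E s)) :
    f ∈ pC (Sg S i E t) := by
  induction t, h using Nat.le_induction with
  | base => exact hf
  | succ t _ ih => exact C_mono1 S E i t ih

/-- invariant of the granted odd requests -/
def BI (S : DS) (i : ℕ) (E : ℕ → Env) (s : ℕ) (b : BD) : Prop :=
  ∃ (sB : ℕ) (D0 : List ℕ), sB < s ∧ Acts E (Nat.pair i b.1) sB ∧
    b.2.1 = (E sB).c (Nat.pair i b.1) ∧ b.1 % 2 = 1 ∧ NewD E i sB b.1 0 ∧
    b.2.2.1 ≤ D0.length ∧ D0.length ≤ (pD (Sg S i E s)).length ∧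
    (E sB).bits b.2.2.1 = D0.take b.2.2.1 ∧
    (∀ r < b.2.2.2.length, Ph (lvl b.1) D0.length (D0.take b.2.2.1) r =
      some (b.2.2.2.getD r 0)) ∧
    (∀ t, sB + 1 ≤ t → (E t).c (Nat.pair i b.1) = (E sB).c (Nat.pair i b.1) →
      (E t).bits b.2.2.1 = (E (sB + 1)).bits b.2.2.1) ∧ b.1 < pT (Sg S i E s)

theorem BI_mono {s t : ℕ} (h : s ≤ t) {b : BD} (hb : BI S i E s b) : BI S i E t b := by
  obtain ⟨sB, D0, h1, h2, h3, h4, h5, h6, h7, h8, h9, h10, h11⟩ := hb
  exact ⟨sB, D0, by omega, h2, h3, h4, h5, h6, h7.trans (dlen_mono S E i h), h8, h9, h10,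
    h11.trans_le (t_mono S E i h)⟩

theorem b_inv (h : Ctx S E D i) (s : ℕ) : ∀ b ∈ pB (Sg S i E s), BI S i E s b := by
  induction s with
  | zero => intro b hb; exact absurd hb List.not_mem_nil
  | succ s ih =>
    have ih' : ∀ b ∈ pB (Sg S i E s), BI S i E (s + 1) b :=
      fun b hb => BI_mono (Nat.le_succ s) (ih b hb)
    have hx := tr S E i s
    have hd1 := dlen_mono1 S E i s
    have ht1 := t_mono1 S E i s
    generalize hx' : Sg S i E (s + 1) = x' at hx
    cases hx with
    | stay0 => exact ih'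
    | stay1 => exact ih'
    | drop => exact ih'
    | issB => exact ih'
    | issA => exact ih'
    | com => exact ih'
    | graA => exact ih'
    | graB p h1 h2 h3 h4 =>
      intro b hb
      rcases List.mem_cons.1 hb with rfl | hb
      · obtain ⟨g1, g2, g3⟩ := gra_act h h1 h3
        obtain ⟨s', a1, a2, a3, a4⟩ := pend_inv s p h1
        have hk := a4 s a1 le_rfl
        rcases a3 with ⟨c, _, rfl⟩ | ⟨c, hc, rfl⟩
        · exfalso
          have : (2 * c.1.1) % 2 = 1 := h4
          omega
        · refine ⟨s, pD (Sg S i E s), Nat.lt_succ_self _, g1, hk.1.symm, h4, g2,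
            hc.2.2.2.1.1, hd1, hk.2.2.1 rfl, hc.2.2.2.1.2.2, g3, hc.1.2.1.trans_le ht1⟩
      · exact ih' b hb

end

end Pool.Agent.Helper750.DC
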