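import Pool.Agent.Helper750.DC.FunCode

set_option autoImplicit false

/-! Marginals and their stability. -/

namespace Pool.Agent.Helper750.DC

open Encodable Pool.Agent.Helper446

/-- the possible values of the subtuple `Y` over the first `p` positions -/
def MG (S : DS) (x : PS) (p : ℕ) (Y w : List ℕ) : Prop :=
  ∃ b, S.Real (pC x) (pA x).length b ∧ b.take p = (pA x).take p ∧ sub b Y = w

theorem sub_take {b Y : List ℕ} {k : ℕ} (h : ∀ y ∈ Y, y < k) : sub (b.take k) Y = sub b Y := by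
  refine sub_congr fun y hy => ?_
  rw [List.getD_eq_getElem?_getD, List.getD_eq_getElem?_getD, List.getElem?_take,
    if_pos (h y hy)]

theorem take_of_sub {a b Y : List ℕ} {p : ℕ} (hY : ∀ r < p, r ∈ Y) (ha : p ≤ a.length)
    (hb : p ≤ b.length) (h : sub a Y = sub b Y) : a.take p = b.take p := by
  rw [take_eq_iff ha hb]
  intro r hr
  have h1 := List.map_inj_left.1 h r (hY r hr)
  exact h1

theorem MG_ext (S : DS) {a a' Y w : List ℕ} {C : List (ℕ × List ℕ)} {f : ℕ × List ℕ} {p z : ℕ}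
    (hal : a'.length = a.length) (hat : a'.take p = a.take p) (hp : p ≤ a.length)
    (hC : WFC C a.length) (hf : f.2 ≠ [] ∧ ∀ y ∈ f.2, y < a.length)
    (hY : ∀ y ∈ Y, y < a.length) (hYp : ∀ r < p, r ∈ Y)
    (hnb : ∀ b, S.Real C a.length b → b.take p = a.take p →
      ∃ b', S.Real (f :: C) a.length b' ∧ sub b' Y = sub b Y) :
    (∃ b, S.Real C a.length b ∧ b.take p = a.take p ∧ sub b Y = w) ↔
    ∃ b, S.Real (f :: C) (a' ++ [z]).length b ∧ b.take p = (a' ++ [z]).take p ∧ sub b Y = w := by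
  have hlen : (a' ++ [z]).length = a.length + 1 := by simp [hal]
  have htk : (a' ++ [z]).take p = a.take p := by
    rw [List.take_append_of_le_length (by omega), hat]
  constructor
  · rintro ⟨b, h1, h2, h3⟩
    obtain ⟨b', h4, h5⟩ := hnb b h1 h2
    refine ⟨b' ++ [lm b'], ⟨?_, ?_, ?_⟩, ?_, ?_⟩
    · rw [hlen]; simp [h4.1]
    · rw [List.nodup_append]
      refine ⟨h4.2.1, by simp, fun x hx y hy => ?_⟩
      rw [List.mem_singleton] at hy
      rintro rfl
      exact (lm_spec b').1 (hy ▸ hx)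
    · intro g hg
      have hy : ∀ y ∈ g.2, y < b'.length := by
        rw [h4.1]
        rcases List.mem_cons.1 hg with h6 | h6
        · rw [h6]; exact hf.2
        · exact (hC g h6).2
      rw [sub_append hy]
      exact h4.2.2 g hg
    · rw [htk, List.take_append_of_le_length (by rw [h4.1]; exact hp), ← h2]
      exact take_of_sub hYp (by rw [h4.1]; exact hp) (by rw [h1.1]; exact hp) h5
    · rw [sub_append (by rw [h4.1]; exact hY), h5, h3]
  · rintro ⟨b, h1, h2, h3⟩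
    have hbl : b.length = a.length + 1 := by rw [h1.1, hlen]
    refine ⟨b.take a.length, ⟨by simp [hbl], h1.2.1.sublist (List.take_sublist _ _), ?_⟩, ?_, ?_⟩
    · intro g hg
      rw [sub_take (hC g hg).2]
      exact h1.2.2 g (List.mem_cons_of_mem _ hg)
    · rw [List.take_take, min_eq_left hp, h2, htk]
    · rw [sub_take hY, h3]

theorem not_bad {S : DS} {x : PS} {j : ℕ} {Y : List ℕ} {f : ℕ × List ℕ} (hI : Inv S x)
    (hok : okY x j Y) (hf : f.2 ≠ [] ∧ ∀ y ∈ f.2, y < (pA x).length)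
    (h : ¬ S.bad (pA x) (pC x) (pj (pK x) j) Y f) :
    ∀ b, S.Real (pC x) (pA x).length b → b.take (pj (pK x) j) = (pA x).take (pj (pK x) j) →
      ∃ b', S.Real (f :: pC x) (pA x).length b' ∧ sub b' Y = sub b Y := by
  rw [S.bad_iff hok.1 hok.2.1 hok.2.2.1 hok.2.2.2 hI.wf hf] at h
  intro b h1 h2
  by_contra h3
  exact h ⟨b, h1, h2, h3⟩

section
variable {S : DS} {E : ℕ → Env} {D : Set ℕ} {i : ℕ}

variable (S E i) in
theorem dbits (s : ℕ) : pD (Sg S i E s) =
    (E (pD (Sg S i E s)).length).bits (pD (Sg S i E s)).length := by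
  induction s with
  | zero => rfl
  | succ s ih =>
    have hx := tr S E i s
    have h1 : (E (s + 1)).bits (s + 1) =
        (E ((E (s + 1)).bits (s + 1)).length).bits ((E (s + 1)).bits (s + 1)).length := by
      rw [bits_length]
    generalize Sg S i E (s + 1) = x' at hx
    cases hx with
    | stay0 => exact ih
    | stay1 => exact ih
    | drop => exact ih
    | issB => exact ih
    | issA => exact ih
    | com => exact h1
    | graB => exact h1
    | graA => exact h1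

theorem exists_com (h : Ctx S E D i) (s0 : ℕ) :
    ∃ s, s0 ≤ s ∧ pT (Sg S i E (s + 1)) = pT (Sg S i E s) + 1 := by
  by_contra hc
  push Not at hc
  have key : ∀ s, s0 ≤ s → pT (Sg S i E s) = pT (Sg S i E s0) := by
    intro s hs
    induction s, hs using Nat.le_induction with
    | base => rfl
    | succ s hs ih =>
      have := hc s hs
      rcases step_or h s with ⟨_, _, _, h1⟩ | ⟨_, _, _, h1, _⟩ | ⟨_, h1⟩
      · rw [h1, ih]
      · omega
      · rw [h1, ih]
  obtain ⟨s1, hs1⟩ := progress h (pT (Sg S i E s0) + 1)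
  have h1 := t_mono S E i (le_max_left s1 s0)
  have h2 := key (max s1 s0) (le_max_right _ _)
  omega

theorem dlen_lim (h : Ctx S E D i) (L : ℕ) :
    ∃ s0, ∀ s, s0 ≤ s → L ≤ (pD (Sg S i E s)).length := by
  obtain ⟨s, hs, hc⟩ := exists_com h L
  refine ⟨s + 1, fun t ht => le_trans ?_ (dlen_mono S E i ht)⟩
  have hx := tr S E i s
  generalize Sg S i E (s + 1) = x' at hx hc
  have h1 : L ≤ ((E (s + 1)).bits (s + 1)).length := by rw [bits_length]; omega
  cases hx with
  | com => exact h1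
  | graB => exact h1
  | graA => exact h1
  | stay0 => exact absurd hc (Nat.ne_of_lt (Nat.lt_succ_self _))
  | stay1 => exact absurd hc (Nat.ne_of_lt (Nat.lt_succ_self _))
  | drop => exact absurd hc (Nat.ne_of_lt (Nat.lt_succ_self _))
  | issB => exact absurd hc (Nat.ne_of_lt (Nat.lt_succ_self _))
  | issA => exact absurd hc (Nat.ne_of_lt (Nat.lt_succ_self _))

theorem t_lim (h : Ctx S E D i) (T : ℕ) : ∃ s0, ∀ s, s0 ≤ s → T < pT (Sg S i E s) := by
  obtain ⟨s0, hs0⟩ := progress h (T + 1)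
  exact ⟨s0, fun s hs => lt_of_lt_of_le (Nat.lt_of_succ_le hs0) (t_mono S E i hs)⟩

/-- an acting even requirement commits -/
theorem act_GA (h : Ctx S E D i) {j s : ℕ} (ha : Acts E (Nat.pair i (2 * j)) s) :
    ∃ s' c, GA S i E s s' c ∧ c.1.1 = j := by
  obtain ⟨p, hp, h1, _, _⟩ := act_pend h ha
  have hst : (E (s + 1)).st (Nat.pair i p.1.1) = true := by rw [h1]; exact ha.2.1
  obtain ⟨g1, g2, g3⟩ := gra_act h hp hst
  obtain ⟨s', a1, a2, hc, a4⟩ := pend_inv s p hp
  have hk := a4 s a1 le_rfl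
  have hcc : (E (s + 1)).c (Nat.pair i p.1.1) = p.1.2.1 := by
    rw [← hk.1, h1]; exact ha.2.2.1
  have hx := tr S E i s
  generalize hx' : Sg S i E (s + 1) = x' at hx
  cases hx with
  | stay0 b1 => rw [hp] at b1; exact absurd b1 (by simp)
  | stay1 p' b1 b2 =>
    obtain rfl : p = p' := by rw [hp] at b1; exact Option.some.inj b1
    rw [b2.2.1] at hst; exact absurd hst (by simp)
  | drop p' b1 b2 b3 =>
    obtain rfl : p = p' := by rw [hp] at b1; exact Option.some.inj b1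
    exact absurd ⟨hcc, hst⟩ b3
  | issB c b1 => rw [hp] at b1; exact absurd b1 (by simp)
  | issA c b1 => rw [hp] at b1; exact absurd b1 (by simp)
  | com b1 => rw [hp] at b1; exact absurd b1 (by simp)
  | graB p' b1 b2 b3 b4 =>
    obtain rfl : p = p' := by rw [hp] at b1; exact Option.some.inj b1
    omega
  | graA p' b1 b2 b3 b4 =>
    obtain rfl : p = p' := by rw [hp] at b1; exact Option.some.inj b1
    rcases hc with ⟨c, hc, rfl⟩ | ⟨c, hc, rfl⟩
    · refine ⟨s', c, ⟨a1, a2, hc, a4, hp, g1, g2, g3, ?_, ?_, ?_⟩, ?_⟩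
      · rw [hx']; rfl
      · rw [hx']; rfl
      · rw [hx']
        show padTake _ (2 * c.1.1 / 2) ++ _ = _
        rw [Nat.mul_div_cancel_left _ (by norm_num)]
        rfl
      · have : 2 * c.1.1 = 2 * j := h1
        omega
    · exact absurd hc.1.1 b4

/-- the last action of a requirement which is finally satisfied -/
theorem last_act (h : EnvProps E D) {n s0 : ℕ}
    (h0 : ∀ s, s0 ≤ s → (E s).c n = (E s0).c n ∧ (E s).st n = true) :
    ∃ s, Acts E n s ∧ ∀ t, s ≤ t → (E t).c n = (E s).c n ∧ (s < t → (E t).st n = true) := by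
  classical
  let Q : ℕ → Prop := fun u => ∀ t, u ≤ t → (E t).c n = (E s0).c n ∧ (E t).st n = true
  have hQ : ∃ u, Q u := ⟨s0, h0⟩
  have h1 := Nat.find_spec hQ
  have h2 := fun m => @Nat.find_min _ _ hQ m
  generalize Nat.find hQ = u at h1 h2
  rcases Nat.eq_zero_or_pos u with hu | hu
  · subst hu
    have := (h1 0 le_rfl).2
    rw [h.st0 n] at this
    exact absurd this (by simp)
  · obtain ⟨s, rfl⟩ : ∃ t, u = t + 1 := ⟨u - 1, by omega⟩
    have h3 := h2 s (Nat.lt_succ_self s)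
    have h4 := h1 (s + 1) le_rfl
    have h5 : (E s).st n = false := by
      by_contra h6
      rw [Bool.not_eq_false] at h6
      rcases c_or h n s with h7 | h7
      · apply h3
        intro t ht
        rcases Nat.eq_or_lt_of_le ht with h8 | h8
        · subst h8; exact ⟨by rw [← h7.1]; exact h4.1, h6⟩
        · exact h1 t h8
      · rw [h7.2] at h4; exact absurd h4.2 (by simp)
    have ha := act_of h h5 h4.2
    refine ⟨s, ha, fun t ht => ?_⟩
    rcases Nat.eq_or_lt_of_le ht with h8 | h8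
    · subst h8; exact ⟨rfl, fun h9 => absurd h9 (lt_irrefl _)⟩
    · refine ⟨?_, fun _ => (h1 t h8).2⟩
      rw [(h1 t h8).1, ← h4.1, ha.2.2.1]

/-- after an even grant the computation giving `Y` is there -/
theorem GA_bits (h : Ctx S E D i) {s s' : ℕ} {c : Tup × ℕ × List ℕ} (hg : GA S i E s s' c) :
    ∃ S0, ∀ r < c.1.2.1.length,
      Ph c.1.1 S0 ((E (s + 1)).bits c.1.2.2.1) r = some (c.1.2.1.getD r 0) := by
  have hk := hg.keep s hg.le le_rfl
  have hN := hg.newD
  have he : (2 * c.1.1) % 2 ≠ 1 := by omega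
  obtain ⟨⟨_, _, _, _, hav⟩, _⟩ := hg.cert
  rcases hav with ⟨hq, h1, h2, h3⟩ | ⟨b, hb, hq, hl, ho, hbc, hbv, hbY, hbs⟩
  · refine ⟨(pD (Sg S i E s)).length, ?_⟩
    have h4 : (E (s + 1)).bits c.1.2.2.1 = (pD (Sg S i E s)).take c.1.2.2.1 := by
      have h5 : (E s).bits c.1.2.2.1 = (pD (Sg S i E s)).take c.1.2.2.1 := hk.2.2.1 hq
      rw [← h5]
      refine bits_eq fun x _ => ?_
      have := hN x
      rw [if_neg he, if_pos hq] at this
      exact this
    rw [h4]
    exact h3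
  · obtain ⟨sB, D0, c1, c2, c3, c4, c5, c6, c7, c8, c9, c10, c11⟩ := b_inv h s b hb
    refine ⟨D0.length, ?_⟩
    have hq0 : (PA i (E s') c).1.2.2.2.1 ≠ 0 := by
      show c.1.2.2.2 ≠ 0
      omega
    have hk2 : (E s).c (Nat.pair i (c.1.2.2.2 - 1)) = (E s').c (Nat.pair i (c.1.2.2.2 - 1)) :=
      (hk.2.2.2 hq0).1
    rw [hq, Nat.add_sub_cancel] at hk2
    have hcs : (E s).c (Nat.pair i b.1) = (E sB).c (Nat.pair i b.1) := by
      rw [hk2, ← hbc, c3]
    have hz : (E s).z (Nat.pair i b.1) = (E sB).z (Nat.pair i b.1) := by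
      unfold Env.z; rw [hcs]
    have hzo := h.hE.zout sB _ c2.1
    have hb1 := mem_of_bits (c10 s (by omega) hcs)
    have h4 : (E (s + 1)).bits c.1.2.2.1 = D0.take c.1.2.2.1 := by
      rw [← hbv, ← c8]
      refine bits_eq fun x hx => ?_
      have e1 := hN x
      rw [if_neg he, if_neg (by omega), hq, Nat.add_sub_cancel] at e1
      have e2 := c5 x
      rw [if_pos c4] at e2
      rw [e1, hb1 x hx, e2, hz]
      constructor
      · rintro ⟨h5 | h5, h6⟩
        · exact h5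
        · exact absurd h5 h6
      · intro h5
        exact ⟨Or.inl h5, fun h6 => hzo (h6 ▸ h5)⟩
    rw [h4, ← hbv, ← hl, ← hbY]
    exact c9

/-- from `s0` on the tuple `u` is always available -/
def Hav (S : DS) (i : ℕ) (E : ℕ → Env) (s0 : ℕ) (u : Tup) : Prop :=
  ∀ s, s0 ≤ s → encode u < (pD (Sg S i E s)).length ∧
    ∀ s', (pD (Sg S i E s)).length ≤ s' → avail i (Sg S i E s) (E s') u

theorem MG_step (h : Ctx S E D i) {s0 s : ℕ} {u : Tup} (hu : Hav S i E s0 u) (hs : s0 ≤ s)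
    (hno : ∀ j' < u.1 + 1, ¬ Acts E (Nat.pair i (2 * j')) s) (w : List ℕ) :
    MG S (Sg S i E s) (pj (pK (Sg S i E s)) u.1) u.2.1 w ↔
      MG S (Sg S i E (s + 1)) (pj (pK (Sg S i E s)) u.1) u.2.1 w := by
  obtain ⟨hu1, hu2⟩ := hu s hs
  have hd := dlen S E i s
  have hI := inv S E i s
  have hok : okY (Sg S i E s) u.1 u.2.1 := (hu2 _ le_rfl).2.2.1
  have hp := pj_len S E i s u.1
  rcases step_or h s with ⟨h1, h2, _⟩ | ⟨h1, h2, h3, h4, _, h6⟩ | ⟨⟨s', c, hg⟩, _⟩
  · unfold MG; rw [h1, h2]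
  · unfold MG
    rw [h1, h2]
    have hf := f0_spec S (x := Sg S i E s) (by have := hI.len; omega)
    have hnb : ¬ S.bad (pA (Sg S i E s)) (pC (Sg S i E s)) (pj (pK (Sg S i E s)) u.1) u.2.1
        (f0 S (Sg S i E s)) := fun hb => h6 ⟨u, hu1, hu2 (s + 1) (by omega), hb⟩
    exact MG_ext S rfl rfl hp hI.wf hf.1 hok.2.2.1 hok.2.2.2 (not_bad hI hok hf.1 hnb)
  · have hj : u.1 < c.1.1 := by
      by_contra h1
      exact hno c.1.1 (by omega) hg.act
    unfold MG
    rw [hg.hA, hg.hC]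
    obtain ⟨⟨_, _, _, hok', _⟩, _, h4, h5, _, h7⟩ := hg.cert
    have hf : (c.2.1, c.1.2.1).2 ≠ [] ∧ ∀ y ∈ (c.2.1, c.1.2.1).2, y < (pA (Sg S i E s)).length :=
      ⟨hok'.1, hok'.2.2.1⟩
    have hnb := h7 u hu1 (hu2 s' hg.dl) hj
    exact MG_ext S h4.1 (take_le h5 (pj_mono _ hj.le)) hp hI.wf hf hok.2.2.1 hok.2.2.2
      (not_bad hI hok hf hnb)

theorem MG_const (h : Ctx S E D i) {s0 : ℕ} {u : Tup} (hu : Hav S i E s0 u)
    (hno : ∀ s, s0 ≤ s → ∀ j' < u.1 + 1, ¬ Acts E (Nat.pair i (2 * j')) s) {s : ℕ} (hs : s0 ≤ s)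
    (w : List ℕ) :
    MG S (Sg S i E s) (pj (pK (Sg S i E s0)) u.1) u.2.1 w ↔
      MG S (Sg S i E s0) (pj (pK (Sg S i E s0)) u.1) u.2.1 w := by
  induction s, hs using Nat.le_induction with
  | base => exact Iff.rfl
  | succ s hs ih =>
    rw [← ih]
    have h1 := (steps h (J := u.1) (s0 := s0) (fun s hs j' hj' => hno s hs j' (by omega)) hs).1
    have h2 := MG_step h hu hs (hno s hs) w
    rw [pj_congr h1] at h2
    exact h2.symm

theorem MG_type (h : Ctx S E D i) {g : ℕ → ℕ} (hg : IsLim S i E g) {s0 : ℕ} {u : Tup}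
    (hu : Hav S i E s0 u)
    (hno : ∀ s, s0 ≤ s → ∀ j' < u.1 + 1, ¬ Acts E (Nat.pair i (2 * j')) s) {w : List ℕ}
    (hw : MG S (Sg S i E s0) (pj (pK (Sg S i E s0)) u.1) u.2.1 w) (n : ℕ) :
    S.H n w ↔ S.H n (u.2.1.map g) := by
  have hok : okY (Sg S i E s0) u.1 u.2.1 := ((hu s0 le_rfl).2 _ le_rfl).2.2.1
  obtain ⟨s1, hs1⟩ := decided h n hok.1
  rw [← MG_const h hu hno (le_max_left s0 s1) w] at hw
  obtain ⟨b, hb, _, hbw⟩ := hw
  rcases hs1 with hs1 | hs1
  · have h1 := hb.2.2 _ (C_mono S E i (le_max_right s0 s1) hs1)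
    have h2 := true_lim hg hs1
    simp only at h1 h2
    rw [hbw] at h1
    exact ⟨fun _ => h2, fun _ => h1⟩
  · have h1 := hb.2.2 _ (C_mono S E i (le_max_right s0 s1) hs1)
    have h2 := true_lim hg hs1
    simp only at h1 h2
    rw [hbw, S.nt_s] at h1
    rw [S.nt_s] at h2
    exact ⟨fun h => absurd h h1, fun h => absurd h h2⟩

theorem MG_self (h : Ctx S E D i) {g : ℕ → ℕ} (hg : IsLim S i E g) {s0 : ℕ} {u : Tup}
    (hu : Hav S i E s0 u)
    (hno : ∀ s, s0 ≤ s → ∀ j' < u.1 + 1, ¬ Acts E (Nat.pair i (2 * j')) s) :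
    MG S (Sg S i E s0) (pj (pK (Sg S i E s0)) u.1) u.2.1 (u.2.1.map g) := by
  obtain ⟨s1, hs1⟩ := lim_list hg u.2.1
  rw [← MG_const h hu hno (le_max_left s0 s1)]
  have hI := inv S E i (max s0 s1)
  exact ⟨pA (Sg S i E (max s0 s1)), ⟨rfl, hI.nd, hI.cs⟩, rfl, (hs1 _ (le_max_right _ _)).2⟩

end

end Pool.Agent.Helper750.DC
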