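import Pool.Agent.Helper750.DC.Sem

set_option autoImplicit false

/-! The process building the copy. -/

namespace Pool.Agent.Helper750.DC

open Encodable Nat.Partrec

/-- pending request: `((m, cm, v, q, cq), ((β, Y), a'))` -/
abbrev Pend := (ℕ × ℕ × ℕ × ℕ × ℕ) × ((ℕ × List ℕ) × List ℕ)

/-- granted odd request: `(m, cm, v, Y)` -/
abbrev BD := ℕ × ℕ × ℕ × List ℕ

/-- state: `(a, C, kc, B, t, D0, pend)` -/
abbrev PS := List ℕ × List (ℕ × List ℕ) × List ℕ × List BD × ℕ × List ℕ × Option Pend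

abbrev pA (x : PS) : List ℕ := x.1
abbrev pC (x : PS) : List (ℕ × List ℕ) := x.2.1
abbrev pK (x : PS) : List ℕ := x.2.2.1
abbrev pB (x : PS) : List BD := x.2.2.2.1
abbrev pT (x : PS) : ℕ := x.2.2.2.2.1
abbrev pD (x : PS) : List ℕ := x.2.2.2.2.2.1
abbrev pP (x : PS) : Option Pend := x.2.2.2.2.2.2

/-- the protected length for level `j` -/
def pj (kc : List ℕ) (j : ℕ) : ℕ := ((List.range j).map fun i => kc.getD i 0).foldr max 0

/-- first `j` entries, padded with zeros -/
def padTake (l : List ℕ) (j : ℕ) : List ℕ := (List.range j).map fun i => l.getD i 0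

/-- the functional with index `j`, `s` steps -/
def Ph (j s : ℕ) (τ : List ℕ) (x : ℕ) : Option ℕ :=
  (Code.evaln s (Denumerable.ofNat Code j) (encode (τ, x))).bind fun r =>
    (decode (α := Option ℕ) r).bind id

/-- level of an odd local requirement -/
def lvl (m : ℕ) : ℕ := (m / 2).unpair.1
/-- index of the second functional -/
def tht (m : ℕ) : ℕ := (m / 2).unpair.2.unpair.1
/-- guess of the preimages of the protected positions -/
def par (m : ℕ) : List ℕ := Denumerable.ofNat (List ℕ) (m / 2).unpair.2.unpair.2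

/-- the computations giving `Y` are present in the snapshot and correct now -/
def availF (x : PS) (E : Env) (j v : ℕ) (Y : List ℕ) : Prop :=
  v ≤ (pD x).length ∧ E.bits v = (pD x).take v ∧
    ∀ r < Y.length, Ph j (pD x).length ((pD x).take v) r = some (Y.getD r 0)

/-- `Y` is a reasonable tuple of positions for level `j` -/
def okY (x : PS) (j : ℕ) (Y : List ℕ) : Prop :=
  Y ≠ [] ∧ Y.Nodup ∧ (∀ y ∈ Y, y < (pA x).length) ∧ ∀ r < pj (pK x) j, r ∈ Y

/-- `(j, Y, v, q)` -/
abbrev Tup := ℕ × List ℕ × ℕ × ℕ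

/-- available tuples -/
def avail (i : ℕ) (x : PS) (E : Env) (u : Tup) : Prop :=
  u.1 < pT x ∧ E.st (Nat.pair i (2 * u.1)) = false ∧ okY x u.1 u.2.1 ∧
  ((u.2.2.2 = 0 ∧ availF x E u.1 u.2.2.1 u.2.1) ∨
   ∃ b ∈ pB x, u.2.2.2 = b.1 + 1 ∧ lvl b.1 = u.1 ∧ b.1 % 2 = 1 ∧
      b.2.1 = E.c (Nat.pair i b.1) ∧ b.2.2.1 = u.2.2.1 ∧ b.2.2.2 = u.2.1 ∧
      E.st (Nat.pair i b.1) = true)

/-- certificate `(u, β, a')` for an even request -/
def certA (S : DS) (i : ℕ) (x : PS) (E : Env) (c : Tup × ℕ × List ℕ) : Prop :=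
  (encode c.1 < (pD x).length ∧ avail i x E c.1) ∧
  ¬ S.H c.2.1 (List.range c.1.2.1.length) ∧
  (c.2.2.length = (pA x).length ∧ c.2.2.Nodup ∧ ∀ f ∈ pC x, S.H f.1 (sub c.2.2 f.2)) ∧
  c.2.2.take (pj (pK x) c.1.1) = (pA x).take (pj (pK x) c.1.1) ∧
  S.H c.2.1 (sub c.2.2 c.1.2.1) ∧
  ∀ y : Tup, encode y < (pD x).length → avail i x E y → y.1 < c.1.1 →
    ¬ S.bad (pA x) (pC x) (pj (pK x) y.1) y.2.1 (c.2.1, c.1.2.1)

/-- `φ` is true of `(0, ..., M+r-1)` and not yet refuted as a complete formula over `P` -/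
def good (S : DS) (P : List ℕ) (M s r φ : ℕ) : Prop :=
  S.H φ (List.range (M + r)) ∧ ∀ n < s,
    (S.H n (List.range (M + r)) → ¬ S.H (S.pr (S.an φ (S.nt n)) (M + r) P) P) ∧
    (¬ S.H n (List.range (M + r)) → ¬ S.H (S.pr (S.an φ n) (M + r) P) P)

def isX (S : DS) (P : List ℕ) (M s r φ : ℕ) : Prop :=
  good S P M s r φ ∧ ∀ φ' < φ, ¬ good S P M s r φ'

/-- `1 + max P` -/
def mx (P : List ℕ) : ℕ := P.foldr max 0 + 1

/-- certificate `(m, v, Y, xs)` for an odd request -/
def certB (S : DS) (i : ℕ) (x : PS) (E : Env) (c : ℕ × ℕ × List ℕ × List ℕ) : Prop :=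
  (c.1 % 2 = 1 ∧ c.1 < pT x ∧ lvl c.1 < pT x ∧ E.st (Nat.pair i c.1) = false ∧
    E.st (Nat.pair i (2 * lvl c.1)) = false) ∧
  encode ((lvl c.1, c.2.2.1, c.2.1, c.1 + 1) : Tup) < (pD x).length ∧
  okY x (lvl c.1) c.2.2.1 ∧ availF x E (lvl c.1) c.2.1 c.2.2.1 ∧
  ((par c.1).length = pj (pK x) (lvl c.1) ∧
    ∀ r < (par c.1).length, (par c.1).getD r 0 < c.2.2.1.length ∧
      c.2.2.1.getD ((par c.1).getD r 0) 0 = r) ∧
  (c.2.2.2 ≠ [] ∧ c.2.2.1.length = mx (par c.1) + (c.2.2.2.length - 1)) ∧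
  (∀ r < c.2.2.2.length, isX S (par c.1) (mx (par c.1)) (pD x).length r (c.2.2.2.getD r 0)) ∧
  Ph (tht c.1) (pD x).length (c.2.2.2.take (c.2.2.2.length - 1)) (E.z (Nat.pair i c.1)) = some 0 ∧
  (∀ r < c.2.2.2.length, ¬ S.H (S.pr (S.an (c.2.2.2.getD r 0)
      (S.nt (S.pr (c.2.2.2.getD (c.2.2.2.length - 1) 0) c.2.2.1.length
        (List.range (mx (par c.1) + r))))) (mx (par c.1) + r) (par c.1)) (par c.1)) ∧
  ¬ S.H (S.pr (S.an (c.2.2.2.getD (c.2.2.2.length - 1) 0)
      (S.nt (S.pr (S.cj (pC x)) (pA x).length c.2.2.1))) c.2.2.1.length (par c.1))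
      ((pA x).take (par c.1).length)

/-- the next formula to be decided and its tuple of positions -/
def nxt (x : PS) : ℕ × List ℕ :=
  ((pT x).unpair.1.unpair.1, Denumerable.ofNat (List ℕ) (pT x).unpair.1.unpair.2)

/-- the next regular commitment -/
noncomputable def f0 (S : DS) (x : PS) : ℕ × List ℕ :=
  open Classical in
  if (nxt x).2 ≠ [] ∧ ∀ y ∈ (nxt x).2, y < (pA x).length then
    (if S.H (nxt x).1 (sub (pA x) (nxt x).2) then nxt x else (S.nt (nxt x).1, (nxt x).2))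
  else (S.tt, [0])

/-- least missing number -/
def lm (a : List ℕ) : ℕ := (bfind (fun n => !(a.contains n)) (a.length + 1)).getD 0

noncomputable def findB (S : DS) (i : ℕ) (x : PS) (E : Env) : Option ℕ :=
  open Classical in
  bfind (fun n => decide (∃ c : ℕ × ℕ × List ℕ × List ℕ, encode c < n + 1 ∧ encode c = n ∧
    certB S i x E c)) (pD x).length

noncomputable def findA (S : DS) (i : ℕ) (x : PS) (E : Env) (s : ℕ) : Option ℕ :=
  open Classical in
  bfind (fun n => decide (∃ c : Tup × ℕ × List ℕ, encode c < n + 1 ∧ encode c = n ∧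
    certA S i x E c)) s

/-- some available tuple is bad for the next regular commitment -/
def trig (S : DS) (i : ℕ) (x : PS) (E : Env) : Prop :=
  ∃ u : Tup, encode u < (pD x).length ∧ avail i x E u ∧
    S.bad (pA x) (pC x) (pj (pK x) u.1) u.2.1 (f0 S x)

/-- replace the pending request -/
abbrev setP (x : PS) (p : Option Pend) : PS :=
  (pA x, pC x, pK x, pB x, pT x, pD x, p)

/-- the pending request after finding the odd certificate `n` -/
def mkB (i : ℕ) (E : Env) (n : ℕ) : Option Pend :=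
  (decode (α := ℕ × ℕ × List ℕ × List ℕ) n).map fun c =>
    ((c.1, E.c (Nat.pair i c.1), c.2.1, 0, 0), ((0, c.2.2.1), []))

/-- the pending request after finding the even certificate `n` -/
def mkA (i : ℕ) (E : Env) (n : ℕ) : Option Pend :=
  (decode (α := Tup × ℕ × List ℕ) n).map fun c =>
    ((2 * c.1.1, E.c (Nat.pair i (2 * c.1.1)), c.1.2.2.1, c.1.2.2.2,
      E.c (Nat.pair i (c.1.2.2.2 - 1))), ((c.2.1, c.1.2.1), c.2.2))

/-- step with no pending request -/
noncomputable def stepN (S : DS) (i : ℕ) (x : PS) (E : Env) (s : ℕ) : PS :=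
  open Classical in
  bif (findB S i x E).isSome then setP x (mkB i E ((findB S i x E).getD 0))
  else bif decide (trig S i x E) then
    (bif (findA S i x E s).isSome then setP x (mkA i E ((findA S i x E s).getD 0)) else x)
  else (pA x ++ [lm (pA x)], f0 S x :: pC x, pK x, pB x, pT x + 1, E.bits s, none)

/-- step with a pending request -/
def stepP (i : ℕ) (x : PS) (p : Pend) (E : Env) (s : ℕ) : PS :=
  bif !(decide (E.c (Nat.pair i p.1.1) = p.1.2.1)) then setP x none
  else bif E.st (Nat.pair i p.1.1) then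
    (bif decide (p.1.1 % 2 = 1) then
      (pA x, pC x, pK x, (p.1.1, p.1.2.1, p.1.2.2.1, p.2.1.2) :: pB x, pT x, E.bits s, none)
    else (p.2.2 ++ [lm p.2.2], p.2.1 :: pC x, padTake (pK x) (p.1.1 / 2) ++ [p.2.2.length + 1],
      pB x, pT x, E.bits s, none))
  else bif (decide (p.1.2.2.2.1 = 0) && !(decide (E.bits p.1.2.2.1 = (pD x).take p.1.2.2.1))) ||
      (!(decide (p.1.2.2.2.1 = 0)) &&
        (!(decide (E.c (Nat.pair i (p.1.2.2.2.1 - 1)) = p.1.2.2.2.2)) ||
          !(E.st (Nat.pair i (p.1.2.2.2.1 - 1))))) then setP x none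
  else x

noncomputable def step (S : DS) (i : ℕ) (x : PS) (E : Env) (s : ℕ) : PS :=
  (pP x).elim (stepN S i x E s) fun p => stepP i x p E s

/-- the initial state -/
def init : PS := ([0], [], [], [], 0, [], none)

/-- the run along a history -/
noncomputable def run (S : DS) (i : ℕ) (l : List Env) : ℕ → PS
  | 0 => init
  | s + 1 => step S i (run S i l s) (l.getD (s + 1) ([], [], 0)) (s + 1)

/-- the request made by the process -/
noncomputable def req (S : DS) (i : ℕ) (l : List Env) : Req :=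
  (pP (run S i l (l.length - 1))).map fun p => (p.1.1, p.1.2.2.1, p.1.2.2.2.1)

end Pool.Agent.Helper750.DC
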