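import Pool.Agent.Helper750.DC.Proc

set_option autoImplicit false

/-! Computability of the basic functions. -/

namespace Pool.Agent.Helper750.DC

open Encodable Nat.Partrec Pool.Agent.Helper446

section
variable {α β σ : Type*} [Primcodable α] [Primcodable β] [Primcodable σ]

theorem c_foldl {f : α → List β} {g : α → σ} {h : α → σ × β → σ} (hf : Computable f)
    (hg : Computable g) (hh : Computable fun p : α × (σ × β) => h p.1 p.2) :
    Computable fun a => (f a).foldl (fun s b => h a (s, b)) (g a) :=
  RE.list_foldl hf hg hh

@[fun_prop] theorem c_reverse {f : α → List β} (hf : Computable f) :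
    Computable fun a => (f a).reverse := Primrec.list_reverse.to_comp.comp hf

theorem c_foldr {f : α → List β} {g : α → σ} {h : α → β → σ → σ} (hf : Computable f)
    (hg : Computable g) (hh : Computable fun p : α × (β × σ) => h p.1 p.2.1 p.2.2) :
    Computable fun a => (f a).foldr (fun b s => h a b s) (g a) := by
  have h1 := c_foldl (f := fun a => (f a).reverse) (g := g)
    (h := fun a (p : σ × β) => h a p.2 p.1) (c_reverse hf) hg
    (hh.comp (g := fun p : α × (σ × β) => (p.1, (p.2.2, p.2.1))) (by fun_prop))
  refine h1.of_eq fun a => ?_
  rw [List.foldl_reverse]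

theorem c_map {f : α → List β} {g : α → β → σ} (hf : Computable f)
    (hg : Computable fun p : α × β => g p.1 p.2) : Computable fun a => (f a).map (g a) := by
  have h1 := c_foldr (f := f) (g := fun _ : α => ([] : List σ)) (h := fun a b s => g a b :: s)
    hf (by fun_prop) ?_
  · refine h1.of_eq fun a => ?_
    induction f a with
    | nil => rfl
    | cons b l ih => simp only [List.foldr_cons, List.map_cons, ih]
  · have h2 : Computable fun p : α × (β × List σ) => g p.1 p.2.1 :=
      hg.comp (g := fun p : α × (β × List σ) => (p.1, p.2.1)) (by fun_prop)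
    fun_prop

@[fun_prop] theorem c_range {f : α → ℕ} (hf : Computable f) :
    Computable fun a => List.range (f a) := Primrec.list_range.to_comp.comp hf

@[fun_prop] theorem c_take {f : α → ℕ} {g : α → List β} (hf : Computable f) (hg : Computable g) :
    Computable fun a => (g a).take (f a) :=
  (Primrec.list_take.to_comp : Computable₂ (fun (n : ℕ) (l : List β) => l.take n)).comp hf hg

@[fun_prop] theorem c_getD {f : α → ℕ} {g : α → List β} {d : α → β} (hf : Computable f)
    (hg : Computable g) (hd : Computable d) : Computable fun a => (g a).getD (f a) (d a) := by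
  have h1 : Computable fun a => ((g a)[f a]?).getD (d a) :=
    Computable.option_getD (by fun_prop) hd
  exact h1.of_eq fun a => (List.getD_eq_getElem?_getD).symm

@[fun_prop] theorem c_ogetD {g : α → Option β} {d : α → β}
    (hg : Computable g) (hd : Computable d) : Computable fun a => (g a).getD (d a) :=
  Computable.option_getD hg hd

@[fun_prop] theorem c_div {f g : α → ℕ} (hf : Computable f) (hg : Computable g) :
    Computable fun a => f a / g a := Primrec.nat_div.to_comp.comp hf hg

@[fun_prop] theorem c_mod {f g : α → ℕ} (hf : Computable f) (hg : Computable g) :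
    Computable fun a => f a % g a := Primrec.nat_mod.to_comp.comp hf hg

@[fun_prop] theorem c_ofNat {f : α → ℕ} (hf : Computable f) :
    Computable fun a => Denumerable.ofNat (List ℕ) (f a) :=
  (Computable.ofNat (List ℕ)).comp hf

theorem c_dec {p : α → Prop} [DecidablePred p] (hp : ComputablePred p) :
    Computable fun a => decide (p a) := hp.decide

@[fun_prop] theorem c_deceq {f g : α → β} [DecidableEq β] (hf : Computable f) (hg : Computable g) :
    Computable fun a => decide (f a = g a) := (RE.cp_eq hf hg).decide

theorem cp_bool {f : α → Bool} (hf : Computable f) : ComputablePred fun a => f a = true :=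
  ComputablePred.computable_iff.2 ⟨f, hf, rfl⟩

theorem cp_boolf {f : α → Bool} (hf : Computable f) : ComputablePred fun a => f a = false := by
  refine cp_of_iff (cp_bool (f := fun a => !(f a)) (by fun_prop)) fun a => ?_
  cases f a <;> simp

@[fun_prop] theorem c_sub {f g : α → List ℕ} (hf : Computable f) (hg : Computable g) :
    Computable fun a => sub (f a) (g a) := by
  unfold sub
  refine c_map (g := fun a y => (f a).getD y 0) hg ?_
  have : Computable fun p : α × ℕ => f p.1 := hf.comp Computable.fst
  fun_prop

theorem c_foldmax {f : α → List ℕ} (hf : Computable f) :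
    Computable fun a => (f a).foldr max 0 :=
  c_foldr (h := fun _ b s => max b s) hf (by fun_prop) (by fun_prop)

@[fun_prop] theorem c_pj {f : α → List ℕ} {g : α → ℕ} (hf : Computable f) (hg : Computable g) :
    Computable fun a => pj (f a) (g a) := by
  unfold pj
  refine c_foldmax (c_map (g := fun a i => (f a).getD i 0) (by fun_prop) ?_)
  have : Computable fun p : α × ℕ => f p.1 := hf.comp Computable.fst
  fun_prop

@[fun_prop] theorem c_padTake {f : α → List ℕ} {g : α → ℕ} (hf : Computable f)
    (hg : Computable g) : Computable fun a => padTake (f a) (g a) := by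
  unfold padTake
  refine c_map (g := fun a i => (f a).getD i 0) (by fun_prop) ?_
  have : Computable fun p : α × ℕ => f p.1 := hf.comp Computable.fst
  fun_prop

@[fun_prop] theorem c_mx {f : α → List ℕ} (hf : Computable f) : Computable fun a => mx (f a) := by
  unfold mx
  have := c_foldmax hf
  fun_prop

@[fun_prop] theorem c_lvl {f : α → ℕ} (hf : Computable f) : Computable fun a => lvl (f a) := by
  unfold lvl; fun_prop
@[fun_prop] theorem c_tht {f : α → ℕ} (hf : Computable f) : Computable fun a => tht (f a) := by
  unfold tht; fun_prop
@[fun_prop] theorem c_par {f : α → ℕ} (hf : Computable f) : Computable fun a => par (f a) := by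
  unfold par; fun_prop

@[fun_prop] theorem c_idxOf {f : α → ℕ} {g : α → List ℕ} (hf : Computable f) (hg : Computable g) :
    Computable fun a => (g a).idxOf (f a) :=
  (Primrec.list_idxOf.to_comp : Computable₂ (fun (n : ℕ) (l : List ℕ) => l.idxOf n)).comp hf hg

@[fun_prop] theorem c_idx {f : α → List ℕ} {g : α → ℕ} (hf : Computable f)
    (hg : Computable g) : Computable fun a => idx (f a) (g a) := by
  unfold idx
  refine c_map (g := fun a i => (f a).idxOf i) (by fun_prop) ?_
  have : Computable fun p : α × ℕ => f p.1 := hf.comp Computable.fst
  fun_prop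

@[fun_prop] theorem c_Ec {f : α → Env} {g : α → ℕ} (hf : Computable f) (hg : Computable g) :
    Computable fun a => (f a).c (g a) := by
  unfold Env.c; fun_prop
@[fun_prop] theorem c_Est {f : α → Env} {g : α → ℕ} (hf : Computable f) (hg : Computable g) :
    Computable fun a => (f a).st (g a) := by
  unfold Env.st; fun_prop
@[fun_prop] theorem c_Ez {f : α → Env} {g : α → ℕ} (hf : Computable f) (hg : Computable g) :
    Computable fun a => (f a).z (g a) := by
  unfold Env.z; fun_prop

@[fun_prop] theorem c_decmem {f : α → ℕ} {g : α → List ℕ} (hf : Computable f)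
    (hg : Computable g) : Computable fun a => decide (f a ∈ g a) :=
  (RE.cp_mem hf hg).decide

@[fun_prop] theorem c_Ebits {f : α → Env} {g : α → ℕ} (hf : Computable f) (hg : Computable g) :
    Computable fun a => (f a).bits (g a) := by
  unfold Env.bits
  refine c_map (g := fun a x => if x ∈ (f a).1 then 1 else 0) (by fun_prop) ?_
  have h1 : Computable fun p : α × ℕ => f p.1 := hf.comp Computable.fst
  have h2 : Computable fun p : α × ℕ => bif decide (p.2 ∈ (f p.1).1) then 1 else 0 := by fun_prop
  refine h2.of_eq fun p => ?_
  by_cases h : p.2 ∈ (f p.1).1 <;> simp [h]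

@[fun_prop] theorem c_Ph {f g k : α → ℕ} {l : α → List ℕ} (hf : Computable f) (hg : Computable g)
    (hl : Computable l) (hk : Computable k) :
    Computable fun a => Ph (f a) (g a) (l a) (k a) := by
  unfold Ph
  have h1 : Computable fun x : (ℕ × Code) × ℕ => (Code.evaln x.1.1 x.1.2 x.2) :=
    Code.primrec_evaln.to_comp
  have h2 : Computable fun a : α => Denumerable.ofNat Code (f a) :=
    (Computable.ofNat Code).comp hf
  have h3 : Computable fun a : α => Code.evaln (g a) (Denumerable.ofNat Code (f a))
      (encode (l a, k a)) := h1.comp ((hg.pair h2).pair (by fun_prop))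
  refine Computable.option_bind h3 ?_
  show Computable fun p : α × ℕ => (decode (α := Option ℕ) p.2).bind id
  refine Computable.option_bind (by fun_prop) ?_
  show Computable fun p : (α × ℕ) × Option ℕ => id p.2
  exact Computable.snd

@[fun_prop] theorem c_lm {f : α → List ℕ} (hf : Computable f) : Computable fun a => lm (f a) := by
  unfold lm
  have h1 : Computable fun a => bfind (fun n => !((f a).contains n)) ((f a).length + 1) := by
    refine computable_bfind (q := fun a n => !((f a).contains n)) ?_ (by fun_prop)
    have h2 : Computable fun p : α × ℕ => f p.1 := hf.comp Computable.fst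
    have h3 : Computable fun p : α × ℕ => !(decide (p.2 ∈ f p.1)) := by fun_prop
    refine h3.of_eq fun p => ?_
    simp [List.contains_eq_mem]
  fun_prop

end

section
variable {α : Type*} [Primcodable α] (S : DS)

theorem cp_H {f : α → ℕ} {g : α → List ℕ} (hf : Computable f) (hg : Computable g) :
    ComputablePred fun a => S.H (f a) (g a) :=
  RE.cp_comp S.comp (f := fun a => (f a, g a)) (by fun_prop)

@[fun_prop] theorem c_nt {f : α → ℕ} (hf : Computable f) : Computable fun a => S.nt (f a) :=
  S.nt_c.comp hf
@[fun_prop] theorem c_an {f g : α → ℕ} (hf : Computable f) (hg : Computable g) :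
    Computable fun a => S.an (f a) (g a) := S.an_c.comp (g := fun a => (f a, g a)) (by fun_prop)
@[fun_prop] theorem c_lf {f : α → ℕ} {g : α → List ℕ} (hf : Computable f) (hg : Computable g) :
    Computable fun a => S.lf (f a) (g a) := S.lf_c.comp (g := fun a => (f a, g a)) (by fun_prop)
@[fun_prop] theorem c_pr {f k : α → ℕ} {g : α → List ℕ} (hf : Computable f) (hk : Computable k)
    (hg : Computable g) :
    Computable fun a => S.pr (f a) (k a) (g a) :=
  S.pr_c.comp (g := fun a => ((f a, k a), g a)) (by fun_prop)

@[fun_prop] theorem c_cj {f : α → List (ℕ × List ℕ)} (hf : Computable f) :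
    Computable fun a => S.cj (f a) := by
  unfold DS.cj
  exact c_foldr (h := fun _ (f : ℕ × List ℕ) r => S.an (S.lf f.1 f.2) r) hf (by fun_prop)
    (by fun_prop)

theorem cp_bad {a : α → List ℕ} {C : α → List (ℕ × List ℕ)} {p : α → ℕ} {Y : α → List ℕ}
    {f : α → ℕ × List ℕ} (ha : Computable a) (hC : Computable C) (hp : Computable p)
    (hY : Computable Y) (hf : Computable f) :
    ComputablePred fun x => S.bad (a x) (C x) (p x) (Y x) (f x) := by
  unfold DS.bad
  exact cp_H S (by fun_prop) (by fun_prop)

end

end Pool.Agent.Helper750.DC
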