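import Pool.Agent.Helper750.DC.ProcC1

set_option autoImplicit false

/-! Computability of the process. -/

namespace Pool.Agent.Helper750.DC

open Encodable Nat.Partrec Pool.Agent.Helper446

variable (S : DS)

theorem cp_nodup {α : Type*} [Primcodable α] {l : α → List ℕ} (hl : Computable l) :
    ComputablePred fun a => (l a).Nodup := by
  refine cp_of_iff (cp_all_lt (p := fun a j => ∀ i < j, (l a)[i]? ≠ (l a)[j]?)
    (f := fun a => (l a).length) ?_ (by fun_prop)) fun a => ?_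
  · refine cp_all_lt (p := fun (a : α × ℕ) i => (l a.1)[i]? ≠ (l a.1)[a.2]?) ?_ (by fun_prop)
    have h1 : Computable fun p : (α × ℕ) × ℕ => l p.1.1 :=
      hl.comp (Computable.fst.comp Computable.fst)
    exact cp_not (RE.cp_eq (by fun_prop) (by fun_prop))
  · rw [List.nodup_iff_getElem?_ne_getElem?]
    constructor
    · intro h j hj i hi
      exact h i j hi hj
    · intro h i j hi hj
      exact h j hj i hi

theorem cp_availF0 : ComputablePred fun a : PS × Env × ℕ × ℕ × List ℕ =>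
    availF a.1 a.2.1 a.2.2.1 a.2.2.2.1 a.2.2.2.2 := by
  unfold availF
  refine cp_and (RE.cp_le (by fun_prop) (by fun_prop)) (cp_and
    (RE.cp_eq (by fun_prop) (by fun_prop)) ?_)
  refine cp_all_lt (p := fun (a : PS × Env × ℕ × ℕ × List ℕ) r =>
    Ph a.2.2.1 (pD a.1).length ((pD a.1).take a.2.2.2.1) r = some (a.2.2.2.2.getD r 0)) ?_
    (by fun_prop)
  exact RE.cp_eq (by fun_prop) (by fun_prop)

theorem cp_okY0 : ComputablePred fun a : PS × ℕ × List ℕ => okY a.1 a.2.1 a.2.2 := by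
  unfold okY
  refine cp_and (cp_not (RE.cp_eq (by fun_prop) (by fun_prop))) (cp_and
    (cp_nodup (by fun_prop)) (cp_and ?_ ?_))
  · exact cp_all_mem (p := fun (a : PS × ℕ × List ℕ) y => y < (pA a.1).length)
      (RE.cp_lt (by fun_prop) (by fun_prop)) (by fun_prop)
  · exact cp_all_lt (p := fun (a : PS × ℕ × List ℕ) r => r ∈ a.2.2)
      (RE.cp_mem (by fun_prop) (by fun_prop)) (by fun_prop)

theorem cp_avail0 : ComputablePred fun a : ℕ × PS × Env × Tup =>
    avail a.1 a.2.1 a.2.2.1 a.2.2.2 := by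
  unfold avail
  refine cp_and (RE.cp_lt (by fun_prop) (by fun_prop)) (cp_and (cp_boolf (by fun_prop))
    (cp_and (RE.cp_comp cp_okY0 (f := fun a : ℕ × PS × Env × Tup =>
      (a.2.1, a.2.2.2.1, a.2.2.2.2.1)) (by fun_prop)) (cp_or (cp_and
        (RE.cp_eq (by fun_prop) (by fun_prop)) (RE.cp_comp cp_availF0
        (f := fun a : ℕ × PS × Env × Tup =>
      (a.2.1, a.2.2.1, a.2.2.2.1, a.2.2.2.2.2.1, a.2.2.2.2.1)) (by fun_prop))) ?_)))
  refine cp_ex_mem (p := fun (a : ℕ × PS × Env × Tup) (b : BD) =>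
    a.2.2.2.2.2.2 = b.1 + 1 ∧ lvl b.1 = a.2.2.2.1 ∧ b.1 % 2 = 1 ∧
      b.2.1 = a.2.2.1.c (Nat.pair a.1 b.1) ∧ b.2.2.1 = a.2.2.2.2.2.1 ∧ b.2.2.2 = a.2.2.2.2.1 ∧
      a.2.2.1.st (Nat.pair a.1 b.1) = true) ?_ (by fun_prop)
  refine cp_and (RE.cp_eq (by fun_prop) (by fun_prop)) (cp_and
    (RE.cp_eq (by fun_prop) (by fun_prop)) (cp_and (RE.cp_eq (by fun_prop) (by fun_prop))
    (cp_and (RE.cp_eq (by fun_prop) (by fun_prop)) (cp_and (RE.cp_eq (by fun_prop) (by fun_prop))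
    (cp_and (RE.cp_eq (by fun_prop) (by fun_prop)) (cp_bool (by fun_prop)))))))

theorem cp_certA0 : ComputablePred fun a : ℕ × PS × Env × (Tup × ℕ × List ℕ) =>
    certA S a.1 a.2.1 a.2.2.1 a.2.2.2 := by
  unfold certA
  refine cp_and (cp_and (RE.cp_lt (by fun_prop) (by fun_prop)) ?_) (cp_and ?_ (cp_and
    (cp_and (RE.cp_eq (by fun_prop) (by fun_prop)) (cp_and (cp_nodup (by fun_prop)) ?_))
    (cp_and (RE.cp_eq (by fun_prop) (by fun_prop)) (cp_and ?_ ?_))))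
  · exact RE.cp_comp cp_avail0 (f := fun a : ℕ × PS × Env × (Tup × ℕ × List ℕ) =>
      (a.1, a.2.1, a.2.2.1, a.2.2.2.1)) (by fun_prop)
  · exact cp_not (cp_H S (by fun_prop) (by fun_prop))
  · exact cp_all_mem (p := fun (a : ℕ × PS × Env × (Tup × ℕ × List ℕ)) (f : ℕ × List ℕ) =>
      S.H f.1 (sub a.2.2.2.2.2 f.2)) (cp_H S (by fun_prop) (by fun_prop)) (by fun_prop)
  · exact cp_H S (by fun_prop) (by fun_prop)
  · refine cp_all_code (p := fun (a : ℕ × PS × Env × (Tup × ℕ × List ℕ)) (y : Tup) =>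
      avail a.1 a.2.1 a.2.2.1 y → y.1 < a.2.2.2.1.1 →
      ¬ S.bad (pA a.2.1) (pC a.2.1) (pj (pK a.2.1) y.1) y.2.1 (a.2.2.2.2.1, a.2.2.2.1.2.1))
      ?_ (by fun_prop)
    refine cp_imp ?_ (cp_imp (RE.cp_lt (by fun_prop) (by fun_prop)) (cp_not ?_))
    · exact RE.cp_comp cp_avail0 (f := fun a : (ℕ × PS × Env × (Tup × ℕ × List ℕ)) × Tup =>
        (a.1.1, a.1.2.1, a.1.2.2.1, a.2)) (by fun_prop)
    · exact cp_bad S (by fun_prop) (by fun_prop) (by fun_prop) (by fun_prop) (by fun_prop)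

theorem cp_good0 : ComputablePred fun a : List ℕ × ℕ × ℕ × ℕ × ℕ =>
    good S a.1 a.2.1 a.2.2.1 a.2.2.2.1 a.2.2.2.2 := by
  unfold good
  refine cp_and (cp_H S (by fun_prop) (by fun_prop)) ?_
  refine cp_all_lt (p := fun (a : List ℕ × ℕ × ℕ × ℕ × ℕ) n =>
    (S.H n (List.range (a.2.1 + a.2.2.2.1)) →
      ¬ S.H (S.pr (S.an a.2.2.2.2 (S.nt n)) (a.2.1 + a.2.2.2.1) a.1) a.1) ∧
    (¬ S.H n (List.range (a.2.1 + a.2.2.2.1)) →
      ¬ S.H (S.pr (S.an a.2.2.2.2 n) (a.2.1 + a.2.2.2.1) a.1) a.1)) ?_ (by fun_prop)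
  exact cp_and (cp_imp (cp_H S (by fun_prop) (by fun_prop))
    (cp_not (cp_H S (by fun_prop) (by fun_prop))))
    (cp_imp (cp_not (cp_H S (by fun_prop) (by fun_prop)))
    (cp_not (cp_H S (by fun_prop) (by fun_prop))))

theorem cp_isX0 : ComputablePred fun a : List ℕ × ℕ × ℕ × ℕ × ℕ =>
    isX S a.1 a.2.1 a.2.2.1 a.2.2.2.1 a.2.2.2.2 := by
  unfold isX
  refine cp_and (cp_good0 S) ?_
  refine cp_all_lt (p := fun (a : List ℕ × ℕ × ℕ × ℕ × ℕ) φ' =>
    ¬ good S a.1 a.2.1 a.2.2.1 a.2.2.2.1 φ') ?_ (by fun_prop)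
  exact cp_not (RE.cp_comp (cp_good0 S) (f := fun a : (List ℕ × ℕ × ℕ × ℕ × ℕ) × ℕ =>
    (a.1.1, a.1.2.1, a.1.2.2.1, a.1.2.2.2.1, a.2)) (by fun_prop))

theorem cp_certB0 : ComputablePred fun a : ℕ × PS × Env × (ℕ × ℕ × List ℕ × List ℕ) =>
    certB S a.1 a.2.1 a.2.2.1 a.2.2.2 := by
  unfold certB
  refine cp_and ?_ (cp_and ?_ (cp_and ?_ (cp_and ?_ (cp_and ?_ (cp_and ?_ (cp_and ?_
    (cp_and ?_ (cp_and ?_ ?_))))))))
  · exact cp_and (RE.cp_eq (by fun_prop) (by fun_prop)) (cp_and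
      (RE.cp_lt (by fun_prop) (by fun_prop)) (cp_and (RE.cp_lt (by fun_prop) (by fun_prop))
      (cp_and (cp_boolf (by fun_prop)) (cp_boolf (by fun_prop)))))
  · exact RE.cp_lt (by fun_prop) (by fun_prop)
  · exact RE.cp_comp cp_okY0 (f := fun a : ℕ × PS × Env × (ℕ × ℕ × List ℕ × List ℕ) =>
      (a.2.1, lvl a.2.2.2.1, a.2.2.2.2.2.1)) (by fun_prop)
  · exact RE.cp_comp cp_availF0 (f := fun a : ℕ × PS × Env × (ℕ × ℕ × List ℕ × List ℕ) =>
      (a.2.1, a.2.2.1, lvl a.2.2.2.1, a.2.2.2.2.1, a.2.2.2.2.2.1)) (by fun_prop)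
  · refine cp_and (RE.cp_eq (by fun_prop) (by fun_prop)) ?_
    refine cp_all_lt (p := fun (a : ℕ × PS × Env × (ℕ × ℕ × List ℕ × List ℕ)) r =>
      (par a.2.2.2.1).getD r 0 < a.2.2.2.2.2.1.length ∧
      a.2.2.2.2.2.1.getD ((par a.2.2.2.1).getD r 0) 0 = r) ?_ (by fun_prop)
    exact cp_and (RE.cp_lt (by fun_prop) (by fun_prop)) (RE.cp_eq (by fun_prop) (by fun_prop))
  · exact cp_and (cp_not (RE.cp_eq (by fun_prop) (by fun_prop)))
      (RE.cp_eq (by fun_prop) (by fun_prop))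
  · refine cp_all_lt (p := fun (a : ℕ × PS × Env × (ℕ × ℕ × List ℕ × List ℕ)) r =>
      isX S (par a.2.2.2.1) (mx (par a.2.2.2.1)) (pD a.2.1).length r
        (a.2.2.2.2.2.2.getD r 0)) ?_ (by fun_prop)
    exact RE.cp_comp (cp_isX0 S) (f := fun a : (ℕ × PS × Env × (ℕ × ℕ × List ℕ × List ℕ)) × ℕ =>
      (par a.1.2.2.2.1, mx (par a.1.2.2.2.1), (pD a.1.2.1).length, a.2,
        a.1.2.2.2.2.2.2.getD a.2 0)) (by fun_prop)
  · exact RE.cp_eq (by fun_prop) (by fun_prop)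
  · refine cp_all_lt (p := fun (c : ℕ × PS × Env × (ℕ × ℕ × List ℕ × List ℕ)) r =>
      ¬ S.H (S.pr (S.an (c.2.2.2.2.2.2.getD r 0)
      (S.nt (S.pr (c.2.2.2.2.2.2.getD (c.2.2.2.2.2.2.length - 1) 0) c.2.2.2.2.2.1.length
        (List.range (mx (par c.2.2.2.1) + r))))) (mx (par c.2.2.2.1) + r) (par c.2.2.2.1))
        (par c.2.2.2.1)) ?_ (by fun_prop)
    exact cp_not (cp_H S (by fun_prop) (by fun_prop))
  · exact cp_not (cp_H S (by fun_prop) (by fun_prop))

theorem c_nxt : Computable nxt := by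
  unfold nxt
  fun_prop

theorem c_f0 : Computable (f0 S) := by
  classical
  unfold f0
  have h := c_nxt
  refine RE.cite (cp_and (cp_not (RE.cp_eq (by fun_prop) (by fun_prop))) ?_) (RE.cite ?_ ?_ ?_) ?_
  · exact cp_all_mem (p := fun (x : PS) y => y < (pA x).length)
      (RE.cp_lt (by fun_prop) (by fun_prop)) (by fun_prop)
  · exact cp_H S (by fun_prop) (by fun_prop)
  · fun_prop
  · fun_prop
  · fun_prop

theorem c_findB : Computable fun a : ℕ × PS × Env => findB S a.1 a.2.1 a.2.2 := by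
  classical
  unfold findB
  refine computable_bfind (q := fun (a : ℕ × PS × Env) n => @decide
    (∃ c : ℕ × ℕ × List ℕ × List ℕ, encode c < n + 1 ∧ encode c = n ∧
    certB S a.1 a.2.1 a.2.2 c) (Classical.propDecidable _)) ?_ (by fun_prop)
  refine ComputablePred.decide ?_
  refine cp_ex_code (p := fun (a : (ℕ × PS × Env) × ℕ) (c : ℕ × ℕ × List ℕ × List ℕ) =>
    encode c = a.2 ∧ certB S a.1.1 a.1.2.1 a.1.2.2 c) ?_ (by fun_prop)
  refine cp_and (RE.cp_eq (by fun_prop) (by fun_prop)) ?_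
  exact RE.cp_comp (cp_certB0 S)
    (f := fun a : ((ℕ × PS × Env) × ℕ) × (ℕ × ℕ × List ℕ × List ℕ) =>
    (a.1.1.1, a.1.1.2.1, a.1.1.2.2, a.2)) (by fun_prop)

theorem c_findA : Computable fun a : ℕ × PS × Env × ℕ => findA S a.1 a.2.1 a.2.2.1 a.2.2.2 := by
  classical
  unfold findA
  refine computable_bfind (q := fun (a : ℕ × PS × Env × ℕ) n => @decide
    (∃ c : Tup × ℕ × List ℕ, encode c < n + 1 ∧ encode c = n ∧
    certA S a.1 a.2.1 a.2.2.1 c) (Classical.propDecidable _)) ?_ (by fun_prop)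
  refine ComputablePred.decide ?_
  refine cp_ex_code (p := fun (a : (ℕ × PS × Env × ℕ) × ℕ) (c : Tup × ℕ × List ℕ) =>
    encode c = a.2 ∧ certA S a.1.1 a.1.2.1 a.1.2.2.1 c) ?_ (by fun_prop)
  refine cp_and (RE.cp_eq (by fun_prop) (by fun_prop)) ?_
  exact RE.cp_comp (cp_certA0 S)
    (f := fun a : ((ℕ × PS × Env × ℕ) × ℕ) × (Tup × ℕ × List ℕ) =>
    (a.1.1.1, a.1.1.2.1, a.1.1.2.2.1, a.2)) (by fun_prop)

theorem cp_trig : ComputablePred fun a : ℕ × PS × Env => trig S a.1 a.2.1 a.2.2 := by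
  unfold trig
  have h0 := c_f0 S
  refine cp_ex_code (p := fun (a : ℕ × PS × Env) (u : Tup) => avail a.1 a.2.1 a.2.2 u ∧
    S.bad (pA a.2.1) (pC a.2.1) (pj (pK a.2.1) u.1) u.2.1 (f0 S a.2.1)) ?_ (by fun_prop)
  refine cp_and ?_ ?_
  · exact RE.cp_comp cp_avail0 (f := fun a : (ℕ × PS × Env) × Tup =>
      (a.1.1, a.1.2.1, a.1.2.2, a.2)) (by fun_prop)
  · exact cp_bad S (by fun_prop) (by fun_prop) (by fun_prop) (by fun_prop) (by fun_prop)

theorem c_mkB : Computable fun a : ℕ × Env × ℕ => mkB a.1 a.2.1 a.2.2 := by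
  unfold mkB
  refine Computable.option_map (by fun_prop) ?_
  show Computable fun p : (ℕ × Env × ℕ) × (ℕ × ℕ × List ℕ × List ℕ) =>
    (((p.2.1, p.1.2.1.c (Nat.pair p.1.1 p.2.1), p.2.2.1, 0, 0), ((0, p.2.2.2.1), [])) : Pend)
  fun_prop

theorem c_mkA : Computable fun a : ℕ × Env × ℕ => mkA a.1 a.2.1 a.2.2 := by
  unfold mkA
  refine Computable.option_map (by fun_prop) ?_
  show Computable fun p : (ℕ × Env × ℕ) × (Tup × ℕ × List ℕ) =>
    (((2 * p.2.1.1, p.1.2.1.c (Nat.pair p.1.1 (2 * p.2.1.1)), p.2.1.2.2.1, p.2.1.2.2.2,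
      p.1.2.1.c (Nat.pair p.1.1 (p.2.1.2.2.2 - 1))), ((p.2.2.1, p.2.1.2.1), p.2.2.2)) : Pend)
  fun_prop

theorem c_stepN : Computable fun a : ℕ × PS × Env × ℕ =>
    stepN S a.1 a.2.1 a.2.2.1 a.2.2.2 := by
  unfold stepN
  have h0 : Computable fun a : ℕ × PS × Env × ℕ => f0 S a.2.1 := (c_f0 S).comp (by fun_prop)
  have h1 : Computable fun a : ℕ × PS × Env × ℕ => findB S a.1 a.2.1 a.2.2.1 :=
    (c_findB S).comp (g := fun a : ℕ × PS × Env × ℕ => (a.1, a.2.1, a.2.2.1)) (by fun_prop)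
  have h2 := c_findA S
  have h3 : Computable fun a : ℕ × PS × Env × ℕ =>
      @decide (trig S a.1 a.2.1 a.2.2.1) (Classical.propDecidable _) := by
    classical
    refine ComputablePred.decide ?_
    exact RE.cp_comp (cp_trig S) (f := fun a : ℕ × PS × Env × ℕ => (a.1, a.2.1, a.2.2.1))
      (by fun_prop)
  have h4 : Computable fun a : ℕ × PS × Env × ℕ =>
      mkB a.1 a.2.2.1 ((findB S a.1 a.2.1 a.2.2.1).getD 0) :=
    c_mkB.comp (g := fun a : ℕ × PS × Env × ℕ =>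
      (a.1, a.2.2.1, (findB S a.1 a.2.1 a.2.2.1).getD 0)) (by fun_prop)
  have h5 : Computable fun a : ℕ × PS × Env × ℕ =>
      mkA a.1 a.2.2.1 ((findA S a.1 a.2.1 a.2.2.1 a.2.2.2).getD 0) :=
    c_mkA.comp (g := fun a : ℕ × PS × Env × ℕ =>
      (a.1, a.2.2.1, (findA S a.1 a.2.1 a.2.2.1 a.2.2.2).getD 0)) (by fun_prop)
  refine RE.ccond (by fun_prop) (by fun_prop) (RE.ccond h3 (RE.ccond (by fun_prop) (by fun_prop)
    (by fun_prop)) (by fun_prop))

theorem c_stepP {α : Type*} [Primcodable α] {i : α → ℕ} {x : α → PS} {p : α → Pend}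
    {E : α → Env} {s : α → ℕ} (hi : Computable i) (hx : Computable x) (hp : Computable p)
    (hE : Computable E) (hs : Computable s) :
    Computable fun a => stepP (i a) (x a) (p a) (E a) (s a) := by
  unfold stepP
  have b1 : Computable fun a => !(decide ((E a).c (Nat.pair (i a) (p a).1.1) = (p a).1.2.1)) := by
    fun_prop
  have b2 : Computable fun a => (E a).st (Nat.pair (i a) (p a).1.1) := by fun_prop
  have b3 : Computable fun a => decide ((p a).1.1 % 2 = 1) := by fun_prop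
  have b4 : Computable fun a => decide ((p a).1.2.2.2.1 = 0) := by fun_prop
  have b5 : Computable fun a => !(decide ((E a).bits (p a).1.2.2.1 =
      (pD (x a)).take (p a).1.2.2.1)) := by fun_prop
  have b6 : Computable fun a => !(decide ((E a).c (Nat.pair (i a) ((p a).1.2.2.2.1 - 1)) =
      (p a).1.2.2.2.2)) := by fun_prop
  have b7 : Computable fun a => !((E a).st (Nat.pair (i a) ((p a).1.2.2.2.1 - 1))) := by fun_prop
  have g1 : Computable fun a => setP (x a) none := by fun_prop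
  have g2 : Computable fun a => ((pA (x a), pC (x a), pK (x a),
    ((p a).1.1, (p a).1.2.1, (p a).1.2.2.1, (p a).2.1.2) :: pB (x a), pT (x a), (E a).bits (s a),
      none) : PS) := by fun_prop
  have g3 : Computable fun a => (((p a).2.2 ++ [lm (p a).2.2], (p a).2.1 :: pC (x a),
      padTake (pK (x a)) ((p a).1.1 / 2) ++ [(p a).2.2.length + 1],
      pB (x a), pT (x a), (E a).bits (s a), none) : PS) := by fun_prop
  exact RE.ccond b1 g1 (RE.ccond b2 (RE.ccond b3 g2 g3)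
    (RE.ccond (RE.cor (RE.cand b4 b5) (RE.cand (RE.cnot b4) (RE.cor b6 b7))) g1 hx))

theorem c_step : Computable fun a : ℕ × PS × Env × ℕ => step S a.1 a.2.1 a.2.2.1 a.2.2.2 := by
  unfold step
  have h := Computable.option_casesOn (o := fun a : ℕ × PS × Env × ℕ => pP a.2.1)
    (f := fun a => stepN S a.1 a.2.1 a.2.2.1 a.2.2.2)
    (g := fun a p => stepP a.1 a.2.1 p a.2.2.1 a.2.2.2) (by fun_prop) (c_stepN S)
    (c_stepP (i := fun a : (ℕ × PS × Env × ℕ) × Pend => a.1.1) (by fun_prop) (by fun_prop)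
      (by fun_prop) (by fun_prop) (by fun_prop))
  refine h.of_eq fun a => ?_
  cases pP a.2.1 <;> rfl

theorem c_run : Computable fun a : ℕ × List Env × ℕ => run S a.1 a.2.1 a.2.2 := by
  have h := Computable.nat_rec (f := fun a : ℕ × List Env × ℕ => a.2.2)
    (g := fun _ : ℕ × List Env × ℕ => init)
    (h := fun (a : ℕ × List Env × ℕ) (p : ℕ × PS) =>
      step S a.1 p.2 (a.2.1.getD (p.1 + 1) ([], [], 0)) (p.1 + 1)) (by fun_prop)
      (Computable.const _) ?_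
  · refine h.of_eq fun a => ?_
    obtain ⟨i, l, s⟩ := a
    simp only
    induction s with
    | zero => rfl
    | succ s ih =>
      show step S i _ _ _ = run S i l (s + 1)
      rw [run, ← ih]
  · exact (c_step S).comp (g := fun a : (ℕ × List Env × ℕ) × (ℕ × PS) =>
      (a.1.1, a.2.2, a.1.2.1.getD (a.2.1 + 1) ([], [], 0), a.2.1 + 1)) (by fun_prop)

theorem c_req : Computable fun p : ℕ × List Env => req S p.1 p.2 := by
  unfold req
  have h : Computable fun p : ℕ × List Env => run S p.1 p.2 (p.2.length - 1) :=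
    (c_run S).comp (g := fun p : ℕ × List Env => (p.1, p.2, p.2.length - 1)) (by fun_prop)
  refine Computable.option_map (by fun_prop) ?_
  show Computable fun p : (ℕ × List Env) × Pend => (p.2.1.1, p.2.1.2.2.1, p.2.1.2.2.2.1)
  fun_prop

end Pool.Agent.Helper750.DC
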