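import Pool.Agent.Helper750.DC.Inv2

set_option autoImplicit false

/-! Progress: infinitely many formulas are decided. -/

namespace Pool.Agent.Helper750.DC

open Encodable Pool.Agent.Helper446

theorem foldr_max_le {l : List ℕ} {n : ℕ} : l.foldr max 0 ≤ n ↔ ∀ x ∈ l, x ≤ n := by
  induction l with
  | nil => simp
  | cons a l ih => simp [ih]

theorem pj_le {K : List ℕ} {j n : ℕ} : pj K j ≤ n ↔ ∀ r < j, K.getD r 0 ≤ n := by
  unfold pj
  rw [foldr_max_le]
  simp

theorem lt_pj {K : List ℕ} {j n : ℕ} : n < pj K j ↔ ∃ r < j, n < K.getD r 0 := by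
  rw [← not_le, pj_le]
  push Not
  rfl

theorem pj_mono (K : List ℕ) {j j' : ℕ} (h : j ≤ j') : pj K j ≤ pj K j' := by
  rw [pj_le]
  intro r hr
  exact pj_le.1 le_rfl r (by omega)

theorem take_le {a b : List ℕ} {p q : ℕ} (h : a.take p = b.take p) (hq : q ≤ p) :
    a.take q = b.take q := by
  have := congrArg (List.take q) h
  rwa [List.take_take, List.take_take, min_eq_left hq] at this

theorem ex_certA {S : DS} {i : ℕ} {x : PS} {e : Env} (hI : Inv S x) (ht : trig S i x e) :
    ∃ c, certA S i x e c := by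
  classical
  let Q : ℕ → Prop := fun j => ∃ u : Tup, u.1 = j ∧ encode u < (pD x).length ∧ avail i x e u ∧
    ∃ β b, ¬ S.H β (List.range u.2.1.length) ∧ S.Real (pC x) (pA x).length b ∧
      b.take (pj (pK x) u.1) = (pA x).take (pj (pK x) u.1) ∧ S.H β (sub b u.2.1)
  have hf := f0_spec S (x := x) (by have := hI.len; omega)
  have hQ : ∃ j, Q j := by
    obtain ⟨u, h1, h2, h3⟩ := ht
    have hok := h2.2.2.1
    obtain ⟨β, b, h4⟩ := S.split hok.1 hok.2.1 hok.2.2.1 hok.2.2.2 hI.wf hf.1 h3
      ⟨pA x, ⟨rfl, hI.nd, fun g hg => by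
        rcases List.mem_cons.1 hg with h5 | h5
        · rw [h5]; exact hf.2
        · exact hI.cs g h5⟩, rfl⟩ (List.range u.2.1.length)
    exact ⟨u.1, u, rfl, h1, h2, β, b, h4⟩
  obtain ⟨u, hu, h1, h2, β, b, h3, h4, h5, h6⟩ := Nat.find_spec hQ
  refine ⟨(u, β, b), ⟨h1, h2⟩, h3, h4, h5, h6, ?_⟩
  intro y hy1 hy2 hy3 hbad
  have hok := hy2.2.2.1
  have hoku := h2.2.2.1
  obtain ⟨β', b', h7⟩ := S.split hok.1 hok.2.1 hok.2.2.1 hok.2.2.2 hI.wf
    (f := (β, u.2.1)) ⟨hoku.1, hoku.2.2.1⟩ hbad
    ⟨b, ⟨h4.1, h4.2.1, fun g hg => by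
        rcases List.mem_cons.1 hg with h5 | h5
        · rw [h5]; exact h6
        · exact h4.2.2 g h5⟩, take_le h5 (pj_mono _ (by exact Nat.le_of_lt hy3))⟩
        (List.range y.2.1.length)
  exact Nat.find_min hQ (m := y.1) (by rw [← hu]; exact hy3) ⟨y, rfl, hy1, hy2, β', b', h7⟩

/-- two environments look the same -/
def EqE (i M L : ℕ) (e e' : Env) : Prop :=
  e.bits L = e'.bits L ∧ ∀ m < M, e.c (Nat.pair i m) = e'.c (Nat.pair i m) ∧
    e.st (Nat.pair i m) = e'.st (Nat.pair i m)

theorem EqE.symm {i M L : ℕ} {e e' : Env} (h : EqE i M L e e') : EqE i M L e' e :=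
  ⟨h.1.symm, fun m hm => ⟨(h.2 m hm).1.symm, (h.2 m hm).2.symm⟩⟩

theorem EqE.bits {i M L : ℕ} {e e' : Env} (h : EqE i M L e e') {v : ℕ} (hv : v ≤ L) :
    e.bits v = e'.bits v := by
  rw [← bits_take e hv, ← bits_take e' hv, h.1]

theorem avail_congr {i : ℕ} {x : PS} {e e' : Env} (hB : ∀ b ∈ pB x, b.1 < pT x)
    (h : EqE i (2 * pT x) (pD x).length e e') {u : Tup} (hu : avail i x e u) :
    avail i x e' u := by
  obtain ⟨h1, h2, h3, h4⟩ := hu
  refine ⟨h1, ?_, h3, ?_⟩
  · rw [← (h.2 (2 * u.1) (by omega)).2]; exact h2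
  · rcases h4 with ⟨h4, h5, h6, h7⟩ | ⟨b, hb, h4, h5, h6, h7, h8, h9, h10⟩
    · exact Or.inl ⟨h4, h5, by rw [← h.bits h5]; exact h6, h7⟩
    · have := hB b hb
      have h11 := h.2 b.1 (by omega)
      exact Or.inr ⟨b, hb, h4, h5, h6, by rw [← h11.1]; exact h7, h8, h9,
        by rw [← h11.2]; exact h10⟩

theorem certA_congr {S : DS} {i : ℕ} {x : PS} {e e' : Env} (hB : ∀ b ∈ pB x, b.1 < pT x)
    (h : EqE i (2 * pT x) (pD x).length e e') {c} (hc : certA S i x e c) :
    certA S i x e' c := by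
  obtain ⟨⟨h1, h2⟩, h3, h4, h5, h6, h7⟩ := hc
  exact ⟨⟨h1, avail_congr hB h h2⟩, h3, h4, h5, h6, fun y hy1 hy2 hy3 =>
    h7 y hy1 (avail_congr hB h.symm hy2) hy3⟩

section
variable {S : DS} {E : ℕ → Env} {D : Set ℕ} {i : ℕ}

theorem pend_facts (h : Ctx S E D i) {s : ℕ} {p : Pend} (hp : pP (Sg S i E s) = some p) :
    p.1.1 < 2 * pT (Sg S i E s) ∧ p.1.2.2.1 ≤ (pD (Sg S i E s)).length ∧
    (p.1.1 % 2 = 1 → p.1.2.2.2.1 = 0) ∧ ∀ m', p.1.2.2.2.1 = m' + 1 →
      p.1.1 < m' ∧ m' % 2 = 1 ∧ m' < pT (Sg S i E s) := by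
  obtain ⟨s', _, _, a3, _⟩ := pend_inv s p hp
  have hB := b_inv h s
  rcases a3 with ⟨c, hc, rfl⟩ | ⟨c, hc, rfl⟩
  · obtain ⟨⟨_, b1, b2, b3, b4⟩, _⟩ := hc
    refine ⟨?_, ?_, ?_, ?_⟩
    · show 2 * c.1.1 < _; omega
    · rcases b4 with ⟨_, b5, _⟩ | ⟨b, hb, _, _, _, _, b5, _⟩
      · exact b5
      · obtain ⟨sB, D0, _, _, _, _, _, c1, c2, _⟩ := hB b hb
        show c.1.2.2.1 ≤ _
        omega
    · intro h1
      have : (2 * c.1.1) % 2 = 1 := h1
      omega
    · intro m' hm'
      rcases b4 with ⟨b5, _⟩ | ⟨b, hb, b5, b6, b7, _⟩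
      · have hm2 : c.1.2.2.2 = m' + 1 := hm'
        omega
      · have hm2 : c.1.2.2.2 = m' + 1 := hm'
        obtain rfl : m' = b.1 := by omega
        obtain ⟨sB, D0, _, _, _, _, _, _, _, _, _, _, c1⟩ := hB b hb
        refine ⟨?_, b7, c1⟩
        show 2 * c.1.1 < b.1
        rw [← b6]
        have := Nat.unpair_left_le (b.1 / 2)
        unfold lvl
        omega
  · obtain ⟨⟨_, b1, _⟩, _, _, b2, _⟩ := hc
    refine ⟨?_, b2.1, fun _ => rfl, fun m' hm' => ?_⟩
    · show c.1 < _; omega
    · have : 0 = m' + 1 := hm'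
      omega

theorem bits_lim (h : EnvProps E D) (L : ℕ) :
    ∃ s0, ∀ s, s0 ≤ s → (E s).bits L = (List.range L).map (chi D) := by
  induction L with
  | zero => exact ⟨0, fun s _ => rfl⟩
  | succ L ih =>
    obtain ⟨s0, h0⟩ := ih
    obtain ⟨s1, h1⟩ := h.lim L
    refine ⟨max s0 s1, fun s hs => ?_⟩
    have h2 := h0 s (by omega)
    have h3 := h1 s (by omega)
    unfold Env.bits at *
    rw [List.range_succ, List.map_append, h2, List.map_append]
    congr 1
    simp only [List.map_cons, List.map_nil, chi, List.cons.injEq, and_true]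
    by_cases h4 : L ∈ (E s).1
    · rw [if_pos h4, if_pos (h3.1 h4)]
    · rw [if_neg h4, if_neg fun h5 => h4 (h3.2 h5)]

theorem settle (h : EnvProps E D) (i M : ℕ) : ∃ s0, ∀ s, s0 ≤ s → ∀ m < M,
    (E s).c (Nat.pair i m) = (E s0).c (Nat.pair i m) ∧
      (E s).st (Nat.pair i m) = (E s0).st (Nat.pair i m) := by
  induction M with
  | zero => exact ⟨0, fun s _ m hm => by omega⟩
  | succ M ih =>
    obtain ⟨s0, h0⟩ := ih
    obtain ⟨s1, h1⟩ := h.fin (Nat.pair i M)
    refine ⟨max s0 s1, fun s hs m hm => ?_⟩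
    rcases Nat.lt_succ_iff_lt_or_eq.1 hm with h2 | h2
    · have a := h0 s (by omega) m h2
      have b := h0 (max s0 s1) (by omega) m h2
      exact ⟨a.1.trans b.1.symm, a.2.trans b.2.symm⟩
    · subst h2
      have a := h1 s (by omega)
      have b := h1 (max s0 s1) (by omega)
      exact ⟨a.1.trans b.1.symm, a.2.trans b.2.symm⟩

theorem keep_congr (h : Ctx S E D i) {s : ℕ} {p : Pend} (hp : pP (Sg S i E s) = some p)
    {e e' : Env} (hE : EqE i (2 * pT (Sg S i E s)) (pD (Sg S i E s)).length e e')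
    (hk : Keep i (pD (Sg S i E s)) p e) : Keep i (pD (Sg S i E s)) p e' := by
  obtain ⟨a1, a2, a3, a4⟩ := pend_facts h hp
  obtain ⟨k1, k2, k3, k4⟩ := hk
  refine ⟨?_, ?_, fun hq => ?_, fun hq => ?_⟩
  · rw [← (hE.2 _ a1).1]; exact k1
  · rw [← (hE.2 _ a1).2]; exact k2
  · rw [← hE.bits a2]; exact k3 hq
  · obtain ⟨_, _, a5⟩ := a4 (p.1.2.2.2.1 - 1) (by omega)
    have := hE.2 (p.1.2.2.2.1 - 1) (by omega)
    rw [← this.1, ← this.2]
    exact k4 hq

theorem progress (h : Ctx S E D i) (T : ℕ) : ∃ s, T ≤ pT (Sg S i E s) := by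
  induction T with
  | zero => exact ⟨0, Nat.zero_le _⟩
  | succ T ih =>
    by_contra hT
    push Not at hT
    obtain ⟨s0, hs0⟩ := ih
    have hTs : ∀ s, s0 ≤ s → pT (Sg S i E s) = T := fun s hs => by
      have := t_mono S E i hs
      have := hT s
      omega
    obtain ⟨s1', hs1⟩ := settle h.hE i (2 * T)
    -- no grants after s1
    obtain ⟨s1, rfl⟩ : ∃ s1, s1 = max s0 s1' := ⟨_, rfl⟩
    have key : ∀ s, max s0 s1' ≤ s → ∃ q, Sg S i E (s + 1) = setP (Sg S i E s) q := by
      intro s hs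
      have hx := tr S E i s
      have ht := hTs s (by omega)
      have ht' := hTs (s + 1) (by omega)
      generalize hx' : Sg S i E (s + 1) = x' at hx ht'
      have nog : ∀ p, pP (Sg S i E s) = some p → (E (s + 1)).st (Nat.pair i p.1.1) = true →
          False := by
        intro p hp hst
        obtain ⟨a1, _⟩ := pend_facts h hp
        rw [ht] at a1
        obtain ⟨s', b1, _, _, b4⟩ := pend_inv s p hp
        have hk := b4 s b1 le_rfl
        have c1 := hs1 s (by omega) _ a1
        have c2 := hs1 (s + 1) (by omega) _ a1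
        rw [c2.2, ← c1.2, hk.2.1] at hst
        exact absurd hst (by simp)
      cases hx with
      | stay0 => exact ⟨pP (Sg S i E s), rfl⟩
      | stay1 => exact ⟨pP (Sg S i E s), rfl⟩
      | drop => exact ⟨_, rfl⟩
      | issB => exact ⟨_, rfl⟩
      | issA => exact ⟨_, rfl⟩
      | com =>
        have : pT (Sg S i E s) + 1 = T := ht'
        omega
      | graB p h1 h2 h3 => exact (nog p h1 h3).elim
      | graA p h1 h2 h3 => exact (nog p h1 h3).elim
    have key2 : ∀ s, max s0 s1' ≤ s → ∃ q, Sg S i E s = setP (Sg S i E (max s0 s1')) q := by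
      intro s hs
      induction s, hs using Nat.le_induction with
      | base => exact ⟨pP (Sg S i E (max s0 s1')), rfl⟩
      | succ s hs ih =>
        obtain ⟨q, hq⟩ := ih
        obtain ⟨q', hq'⟩ := key s hs
        exact ⟨q', by rw [hq', hq]⟩
    set L := (pD (Sg S i E (max s0 s1'))).length with hL
    have hLs : ∀ s, max s0 s1' ≤ s → (pD (Sg S i E s)).length = L := by
      intro s hs
      obtain ⟨q, hq⟩ := key2 s hs
      rw [hq]
    obtain ⟨s2', hs2⟩ := bits_lim h.hE L
    set s2 := max (max s0 s1') s2' with hs2'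
    have hEq : ∀ s t, s2 ≤ s → s2 ≤ t → EqE i (2 * T) L (E s) (E t) := by
      intro s t hs ht
      refine ⟨by rw [hs2 s (by omega), hs2 t (by omega)], fun m hm => ?_⟩
      have c1 := hs1 s (by omega) _ hm
      have c2 := hs1 t (by omega) _ hm
      exact ⟨c1.1.trans c2.1.symm, c1.2.trans c2.2.symm⟩
    by_cases hpe : ∃ s, s2 ≤ s ∧ ∃ p, pP (Sg S i E s) = some p
    · obtain ⟨s, hs, p, hp⟩ := hpe
      obtain ⟨s', b1, _, _, b4⟩ := pend_inv s p hp
      have hk := b4 s b1 le_rfl
      have key3 : ∀ t, s ≤ t → Sg S i E t = Sg S i E s := by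
        intro t ht
        induction t, ht using Nat.le_induction with
        | base => rfl
        | succ t ht ih =>
          have hx := tr S E i t
          rw [ih] at hx
          have hK : Keep i (pD (Sg S i E s)) p (E (t + 1)) := by
            refine keep_congr h hp ?_ hk
            rw [hTs s (by omega), hLs s (by omega)]
            exact hEq _ _ hs (by omega)
          generalize Sg S i E (t + 1) = x' at hx
          generalize Sg S i E s = x at *
          cases hx with
          | stay0 => rfl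
          | stay1 => rfl
          | drop p' b1 b2 =>
            obtain rfl : p = p' := by rw [hp] at b1; exact Option.some.inj b1
            exact absurd hK b2
          | issB c b1 => rw [hp] at b1; exact absurd b1 (by simp)
          | issA c b1 => rw [hp] at b1; exact absurd b1 (by simp)
          | com b1 => rw [hp] at b1; exact absurd b1 (by simp)
          | graB p' b1 b2 b3 =>
            obtain rfl : p = p' := by rw [hp] at b1; exact Option.some.inj b1
            rw [hK.2.1] at b3; exact absurd b3 (by simp)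
          | graA p' b1 b2 b3 =>
            obtain rfl : p = p' := by rw [hp] at b1; exact Option.some.inj b1
            rw [hK.2.1] at b3; exact absurd b3 (by simp)
      obtain ⟨f1, f2, f3, f4⟩ := pend_facts h hp
      rw [hTs s (by omega)] at f1 f4
      rw [hLs s (by omega)] at f2
      apply h.nof p.1.1 p.1.2.2.1 p.1.2.2.2.1 s
      intro t ht hv
      have hK : Keep i (pD (Sg S i E s)) p (E t) := by
        refine keep_congr h hp ?_ hk
        rw [hTs s (by omega), hLs s (by omega)]
        exact hEq _ _ hs (by omega)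
      have heq := hEq t s (by omega) hs
      refine ⟨⟨le_rfl, hv, ?_, hK.2.1, ?_, f3, ?_⟩, heq.bits f2, (heq.2 _ f1).1, ?_⟩
      · rw [req_hist, key3 t ht, hp]; rfl
      · intro u hu1 hu2
        obtain rfl : u = t := by omega
        exact ⟨rfl, rfl⟩
      · intro m' hm'
        obtain ⟨g1, g2, g3⟩ := f4 m' hm'
        refine ⟨g1, g2, fun u hu1 hu2 => ?_⟩
        obtain rfl : u = t := by omega
        have := (hK.2.2.2 (by omega)).2
        rw [hm', Nat.add_sub_cancel] at this
        exact ⟨this, rfl⟩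
      · intro m' hm'
        obtain ⟨g1, g2, g3⟩ := f4 m' hm'
        exact (heq.2 m' (by omega)).1
    · push Not at hpe
      have hnone : ∀ s, s2 ≤ s → pP (Sg S i E s) = none := by
        intro s hs
        cases hp : pP (Sg S i E s) with
        | none => rfl
        | some p => exact absurd hp (hpe s hs p)
      have hst : ∀ s, s2 ≤ s → Sg S i E (s + 1) = Sg S i E s ∧
          trig S i (Sg S i E s) (E (s + 1)) ∧
          ∀ c, encode c < s + 1 → ¬ certA S i (Sg S i E s) (E (s + 1)) c := by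
        intro s hs
        have hx := tr S E i s
        have ht := hTs s (by omega)
        have ht' := hTs (s + 1) (by omega)
        have h1 := hnone s hs
        have h1' := hnone (s + 1) (by omega)
        generalize Sg S i E (s + 1) = x' at hx ht' h1'
        cases hx with
        | stay0 a1 a2 a3 => exact ⟨rfl, a2, a3⟩
        | stay1 p a1 => rw [h1] at a1; exact absurd a1 (by simp)
        | drop p a1 => rw [h1] at a1; exact absurd a1 (by simp)
        | issB => exact absurd h1' (by simp [pP])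
        | issA => exact absurd h1' (by simp [pP])
        | com =>
          have : pT (Sg S i E s) + 1 = T := ht'
          omega
        | graB p a1 => rw [h1] at a1; exact absurd a1 (by simp)
        | graA p a1 => rw [h1] at a1; exact absurd a1 (by simp)
      have hconst : ∀ s, s2 ≤ s → Sg S i E s = Sg S i E s2 := by
        intro s hs
        induction s, hs using Nat.le_induction with
        | base => rfl
        | succ s hs ih => rw [(hst s hs).1, ih]
      obtain ⟨c, hc⟩ := ex_certA (inv S E i s2) (hst s2 le_rfl).2.1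
      have hs3 : s2 ≤ s2 + encode c := Nat.le_add_right _ _
      refine (hst (s2 + encode c) hs3).2.2 c (by omega) ?_
      rw [hconst _ hs3]
      refine certA_congr (fun b hb => ?_) ?_ hc
      · obtain ⟨sB, D0, _, _, _, _, _, _, _, _, _, _, c1⟩ := b_inv h s2 b hb
        exact c1
      · rw [hTs s2 (by omega), hLs s2 (by omega)]
        exact hEq _ _ (by omega) (by omega)

end

end Pool.Agent.Helper750.DC
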