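import Pool.Agent.Helper750.DC.CP

set_option autoImplicit false

/-! Semantics of commitments, the relation `bad`. -/

namespace Pool.Agent.Helper750.DC

open Encodable

/-- the subtuple of `a` with indices `Y` -/
def sub (a Y : List ℕ) : List ℕ := Y.map fun y => a.getD y 0

@[simp] theorem sub_length (a Y : List ℕ) : (sub a Y).length = Y.length := by simp [sub]

theorem sub_getD (a Y : List ℕ) (x : ℕ) (hx : x < Y.length) :
    (sub a Y).getD x 0 = a.getD (Y.getD x 0) 0 := by
  simp [sub, List.getD_eq_getElem?_getD, hx]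

theorem sub_ne {a Y : List ℕ} (h : Y ≠ []) : sub a Y ≠ [] := by simpa [sub] using h

theorem sub_congr {a b Y : List ℕ} (h : ∀ y ∈ Y, a.getD y 0 = b.getD y 0) : sub a Y = sub b Y := by
  unfold sub
  exact List.map_congr_left h

theorem sub_append {a b Y : List ℕ} (h : ∀ y ∈ Y, y < a.length) : sub (a ++ b) Y = sub a Y := by
  refine sub_congr fun y hy => ?_
  simp [List.getD_eq_getElem?_getD, List.getElem?_append_left (h y hy)]

theorem sub_range (a : List ℕ) {m : ℕ} (h : m ≤ a.length) : sub a (List.range m) = a.take m := by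
  apply List.ext_getElem
  · simp [h]
  · intro i h1 h2
    simp only [sub, List.length_map, List.length_range] at h1
    simp [sub, List.getD_eq_getElem?_getD, List.getElem?_eq_getElem (show i < a.length by omega)]

theorem getD_mem {Y : List ℕ} {x : ℕ} (hx : x < Y.length) : Y.getD x 0 ∈ Y := by
  rw [List.getD_eq_getElem?_getD, List.getElem?_eq_getElem hx]
  exact List.getElem_mem hx

theorem getD_inj {a : List ℕ} (ha : a.Nodup) {i j : ℕ} (hi : i < a.length) (hj : j < a.length)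
    (h : a.getD i 0 = a.getD j 0) : i = j := by
  rw [List.getD_eq_getElem?_getD, List.getD_eq_getElem?_getD, List.getElem?_eq_getElem hi,
    List.getElem?_eq_getElem hj] at h
  exact (List.Nodup.getElem_inj_iff ha).1 h

theorem sub_nodup {a Y : List ℕ} (ha : a.Nodup) (hY : Y.Nodup) (h : ∀ y ∈ Y, y < a.length) :
    (sub a Y).Nodup := by
  unfold sub
  refine hY.map_on fun x hx y hy hxy => ?_
  exact getD_inj ha (h x hx) (h y hy) hxy

theorem take_eq_iff {a b : List ℕ} {p : ℕ} (ha : p ≤ a.length) (hb : p ≤ b.length) :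
    a.take p = b.take p ↔ ∀ i < p, a.getD i 0 = b.getD i 0 := by
  constructor
  · intro h i hi
    have := congrArg (fun l => l[i]?) h
    simp only [List.getElem?_take, if_pos hi] at this
    rw [List.getD_eq_getElem?_getD, List.getD_eq_getElem?_getD, this]
  · intro h
    apply List.ext_getElem
    · simp [ha, hb]
    · intro i h1 h2
      simp only [List.length_take] at h1
      have h3 := h i (by omega)
      rw [List.getD_eq_getElem?_getD, List.getD_eq_getElem?_getD, List.getElem?_eq_getElem (by omega),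
        List.getElem?_eq_getElem (by omega)] at h3
      simpa using h3

namespace DS

variable (S : DS)

/-- a true formula -/
def tt : ℕ := S.nt (S.an 0 (S.nt 0))

theorem tt_s (l : List ℕ) : S.H S.tt l := by
  unfold tt
  rw [S.nt_s, S.an_s, S.nt_s]
  tauto

/-- all commitments hold of `a` -/
def Csat (C : List (ℕ × List ℕ)) (a : List ℕ) : Prop := ∀ f ∈ C, S.H f.1 (sub a f.2)

/-- commitments are about positions `< k` -/
def _root_.Pool.Agent.Helper750.DC.WFC (C : List (ℕ × List ℕ)) (k : ℕ) : Prop :=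
  ∀ f ∈ C, f.2 ≠ [] ∧ ∀ y ∈ f.2, y < k

/-- conjunction of all commitments -/
def cj (C : List (ℕ × List ℕ)) : ℕ := C.foldr (fun f r => S.an (S.lf f.1 f.2) r) S.tt

theorem cj_s {C : List (ℕ × List ℕ)} {a : List ℕ} (h : WFC C a.length) :
    S.H (S.cj C) a ↔ S.Csat C a := by
  induction C with
  | nil => simp [cj, Csat, S.tt_s]
  | cons f C ih =>
    have h1 := ih (fun g hg => h g (List.mem_cons_of_mem _ hg))
    have h2 := h f List.mem_cons_self
    show S.H (S.an (S.lf f.1 f.2) (S.cj C)) a ↔ _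
    rw [S.an_s, S.lf_s _ _ _ h2.1 h2.2, h1]
    unfold Csat
    simp only [List.mem_cons, forall_eq_or_imp]
    rfl

/-- a realisation of the commitments -/
def Real (C : List (ℕ × List ℕ)) (k : ℕ) (a : List ℕ) : Prop :=
  a.length = k ∧ a.Nodup ∧ S.Csat C a

theorem prcj_s {C : List (ℕ × List ℕ)} {k : ℕ} (hk : 0 < k) (hC : WFC C k) {Y : List ℕ}
    (hY : ∀ y ∈ Y, y < k) {w : List ℕ} (hw : w.length = Y.length) :
    S.H (S.pr (S.cj C) k Y) w ↔ ∃ a, S.Real C k a ∧ sub a Y = w := by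
  rw [S.pr_s _ _ _ _ hk hY hw]
  constructor
  · rintro ⟨a, h1, h2, h3, h4⟩
    refine ⟨a, ⟨h1, h2, ?_⟩, h4⟩
    rw [S.cj_s (by rw [h1]; exact hC)] at h3
    exact h3
  · rintro ⟨a, ⟨h1, h2, h3⟩, h4⟩
    refine ⟨a, h1, h2, ?_, h4⟩
    rw [S.cj_s (by rw [h1]; exact hC)]
    exact h3

/-- the indices in `Y` of the positions `0, ..., p-1` -/
def _root_.Pool.Agent.Helper750.DC.idx (Y : List ℕ) (p : ℕ) : List ℕ :=
  (List.range p).map fun i => Y.idxOf i

/-- adding the commitment `f` changes the possible values of the subtuple `Y` over the first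
`p` positions -/
def bad (a : List ℕ) (C : List (ℕ × List ℕ)) (p : ℕ) (Y : List ℕ) (f : ℕ × List ℕ) : Prop :=
  S.H (S.pr (S.an (S.pr (S.cj C) a.length Y) (S.nt (S.pr (S.cj (f :: C)) a.length Y)))
    Y.length (idx Y p)) (a.take p)

theorem sub_idx {a Y : List ℕ} {p : ℕ} (h : ∀ i < p, i ∈ Y) :
    sub (sub a Y) (idx Y p) = sub a (List.range p) := by
  unfold idx
  rw [sub, List.map_map, sub]
  refine List.map_congr_left fun i hi => ?_
  rw [List.mem_range] at hi
  have h1 := List.idxOf_lt_length_of_mem (h i hi)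
  simp only [Function.comp_apply]
  show (sub a Y).getD (List.idxOf i Y) 0 = a.getD i 0
  rw [sub_getD _ _ _ h1]
  congr 1
  rw [List.getD_eq_getElem?_getD, List.getElem?_eq_getElem h1]
  simp

theorem bad_iff {a : List ℕ} {C : List (ℕ × List ℕ)} {p : ℕ} {Y : List ℕ} {f : ℕ × List ℕ}
    (hY0 : Y ≠ []) (hYn : Y.Nodup) (hYk : ∀ y ∈ Y, y < a.length) (hYp : ∀ i < p, i ∈ Y)
    (hC : WFC C a.length) (hf : f.2 ≠ [] ∧ ∀ y ∈ f.2, y < a.length) :
    S.bad a C p Y f ↔ ∃ b, S.Real C a.length b ∧ b.take p = a.take p ∧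
      ¬ ∃ b', S.Real (f :: C) a.length b' ∧ sub b' Y = sub b Y := by
  have hk : 0 < a.length := by
    obtain ⟨y, hy⟩ := List.exists_mem_of_ne_nil Y hY0
    exact lt_of_le_of_lt (Nat.zero_le _) (hYk y hy)
  have hp : p ≤ a.length := by
    rcases Nat.eq_zero_or_pos p with h | h
    · omega
    · have := hYk _ (hYp (p - 1) (by omega)); omega
  have hC' : WFC (f :: C) a.length := by
    intro g hg
    rcases List.mem_cons.1 hg with h | h
    · rw [h]; exact hf
    · exact hC g h
  unfold bad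
  rw [S.pr_s _ _ _ _ (List.length_pos_iff.2 hY0)]
  · constructor
    · rintro ⟨w, hw1, hw2, hw3, hw4⟩
      rw [S.an_s, S.nt_s, S.prcj_s hk hC hYk hw1, S.prcj_s hk hC' hYk hw1] at hw3
      obtain ⟨⟨b, hb, hbw⟩, hw5⟩ := hw3
      refine ⟨b, hb, ?_, ?_⟩
      · rw [← hw4, ← hbw]
        show b.take p = sub (sub b Y) (idx Y p)
        rw [sub_idx hYp, sub_range _ (by rw [hb.1]; exact hp)]
      · rw [hbw]; exact hw5
    · rintro ⟨b, hb, hbp, hw5⟩
      refine ⟨sub b Y, by simp, sub_nodup hb.2.1 hYn (by rw [hb.1]; exact hYk), ?_, ?_⟩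
      · rw [S.an_s, S.nt_s, S.prcj_s hk hC hYk (by simp), S.prcj_s hk hC' hYk (by simp)]
        exact ⟨⟨b, hb, rfl⟩, hw5⟩
      · show sub (sub b Y) (idx Y p) = a.take p
        rw [sub_idx hYp, sub_range _ (by rw [hb.1]; exact hp), hbp]
  · intro y hy
    unfold idx at hy
    rw [List.mem_map] at hy
    obtain ⟨i, hi, rfl⟩ := hy
    exact List.idxOf_lt_length_of_mem (hYp i (List.mem_range.1 hi))
  · simp [idx, hp]

/-- If `f` is bad for `Y` then some formula can be made to differ. -/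
theorem split {a : List ℕ} {C : List (ℕ × List ℕ)} {p : ℕ} {Y : List ℕ} {f : ℕ × List ℕ}
    (hY0 : Y ≠ []) (hYn : Y.Nodup) (hYk : ∀ y ∈ Y, y < a.length) (hYp : ∀ i < p, i ∈ Y)
    (hC : WFC C a.length) (hf : f.2 ≠ [] ∧ ∀ y ∈ f.2, y < a.length) (hbad : S.bad a C p Y f)
    (hreal : ∃ b, S.Real (f :: C) a.length b ∧ b.take p = a.take p) (u : List ℕ) :
    ∃ β b, ¬ S.H β u ∧ S.Real C a.length b ∧ b.take p = a.take p ∧ S.H β (sub b Y) := by
  have hk : 0 < a.length := by
    obtain ⟨y, hy⟩ := List.exists_mem_of_ne_nil Y hY0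
    exact lt_of_le_of_lt (Nat.zero_le _) (hYk y hy)
  have hC' : WFC (f :: C) a.length := by
    intro g hg
    rcases List.mem_cons.1 hg with h | h
    · rw [h]; exact hf
    · exact hC g h
  rw [S.bad_iff hY0 hYn hYk hYp hC hf] at hbad
  obtain ⟨b, hb, hbp, hb2⟩ := hbad
  obtain ⟨b', hb', hbp'⟩ := hreal
  by_cases h : S.H (S.pr (S.cj (f :: C)) a.length Y) u
  · refine ⟨S.nt (S.pr (S.cj (f :: C)) a.length Y), b, ?_, hb, hbp, ?_⟩
    · rw [S.nt_s]; simpa using h
    · rw [S.nt_s, S.prcj_s hk hC' hYk (by simp)]; exact hb2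
  · refine ⟨S.pr (S.cj (f :: C)) a.length Y, b', h, ⟨hb'.1, hb'.2.1, fun g hg =>
      hb'.2.2 g (List.mem_cons_of_mem _ hg)⟩, hbp', ?_⟩
    rw [S.prcj_s hk hC' hYk (by simp)]
    exact ⟨b', hb', rfl⟩

end DS

end Pool.Agent.Helper750.DC
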