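import Pool.Agent.Helper750.DC.ProcC2

set_option autoImplicit false

/-! The run of the process along an environment, transitions. -/

namespace Pool.Agent.Helper750.DC

open Encodable Pool.Agent.Helper446

/-- the state at stage `s` -/
noncomputable def Sg (S : DS) (i : ℕ) (E : ℕ → Env) : ℕ → PS
  | 0 => init
  | s + 1 => step S i (Sg S i E s) (E (s + 1)) (s + 1)

theorem hist_getD (E : ℕ → Env) {s k : ℕ} (h : k ≤ s) (d : Env) : (hist E s).getD k d = E k := by
  unfold hist
  rw [List.getD_eq_getElem?_getD, List.getElem?_map, List.getElem?_range (by omega)]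
  rfl

theorem run_hist (S : DS) (i : ℕ) (E : ℕ → Env) (s : ℕ) :
    ∀ k ≤ s, run S i (hist E s) k = Sg S i E k := by
  intro k
  induction k with
  | zero => intro _; rfl
  | succ k ih =>
    intro hk
    rw [run, Sg, ih (by omega), hist_getD E hk]

/-- the triple of a pending request -/
def tri (p : Pend) : ℕ × ℕ × ℕ := (p.1.1, p.1.2.2.1, p.1.2.2.2.1)

theorem req_hist (S : DS) (i : ℕ) (E : ℕ → Env) (s : ℕ) :
    req S i (hist E s) = (pP (Sg S i E s)).map tri := by
  unfold req
  have h : (hist E s).length - 1 = s := by simp [hist]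
  rw [h, run_hist S i E s s le_rfl]
  rfl

theorem c_Sg (S : DS) (i : ℕ) {E : ℕ → Env} (hE : Computable E) : Computable (Sg S i E) := by
  have h := Computable.nat_rec (f := fun s : ℕ => s)
    (g := fun _ : ℕ => init)
    (h := fun (_ : ℕ) (p : ℕ × PS) =>
      step S i p.2 (E (p.1 + 1)) (p.1 + 1)) (by fun_prop)
      (Computable.const _) ?_
  · refine h.of_eq fun s => ?_
    induction s with
    | zero => rfl
    | succ s ih =>
      show step S i _ _ _ = Sg S i E (s + 1)
      rw [Sg, ← ih]
  · exact (c_step S).comp (g := fun a : ℕ × (ℕ × PS) =>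
      (i, a.2.2, E (a.2.1 + 1), a.2.1 + 1)) (by fun_prop)

/-- the pending request for an odd certificate -/
def PB (i : ℕ) (E : Env) (c : ℕ × ℕ × List ℕ × List ℕ) : Pend :=
  ((c.1, E.c (Nat.pair i c.1), c.2.1, 0, 0), ((0, c.2.2.1), []))

/-- the pending request for an even certificate -/
def PA (i : ℕ) (E : Env) (c : Tup × ℕ × List ℕ) : Pend :=
  ((2 * c.1.1, E.c (Nat.pair i (2 * c.1.1)), c.1.2.2.1, c.1.2.2.2,
    E.c (Nat.pair i (c.1.2.2.2 - 1))), ((c.2.1, c.1.2.1), c.2.2))

/-- the pending request can be kept -/
def Keep (i : ℕ) (D0 : List ℕ) (p : Pend) (E : Env) : Prop :=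
  E.c (Nat.pair i p.1.1) = p.1.2.1 ∧ E.st (Nat.pair i p.1.1) = false ∧
  (p.1.2.2.2.1 = 0 → E.bits p.1.2.2.1 = D0.take p.1.2.2.1) ∧
  (p.1.2.2.2.1 ≠ 0 → E.c (Nat.pair i (p.1.2.2.2.1 - 1)) = p.1.2.2.2.2 ∧
    E.st (Nat.pair i (p.1.2.2.2.1 - 1)) = true)

/-- transitions -/
inductive Tr (S : DS) (i : ℕ) (x : PS) (e : Env) (s : ℕ) : PS → Prop
  | stay0 : pP x = none → trig S i x e → (∀ c, encode c < s → ¬ certA S i x e c) → Tr S i x e s x
  | stay1 (p : Pend) : pP x = some p → Keep i (pD x) p e → Tr S i x e s x
  | drop (p : Pend) : pP x = some p → ¬ Keep i (pD x) p e →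
      ¬ (e.c (Nat.pair i p.1.1) = p.1.2.1 ∧ e.st (Nat.pair i p.1.1) = true) →
      Tr S i x e s (setP x none)
  | issB (c) : pP x = none → certB S i x e c → Tr S i x e s (setP x (some (PB i e c)))
  | issA (c) : pP x = none → certA S i x e c → Tr S i x e s (setP x (some (PA i e c)))
  | com : pP x = none → (∀ c, encode c < (pD x).length → ¬ certB S i x e c) → ¬ trig S i x e →
      Tr S i x e s (pA x ++ [lm (pA x)], f0 S x :: pC x, pK x, pB x, pT x + 1, e.bits s, none)
  | graB (p : Pend) : pP x = some p → e.c (Nat.pair i p.1.1) = p.1.2.1 →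
      e.st (Nat.pair i p.1.1) = true → p.1.1 % 2 = 1 → Tr S i x e s
      (pA x, pC x, pK x, (p.1.1, p.1.2.1, p.1.2.2.1, p.2.1.2) :: pB x, pT x, e.bits s, none)
  | graA (p : Pend) : pP x = some p → e.c (Nat.pair i p.1.1) = p.1.2.1 →
      e.st (Nat.pair i p.1.1) = true → p.1.1 % 2 ≠ 1 → Tr S i x e s
      (p.2.2 ++ [lm p.2.2], p.2.1 :: pC x, padTake (pK x) (p.1.1 / 2) ++ [p.2.2.length + 1],
      pB x, pT x, e.bits s, none)

theorem findB_some {S : DS} {i : ℕ} {x : PS} {E : Env} {n : ℕ} (h : findB S i x E = some n) :
    ∃ c, certB S i x E c ∧ mkB i E n = some (PB i E c) := by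
  classical
  unfold findB at h
  rw [bfind_some] at h
  obtain ⟨_, h2, _⟩ := h
  simp only [decide_eq_true_eq] at h2
  obtain ⟨c, _, hc, hc2⟩ := h2
  refine ⟨c, hc2, ?_⟩
  unfold mkB
  rw [← hc, encodek]
  rfl

theorem findB_none {S : DS} {i : ℕ} {x : PS} {E : Env} (h : findB S i x E = none) :
    ∀ c, encode c < (pD x).length → ¬ certB S i x E c := by
  classical
  unfold findB at h
  rw [bfind_none] at h
  intro c hc hc2
  have := h _ hc
  simp only [decide_eq_false_iff_not] at this
  exact this ⟨c, Nat.lt_succ_self _, rfl, hc2⟩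

theorem findA_some {S : DS} {i : ℕ} {x : PS} {E : Env} {s n : ℕ} (h : findA S i x E s = some n) :
    ∃ c, certA S i x E c ∧ mkA i E n = some (PA i E c) := by
  classical
  unfold findA at h
  rw [bfind_some] at h
  obtain ⟨_, h2, _⟩ := h
  simp only [decide_eq_true_eq] at h2
  obtain ⟨c, _, hc, hc2⟩ := h2
  refine ⟨c, hc2, ?_⟩
  unfold mkA
  rw [← hc, encodek]
  rfl

theorem findA_none {S : DS} {i : ℕ} {x : PS} {E : Env} {s : ℕ} (h : findA S i x E s = none) :
    ∀ c, encode c < s → ¬ certA S i x E c := by
  classical
  unfold findA at h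
  rw [bfind_none] at h
  intro c hc hc2
  have := h _ hc
  simp only [decide_eq_false_iff_not] at this
  exact this ⟨c, Nat.lt_succ_self _, rfl, hc2⟩

theorem tr_step (S : DS) (i : ℕ) (x : PS) (e : Env) (s : ℕ) : Tr S i x e s (step S i x e s) := by
  classical
  unfold step
  cases hp : pP x with
  | none =>
    show Tr S i x e s (stepN S i x e s)
    unfold stepN
    cases hB : findB S i x e with
    | some n =>
      obtain ⟨c, hc, hc2⟩ := findB_some hB
      simp only [Option.isSome_some, cond_true, Option.getD_some, hc2]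
      exact Tr.issB c hp hc
    | none =>
      simp only [Option.isSome_none, cond_false]
      by_cases ht : trig S i x e
      · simp only [ht, decide_true, cond_true]
        cases hA : findA S i x e s with
        | some n =>
          obtain ⟨c, hc, hc2⟩ := findA_some hA
          simp only [Option.isSome_some, cond_true, Option.getD_some, hc2]
          exact Tr.issA c hp hc
        | none =>
          simp only [Option.isSome_none, cond_false]
          exact Tr.stay0 hp ht (findA_none hA)
      · simp only [ht, decide_false, cond_false]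
        exact Tr.com hp (findB_none hB) ht
  | some p =>
    show Tr S i x e s (stepP i x p e s)
    unfold stepP
    by_cases h1 : e.c (Nat.pair i p.1.1) = p.1.2.1
    · simp only [h1, decide_true, Bool.not_true, cond_false]
      cases h2 : e.st (Nat.pair i p.1.1) with
      | true =>
        simp only [cond_true]
        by_cases h3 : p.1.1 % 2 = 1
        · simp only [h3, decide_true, cond_true]
          exact Tr.graB p hp h1 h2 h3
        · simp only [h3, decide_false, cond_false]
          exact Tr.graA p hp h1 h2 h3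
      | false =>
        simp only [cond_false]
        by_cases h4 : p.1.2.2.2.1 = 0
        · by_cases h5 : e.bits p.1.2.2.1 = (pD x).take p.1.2.2.1
          · simp only [h4, h5, decide_true, Bool.not_true, Bool.and_false, Bool.false_and,
              Bool.or_false, cond_false]
            exact Tr.stay1 p hp ⟨h1, h2, fun _ => h5, fun h => absurd h4 h⟩
          · simp only [h4, h5, decide_true, decide_false, Bool.not_false, Bool.and_true,
              Bool.true_or, cond_true]
            exact Tr.drop p hp (fun h => h5 (h.2.2.1 h4)) fun h => by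
              rw [h2] at h; exact absurd h.2 (by simp)
        · by_cases h5 : e.c (Nat.pair i (p.1.2.2.2.1 - 1)) = p.1.2.2.2.2 ∧
            e.st (Nat.pair i (p.1.2.2.2.1 - 1)) = true
          · simp only [h4, h5.1, h5.2, decide_true, decide_false, Bool.not_true, Bool.not_false,
              Bool.false_and, Bool.and_false, Bool.or_false, cond_false]
            exact Tr.stay1 p hp ⟨h1, h2, fun h => absurd h h4, fun _ => h5⟩
          · have h6 : (!(decide (e.c (Nat.pair i (p.1.2.2.2.1 - 1)) = p.1.2.2.2.2)) ||
                !(e.st (Nat.pair i (p.1.2.2.2.1 - 1)))) = true := by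
              by_contra h7
              apply h5
              simpa using h7
            simp only [h4, h6, decide_false, Bool.false_and, Bool.not_false, Bool.true_and,
              Bool.false_or, cond_true]
            exact Tr.drop p hp (fun h => h5 (h.2.2.2 h4)) fun h => by
              rw [h2] at h; exact absurd h.2 (by simp)
    · simp only [h1, decide_false, Bool.not_false, cond_true]
      exact Tr.drop p hp (fun h => h1 h.1) fun h => h1 h.1

end Pool.Agent.Helper750.DC
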